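import Pool.Agent.Lib.MP_dff12b_nt.SpecL

/-!
# MP_dff12b_nt, theorem A, part L: the elementary Tauberian step
-/

namespace Pool.Agent.MPdff

open Finset Filter Topology NumberField Pool.Agent.Results.MP_00e23e_nt

/-- The abstract limit argument. -/
private theorem ar_lim (x s : ℕ → ℝ) (κ : ℝ) (hκ : 0 < κ) (hs : Tendsto s atTop (𝓝 κ))
    (h : ∀ ε : ℝ, 0 < ε → ∃ R : ℝ, ∀ n : ℕ, 2 ≤ n →
      |s n - κ * x n| ≤ ε * x n + R / Real.log n) : Tendsto x atTop (𝓝 1) := by
  have hlog : Tendsto (fun n : ℕ => Real.log n) atTop atTop :=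
    Real.tendsto_log_atTop.comp tendsto_natCast_atTop_atTop
  have hR : ∀ R : ℝ, Tendsto (fun n : ℕ => R / Real.log n) atTop (𝓝 0) := fun R =>
    Tendsto.div_atTop tendsto_const_nhds hlog
  -- boundedness
  obtain ⟨R₀, hR₀⟩ := h (κ / 2) (by positivity)
  have hb : ∀ᶠ n : ℕ in atTop, x n ≤ (2 / κ) * (κ + 2) := by
    have e1 : ∀ᶠ n : ℕ in atTop, s n < κ + 1 := hs.eventually_lt_const (by linarith)
    have e2 : ∀ᶠ n : ℕ in atTop, R₀ / Real.log n < 1 := (hR R₀).eventually_lt_const (by norm_num)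
    filter_upwards [e1, e2, eventually_ge_atTop 2] with n h1 h2 h3
    have h4 := abs_le.1 (hR₀ n h3)
    have h5 : κ * x n ≤ 2 * (κ + 2) := by linarith [h4.1]
    rw [div_mul_eq_mul_div, le_div_iff₀ hκ]
    linarith
  have h0 : Tendsto (fun n => s n - κ * x n) atTop (𝓝 0) := by
    rw [Metric.tendsto_atTop]
    intro δ hδ
    set X := (2 / κ) * (κ + 2) with hX
    have hX0 : 0 < X := by positivity
    obtain ⟨R, hR'⟩ := h (δ / (2 * X)) (by positivity)
    have e2 : ∀ᶠ n : ℕ in atTop, R / Real.log n < δ / 2 := (hR R).eventually_lt_const (by positivity)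
    obtain ⟨N, hN⟩ := eventually_atTop.1 ((hb.and e2).and (eventually_ge_atTop 2))
    refine ⟨N, fun n hn => ?_⟩
    obtain ⟨⟨h1, h2⟩, h3⟩ := hN n hn
    rw [Real.dist_eq, sub_zero]
    refine (hR' n h3).trans_lt ?_
    have h4 : δ / (2 * X) * x n ≤ δ / (2 * X) * X := by gcongr
    have h5 : δ / (2 * X) * X = δ / 2 := by
      field_simp
    linarith
  have h1 : Tendsto (fun n => (s n - (s n - κ * x n)) / κ) atTop (𝓝 ((κ - 0) / κ)) :=
    (hs.sub h0).div_const κ
  rw [sub_zero, div_self hκ.ne'] at h1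
  refine h1.congr fun n => ?_
  field_simp
  ring

/-- A bound for the partial sums. -/
private theorem ar_bdd (A : ℕ → ℝ) (κ : ℝ) (hA : Tendsto (fun n : ℕ => A n / n) atTop (𝓝 κ))
    (hA0 : ∀ n, 0 ≤ A n) : ∃ C1 : ℝ, 0 ≤ C1 ∧ ∀ n : ℕ, 1 ≤ n → A n ≤ C1 * n := by
  obtain ⟨B, hB⟩ := hA.bddAbove_range
  refine ⟨B, ?_, fun n hn => ?_⟩
  · exact (div_nonneg (hA0 1) (Nat.cast_nonneg 1)).trans (hB ⟨1, rfl⟩)
  · have hn' : (0 : ℝ) < n := by exact_mod_cast hn
    have := hB ⟨n, rfl⟩
    simpa only [div_le_iff₀ hn'] using this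

/-- Partial summation. -/
private theorem ar_abel (a : ℕ → ℝ) (C1 : ℝ) (ha : ∀ n, 0 ≤ a n)
    (h : ∀ n : ℕ, 1 ≤ n → ∑ m ∈ Icc 1 n, a m ≤ C1 * n) (n : ℕ) (hn : 1 ≤ n) :
    |∑ m ∈ Icc 1 n, a m * Real.log m - (∑ m ∈ Icc 1 n, a m) * Real.log n| ≤ C1 * n := by
  have h0 : 0 ≤ C1 := by
    have := h 1 le_rfl
    have h2 : 0 ≤ ∑ m ∈ Icc 1 1, a m := sum_nonneg fun m _ => ha m
    rw [Nat.cast_one, mul_one] at this
    linarith
  rw [abs_le]
  constructor
  · induction n, hn using Nat.le_induction with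
    | base => simp; linarith
    | succ n hn ih =>
      have hn' : (0 : ℝ) < n := by exact_mod_cast hn
      rw [sum_Icc_succ_top (by omega), sum_Icc_succ_top (by omega)]
      have e1 : Real.log ((n + 1 : ℕ) : ℝ) - Real.log n ≤ 1 / n := by
        rw [← Real.log_div (by positivity) (by positivity)]
        refine (Real.log_le_sub_one_of_pos (by positivity)).trans ?_
        push_cast
        rw [add_div, div_self hn'.ne']
        linarith
      have e2 := h n hn
      have e3 : (∑ m ∈ Icc 1 n, a m) * (Real.log ((n + 1 : ℕ) : ℝ) - Real.log n) ≤ C1 := by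
        have h3 : 0 ≤ ∑ m ∈ Icc 1 n, a m := sum_nonneg fun m _ => ha m
        calc (∑ m ∈ Icc 1 n, a m) * (Real.log ((n + 1 : ℕ) : ℝ) - Real.log n)
            ≤ (∑ m ∈ Icc 1 n, a m) * (1 / n) := by gcongr
          _ ≤ (C1 * n) * (1 / n) := by gcongr
          _ = C1 := by field_simp
      push_cast at e1 e3 ih ⊢
      nlinarith [ih, e3]
  · have : ∑ m ∈ Icc 1 n, a m * Real.log m ≤ (∑ m ∈ Icc 1 n, a m) * Real.log n := by
      rw [sum_mul]
      refine sum_le_sum fun m hm => ?_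
      obtain ⟨h1, h2⟩ := mem_Icc.1 hm
      have h1' : (0 : ℝ) < m := by exact_mod_cast h1
      have h2' : (m : ℝ) ≤ n := by exact_mod_cast h2
      exact mul_le_mul_of_nonneg_left (Real.log_le_log h1' h2') (ha m)
    have h3 : 0 ≤ C1 * (n : ℝ) := by positivity
    linarith

private theorem ar_theta (n : ℕ) :
    ∑ l ∈ (Icc 1 n).filter Nat.Prime, Real.log l ≤ Real.log 4 * n := by
  have h := Chebyshev.theta_le_log4_mul_x (x := (n : ℝ)) (Nat.cast_nonneg n)
  rw [Chebyshev.theta, Nat.floor_natCast] at h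
  exact h

theorem tAr : S_Ar := by
  intro a κ C D hκ ha hD hA hid
  have hA0 : ∀ n, 0 ≤ ∑ m ∈ Icc 1 n, a m := fun n => sum_nonneg fun m _ => ha m
  obtain ⟨C1, hC1, hAb⟩ := ar_bdd (fun n => ∑ m ∈ Icc 1 n, a m) κ hA hA0
  have hab := ar_abel a C1 ha hAb
  have hD0 : 0 ≤ D := (ha 2).trans (hD 2 Nat.prime_two)
  have hlog : Tendsto (fun n : ℕ => Real.log n) atTop atTop :=
    Real.tendsto_log_atTop.comp tendsto_natCast_atTop_atTop
  have hlogn : ∀ n : ℕ, 0 ≤ Real.log n := fun n => Real.log_natCast_nonneg n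
  -- the first limit
  have hs : Tendsto (fun n : ℕ => (∑ m ∈ Icc 1 n, a m * Real.log m) / (n * Real.log n)) atTop
      (𝓝 κ) := by
    have h0 : Tendsto (fun n : ℕ => (∑ m ∈ Icc 1 n, a m * Real.log m) / (n * Real.log n) -
        (∑ m ∈ Icc 1 n, a m) / n) atTop (𝓝 0) := by
      refine squeeze_zero_norm' (a := fun n : ℕ => C1 / Real.log n) ?_
        (Tendsto.div_atTop tendsto_const_nhds hlog)
      filter_upwards [eventually_ge_atTop 2] with n hn
      have hn' : (0 : ℝ) < n := by exact_mod_cast (by omega : 0 < n)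
      have hl : 0 < Real.log n := Real.log_pos (by exact_mod_cast (by omega : 1 < n))
      have e := hab n (by omega)
      have e2 : (∑ m ∈ Icc 1 n, a m * Real.log m) / (n * Real.log n) - (∑ m ∈ Icc 1 n, a m) / n =
          (∑ m ∈ Icc 1 n, a m * Real.log m - (∑ m ∈ Icc 1 n, a m) * Real.log n) /
            (n * Real.log n) := by
        field_simp
      rw [Real.norm_eq_abs, e2, abs_div, abs_of_pos (mul_pos hn' hl), div_le_div_iff₀ (by positivity) hl]
      calc |∑ m ∈ Icc 1 n, a m * Real.log m - (∑ m ∈ Icc 1 n, a m) * Real.log n| * Real.log n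
          ≤ (C1 * n) * Real.log n := by gcongr
        _ = C1 * (n * Real.log n) := by ring
    have := h0.add hA
    rw [zero_add] at this
    exact this.congr fun n => by ring
  refine ar_lim _ _ κ hκ hs fun ε hε => ?_
  -- choice of T
  obtain ⟨T₀, hT₀⟩ := Metric.tendsto_atTop.1 hA ε hε
  set T := max T₀ 1 with hT
  have hTA : ∀ m : ℕ, T ≤ m → |∑ i ∈ Icc 1 m, a i - κ * m| ≤ ε * m := by
    intro m hm
    have hm' : (0 : ℝ) < m := by
      have : 1 ≤ T := le_max_right _ _
      exact_mod_cast (by omega : 0 < m)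
    have := hT₀ m ((le_max_left _ _).trans hm)
    rw [Real.dist_eq] at this
    have e : (∑ i ∈ Icc 1 m, a i) / m - κ = (∑ i ∈ Icc 1 m, a i - κ * m) / m := by
      field_simp
    rw [e, abs_div, abs_of_pos hm', div_lt_iff₀ hm'] at this
    exact this.le
  set R := κ + (C1 + κ) * T with hR
  have hR0 : 0 ≤ R := by positivity
  have hloc : ∀ n l : ℕ, 1 ≤ l → |∑ m ∈ Icc 1 (n / l), a m - κ * (n / l : ℝ)| ≤
      ε * (n / l : ℝ) + R := by
    intro n l hl
    have hl' : (0 : ℝ) < l := by exact_mod_cast hl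
    have e1 : ((n / l : ℕ) : ℝ) ≤ (n / l : ℝ) := Nat.cast_div_le
    have e2 : (n / l : ℝ) ≤ ((n / l : ℕ) : ℝ) + 1 := by
      rw [div_le_iff₀ hl']
      have := Nat.lt_succ_iff.1 (Nat.lt_succ_of_lt (Nat.lt_div_mul_add (a := n) hl))
      have h2 : n ≤ (n / l + 1) * l := by
        rw [add_mul, one_mul]
        exact this
      exact_mod_cast h2
    rcases le_or_gt T (n / l) with h | h
    · have h1 := abs_le.1 (hTA _ h)
      have h2 : ε * ((n / l : ℕ) : ℝ) ≤ ε * (n / l : ℝ) := by gcongr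
      have h3 : κ * ((n / l : ℕ) : ℝ) ≤ κ * (n / l : ℝ) := by gcongr
      have h4 : κ * (n / l : ℝ) ≤ κ * (((n / l : ℕ) : ℝ) + 1) := by gcongr
      have h5 : 0 ≤ (C1 + κ) * (T : ℝ) := by positivity
      rw [abs_le]
      constructor
      · rw [hR]
        linarith [h1.1]
      · rw [hR]
        linarith [h1.2]
    · have h1 : ((n / l : ℕ) : ℝ) + 1 ≤ T := by exact_mod_cast h
      have h2 : ∑ m ∈ Icc 1 (n / l), a m ≤ C1 * T := by
        rcases Nat.eq_zero_or_pos (n / l) with h0 | h0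
        · rw [h0, Icc_eq_empty (by norm_num), sum_empty]
          positivity
        · refine (hAb _ h0).trans ?_
          gcongr
      have h3 : κ * (n / l : ℝ) ≤ κ * T := by gcongr; linarith
      have h4 := hA0 (n / l)
      have h5 : 0 ≤ ε * (n / l : ℝ) := by positivity
      have h6 : 0 ≤ κ * (n / l : ℝ) := by positivity
      rw [abs_le]
      constructor
      · rw [hR]
        nlinarith [mul_nonneg hC1 (Nat.cast_nonneg (α := ℝ) T)]
      · rw [hR]
        nlinarith [mul_nonneg hκ.le (Nat.cast_nonneg (α := ℝ) T)]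
  refine ⟨R * D * Real.log 4 + C, fun n hn => ?_⟩
  have hn' : (0 : ℝ) < n := by exact_mod_cast (by omega : 0 < n)
  have hl : 0 < Real.log n := Real.log_pos (by exact_mod_cast (by omega : 1 < n))
  set L := ∑ l ∈ (Icc 1 n).filter Nat.Prime, a l * Real.log l / l with hL
  have hM : |∑ l ∈ (Icc 1 n).filter Nat.Prime, a l * Real.log l * ∑ m ∈ Icc 1 (n / l), a m -
      κ * (n * L)| ≤ ε * (n * L) + R * D * Real.log 4 * n := by
    have e1 : κ * (n * L) = ∑ l ∈ (Icc 1 n).filter Nat.Prime,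
        a l * Real.log l * (κ * (n / l : ℝ)) := by
      rw [hL, mul_sum, mul_sum]
      exact sum_congr rfl fun l _ => by ring
    rw [e1, ← sum_sub_distrib]
    refine (abs_sum_le_sum_abs _ _).trans ?_
    have e2 : ∀ l ∈ (Icc 1 n).filter Nat.Prime,
        |a l * Real.log l * ∑ m ∈ Icc 1 (n / l), a m - a l * Real.log l * (κ * (n / l : ℝ))| ≤
          ε * (n * (a l * Real.log l / l)) + R * (D * Real.log l) := by
      intro l hl
      have hlp := (mem_filter.1 hl).2
      rw [← mul_sub, abs_mul, abs_of_nonneg (mul_nonneg (ha l) (hlogn l))]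
      calc a l * Real.log l * |∑ m ∈ Icc 1 (n / l), a m - κ * (n / l : ℝ)|
          ≤ a l * Real.log l * (ε * (n / l : ℝ) + R) := by
            have := mul_nonneg (ha l) (hlogn l)
            exact mul_le_mul_of_nonneg_left (hloc n l hlp.one_lt.le) this
        _ = ε * (n * (a l * Real.log l / l)) + R * (a l * Real.log l) := by ring
        _ ≤ _ := by
            have h1 : a l * Real.log l ≤ D * Real.log l :=
              mul_le_mul_of_nonneg_right (hD l hlp) (hlogn l)
            have := mul_le_mul_of_nonneg_left h1 hR0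
            linarith
    refine (sum_le_sum e2).trans ?_
    rw [sum_add_distrib, ← mul_sum, ← mul_sum, ← mul_sum, ← mul_sum, ← hL]
    have h1 := ar_theta n
    have h2 : R * (D * ∑ l ∈ (Icc 1 n).filter Nat.Prime, Real.log l) ≤
        R * (D * (Real.log 4 * n)) := by gcongr
    linarith
  have h1 := hid n (by omega)
  have h2 : |∑ m ∈ Icc 1 n, a m * Real.log m - κ * (n * L)| ≤
      ε * (n * L) + (R * D * Real.log 4 + C) * n := by
    have h3 := abs_sub_le (∑ m ∈ Icc 1 n, a m * Real.log m)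
      (∑ l ∈ (Icc 1 n).filter Nat.Prime, a l * Real.log l * ∑ m ∈ Icc 1 (n / l), a m) (κ * (n * L))
    linarith
  have e3 : (∑ m ∈ Icc 1 n, a m * Real.log m) / (n * Real.log n) - κ * (L / Real.log n) =
      (∑ m ∈ Icc 1 n, a m * Real.log m - κ * (n * L)) / (n * Real.log n) := by
    field_simp
  have e4 : ε * (L / Real.log n) + (R * D * Real.log 4 + C) / Real.log n =
      (ε * (n * L) + (R * D * Real.log 4 + C) * n) / (n * Real.log n) := by
    field_simp
  rw [e3, e4, abs_div, abs_of_pos (mul_pos hn' hl)]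
  gcongr

end Pool.Agent.MPdff
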