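import Pool.Agent.Lib.MP_dff12b_nt.SpecL
import Pool.Agent.Lib.BV.All

/-!
MP_dff12b_nt, part L, module Bv: the Bombieri-Vinogradov theorem in the form used.
-/

namespace Pool.Agent.MPdff

open Finset Filter Topology NumberField Pool.Agent.Results.MP_00e23e_nt

private lemma Bv_ev (A C : ℝ) : ∀ᶠ x : ℝ in atTop,
    C * (Real.log x) ^ (A + 2) ≤ x ^ ((1 : ℝ) / 6) := by
  have h := isLittleO_log_rpow_rpow_atTop (A + 2) (by norm_num : (0 : ℝ) < 1 / 6)
  have hc : (0 : ℝ) < 1 / (|C| + 1) := by positivity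
  have h1 := h.bound hc
  filter_upwards [h1, eventually_ge_atTop (1 : ℝ)] with x hx hx1
  have hl : 0 ≤ Real.log x := Real.log_nonneg hx1
  have hp : 0 ≤ (Real.log x) ^ (A + 2) := Real.rpow_nonneg hl _
  have hq : 0 ≤ x ^ ((1 : ℝ) / 6) := Real.rpow_nonneg (by linarith) _
  rw [Real.norm_of_nonneg hp, Real.norm_of_nonneg hq, one_div_mul_eq_div, le_div_iff₀ (by positivity)] at hx
  have h2 : C * (Real.log x) ^ (A + 2) ≤ (|C| + 1) * (Real.log x) ^ (A + 2) := by
    apply mul_le_mul_of_nonneg_right _ hp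
    linarith [le_abs_self C]
  linarith

theorem tBv : S_Bv := by
  intro A hA
  obtain ⟨C, hC⟩ := Pool.Agent.Lib.BV.aExt (A + 1) (by linarith)
  set C1 := |C| with hC1
  have hC0 : 0 ≤ C1 := abs_nonneg C
  have hlog : ∀ᶠ x : ℝ in atTop, 2 * C1 + 3 ≤ Real.log x :=
    Real.tendsto_log_atTop.eventually_ge_atTop _
  have hev := Filter.eventually_atTop.1 (((Bv_ev A (2 * C1)).and hlog).and (eventually_ge_atTop (25 : ℝ)))
  obtain ⟨x0, hx0⟩ := hev
  refine ⟨x0, ?_⟩
  intro x hx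
  obtain ⟨⟨h1, h2⟩, h3⟩ := hx0 x hx
  have hxp : 0 < x := by linarith
  have hL0 : 0 < Real.log x := by linarith
  set D := ⌊x ^ ((1 : ℝ) / 3)⌋₊ with hD
  have hD1 : 1 ≤ D := by
    apply Nat.le_floor
    rw [Nat.cast_one]
    exact Real.one_le_rpow (by linarith) (by norm_num)
  have hDle : (D : ℝ) ≤ x ^ ((1 : ℝ) / 3) := Nat.floor_le (by positivity)
  have hmain := hC x D (fun _ => x) (by linarith) hD1 (fun _ => ⟨by linarith, le_refl _⟩)
  have hD1' : (1 : ℝ) ≤ D := by exact_mod_cast hD1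
  have hsq : Real.sqrt x * 5 ≤ x := by
    have h5 : (5 : ℝ) ≤ Real.sqrt x := by
      apply Real.le_sqrt_of_sq_le
      linarith
    calc Real.sqrt x * 5 ≤ Real.sqrt x * Real.sqrt x :=
          mul_le_mul_of_nonneg_left h5 (Real.sqrt_nonneg x)
      _ = x := Real.mul_self_sqrt hxp.le
  have hK1 : 16 ≤ Pool.Agent.Lib.BV.Kf x D := by
    unfold Pool.Agent.Lib.BV.Kf
    have : 0 ≤ Real.sqrt x / ((D : ℝ) * Real.log x) := by positivity
    linarith
  have hK2 : Pool.Agent.Lib.BV.Kf x D ≤ x := by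
    unfold Pool.Agent.Lib.BV.Kf
    have h4 : Real.sqrt x / ((D : ℝ) * Real.log x) ≤ Real.sqrt x := by
      apply div_le_self (Real.sqrt_nonneg x)
      nlinarith
    have h5 : (5 : ℝ) ≤ Real.sqrt x := by
      apply Real.le_sqrt_of_sq_le
      linarith
    linarith
  have hlK : Real.log (Pool.Agent.Lib.BV.Kf x D) ≤ Real.log x := Real.log_le_log (by linarith) hK2
  have hlK1 : 1 ≤ Real.log (Pool.Agent.Lib.BV.Kf x D) := by
    rw [Real.le_log_iff_exp_le (by linarith)]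
    have := Real.exp_one_lt_d9
    linarith
  have hllK : Real.log (Real.log (Pool.Agent.Lib.BV.Kf x D)) ≤ Real.log x := by
    have := Real.log_le_sub_one_of_pos (show 0 < Real.log (Pool.Agent.Lib.BV.Kf x D) by linarith)
    linarith
  have hllK0 : 0 ≤ Real.log (Real.log (Pool.Agent.Lib.BV.Kf x D)) := Real.log_nonneg hlK1
  have hprod : Real.log (Pool.Agent.Lib.BV.Kf x D) * Real.log (Real.log (Pool.Agent.Lib.BV.Kf x D)) ≤
      Real.log x * Real.log x := mul_le_mul hlK hllK hllK0 hL0.le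
  have hs2 : Real.sqrt x * D * (Real.log (Pool.Agent.Lib.BV.Kf x D) *
      Real.log (Real.log (Pool.Agent.Lib.BV.Kf x D))) ≤
      (x ^ ((1 : ℝ) / 2) * x ^ ((1 : ℝ) / 3)) * (Real.log x * Real.log x) := by
    apply mul_le_mul _ hprod (by positivity) (by positivity)
    rw [Real.sqrt_eq_rpow]
    exact mul_le_mul_of_nonneg_left hDle (by positivity)
  have hA1 : (Real.log x) ^ (A + 1) = (Real.log x) ^ A * Real.log x := by
    rw [Real.rpow_add hL0, Real.rpow_one]
  have hA2 : (Real.log x) ^ (A + 2) = (Real.log x) ^ A * (Real.log x * Real.log x) := by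
    rw [Real.rpow_add hL0]
    congr 1
    rw [Real.rpow_two, sq]
  have hPA : 0 < (Real.log x) ^ A := Real.rpow_pos_of_pos hL0 _
  have hb0 : 0 ≤ x / (Real.log x) ^ (A + 1) + Real.sqrt x * D * (Real.log (Pool.Agent.Lib.BV.Kf x D) *
      Real.log (Real.log (Pool.Agent.Lib.BV.Kf x D))) := by positivity
  have hm2 : ∑ d ∈ Icc 1 D, maxErr x d ≤ C1 * (x / (Real.log x) ^ (A + 1) + Real.sqrt x * D *
      (Real.log (Pool.Agent.Lib.BV.Kf x D) * Real.log (Real.log (Pool.Agent.Lib.BV.Kf x D)))) :=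
    hmain.trans (mul_le_mul_of_nonneg_right (le_abs_self C) hb0)
  have ht1 : C1 * (x / (Real.log x) ^ (A + 1)) ≤ x / (2 * (Real.log x) ^ A) := by
    rw [hA1, ← mul_div_assoc, div_le_div_iff₀ (by positivity) (by positivity)]
    have h5 : 2 * C1 ≤ Real.log x := by linarith
    have h6 : 0 ≤ x * (Real.log x) ^ A := by positivity
    nlinarith [mul_le_mul_of_nonneg_left h5 h6]
  have ht2 : C1 * ((x ^ ((1 : ℝ) / 2) * x ^ ((1 : ℝ) / 3)) * (Real.log x * Real.log x)) ≤
      x / (2 * (Real.log x) ^ A) := by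
    rw [le_div_iff₀ (by positivity)]
    have h5 : x = x ^ ((1 : ℝ) / 2) * x ^ ((1 : ℝ) / 3) * x ^ ((1 : ℝ) / 6) := by
      rw [← Real.rpow_add hxp, ← Real.rpow_add hxp]
      norm_num
    have h6 : C1 * (x ^ ((1 : ℝ) / 2) * x ^ ((1 : ℝ) / 3) * (Real.log x * Real.log x)) *
        (2 * (Real.log x) ^ A) =
        (x ^ ((1 : ℝ) / 2) * x ^ ((1 : ℝ) / 3)) * (2 * C1 * (Real.log x) ^ (A + 2)) := by
      rw [hA2]
      ring
    rw [h6]
    conv_rhs => rw [h5]
    exact mul_le_mul_of_nonneg_left h1 (by positivity)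
  have hfin : x / (2 * (Real.log x) ^ A) + x / (2 * (Real.log x) ^ A) = x / (Real.log x) ^ A := by
    field_simp
    ring
  have hs3 := mul_le_mul_of_nonneg_left hs2 hC0
  rw [mul_add] at hm2
  linarith

end Pool.Agent.MPdff
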