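import Pool.Agent.Lib.MP_dff12b_nt.SpecR

/-! # MP_dff12b_nt, theorem A, part R: the number of n ≤ N in a class with prescribed divisors -/

namespace Pool.Agent.MPdff

open Finset Pool.Agent.Results.MP_00e23e_nt

private theorem cnt_fv (d : ℕ) (k : ℤ) (l v : ℕ) :
    (l : ℤ) ∣ fv d k (v + l) - fv d k v := by
  unfold fv
  rw [add_sub_add_right_eq_sub]
  refine dvd_trans ?_ (sub_dvd_pow_sub_pow _ _ d)
  push_cast
  rw [add_sub_cancel_left]

private theorem cnt_per1 (d : ℕ) (k : ℤ) (l : ℕ) : Per l (fun v => (l : ℤ) ∣ fv d k v) := by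
  intro v
  have h := cnt_fv d k l v
  constructor
  · intro h1
    have h2 := dvd_sub h1 h
    rwa [sub_sub_cancel] at h2
  · intro h1
    have h2 := dvd_add h h1
    rwa [sub_add_cancel] at h2

private theorem cnt_per2 (d : ℕ) (k : ℤ) (l : ℕ) : Per l (fun v => (l : ℤ) ∣ v * fv d k v) := by
  intro v
  have h := cnt_fv d k l v
  have h0 : (l : ℤ) ∣ ((v + l : ℕ) : ℤ) * fv d k (v + l) - (v : ℤ) * fv d k v := by
    have h1 : ((v + l : ℕ) : ℤ) * fv d k (v + l) - (v : ℤ) * fv d k v =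
        (v : ℤ) * (fv d k (v + l) - fv d k v) + (l : ℤ) * fv d k (v + l) := by
      push_cast
      ring
    rw [h1]
    exact dvd_add (h.mul_left _) (dvd_mul_right _ _)
  constructor
  · intro h1
    have h2 := dvd_sub h1 h0
    rwa [sub_sub_cancel] at h2
  · intro h1
    have h2 := dvd_add h0 h1
    rwa [sub_add_cancel] at h2

private theorem cnt_per_mul {M : ℕ} {P : ℕ → Prop} (h : Per M P) (c : ℕ) : Per (c * M) P := by
  intro n
  induction c with
  | zero => rw [Nat.zero_mul, Nat.add_zero]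
  | succ c ih =>
    rw [Nat.succ_mul, ← Nat.add_assoc, h (n + c * M)]
    exact ih

private theorem cnt_per_dvd {M M' : ℕ} {P : ℕ → Prop} (h : Per M P) (hd : M ∣ M') : Per M' P := by
  obtain ⟨c, rfl⟩ := hd
  rw [Nat.mul_comm]
  exact cnt_per_mul h c

theorem tCnt : S_Cp → S_Crt → S_Crf → S_Rtb → S_Cnt := by
  classical
  intro hCp hCrt hCrf hRtb d k b0 a N S T hb0 hd hST hdis
  -- the local predicates
  set P : ℕ → ℕ → Prop := fun l v =>
    if l ∈ S then (l : ℤ) ∣ fv d k v else (l : ℤ) ∣ v * fv d k v with hP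
  have hPS : ∀ l ∈ S, ∀ v, P l v ↔ (l : ℤ) ∣ fv d k v := fun l hl v => by
    simp only [hP, if_pos hl]
  have hPT : ∀ l ∈ T, ∀ v, P l v ↔ (l : ℤ) ∣ v * fv d k v := fun l hl v => by
    have h1 : l ∉ S := fun h => (disjoint_left.1 hdis) h hl
    simp only [hP, if_neg h1]
  have hper : ∀ l, Per l (P l) := by
    intro l
    by_cases hl : l ∈ S
    · intro v
      rw [hPS l hl, hPS l hl]
      exact cnt_per1 d k l v
    · intro v
      simp only [hP, if_neg hl]
      exact cnt_per2 d k l v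
  obtain ⟨Q, hQ⟩ : ∃ Q, Q = ∏ l ∈ S ∪ T, l := ⟨_, rfl⟩
  have hQ0 : 1 ≤ Q := by
    rw [hQ]
    exact Finset.prod_pos fun l hl => (hST l hl).1.pos
  obtain ⟨c, hc⟩ : ∃ c, c = (∏ l ∈ S, rt d k l) * ∏ l ∈ T, (1 + rt d k l) := ⟨_, rfl⟩
  have h1 : ((range Q).filter (fun v => ∀ l ∈ S ∪ T, P l v)).card = c := by
    rw [hQ, hCrf (S ∪ T) P fun l hl => ⟨(hST l hl).1, hper l⟩, prod_union hdis, hc]
    congr 1
    · refine prod_congr rfl fun l hl => ?_
      unfold rt
      congr 1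
      exact filter_congr fun v _ => hPS l hl v
    · refine prod_congr rfl fun l hl => ?_
      rw [← (hRtb d k l hd (hST l (mem_union_right _ hl)).1).2.2.1
        (hST l (mem_union_right _ hl)).2.2]
      congr 1
      exact filter_congr fun v _ => hPT l hl v
  have hP1 : Per b0 (fun v => v ≡ a [MOD b0]) := by
    intro v
    have h2 : (v + b0) % b0 = v % b0 := Nat.add_mod_right v b0
    change (v + b0) % b0 = a % b0 ↔ v % b0 = a % b0
    rw [h2]
  have hP2 : Per Q (fun v => ∀ l ∈ S ∪ T, P l v) := by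
    intro v
    refine forall₂_congr fun l hl => ?_
    exact cnt_per_dvd (hper l) (by rw [hQ]; exact dvd_prod_of_mem _ hl) v
  have hcop : b0.Coprime Q := by
    rw [hQ]
    refine Nat.Coprime.prod_right fun l hl => ?_
    exact ((hST l hl).1.coprime_iff_not_dvd.2 (hST l hl).2.1).symm
  have h2 : ((range b0).filter (fun v => v ≡ a [MOD b0])).card = 1 := by
    rw [card_eq_one]
    refine ⟨a % b0, ?_⟩
    ext v
    rw [mem_filter, mem_range, mem_singleton]
    constructor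
    · rintro ⟨h3, h4⟩
      have h5 : v % b0 = a % b0 := h4
      rwa [Nat.mod_eq_of_lt h3] at h5
    · rintro rfl
      exact ⟨Nat.mod_lt _ hb0, Nat.mod_modEq _ _⟩
  have h3 := hCrt b0 Q (fun v => v ≡ a [MOD b0]) (fun v => ∀ l ∈ S ∪ T, P l v) hb0 hQ0 hcop hP1 hP2
  rw [h1, h2, one_mul] at h3
  have hP3 : Per (b0 * Q) (fun v => v ≡ a [MOD b0] ∧ ∀ l ∈ S ∪ T, P l v) := by
    intro v
    exact and_congr (cnt_per_dvd hP1 (dvd_mul_right _ _) v) (cnt_per_dvd hP2 (dvd_mul_left _ _) v)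
  have h4 := hCp (b0 * Q) N (fun v => v ≡ a [MOD b0] ∧ ∀ l ∈ S ∪ T, P l v)
    (Nat.mul_pos hb0 hQ0) hP3
  rw [h3] at h4
  have h5 : (Icc 1 N).filter (fun n => n ≡ a [MOD b0] ∧ (∀ l ∈ S, (l : ℤ) ∣ fv d k n) ∧
        ∀ l ∈ T, (l : ℤ) ∣ n * fv d k n) =
      (Icc 1 N).filter (fun v => v ≡ a [MOD b0] ∧ ∀ l ∈ S ∪ T, P l v) := by
    refine filter_congr fun v _ => and_congr_right fun _ => ?_
    constructor
    · rintro ⟨h6, h7⟩ l hl
      rcases mem_union.1 hl with h8 | h8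
      · exact (hPS l h8 v).2 (h6 l h8)
      · exact (hPT l h8 v).2 (h7 l h8)
    · intro h6
      exact ⟨fun l hl => (hPS l hl v).1 (h6 l (mem_union_left _ hl)),
        fun l hl => (hPT l hl v).1 (h6 l (mem_union_right _ hl))⟩
  rw [h5]
  have hcR : (c : ℝ) = (∏ l ∈ S, (rt d k l : ℝ)) * ∏ l ∈ T, (1 + (rt d k l : ℝ)) := by
    rw [hc]
    push_cast
    rfl
  have hQR : (Q : ℝ) = (∏ l ∈ S, (l : ℝ)) * ∏ l ∈ T, (l : ℝ) := by
    rw [hQ, prod_union hdis]
    push_cast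
    rfl
  have h6 : (N : ℝ) / b0 * (∏ l ∈ S, (rt d k l : ℝ) / l) * ∏ l ∈ T, (1 + (rt d k l : ℝ)) / l =
      (N : ℝ) * c / ((b0 * Q : ℕ) : ℝ) := by
    rw [prod_div_distrib, prod_div_distrib, hcR]
    push_cast
    rw [hQR]
    rw [div_mul_div_comm, div_mul_div_comm]
    congr 1
    · ring
    · ring
  rw [h6, ← hcR]
  exact h4

end Pool.Agent.MPdff
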