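import Pool.Agent.Lib.MP_dff12b_nt.SpecR

/-!
MP_dff12b_nt, part R, module Cp: counting a periodic predicate.
-/

namespace Pool.Agent.MPdff

open Finset Pool.Agent.Results.MP_00e23e_nt

private lemma Cp_step (M N : ℕ) (P : ℕ → Prop) [DecidablePred P] (h : Per M P) :
    ((Icc 1 (N + M)).filter P).card = ((Icc 1 N).filter P).card + ((range M).filter P).card := by
  have hper : Function.Periodic P M := fun n => propext (h n)
  have h1 := Nat.filter_Ico_card_eq_of_periodic (N + 1) M P hper
  have h2 : M.count P = ((range M).filter P).card := Nat.count_eq_card_filter_range P M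
  rw [h2] at h1
  rw [← h1]
  have h3 : Icc 1 (N + M) = Icc 1 N ∪ Ico (N + 1) (N + 1 + M) := by
    ext n
    rw [Finset.mem_union, Finset.mem_Icc, Finset.mem_Icc, Finset.mem_Ico]
    omega
  rw [h3, Finset.filter_union, Finset.card_union_of_disjoint]
  rw [Finset.disjoint_left]
  intro n hn hn'
  have h4 := Finset.mem_Icc.1 (Finset.mem_filter.1 hn).1
  have h5 := Finset.mem_Ico.1 (Finset.mem_filter.1 hn').1
  omega

theorem tCp : S_Cp := by
  intro M N P _ hM hP
  set c := ((range M).filter P).card with hc
  have hM0 : (0 : ℝ) < M := by exact_mod_cast hM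
  induction N using Nat.strong_induction_on with
  | _ N ih =>
    by_cases hN : M ≤ N
    · have h1 := ih (N - M) (by omega)
      have h2 := Cp_step M (N - M) P hP
      rw [Nat.sub_add_cancel hN] at h2
      rw [h2, ← hc]
      have h3 : (((((Icc 1 (N - M)).filter P).card + c : ℕ) : ℝ) - (N : ℝ) * c / M) =
          (((Icc 1 (N - M)).filter P).card : ℝ) - ((N - M : ℕ) : ℝ) * c / M := by
        rw [Nat.cast_sub hN]
        push_cast
        field_simp
        ring
      rw [h3]
      exact h1
    · have hN' : N < M := not_le.1 hN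
      have h1 : ((Icc 1 N).filter P).card ≤ c := by
        apply Finset.card_le_card
        apply Finset.filter_subset_filter
        intro n hn
        rw [Finset.mem_Icc] at hn
        rw [Finset.mem_range]
        omega
      have h2 : (((Icc 1 N).filter P).card : ℝ) ≤ c := by exact_mod_cast h1
      have h3 : (0 : ℝ) ≤ (((Icc 1 N).filter P).card : ℝ) := Nat.cast_nonneg _
      have h4 : (0 : ℝ) ≤ (N : ℝ) * c / M := by positivity
      have h5 : (N : ℝ) * c / M ≤ c := by
        rw [div_le_iff₀ hM0, mul_comm]
        apply mul_le_mul_of_nonneg_left _ (Nat.cast_nonneg _)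
        exact_mod_cast hN'.le
      rw [abs_le]
      constructor <;> linarith

end Pool.Agent.MPdff
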