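import Pool.Agent.Lib.MP_dff12b_nt.SpecR

/-!
MP_dff12b_nt, part R, module Crf: finitely many prime moduli.
-/

namespace Pool.Agent.MPdff

open Finset Pool.Agent.Results.MP_00e23e_nt

private lemma Crf_mul {M : ℕ} {P : ℕ → Prop} (h : Per M P) (v q : ℕ) : P (v + q * M) ↔ P v := by
  induction q with
  | zero => rw [Nat.zero_mul, Nat.add_zero]
  | succ q ih =>
    have h1 : v + (q + 1) * M = (v + q * M) + M := by ring
    rw [h1, h, ih]

theorem tCrf (hCrt : S_Crt) : S_Crf := by
  classical
  intro S P _ hS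
  induction S using Finset.induction_on with
  | empty => simp
  | insert l S hl ih =>
    have hS' : ∀ q ∈ S, q.Prime ∧ Per q (P q) := fun q hq => hS q (Finset.mem_insert_of_mem hq)
    have hlp := hS l (Finset.mem_insert_self l S)
    have h1 : Per (∏ q ∈ S, q) (fun v => ∀ q ∈ S, P q v) := by
      intro n
      apply forall₂_congr
      intro q hq
      obtain ⟨c, hc⟩ : q ∣ ∏ q ∈ S, q := Finset.dvd_prod_of_mem _ hq
      have h2 : n + ∏ q ∈ S, q = n + c * q := by rw [hc, Nat.mul_comm]
      rw [h2]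
      exact Crf_mul (hS' q hq).2 n c
    have hco : l.Coprime (∏ q ∈ S, q) := by
      apply Nat.Coprime.prod_right
      intro q hq
      rw [Nat.coprime_primes hlp.1 (hS' q hq).1]
      intro h
      exact hl (h ▸ hq)
    have hpos : 1 ≤ ∏ q ∈ S, q := Nat.one_le_iff_ne_zero.2 (Finset.prod_ne_zero_iff.2 (fun q hq => (hS' q hq).1.ne_zero))
    have h3 := hCrt l (∏ q ∈ S, q) (P l) (fun v => ∀ q ∈ S, P q v) hlp.1.one_lt.le hpos hco hlp.2 h1
    rw [Finset.prod_insert hl, Finset.prod_insert hl, ← ih hS', ← h3]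
    congr 1
    apply Finset.filter_congr
    intro v _
    rw [Finset.forall_mem_insert]

end Pool.Agent.MPdff
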