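import Pool.Agent.Lib.MP_dff12b_nt.SpecR

/-!
MP_dff12b_nt, part R, module Crt: Chinese remainder theorem.
-/

namespace Pool.Agent.MPdff

open Finset Pool.Agent.Results.MP_00e23e_nt

private lemma Crt_mul {M : ℕ} {P : ℕ → Prop} (h : Per M P) (v q : ℕ) : P (v + q * M) ↔ P v := by
  induction q with
  | zero => rw [Nat.zero_mul, Nat.add_zero]
  | succ q ih =>
    have h1 : v + (q + 1) * M = (v + q * M) + M := by ring
    rw [h1, h, ih]

private lemma Crt_mod {M : ℕ} {P : ℕ → Prop} (h : Per M P) (v : ℕ) : P (v % M) ↔ P v := by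
  have h1 : v = v % M + (v / M) * M := by
    rw [Nat.mul_comm]
    exact (Nat.mod_add_div v M).symm
  conv_rhs => rw [h1]
  exact (Crt_mul h _ _).symm

theorem tCrt : S_Crt := by
  intro M1 M2 P1 P2 _ _ h1 h2 hco hp1 hp2
  rw [← Finset.card_product]
  refine Finset.card_bij' (fun v _ => (v % M1, v % M2)) (fun p _ => (Nat.chineseRemainder hco p.1 p.2 : ℕ)) ?_ ?_ ?_ ?_
  · intro v hv
    rw [Finset.mem_filter] at hv
    rw [Finset.mem_product, Finset.mem_filter, Finset.mem_filter]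
    refine ⟨⟨Finset.mem_range.2 (Nat.mod_lt _ h1), (Crt_mod hp1 v).2 hv.2.1⟩,
      ⟨Finset.mem_range.2 (Nat.mod_lt _ h2), (Crt_mod hp2 v).2 hv.2.2⟩⟩
  · intro p hp
    rw [Finset.mem_product, Finset.mem_filter, Finset.mem_filter] at hp
    have hc := (Nat.chineseRemainder hco p.1 p.2).2
    have h3 : (Nat.chineseRemainder hco p.1 p.2 : ℕ) % M1 = p.1 := by
      rw [hc.1]
      exact Nat.mod_eq_of_lt (Finset.mem_range.1 hp.1.1)
    have h4 : (Nat.chineseRemainder hco p.1 p.2 : ℕ) % M2 = p.2 := by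
      rw [hc.2]
      exact Nat.mod_eq_of_lt (Finset.mem_range.1 hp.2.1)
    rw [Finset.mem_filter]
    refine ⟨Finset.mem_range.2 (Nat.chineseRemainder_lt_mul hco p.1 p.2 (by omega) (by omega)), ?_, ?_⟩
    · rw [← Crt_mod hp1, h3]
      exact hp.1.2
    · rw [← Crt_mod hp2, h4]
      exact hp.2.2
  · intro v hv
    rw [Finset.mem_filter] at hv
    have hc := (Nat.chineseRemainder hco (v % M1) (v % M2)).2
    have h3 : (Nat.chineseRemainder hco (v % M1) (v % M2) : ℕ) ≡ v [MOD M1 * M2] := by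
      rw [← Nat.modEq_and_modEq_iff_modEq_mul hco]
      exact ⟨hc.1.trans (Nat.mod_modEq v M1), hc.2.trans (Nat.mod_modEq v M2)⟩
    have h4 := Nat.chineseRemainder_lt_mul hco (v % M1) (v % M2) (by omega) (by omega)
    exact Nat.ModEq.eq_of_lt_of_lt h3 h4 (Finset.mem_range.1 hv.1)
  · intro p hp
    rw [Finset.mem_product, Finset.mem_filter, Finset.mem_filter] at hp
    have hc := (Nat.chineseRemainder hco p.1 p.2).2
    have h3 : (Nat.chineseRemainder hco p.1 p.2 : ℕ) % M1 = p.1 := by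
      rw [hc.1]
      exact Nat.mod_eq_of_lt (Finset.mem_range.1 hp.1.1)
    have h4 : (Nat.chineseRemainder hco p.1 p.2 : ℕ) % M2 = p.2 := by
      rw [hc.2]
      exact Nat.mod_eq_of_lt (Finset.mem_range.1 hp.2.1)
    exact Prod.ext h3 h4

end Pool.Agent.MPdff
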