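import Pool.Agent.Lib.MP_dff12b_nt.SpecL

/-!
# MP_dff12b_nt, theorem A, part L: the prime ideals above a prime number
-/

namespace Pool.Agent.MPdff

open Finset Filter Topology NumberField Pool.Agent.Results.MP_00e23e_nt

theorem tDeg : S_Deg := by
  classical
  intro K _ _ l hl F hF
  have hl0 : (l : 𝓞 K) ≠ 0 := Nat.cast_ne_zero.2 hl.ne_zero
  have hnorm : Ideal.absNorm (Ideal.span {(l : 𝓞 K)}) = l ^ Module.finrank ℚ K := by
    rw [Ideal.absNorm_span_natCast, RingOfIntegers.rank]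
  have hne : ∀ P ∈ F, P ≠ ⊥ := by
    intro P hP h
    have := (hF P hP).2
    rw [h, Ideal.mem_bot] at this
    exact hl0 this
  have hpow : ∀ P ∈ F, ∃ f : ℕ, 1 ≤ f ∧ Ideal.absNorm P = l ^ f := by
    intro P hP
    have h1 : Ideal.span {(l : 𝓞 K)} ≤ P := (Ideal.span_singleton_le_iff_mem P).2 (hF P hP).2
    have h2 := Ideal.absNorm_dvd_absNorm_of_le h1
    rw [hnorm] at h2
    obtain ⟨f, -, hf⟩ := (Nat.dvd_prime_pow hl).1 h2
    refine ⟨f, Nat.one_le_iff_ne_zero.2 fun h0 => ?_, hf⟩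
    rw [h0, pow_zero] at hf
    exact (hF P hP).1.ne_top (Ideal.absNorm_eq_one_iff.1 hf)
  refine ⟨?_, hpow⟩
  have hd : ∏ P ∈ F, P ∣ Ideal.span {(l : 𝓞 K)} := by
    refine Finset.prod_primes_dvd _ (fun P hP => Ideal.prime_of_isPrime (hne P hP) (hF P hP).1)
      fun P hP => Ideal.dvd_iff_le.2 ((Ideal.span_singleton_le_iff_mem P).2 (hF P hP).2)
  have h1 : ∏ P ∈ F, Ideal.absNorm P ∣ l ^ Module.finrank ℚ K := by
    rw [← hnorm, ← map_prod]
    exact Ideal.absNorm_dvd_absNorm_of_le (Ideal.le_of_dvd hd)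
  have h2 : l ^ F.card ∣ ∏ P ∈ F, Ideal.absNorm P := by
    rw [← Finset.prod_const]
    refine Finset.prod_dvd_prod_of_dvd _ _ fun P hP => ?_
    obtain ⟨f, hf, hf'⟩ := hpow P hP
    rw [hf']
    exact dvd_pow_self l (by omega)
  exact (Nat.pow_dvd_pow_iff_le_right hl.one_lt).1 (h2.trans h1)

end Pool.Agent.MPdff
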