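import Pool.Agent.Lib.MP_dff12b_nt.SpecL
import Pool.Agent.Lib.MP_9f2731_nt.BT.Mert

/-!
# MP_dff12b_nt, Dex: existence of the standing data
-/

set_option autoImplicit false

namespace Pool.Agent.MPdff

open Finset Filter Topology NumberField Pool.Agent.Results.MP_00e23e_nt

private theorem dex_crt (d : ℕ) (k : ℤ) (hodd : Odd d) (hk : Even k) (w : ℕ) :
    ∃ a : ℕ, ∀ l : ℕ, l.Prime → l ≤ w → ¬ l ∣ a ∧ ¬ (l : ℤ) ∣ fv d k a := by
  classical
  obtain ⟨a, ha⟩ := Nat.chineseRemainderOfFinset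
    (fun l : ℕ => if (l : ℤ) ∣ 1 + k then l - 1 else 1) (fun l : ℕ => l)
    ((range (w + 1)).filter Nat.Prime)
    (fun l hl => (mem_filter.mp hl).2.ne_zero)
    (fun p hp q hq hpq => by
      have hp' := (mem_filter.mp (mem_coe.mp hp)).2
      have hq' := (mem_filter.mp (mem_coe.mp hq)).2
      exact (Nat.coprime_primes hp' hq').mpr hpq)
  refine ⟨a, fun l hl hlw => ?_⟩
  have h1 := ha l (mem_filter.mpr ⟨mem_range.mpr (by omega), hl⟩)
  have hl2 := hl.two_le
  have h1z : ((l : ℕ) : ℤ) ∣ (((if (l : ℤ) ∣ 1 + k then l - 1 else 1 : ℕ) : ℤ) - (a : ℤ)) :=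
    (Nat.modEq_iff_dvd).mp h1
  by_cases hc : (l : ℤ) ∣ 1 + k
  · rw [if_pos hc, Nat.cast_sub (by omega), Nat.cast_one] at h1z
    have h2 : (l : ℤ) ∣ (a : ℤ) - (-1) := by
      have h3 : (a : ℤ) - (-1) = l - ((l : ℤ) - 1 - a) := by ring
      rw [h3]
      exact dvd_sub dvd_rfl h1z
    constructor
    · intro h
      have h3 : (l : ℤ) ∣ (a : ℤ) := Int.natCast_dvd_natCast.mpr h
      have h4 : (l : ℤ) ∣ 1 := by
        have h5 : (1 : ℤ) = ((a : ℤ) - (-1)) - a := by ring
        rw [h5]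
        exact dvd_sub h2 h3
      have h5 : l ∣ 1 := by exact_mod_cast h4
      exact hl.one_lt.ne' (Nat.dvd_one.mp h5)
    · intro h
      have h3 : (l : ℤ) ∣ (a : ℤ) ^ d - (-1) ^ d := h2.trans (sub_dvd_pow_sub_pow _ _ _)
      rw [hodd.neg_one_pow] at h3
      unfold fv at h
      have h4 : (l : ℤ) ∣ k - 1 := by
        have h5 : k - 1 = ((a : ℤ) ^ d + k) - ((a : ℤ) ^ d - (-1)) := by ring
        rw [h5]
        exact dvd_sub h h3
      have h5 : (l : ℤ) ∣ 2 := by
        have h6 : (2 : ℤ) = (1 + k) - (k - 1) := by ring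
        rw [h6]
        exact dvd_sub hc h4
      have h6 : l ∣ 2 := by exact_mod_cast h5
      have h7 : l = 2 := (Nat.prime_dvd_prime_iff_eq hl Nat.prime_two).mp h6
      rw [h7] at h4
      obtain ⟨m, hm⟩ := hk
      obtain ⟨n, hn⟩ := h4
      push_cast at hn
      omega
  · rw [if_neg hc] at h1z
    have h2 : (l : ℤ) ∣ (a : ℤ) - 1 := by
      have h3 : (a : ℤ) - 1 = -(((1 : ℕ) : ℤ) - a) := by push_cast; ring
      rw [h3]
      exact (dvd_neg).mpr h1z
    constructor
    · intro h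
      have h3 : (l : ℤ) ∣ (a : ℤ) := Int.natCast_dvd_natCast.mpr h
      have h4 : (l : ℤ) ∣ 1 := by
        have h5 : (1 : ℤ) = a - ((a : ℤ) - 1) := by ring
        rw [h5]
        exact dvd_sub h3 h2
      have h5 : l ∣ 1 := by exact_mod_cast h4
      exact hl.one_lt.ne' (Nat.dvd_one.mp h5)
    · intro h
      have h3 : (l : ℤ) ∣ (a : ℤ) ^ d - 1 ^ d := h2.trans (sub_dvd_pow_sub_pow _ _ _)
      rw [one_pow] at h3
      unfold fv at h
      apply hc
      have h5 : 1 + k = ((a : ℤ) ^ d + k) - ((a : ℤ) ^ d - 1) := by ring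
      rw [h5]
      exact dvd_sub h h3

theorem tDex : S_Rtb → S_Lan → S_Ps → S_Up → S_Irr → S_Dex := by
  intro hRtb hLan hPs hUp hIrr d k hd1 hodd hk hpow
  have hd3 : 3 ≤ d := by
    obtain ⟨m, hm⟩ := hodd
    omega
  have hk0 : k ≠ 0 := by
    intro h
    exact hpow d hd1 dvd_rfl ⟨0, by rw [h, zero_pow (by omega)]⟩
  have hne : ∀ n : ℕ, fv d k n ≠ 0 := by
    intro n h
    unfold fv at h
    refine hpow d hd1 dvd_rfl ⟨-(n : ℤ), ?_⟩
    rw [hodd.neg_pow]
    linarith
  have hirr := hIrr d k hd1 hodd hpow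
  have hlan := hLan d k (by omega) hirr
  have hwin := hPs (fun l => (rt d k l : ℝ)) (fun l => Nat.cast_nonneg _) hlan
  have hup := hUp d k (by omega) hirr
  have hrd : ∀ l : ℕ, l.Prime → rt d k l ≤ d := fun l hl => (hRtb d k l (by omega) hl).1
  have hlog2 : Real.log 2 < 0.7 := by
    have := Real.log_two_lt_d9
    linarith
  have hw1 := hwin (1 / 2) 1 (by norm_num) (by norm_num)
  have hlim : Real.log (1 / (1 / 2) : ℝ) < 1 := by
    norm_num
    linarith
  obtain ⟨T, hT⟩ := Filter.eventually_atTop.mp (hw1.eventually_lt_const hlim)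
  obtain ⟨z₀, hz₀, hM⟩ := Pool.Agent.Lib.MP_9f2731_nt.BT.tMert (1 / 10) (by norm_num)
  set w : ℕ := (k.natAbs + 1) + (4 * d + 4) + ⌈T⌉₊ + ⌈z₀ ^ 2⌉₊ with hw
  obtain ⟨a, ha⟩ := dex_crt d k hodd hk w
  have hprim : ∀ p : ℕ, p.Prime → p ∣ primorial w → p ≤ w := fun p hp h => by
    exact hp.dvd_primorial_iff.mp h
  refine ⟨w, a, ⟨hd3, by omega, hk0, by omega, ?_, ?_, hne, hrd, ?_, hwin, hup⟩⟩
  · rw [Nat.coprime_iff_gcd_eq_one]
    by_contra hcon
    obtain ⟨p, hp, hpd⟩ := Nat.exists_prime_and_dvd hcon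
    exact (ha p hp (hprim p hp (hpd.trans (Nat.gcd_dvd_right _ _)))).1 (hpd.trans (Nat.gcd_dvd_left _ _))
  · by_contra hcon
    obtain ⟨p, hp, hpd⟩ := Nat.exists_prime_and_dvd hcon
    have h1 : p ∣ (fv d k a).natAbs := hpd.trans (Nat.gcd_dvd_left _ _)
    have h2 : p ∣ primorial w := by
      have := hpd.trans (Nat.gcd_dvd_right _ _)
      simpa using this
    exact (ha p hp (hprim p hp h2)).2 (Int.natCast_dvd.mpr h1)
  · intro t
    by_cases htw : t < w
    · have h1 : (Ioc (Nat.sqrt t) t).filter (fun l => l.Prime ∧ w < l) = ∅ := by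
        apply Finset.filter_eq_empty_iff.mpr
        intro l hl
        rw [mem_Ioc] at hl
        intro h
        omega
      rw [h1, Finset.sum_empty]
      norm_num
    · push Not at htw
      have htT : T ≤ t := by
        refine (Nat.le_ceil T).trans ?_
        have : ⌈T⌉₊ ≤ t := by omega
        exact_mod_cast this
      have htz : z₀ ^ 2 ≤ t := by
        refine (Nat.le_ceil (z₀ ^ 2)).trans ?_
        have : ⌈z₀ ^ 2⌉₊ ≤ t := by omega
        exact_mod_cast this
      have h1 := hT t htT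
      have h2 := (hM _ (Real.le_sqrt_of_sq_le htz)).2
      rw [Real.sq_sqrt (Nat.cast_nonneg t), Nat.floor_natCast, Real.nat_floor_real_sqrt_eq_nat_sqrt]
        at h2
      set B := (Ioc (Nat.sqrt t) t).filter (fun l => l.Prime ∧ w < l) with hB
      have hs1 : ∑ l ∈ B, (rt d k l : ℝ) / l ≤ 1 := by
        refine le_trans ?_ h1.le
        refine Finset.sum_le_sum_of_subset_of_nonneg ?_ (fun l _ _ => by positivity)
        intro l hl
        rw [hB, mem_filter, mem_Ioc] at hl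
        rw [prs, mem_filter, mem_Icc, Real.rpow_one, Nat.floor_natCast, ← Real.sqrt_eq_rpow]
        refine ⟨⟨hl.2.1.one_lt.le, hl.1.2⟩, hl.2.1, ?_⟩
        rw [Real.sqrt_lt' (by exact_mod_cast hl.2.1.pos)]
        have := Nat.sqrt_lt'.mp hl.1.1
        exact_mod_cast this
      have hs2 : ∑ l ∈ B, (1 : ℝ) / l ≤ 0.8 := by
        refine le_trans (Finset.sum_le_sum_of_subset_of_nonneg ?_ (fun l _ _ => by positivity))
          (h2.trans (by linarith))
        intro l hl
        rw [hB, mem_filter] at hl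
        rw [mem_filter]
        exact ⟨hl.1, hl.2.1⟩
      have hs3 : ∀ l ∈ B, ((rt d k l : ℝ) + 1) / ((l : ℝ) - 1) ≤
          (5 / 4) * ((rt d k l : ℝ) / l + 1 / l) := by
        intro l hl
        rw [hB, mem_filter] at hl
        have h5 : 5 ≤ l := by omega
        have h5' : (5 : ℝ) ≤ l := by exact_mod_cast h5
        have h6 : (0 : ℝ) ≤ rt d k l := Nat.cast_nonneg _
        rw [← add_div, ← mul_div_assoc, div_le_div_iff₀ (by linarith) (by linarith)]
        nlinarith
      refine (Finset.sum_le_sum hs3).trans ?_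
      rw [← Finset.mul_sum, Finset.sum_add_distrib]
      linarith

end Pool.Agent.MPdff
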