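import Pool.Agent.Lib.MP_dff12b_nt.SpecS

/-! MP_dff12b_nt, part S, module Exp: expansion of the weights. -/

namespace Pool.Agent.MPdff

open Finset Pool.Agent.Lib.BV

/-- the product of `h` over a subset of `P` splits over the blocks -/
private theorem exp_split (z : ℕ) (P : Finset ℕ) (h : ℕ → ℝ)
    (hd : ∀ i j : ℕ, i ≠ j → Disjoint (bk P z i) (bk P z j))
    (hc : (range z).biUnion (bk P z) = P) (S : Finset ℕ) (hS : S ⊆ P) :
    ∏ p ∈ S, h p = ∏ j ∈ range z, ∏ p ∈ S ∩ bk P z j, h p := by
  have h1 : (range z).biUnion (fun j => S ∩ bk P z j) = S := by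
    ext p
    rw [Finset.mem_biUnion]
    constructor
    · rintro ⟨j, -, hp⟩
      exact (Finset.mem_inter.1 hp).1
    · intro hp
      have h2 : p ∈ (range z).biUnion (bk P z) := by
        rw [hc]
        exact hS hp
      obtain ⟨j, hj, h3⟩ := Finset.mem_biUnion.1 h2
      exact ⟨j, hj, Finset.mem_inter.2 ⟨hp, h3⟩⟩
  rw [← Finset.prod_biUnion, h1]
  intro i _ j _ hij
  exact Finset.disjoint_of_subset_left Finset.inter_subset_right
    (Finset.disjoint_of_subset_right Finset.inter_subset_right (hd i j hij))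

/-- the sum of a block over all subsets is the sum over `lowS` -/
private theorem exp_low (B : Finset ℕ) (b j : ℕ) (h : ℕ → ℝ) :
    ∑ s ∈ B.powerset, mu b j s * ∏ p ∈ s, h p =
      ∑ s ∈ lowS B (2 * (b + j)), (-1 : ℝ) ^ s.card * ∏ p ∈ s, h p := by
  unfold lowS
  rw [Finset.sum_filter]
  refine Finset.sum_congr rfl (fun s _ => ?_)
  unfold mu
  by_cases hs : s.card ≤ 2 * (b + j)
  · rw [if_pos hs, if_pos hs]
  · rw [if_neg hs, if_neg hs, zero_mul]

/-- the sum of the correction block over all subsets -/
private theorem exp_top (B : Finset ℕ) (n : ℕ) (h : ℕ → ℝ) :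
    ∑ s ∈ B.powerset, (if s.card = n then (1 : ℝ) else 0) * ∏ p ∈ s, h p =
      ∑ s ∈ B.powersetCard n, ∏ p ∈ s, h p := by
  rw [Finset.powersetCard_eq_filter, Finset.sum_filter]
  refine Finset.sum_congr rfl (fun s _ => ?_)
  by_cases hs : s.card = n
  · rw [if_pos hs, if_pos hs, one_mul]
  · rw [if_neg hs, if_neg hs, zero_mul]

theorem tExp : S_Blk → S_Prd → S_Exp := by
  intro hB hP z b P h hz hPz
  obtain ⟨hd, hc⟩ := hB z P hz hPz
  refine ⟨?_, fun i hi => ?_⟩
  · have h1 := hP z (bk P z) (fun j s => mu b j s * ∏ p ∈ s, h p) (fun i _ j _ hij => hd i j hij)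
    rw [hc] at h1
    calc ∑ S ∈ P.powerset, lp P z b S * ∏ p ∈ S, h p
        = ∑ S ∈ P.powerset, ∏ j ∈ range z,
            (mu b j (S ∩ bk P z j) * ∏ p ∈ S ∩ bk P z j, h p) := by
          refine Finset.sum_congr rfl (fun S hS => ?_)
          rw [exp_split z P h hd hc S (Finset.mem_powerset.1 hS), Finset.prod_mul_distrib]
          rfl
      _ = ∏ j ∈ range z, ∑ s ∈ (bk P z j).powerset, mu b j s * ∏ p ∈ s, h p := h1
      _ = ∏ j ∈ range z, ∑ s ∈ lowS (bk P z j) (2 * (b + j)), (-1 : ℝ) ^ s.card * ∏ p ∈ s, h p :=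
          Finset.prod_congr rfl (fun j _ => exp_low (bk P z j) b j h)
  · have h1 := hP z (bk P z) (fun j s => (if j = i then (if s.card = 2 * (b + i) + 1 then (1 : ℝ) else 0)
        else mu b j s) * ∏ p ∈ s, h p) (fun i _ j _ hij => hd i j hij)
    rw [hc] at h1
    calc ∑ S ∈ P.powerset, lw P z b i S * ∏ p ∈ S, h p
        = ∑ S ∈ P.powerset, ∏ j ∈ range z,
            ((if j = i then (if (S ∩ bk P z j).card = 2 * (b + i) + 1 then (1 : ℝ) else 0)
              else mu b j (S ∩ bk P z j)) * ∏ p ∈ S ∩ bk P z j, h p) := by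
          refine Finset.sum_congr rfl (fun S hS => ?_)
          rw [exp_split z P h hd hc S (Finset.mem_powerset.1 hS), Finset.prod_mul_distrib]
          have h5 : lw P z b i S = ∏ j ∈ range z,
              (if j = i then (if (S ∩ bk P z j).card = 2 * (b + i) + 1 then (1 : ℝ) else 0)
                else mu b j (S ∩ bk P z j)) := by
            rw [← Finset.mul_prod_erase (range z) _ hi, if_pos rfl]
            have h6 : ∏ j ∈ (range z).erase i,
                (if j = i then (if (S ∩ bk P z j).card = 2 * (b + i) + 1 then (1 : ℝ) else 0)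
                  else mu b j (S ∩ bk P z j)) =
                ∏ j ∈ (range z).erase i, mu b j (S ∩ bk P z j) := by
              refine Finset.prod_congr rfl (fun j hj => ?_)
              rw [if_neg (Finset.mem_erase.1 hj).1]
            rw [h6]
            rfl
          rw [h5]
      _ = ∏ j ∈ range z, ∑ s ∈ (bk P z j).powerset,
            (if j = i then (if s.card = 2 * (b + i) + 1 then (1 : ℝ) else 0)
              else mu b j s) * ∏ p ∈ s, h p := h1
      _ = _ := by
          rw [← Finset.mul_prod_erase (range z) _ hi]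
          have h2 : ∑ s ∈ (bk P z i).powerset,
              (if i = i then (if s.card = 2 * (b + i) + 1 then (1 : ℝ) else 0)
                else mu b i s) * ∏ p ∈ s, h p =
              ∑ s ∈ (bk P z i).powersetCard (2 * (b + i) + 1), ∏ p ∈ s, h p := by
            rw [← exp_top (bk P z i) (2 * (b + i) + 1) h]
            refine Finset.sum_congr rfl (fun s _ => ?_)
            rw [if_pos rfl]
          have h3 : ∏ j ∈ (range z).erase i, ∑ s ∈ (bk P z j).powerset,
              (if j = i then (if s.card = 2 * (b + i) + 1 then (1 : ℝ) else 0)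
                else mu b j s) * ∏ p ∈ s, h p =
              ∏ j ∈ (range z).erase i,
                ∑ s ∈ lowS (bk P z j) (2 * (b + j)), (-1 : ℝ) ^ s.card * ∏ p ∈ s, h p := by
            refine Finset.prod_congr rfl (fun j hj => ?_)
            rw [← exp_low (bk P z j) b j h]
            refine Finset.sum_congr rfl (fun s _ => ?_)
            rw [if_neg (Finset.mem_erase.1 hj).1]
          rw [h2, h3]

end Pool.Agent.MPdff
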