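import Pool.Agent.Lib.MP_dff12b_nt.SpecG

namespace Pool.Agent.MPdff

open Finset Filter Topology Pool.Agent.Results.MP_00e23e_nt

private lemma sum_one (U : Finset ℕ) (h : ℕ → ℝ) :
    (∑ s ∈ U.powerset, if s.card = 1 then ∏ l ∈ s, h l else 0) = ∑ l ∈ U, h l := by
  rw [← Finset.sum_filter, ← Finset.powersetCard_eq_filter, Finset.powersetCard_one,
    Finset.sum_map]
  simp

private lemma sum_zero (U : Finset ℕ) (h : ℕ → ℝ) :
    (∑ s ∈ U.powerset, if s.card = 0 then ∏ l ∈ s, h l else 0) = 1 := by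
  rw [← Finset.sum_filter, ← Finset.powersetCard_eq_filter, Finset.powersetCard_zero]
  simp

private lemma prod_split (J : ℕ) (W : ℕ → Finset ℕ) (h : ℕ → ℝ)
    (hd : ∀ i ∈ range J, ∀ j ∈ range J, i ≠ j → Disjoint (W i) (W j)) (S : Finset ℕ)
    (hS : S ⊆ (range J).biUnion W) :
    ∏ l ∈ S, h l = ∏ i ∈ range J, ∏ l ∈ S ∩ W i, h l := by
  have h1 : S = (range J).biUnion (fun i => S ∩ W i) := by
    ext l
    simp only [mem_biUnion, mem_inter]
    constructor
    · intro hl
      obtain ⟨i, hi, hli⟩ := mem_biUnion.mp (hS hl)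
      exact ⟨i, hi, hl, hli⟩
    · rintro ⟨i, _, hl, _⟩
      exact hl
  have h2 : ((range J : Finset ℕ) : Set ℕ).PairwiseDisjoint (fun i => S ∩ W i) := by
    intro i hi j hj hij
    have := hd i (by simpa using hi) j (by simpa using hj) hij
    exact Disjoint.mono inter_subset_right inter_subset_right this
  calc ∏ l ∈ S, h l = ∏ l ∈ (range J).biUnion (fun i => S ∩ W i), h l := by rw [← h1]
    _ = _ := Finset.prod_biUnion h2

theorem tFam : S_Prd → S_Fam := by
  intro hP J W t _ h hd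
  classical
  obtain ⟨F, hF⟩ : ∃ F : ℕ → Finset ℕ → ℝ, ∀ i s, F i s =
      if (t i → s.card = 1) ∧ s.card ≤ 1 then ∏ l ∈ s, h l else 0 := ⟨_, fun _ _ => rfl⟩
  have e1 : ∑ S ∈ fam J W t, ∏ l ∈ S, h l =
      ∑ S ∈ ((range J).biUnion W).powerset, ∏ i ∈ range J, F i (S ∩ W i) := by
    unfold fam
    rw [Finset.sum_filter]
    refine Finset.sum_congr rfl ?_
    intro S hS
    rw [Finset.mem_powerset] at hS
    simp only [hF]
    rw [Finset.prod_ite_zero, ← prod_split J W h hd S hS]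
    by_cases hc : ∀ i ∈ range J, (t i → (S ∩ W i).card = 1) ∧ (S ∩ W i).card ≤ 1
    · rw [if_pos hc, if_pos hc]
    · rw [if_neg hc, if_neg hc]
  rw [e1, hP J W F hd]
  refine Finset.prod_congr rfl ?_
  intro i _
  simp only [hF]
  by_cases ht : t i
  · rw [if_pos ht, ← sum_one (W i) h]
    refine Finset.sum_congr rfl ?_
    intro s _
    by_cases hc : s.card = 1
    · rw [if_pos hc, if_pos ⟨fun _ => hc, hc.le⟩]
    · rw [if_neg hc, if_neg (fun hh => hc (hh.1 ht))]
  · rw [if_neg ht, ← sum_one (W i) h]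
    nth_rewrite 1 [← sum_zero (W i) h]
    rw [← Finset.sum_add_distrib]
    refine Finset.sum_congr rfl ?_
    intro s _
    by_cases hc : s.card = 1
    · rw [if_pos hc, if_pos ⟨fun _ => hc, hc.le⟩, if_neg (by omega), zero_add]
    · by_cases h0 : s.card = 0
      · rw [if_pos ⟨fun hh => absurd hh ht, by omega⟩, if_pos h0, if_neg hc, add_zero]
      · rw [if_neg (fun hh => by have := hh.2; omega), if_neg h0, if_neg hc, add_zero]

end Pool.Agent.MPdff
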