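import Pool.Agent.Lib.MP_dff12b_nt.SpecL

/-!
# MP_dff12b_nt, theorem A, part L: the hypothesis of the Tauberian step for the ideals
-/

namespace Pool.Agent.MPdff

open Finset Filter Topology NumberField Pool.Agent.Results.MP_00e23e_nt

private theorem ier_geom (x : ℝ) (h0 : 0 ≤ x) (h1 : x ≤ 1 / 2) (m : ℕ) :
    ∑ i ∈ range m, x ^ i ≤ 2 - 2 * x ^ m := by
  induction m with
  | zero => simp
  | succ m ih =>
    rw [sum_range_succ, pow_succ]
    have : 0 ≤ x ^ m := pow_nonneg h0 m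
    nlinarith

private theorem ier_geom' (x : ℝ) (h0 : 0 ≤ x) (h1 : x ≤ 1 / 2) (k n : ℕ) :
    ∑ j ∈ Icc k n, x ^ j ≤ 2 * x ^ k := by
  have h2 : ∑ j ∈ Icc k n, x ^ j ≤ ∑ j ∈ Ico k (k + (n + 1)), x ^ j := by
    refine sum_le_sum_of_subset_of_nonneg (fun j hj => ?_) fun j _ _ => pow_nonneg h0 j
    rw [mem_Icc] at hj
    rw [mem_Ico]
    omega
  refine h2.trans ?_
  rw [sum_Ico_eq_sum_range, Nat.add_sub_cancel_left]
  have h3 : ∑ i ∈ range (n + 1), x ^ (k + i) = x ^ k * ∑ i ∈ range (n + 1), x ^ i := by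
    rw [mul_sum]
    exact sum_congr rfl fun i _ => pow_add x k i
  rw [h3]
  have h4 := ier_geom x h0 h1 (n + 1)
  have h5 : 0 ≤ x ^ (n + 1) := pow_nonneg h0 _
  have h6 : 0 ≤ x ^ k := pow_nonneg h0 _
  nlinarith

private theorem ier_two (f : ℕ) (hf : 1 ≤ f) : f ≤ 2 ^ (f - 1) := by
  have h : f - 1 < 2 ^ (f - 1) := Nat.lt_two_pow_self
  omega

private theorem ier_pow (l f : ℕ) (hl : 2 ≤ l) (hf : 2 ≤ f) :
    (f : ℝ) / (l : ℝ) ^ f ≤ 2 / (l : ℝ) ^ 2 := by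
  have hl0 : (0 : ℝ) < l := by exact_mod_cast (by omega : 0 < l)
  rw [div_le_div_iff₀ (by positivity) (by positivity)]
  have h1 : f * l ^ 2 ≤ 2 * l ^ f := by
    obtain ⟨g, rfl⟩ := Nat.exists_eq_add_of_le hf
    have h2 := ier_two (2 + g) (by omega)
    have h3 : (2 : ℕ) ^ (2 + g - 1) = 2 * 2 ^ g := by
      rw [show 2 + g - 1 = g + 1 by omega, pow_succ, mul_comm]
    have h4 : 2 ^ g ≤ l ^ g := Nat.pow_le_pow_left hl g
    calc (2 + g) * l ^ 2 ≤ (2 * 2 ^ g) * l ^ 2 := Nat.mul_le_mul_right _ (h3 ▸ h2)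
      _ ≤ (2 * l ^ g) * l ^ 2 := by gcongr
      _ = 2 * l ^ (2 + g) := by ring
  exact_mod_cast h1

/-- The sum of `log l / l ^ 2` is bounded. -/
private theorem ier_summ : ∃ S : ℝ, 0 ≤ S ∧ ∀ n : ℕ,
    ∑ l ∈ Icc 1 n, Real.log l / (l : ℝ) ^ 2 ≤ S := by
  have hs : Summable fun l : ℕ => 2 * (l : ℝ) ^ (-(3 / 2) : ℝ) :=
    (Real.summable_nat_rpow.2 (by norm_num)).mul_left 2
  refine ⟨∑' l : ℕ, 2 * (l : ℝ) ^ (-(3 / 2) : ℝ), tsum_nonneg fun l => by positivity, fun n => ?_⟩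
  refine le_trans (sum_le_sum fun l hl => ?_) (hs.sum_le_tsum (Icc 1 n) fun l _ => by positivity)
  have hl0 : (0 : ℝ) < l := by exact_mod_cast (mem_Icc.1 hl).1
  have h1 := Real.log_le_rpow_div hl0.le (show (0 : ℝ) < 1 / 2 by norm_num)
  rw [div_le_iff₀ (by positivity)]
  have h2 : 2 * (l : ℝ) ^ (-(3 / 2) : ℝ) * (l : ℝ) ^ 2 = (l : ℝ) ^ ((1 : ℝ) / 2) / (1 / 2) := by
    rw [mul_assoc, ← Real.rpow_natCast (l : ℝ) 2, ← Real.rpow_add hl0]
    norm_num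
    ring
  rw [h2]
  exact h1

section

variable {K : Type} [Field K] [NumberField K]

omit [NumberField K] in
private theorem ier_prime (P : Ideal (𝓞 K)) (hP : P.IsPrime) (m : ℕ) :
    m ≠ 0 → (m : 𝓞 K) ∈ P → ∃ l : ℕ, l.Prime ∧ (l : 𝓞 K) ∈ P := by
  induction m using Nat.strong_induction_on with
  | _ m ih =>
    intro h0 hm
    by_cases h1 : m = 1
    · exact absurd ((Ideal.eq_top_iff_one P).2 (by rwa [h1, Nat.cast_one] at hm)) hP.ne_top
    · have hp := Nat.minFac_prime h1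
      have hd := Nat.mul_div_cancel' (Nat.minFac_dvd m)
      rw [← hd, Nat.cast_mul] at hm
      rcases hP.mem_or_mem hm with h | h
      · exact ⟨_, hp, h⟩
      · refine ih (m / m.minFac) (Nat.div_lt_self (by omega) hp.one_lt) ?_ h
        intro h2
        rw [h2, mul_zero] at hd
        exact h0 hd.symm

private theorem ier_lf (h2 : S_Deg) (P : Ideal (𝓞 K)) (hP : P.IsPrime) (hP0 : P ≠ ⊥) :
    ∃ l f : ℕ, l.Prime ∧ (l : 𝓞 K) ∈ P ∧ 1 ≤ f ∧ Ideal.absNorm P = l ^ f := by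
  obtain ⟨l, hl, hlP⟩ := ier_prime P hP (Ideal.absNorm P)
    (by rwa [Ne, Ideal.absNorm_eq_zero_iff]) (Ideal.absNorm_mem P)
  obtain ⟨-, h⟩ := h2 K l hl {P} (by
    intro Q hQ
    rw [mem_singleton.1 hQ]
    exact ⟨hP, hlP⟩)
  obtain ⟨f, hf, hf'⟩ := h P (mem_singleton_self P)
  exact ⟨l, f, hl, hlP, hf, hf'⟩

end

/-- The bound for one prime ideal. -/
private theorem ier_one (A : ℕ → ℝ) (C1 : ℝ) (hA0 : ∀ m, 0 ≤ A m) (hC1 : 0 ≤ C1)
    (hA : ∀ m : ℕ, A m ≤ C1 * m) (n l f : ℕ) (hn : 1 ≤ n) (hl : l.Prime) (hf : 1 ≤ f) :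
    0 ≤ ∑ j ∈ Icc 1 n, Real.log ((l ^ f : ℕ) : ℝ) * A (n / (l ^ f) ^ j) -
        (if (l ^ f).Prime then Real.log ((l ^ f : ℕ) : ℝ) * A (n / l ^ f) else 0) ∧
      ∑ j ∈ Icc 1 n, Real.log ((l ^ f : ℕ) : ℝ) * A (n / (l ^ f) ^ j) -
        (if (l ^ f).Prime then Real.log ((l ^ f : ℕ) : ℝ) * A (n / l ^ f) else 0) ≤
        4 * C1 * n * (Real.log l / (l : ℝ) ^ 2) := by
  have hl2 : 2 ≤ l := hl.two_le
  have hl0 : (0 : ℝ) < l := by exact_mod_cast (by omega : 0 < l)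
  have hlog : 0 ≤ Real.log l := Real.log_natCast_nonneg l
  have hlogq : 0 ≤ Real.log ((l ^ f : ℕ) : ℝ) := Real.log_natCast_nonneg _
  have hq2 : 2 ≤ l ^ f := hl2.trans (Nat.le_self_pow (by omega) l)
  have hq0 : (0 : ℝ) < ((l ^ f : ℕ) : ℝ) := by exact_mod_cast (by omega : 0 < l ^ f)
  have hx : (((l ^ f : ℕ) : ℝ))⁻¹ ≤ 1 / 2 := by
    rw [one_div]
    exact inv_anti₀ (by norm_num) (by exact_mod_cast hq2)
  have hx0 : 0 ≤ (((l ^ f : ℕ) : ℝ))⁻¹ := by positivity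
  -- every term
  have hterm : ∀ j : ℕ, Real.log ((l ^ f : ℕ) : ℝ) * A (n / (l ^ f) ^ j) ≤
      Real.log ((l ^ f : ℕ) : ℝ) * C1 * n * (((l ^ f : ℕ) : ℝ)⁻¹) ^ j := by
    intro j
    have h1 : A (n / (l ^ f) ^ j) ≤ C1 * (n * (((l ^ f : ℕ) : ℝ)⁻¹) ^ j) := by
      refine (hA _).trans (mul_le_mul_of_nonneg_left ?_ hC1)
      rw [inv_pow, ← div_eq_mul_inv]
      exact Nat.cast_div_le.trans (by push_cast; exact le_rfl)
    calc Real.log ((l ^ f : ℕ) : ℝ) * A (n / (l ^ f) ^ j)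
        ≤ Real.log ((l ^ f : ℕ) : ℝ) * (C1 * (n * (((l ^ f : ℕ) : ℝ)⁻¹) ^ j)) :=
          mul_le_mul_of_nonneg_left h1 hlogq
      _ = _ := by ring
  have hsum : ∀ k : ℕ, ∑ j ∈ Icc k n, Real.log ((l ^ f : ℕ) : ℝ) * A (n / (l ^ f) ^ j) ≤
      Real.log ((l ^ f : ℕ) : ℝ) * C1 * n * (2 * (((l ^ f : ℕ) : ℝ)⁻¹) ^ k) := by
    intro k
    refine (sum_le_sum fun j _ => hterm j).trans ?_
    rw [← mul_sum]
    exact mul_le_mul_of_nonneg_left (ier_geom' _ hx0 hx k n)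
      (mul_nonneg (mul_nonneg hlogq hC1) (Nat.cast_nonneg n))
  by_cases hf1 : f = 1
  · subst hf1
    rw [pow_one] at *
    rw [if_pos hl]
    have h1 : ∑ j ∈ Icc 1 n, Real.log (l : ℝ) * A (n / l ^ j) =
        Real.log (l : ℝ) * A (n / l) + ∑ j ∈ Icc 2 n, Real.log (l : ℝ) * A (n / l ^ j) := by
      rw [← add_sum_Ioc_eq_sum_Icc hn, pow_one]
      rfl
    rw [h1, add_sub_cancel_left]
    refine ⟨sum_nonneg fun j _ => mul_nonneg hlog (hA0 _), (hsum 2).trans ?_⟩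
    have h2 : Real.log (l : ℝ) * C1 * n * (2 * ((l : ℝ)⁻¹) ^ 2) =
        2 * C1 * n * (Real.log l / (l : ℝ) ^ 2) := by
      rw [inv_pow]
      ring
    rw [h2]
    have h3 : 0 ≤ C1 * n * (Real.log l / (l : ℝ) ^ 2) := by positivity
    linarith
  · rw [if_neg (Nat.Prime.not_prime_pow (by omega)), sub_zero]
    refine ⟨sum_nonneg fun j _ => mul_nonneg hlogq (hA0 _), (hsum 1).trans ?_⟩
    have h1 : Real.log ((l ^ f : ℕ) : ℝ) = f * Real.log l := by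
      push_cast
      rw [Real.log_pow]
    have h2 := ier_pow l f hl2 (by omega)
    rw [h1, pow_one]
    push_cast
    calc (f : ℝ) * Real.log l * C1 * n * (2 * ((l : ℝ) ^ f)⁻¹) =
        2 * C1 * n * Real.log l * ((f : ℝ) / (l : ℝ) ^ f) := by ring
      _ ≤ 2 * C1 * n * Real.log l * (2 / (l : ℝ) ^ 2) := by gcongr
      _ = _ := by ring

theorem tIer (h1 : S_Icl) (h2 : S_Deg) (h3 : S_Iid) : S_Ier := by
  classical
  intro K _ _
  obtain ⟨κ, -, hκ⟩ := h1 K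
  set A : ℕ → ℝ := fun n => ∑ m ∈ Icc 1 n, (ai K m : ℝ) with hAdef
  have hA0 : ∀ n, 0 ≤ A n := fun n => sum_nonneg fun m _ => Nat.cast_nonneg _
  obtain ⟨C1, hC1⟩ := hκ.bddAbove_range
  have hC10 : 0 ≤ C1 := (div_nonneg (hA0 1) (Nat.cast_nonneg 1)).trans (hC1 ⟨1, rfl⟩)
  have hA : ∀ m : ℕ, A m ≤ C1 * m := by
    intro m
    rcases Nat.eq_zero_or_pos m with h | h
    · rw [h]
      simp [hAdef]
    · have hm : (0 : ℝ) < m := by exact_mod_cast h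
      have := hC1 ⟨m, rfl⟩
      simpa only [div_le_iff₀ hm] using this
  obtain ⟨S, hS0, hS⟩ := ier_summ
  refine ⟨4 * C1 * Module.finrank ℚ K * S, fun n hn => ?_⟩
  obtain ⟨F, hF, hid⟩ := h3 K n
  choose! lf ff hlf using fun (P : Ideal (𝓞 K)) (hP : P ∈ F) =>
    ier_lf h2 P ((hF P).1 hP).1 ((hF P).1 hP).2.1
  -- the main terms
  have hmain : ∑ l ∈ (Icc 1 n).filter Nat.Prime, (ai K l : ℝ) * Real.log l * A (n / l) =
      ∑ P ∈ F, if (Ideal.absNorm P).Prime then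
        Real.log (Ideal.absNorm P) * A (n / Ideal.absNorm P) else 0 := by
    rw [← sum_filter, ← sum_fiberwise_of_maps_to (s := F.filter fun P => (Ideal.absNorm P).Prime)
      (t := (Icc 1 n).filter Nat.Prime) (g := fun P => Ideal.absNorm P) (fun P hP => by
        obtain ⟨h4, h5⟩ := mem_filter.1 hP
        exact mem_filter.2 ⟨mem_Icc.2 ⟨h5.one_lt.le, ((hF P).1 h4).2.2⟩, h5⟩)]
    refine sum_congr rfl fun l hl => ?_
    obtain ⟨h4, h5⟩ := mem_filter.1 hl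
    rw [sum_congr rfl (g := fun _ => Real.log l * A (n / l)) fun I hI => by
      rw [(mem_filter.1 hI).2], sum_const, nsmul_eq_mul, mul_assoc]
    congr 2
    refine Nat.subtype_card _ fun I => ?_
    rw [mem_filter, mem_filter]
    constructor
    · exact fun h => h.2
    · intro h
      have h6 : (Ideal.absNorm I).Prime := by rwa [h]
      have h7 : I.IsPrime := Ideal.isPrime_of_irreducible_absNorm h6
      refine ⟨⟨(hF I).2 ⟨h7, ?_, ?_⟩, h6⟩, h⟩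
      · rw [Ne, ← Ideal.absNorm_eq_zero_iff]
        exact h6.ne_zero
      · rw [h]
        exact (mem_Icc.1 h4).2
  rw [hid]
  change |_ - ∑ l ∈ (Icc 1 n).filter Nat.Prime, (ai K l : ℝ) * Real.log l * A (n / l)| ≤ _
  rw [hmain, ← sum_sub_distrib]
  have hP : ∀ P ∈ F, 0 ≤ ∑ j ∈ Icc 1 n, Real.log (Ideal.absNorm P) * A (n / Ideal.absNorm P ^ j) -
        (if (Ideal.absNorm P).Prime then
          Real.log (Ideal.absNorm P) * A (n / Ideal.absNorm P) else 0) ∧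
      ∑ j ∈ Icc 1 n, Real.log (Ideal.absNorm P) * A (n / Ideal.absNorm P ^ j) -
        (if (Ideal.absNorm P).Prime then
          Real.log (Ideal.absNorm P) * A (n / Ideal.absNorm P) else 0) ≤
        4 * C1 * n * (Real.log (lf P) / (lf P : ℝ) ^ 2) := by
    intro P hP
    obtain ⟨h4, -, h5, h6⟩ := hlf P hP
    rw [h6]
    exact ier_one A C1 hA0 hC10 hA n (lf P) (ff P) hn h4 h5
  rw [abs_of_nonneg (sum_nonneg fun P h => (hP P h).1)]
  refine (sum_le_sum fun P h => (hP P h).2).trans ?_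
  rw [← sum_fiberwise_of_maps_to (s := F) (t := Icc 1 n) (g := lf) (fun P h => by
    obtain ⟨h4, -, h5, h6⟩ := hlf P h
    refine mem_Icc.2 ⟨h4.one_lt.le, (Nat.le_self_pow (by omega) _).trans (h6 ▸ ((hF P).1 h).2.2)⟩)]
  have hfib : ∀ l ∈ Icc 1 n, ∑ P ∈ F.filter (fun P => lf P = l),
      4 * C1 * n * (Real.log (lf P) / (lf P : ℝ) ^ 2) ≤
      4 * C1 * n * Module.finrank ℚ K * (Real.log l / (l : ℝ) ^ 2) := by
    intro l hl
    have hl0 : (0 : ℝ) < l := by exact_mod_cast (mem_Icc.1 hl).1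
    have hlog : 0 ≤ Real.log l := Real.log_natCast_nonneg l
    rw [sum_congr rfl (g := fun _ => 4 * C1 * n * (Real.log l / (l : ℝ) ^ 2)) fun P h => by
      rw [(mem_filter.1 h).2], sum_const, nsmul_eq_mul]
    have hc : (F.filter fun P => lf P = l).card ≤ Module.finrank ℚ K := by
      rcases (F.filter fun P => lf P = l).eq_empty_or_nonempty with h | ⟨Q, hQ⟩
      · rw [h, card_empty]
        exact Nat.zero_le _
      · obtain ⟨hQ1, hQ2⟩ := mem_filter.1 hQ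
        have hlp : l.Prime := hQ2 ▸ (hlf Q hQ1).1
        refine (h2 K l hlp _ fun P hP' => ?_).1
        obtain ⟨h4, h5⟩ := mem_filter.1 hP'
        exact ⟨((hF P).1 h4).1, h5 ▸ (hlf P h4).2.1⟩
    have hc' : ((F.filter fun P => lf P = l).card : ℝ) ≤ Module.finrank ℚ K := by exact_mod_cast hc
    calc ((F.filter fun P => lf P = l).card : ℝ) * (4 * C1 * n * (Real.log l / (l : ℝ) ^ 2))
        ≤ (Module.finrank ℚ K : ℝ) * (4 * C1 * n * (Real.log l / (l : ℝ) ^ 2)) := by gcongr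
      _ = _ := by ring
  refine (sum_le_sum hfib).trans ?_
  rw [← mul_sum]
  calc 4 * C1 * n * (Module.finrank ℚ K : ℝ) * ∑ l ∈ Icc 1 n, Real.log l / (l : ℝ) ^ 2
      ≤ 4 * C1 * n * (Module.finrank ℚ K : ℝ) * S := by
        have := hS n
        gcongr
    _ = _ := by ring

end Pool.Agent.MPdff
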