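import Pool.Agent.Lib.MP_dff12b_nt.SpecL

/-!
# MP_dff12b_nt, theorem A, part L: the sum of the logarithms of the norms
-/

namespace Pool.Agent.MPdff

open Finset Filter Topology NumberField Pool.Agent.Results.MP_00e23e_nt
open UniqueFactorizationMonoid

open scoped Classical in
/-- The nonzero ideals of norm at most `n`. -/
private noncomputable def idl (K : Type) [Field K] [NumberField K] (n : ℕ) :
    Finset (Ideal (𝓞 K)) :=
  (Ideal.finite_setOfPred_absNorm_le (S := 𝓞 K) n).toFinset.filter fun I => 1 ≤ Ideal.absNorm I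

section

variable {K : Type} [Field K] [NumberField K]

private theorem mem_idl (n : ℕ) (I : Ideal (𝓞 K)) :
    I ∈ idl K n ↔ 1 ≤ Ideal.absNorm I ∧ Ideal.absNorm I ≤ n := by
  rw [idl, mem_filter, Set.Finite.mem_toFinset]
  exact and_comm

private theorem one_le_iff (I : Ideal (𝓞 K)) : 1 ≤ Ideal.absNorm I ↔ I ≠ ⊥ := by
  rw [Nat.one_le_iff_ne_zero, Ne, Ideal.absNorm_eq_zero_iff]

private theorem ai_sum (n : ℕ) (f : ℕ → ℝ) :
    ∑ m ∈ Icc 1 n, (ai K m : ℝ) * f m = ∑ I ∈ idl K n, f (Ideal.absNorm I) := by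
  rw [← sum_fiberwise_of_maps_to (s := idl K n) (t := Icc 1 n) (g := fun I => Ideal.absNorm I)
    (fun I hI => mem_Icc.2 ((mem_idl n I).1 hI))]
  refine sum_congr rfl fun m hm => ?_
  obtain ⟨h1, h2⟩ := mem_Icc.1 hm
  rw [sum_congr rfl (g := fun _ => f m) fun I hI => by rw [(mem_filter.1 hI).2], sum_const,
    nsmul_eq_mul]
  congr 2
  refine Nat.subtype_card _ fun I => ?_
  rw [mem_filter, mem_idl]
  constructor
  · exact fun h => h.2
  · intro h
    exact ⟨⟨by omega, by omega⟩, h⟩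

private theorem card_dvd (n : ℕ) (Q : Ideal (𝓞 K)) (hQ : Q ≠ ⊥) [DecidablePred fun I => Q ∣ I] :
    (((idl K n).filter fun I => Q ∣ I).card : ℝ) =
      ∑ m ∈ Icc 1 (n / Ideal.absNorm Q), (ai K m : ℝ) := by
  classical
  have h0 := ai_sum (K := K) (n / Ideal.absNorm Q) fun _ => 1
  simp only [mul_one] at h0
  rw [h0, sum_const, nsmul_eq_mul, mul_one, Nat.cast_inj]
  have hq : 1 ≤ Ideal.absNorm Q := (one_le_iff Q).2 hQ
  have h1 : (idl K n).filter (fun I => Q ∣ I) =
      (idl K (n / Ideal.absNorm Q)).image fun I => Q * I := by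
    ext I
    rw [mem_filter, mem_image, mem_idl]
    constructor
    · rintro ⟨⟨h1, h2⟩, J, rfl⟩
      refine ⟨J, (mem_idl _ _).2 ?_, rfl⟩
      rw [map_mul] at h1 h2
      refine ⟨Nat.pos_of_ne_zero fun h => ?_, ?_⟩
      · rw [h, mul_zero] at h1
        omega
      · rw [Nat.le_div_iff_mul_le (by omega), mul_comm]
        exact h2
    · rintro ⟨J, hJ, rfl⟩
      obtain ⟨h1, h2⟩ := (mem_idl _ _).1 hJ
      rw [Nat.le_div_iff_mul_le (by omega), mul_comm] at h2
      rw [map_mul]
      exact ⟨⟨Nat.mul_pos (by omega) (by omega), h2⟩, dvd_mul_right _ _⟩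
  rw [h1, card_image_of_injective]
  intro I J hIJ
  exact mul_left_cancel₀ hQ hIJ

open scoped Classical in
private theorem count_iff (I P : Ideal (𝓞 K)) (hI : I ≠ ⊥) (hP : Prime P) (j : ℕ) :
    P ^ j ∣ I ↔ j ≤ (normalizedFactors I).count P := by
  rw [pow_dvd_iff_le_emultiplicity,
    emultiplicity_eq_count_normalizedFactors hP.irreducible hI, normalize_eq, Nat.cast_le]

open scoped Classical in
private theorem log_norm (n : ℕ) (F : Finset (Ideal (𝓞 K)))
    (hF : ∀ P, P ∈ F ↔ (P.IsPrime ∧ P ≠ ⊥ ∧ Ideal.absNorm P ≤ n)) (I : Ideal (𝓞 K))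
    (hI : I ∈ idl K n) :
    Real.log (Ideal.absNorm I) =
      ∑ P ∈ F, ∑ j ∈ Icc 1 n, if P ^ j ∣ I then Real.log (Ideal.absNorm P) else 0 := by
  obtain ⟨h1, h2⟩ := (mem_idl _ _).1 hI
  have hI0 : I ≠ ⊥ := (one_le_iff I).1 h1
  have hnorm : Ideal.absNorm I = ∏ P ∈ (normalizedFactors I).toFinset,
      Ideal.absNorm P ^ (normalizedFactors I).count P := by
    conv_lhs => rw [← Ideal.prod_normalizedFactors_eq_self hI0, prod_multiset_count]
    rw [map_prod]
    exact prod_congr rfl fun P _ => map_pow _ _ _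
  have hsub : (normalizedFactors I).toFinset ⊆ F := by
    intro P hP
    rw [Multiset.mem_toFinset] at hP
    have hp := prime_of_normalized_factor P hP
    have hd := dvd_of_mem_normalizedFactors hP
    have h3 : Ideal.absNorm P ∣ Ideal.absNorm I :=
      Ideal.absNorm_dvd_absNorm_of_le (Ideal.le_of_dvd hd)
    exact (hF P).2 ⟨Ideal.isPrime_of_prime hp, hp.ne_zero, (Nat.le_of_dvd (by omega) h3).trans h2⟩
  have hlog : Real.log (Ideal.absNorm I) = ∑ P ∈ F,
      ((normalizedFactors I).count P : ℝ) * Real.log (Ideal.absNorm P) := by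
    rw [hnorm]
    push_cast
    rw [Real.log_prod]
    · rw [← sum_subset hsub]
      · exact sum_congr rfl fun P _ => by rw [Real.log_pow]
      · intro P _ hP
        rw [Multiset.mem_toFinset] at hP
        rw [Multiset.count_eq_zero_of_notMem hP, Nat.cast_zero, zero_mul]
    · intro P hP
      rw [Multiset.mem_toFinset] at hP
      have hp := prime_of_normalized_factor P hP
      refine pow_ne_zero _ ?_
      have : 1 ≤ Ideal.absNorm P := (one_le_iff P).2 hp.ne_zero
      exact_mod_cast (by omega : Ideal.absNorm P ≠ 0)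
  rw [hlog]
  refine sum_congr rfl fun P hP => ?_
  obtain ⟨hP1, hP2, hP3⟩ := (hF P).1 hP
  have hp : Prime P := Ideal.prime_of_isPrime hP2 hP1
  rw [← sum_filter, sum_const, nsmul_eq_mul]
  congr 2
  have hc : (normalizedFactors I).count P ≤ n := by
    have h3 : P ^ (normalizedFactors I).count P ∣ I := (count_iff I P hI0 hp _).2 le_rfl
    have h4 : Ideal.absNorm (P ^ (normalizedFactors I).count P) ∣ Ideal.absNorm I :=
      Ideal.absNorm_dvd_absNorm_of_le (Ideal.le_of_dvd h3)
    rw [map_pow] at h4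
    have h5 : Ideal.absNorm P ^ (normalizedFactors I).count P ≤ n :=
      (Nat.le_of_dvd (by omega) h4).trans h2
    have h6 : 2 ≤ Ideal.absNorm P := by
      have h7 : 1 ≤ Ideal.absNorm P := (one_le_iff P).2 hP2
      have h8 : Ideal.absNorm P ≠ 1 := fun h => hP1.ne_top (Ideal.absNorm_eq_one_iff.1 h)
      omega
    have h7 : 2 ^ (normalizedFactors I).count P ≤ n := (Nat.pow_le_pow_left h6 _).trans h5
    exact (Nat.lt_two_pow_self.le).trans h7
  have : (Icc 1 n).filter (fun j => P ^ j ∣ I) = Icc 1 ((normalizedFactors I).count P) := by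
    ext j
    rw [mem_filter, mem_Icc, mem_Icc, count_iff I P hI0 hp]
    omega
  rw [this, Nat.card_Icc]
  omega

end

theorem tIid : S_Iid := by
  classical
  intro K _ _ n
  let F := (Ideal.finite_setOfPred_absNorm_le (S := 𝓞 K) n).toFinset.filter
    fun P => P.IsPrime ∧ P ≠ ⊥
  have hF : ∀ P, P ∈ F ↔ (P.IsPrime ∧ P ≠ ⊥ ∧ Ideal.absNorm P ≤ n) := by
    intro P
    rw [mem_filter, Set.Finite.mem_toFinset]
    constructor
    · rintro ⟨h1, h2, h3⟩
      exact ⟨h2, h3, h1⟩
    · rintro ⟨h1, h2, h3⟩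
      exact ⟨h3, h1, h2⟩
  refine ⟨F, hF, ?_⟩
  rw [ai_sum n fun m => Real.log m, sum_congr rfl (log_norm n F hF), sum_comm]
  refine sum_congr rfl fun P hP => ?_
  rw [sum_comm]
  refine sum_congr rfl fun j _ => ?_
  obtain ⟨hP1, hP2, hP3⟩ := (hF P).1 hP
  rw [← sum_filter, sum_const, nsmul_eq_mul, card_dvd n (P ^ j) (pow_ne_zero j hP2), map_pow,
    mul_comm]

end Pool.Agent.MPdff
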