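import Pool.Agent.Lib.MP_dff12b_nt.SpecL
import Mathlib.FieldTheory.KummerExtension

/-!
MP_dff12b_nt, part L, module Irr: Capelli for odd d.
-/

namespace Pool.Agent.MPdff

open Finset Filter Topology NumberField Pool.Agent.Results.MP_00e23e_nt

theorem tIrr : S_Irr := by
  intro d k hd hodd hk
  have h1 : (Polynomial.X ^ d + Polynomial.C (k : ℚ) : Polynomial ℚ) =
      Polynomial.X ^ d - Polynomial.C (-(k : ℚ)) := by
    rw [Polynomial.C_neg, sub_neg_eq_add]
  rw [h1, X_pow_sub_C_irreducible_iff_of_odd hodd]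
  intro e hed he1 b hb
  have hepos : 0 < e := Nat.pos_of_dvd_of_pos hed (by omega)
  have hodd' : Odd e := Odd.of_dvd_nat hodd hed
  have hint : IsIntegral ℤ (b ^ e) := by
    rw [hb]
    have h2 : (-(k : ℚ)) = algebraMap ℤ ℚ (-k) := by simp
    rw [h2]
    exact isIntegral_algebraMap
  obtain ⟨m, hm⟩ := IsIntegrallyClosed.exists_algebraMap_eq_of_isIntegral_pow hepos hint
  apply hk e (by omega) hed
  refine ⟨-m, ?_⟩
  rw [hodd'.neg_pow]
  have h3 : ((m ^ e : ℤ) : ℚ) = ((-k : ℤ) : ℚ) := by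
    push_cast
    rw [← hb, ← hm]
    simp
  have h4 : m ^ e = -k := by exact_mod_cast h3
  rw [h4, neg_neg]

end Pool.Agent.MPdff
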