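import Pool.Agent.Lib.MP_dff12b_nt.SpecL

/-!
# MP_dff12b_nt, Kex: the number field of an irreducible X^d + k
-/

set_option autoImplicit false

namespace Pool.Agent.MPdff

open Finset Filter Topology NumberField Pool.Agent.Results.MP_00e23e_nt

theorem tKex : S_Kex := by
  intro d k hd hirr
  set f : Polynomial ℚ := Polynomial.X ^ d + Polynomial.C (k : ℚ) with hf
  have hfact : Fact (Irreducible f) := ⟨hirr⟩
  set F : Polynomial ℤ := Polynomial.X ^ d + Polynomial.C k with hF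
  have hFm : F.Monic := Polynomial.monic_X_pow_add_C k (by omega)
  have hFf : F.map (algebraMap ℤ ℚ) = f := by
    rw [hF, hf, Polynomial.map_add, Polynomial.map_pow, Polynomial.map_X, Polynomial.map_C]
    rfl
  have hch : CharZero (AdjoinRoot f) := algebraRat.charZero _
  have hfin : FiniteDimensional ℚ (AdjoinRoot f) := (AdjoinRoot.powerBasis hirr.ne_zero).finite
  have hnf : NumberField (AdjoinRoot f) := ⟨⟩
  have hkey : ∀ P : Polynomial ℤ, Polynomial.aeval (AdjoinRoot.root f) P =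
      AdjoinRoot.mk f (P.map (algebraMap ℤ ℚ)) := by
    intro P
    rw [← AdjoinRoot.aeval_eq, Polynomial.aeval_map_algebraMap]
  have hroot : IsIntegral ℤ (AdjoinRoot.root f) := by
    refine ⟨F, hFm, ?_⟩
    have h1 := hkey F
    rw [hFf, AdjoinRoot.mk_self] at h1
    exact h1
  obtain ⟨θ, hθ⟩ : ∃ θ : 𝓞 (AdjoinRoot f), algebraMap (𝓞 (AdjoinRoot f)) (AdjoinRoot f) θ =
      AdjoinRoot.root f := ⟨⟨AdjoinRoot.root f, hroot⟩, rfl⟩
  have h1 : ∀ P : Polynomial ℤ, (algebraMap (𝓞 (AdjoinRoot f)) (AdjoinRoot f))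
      (Polynomial.aeval θ P) = AdjoinRoot.mk f (P.map (algebraMap ℤ ℚ)) := by
    intro P
    rw [← Polynomial.aeval_algebraMap_apply, hθ, hkey]
  refine ⟨AdjoinRoot f, inferInstance, hnf, θ, ?_, ?_⟩
  · intro P
    have h2 : Polynomial.aeval θ P = 0 ↔
        (algebraMap (𝓞 (AdjoinRoot f)) (AdjoinRoot f)) (Polynomial.aeval θ P) = 0 :=
      (map_eq_zero_iff _ (FaithfulSMul.algebraMap_injective _ _)).symm
    rw [h2, h1, AdjoinRoot.mk_eq_zero, ← hFf,
      Polynomial.map_dvd_map _ (algebraMap ℤ ℚ).injective_int hFm]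
  · intro y
    obtain ⟨g, hg⟩ := AdjoinRoot.mk_surjective
      (algebraMap (𝓞 (AdjoinRoot f)) (AdjoinRoot f) y)
    obtain ⟨b, hbM, hb⟩ := IsLocalization.integerNormalization_spec (nonZeroDivisors ℤ) g
    have hb0 : b ≠ 0 := nonZeroDivisors.ne_zero hbM
    set G := IsLocalization.integerNormalization (nonZeroDivisors ℤ) g with hG
    have hy : (b : 𝓞 (AdjoinRoot f)) * y ∈ ((Polynomial.aeval θ :
        Polynomial ℤ →ₐ[ℤ] 𝓞 (AdjoinRoot f)) : Polynomial ℤ →+* 𝓞 (AdjoinRoot f)).range := by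
      refine ⟨G, ?_⟩
      apply FaithfulSMul.algebraMap_injective (𝓞 (AdjoinRoot f)) (AdjoinRoot f)
      have h3 := h1 G
      change (algebraMap (𝓞 (AdjoinRoot f)) (AdjoinRoot f)) (Polynomial.aeval θ G) = _
      rw [h3, hb, map_mul, ← hg]
      have e1 : (b • g : Polynomial ℚ) = Polynomial.C ((b : ℚ)) * g := by
        rw [← Polynomial.smul_eq_C_mul, Int.cast_smul_eq_zsmul]
      rw [e1, map_mul]
      congr 1
    refine ⟨b.natAbs, Int.natAbs_pos.mpr hb0, ?_⟩
    rcases Int.natAbs_eq b with h | h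
    · have e : ((b.natAbs : ℕ) : 𝓞 (AdjoinRoot f)) = (b : 𝓞 (AdjoinRoot f)) := by
        rw [← Int.cast_natCast, ← h]
      rw [e]
      exact hy
    · have e : ((b.natAbs : ℕ) : 𝓞 (AdjoinRoot f)) = -(b : 𝓞 (AdjoinRoot f)) := by
        rw [← Int.cast_natCast, ← Int.cast_neg]
        congr 1
        omega
      rw [e, neg_mul]
      exact neg_mem hy

end Pool.Agent.MPdff
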