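import Pool.Agent.Lib.MP_dff12b_nt.SpecL

/-!
# MP_dff12b_nt, theorem A, part L: Landau's theorem for the roots of X^d + k
-/

namespace Pool.Agent.MPdff

open Finset Filter Topology NumberField Pool.Agent.Results.MP_00e23e_nt

private theorem lan_deg (h3 : S_Deg) (K : Type) [Field K] [NumberField K] (l : ℕ) (hl : l.Prime) :
    ai K l ≤ Module.finrank ℚ K := by
  classical
  have hfin : {I : Ideal (𝓞 K) | Ideal.absNorm I = l}.Finite :=
    Ideal.finite_setOfPred_absNorm_eq l
  have h1 : ai K l = hfin.toFinset.card := Nat.subtype_card _ fun I => by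
    rw [Set.Finite.mem_toFinset]
    rfl
  rw [h1]
  refine (h3 K l hl hfin.toFinset fun P hP => ?_).1
  have h2 : Ideal.absNorm P = l := by
    rw [Set.Finite.mem_toFinset] at hP
    exact hP
  refine ⟨Ideal.isPrime_of_irreducible_absNorm (h2 ▸ hl), ?_⟩
  have h4 := Ideal.absNorm_mem P
  rwa [h2] at h4

theorem tLan (_h1 : S_Rtb) (h2 : S_Ar) (h3 : S_Icl) (h4 : S_Deg) (h5 : S_Ier) (h6 : S_Rtk) :
    S_Lan := by
  intro d k hd hirr
  obtain ⟨K, _, _, w1, hw⟩ := h6 d k hd hirr
  obtain ⟨κ, hκ, hlim⟩ := h3 K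
  obtain ⟨C, hC⟩ := h5 K
  have h7 := h2 (fun n => (ai K n : ℝ)) κ C (Module.finrank ℚ K) hκ (fun n => Nat.cast_nonneg _)
    (fun l hl => by exact_mod_cast lan_deg h4 K l hl) hlim hC
  have hlog : Tendsto (fun n : ℕ => Real.log n) atTop atTop :=
    Real.tendsto_log_atTop.comp tendsto_natCast_atTop_atTop
  -- the difference is constant for large n
  set g : ℕ → ℝ := fun l => (rt d k l : ℝ) * Real.log l / l - (ai K l : ℝ) * Real.log l / l with hg
  have hg0 : ∀ l : ℕ, l.Prime → w1 < l → g l = 0 := by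
    intro l hl hl'
    rw [hg]
    simp only
    rw [hw l hl hl', sub_self]
  have h8 : Tendsto (fun n : ℕ => (∑ l ∈ (Icc 1 n).filter Nat.Prime, g l) / Real.log n) atTop
      (𝓝 0) := by
    have h9 : Tendsto (fun n : ℕ => (∑ l ∈ (Icc 1 w1).filter Nat.Prime, g l) / Real.log n) atTop
        (𝓝 0) := Tendsto.div_atTop tendsto_const_nhds hlog
    refine h9.congr' ?_
    filter_upwards [eventually_ge_atTop w1] with n hn
    congr 1
    refine sum_subset (filter_subset_filter _ (Icc_subset_Icc_right hn)) fun l hl hl' => ?_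
    obtain ⟨h10, h11⟩ := mem_filter.1 hl
    refine hg0 l h11 ?_
    by_contra h12
    exact hl' (mem_filter.2 ⟨mem_Icc.2 ⟨(mem_Icc.1 h10).1, by omega⟩, h11⟩)
  have h9 := h7.add h8
  rw [add_zero] at h9
  refine h9.congr fun n => ?_
  rw [← add_div, ← sum_add_distrib]
  congr 1
  refine sum_congr rfl fun l _ => ?_
  rw [hg]
  ring

end Pool.Agent.MPdff
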