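import Pool.Agent.Lib.MP_dff12b_nt.SpecG

/-!
MP_dff12b_nt, part G, module Lwa: sieve lower bound for one set S.
-/

namespace Pool.Agent.MPdff

open Finset Filter Topology Pool.Agent.Results.MP_00e23e_nt

private lemma Lwa_mem_prs {u v : ℝ} (hv : 0 ≤ v) {l : ℕ} :
    l ∈ prs u v ↔ (l.Prime ∧ u < l ∧ (l : ℝ) ≤ v) := by
  unfold prs
  rw [mem_filter, mem_Icc]
  constructor
  · rintro ⟨⟨_, h2⟩, h3, h4⟩
    exact ⟨h3, h4, (Nat.le_floor_iff hv).1 h2⟩
  · rintro ⟨h1, h2, h3⟩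
    exact ⟨⟨h1.one_lt.le, (Nat.le_floor_iff hv).2 h3⟩, h1, h2⟩

/-- abstract summation -/
private lemma Lwa_abs (P : Finset ℕ) (ll : Finset ℕ → ℝ) (c m e : Finset ℕ → ℝ) (F : Finset (Finset ℕ))
    (A M : ℝ) (hll : ∀ T ⊆ P, |ll T| ≤ 1) (hF : F ⊆ P.powerset)
    (hFl : ∀ T ⊆ P, ll T ≠ 0 → T ∈ F) (he : ∀ T ⊆ P, 0 ≤ e T) (hc : ∀ T ⊆ P, |c T - m T| ≤ e T)
    (hA : ∑ T ∈ P.powerset, ll T * c T ≤ A) (hM : M ≤ ∑ T ∈ P.powerset, ll T * m T) :
    M - ∑ T ∈ F, e T ≤ A := by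
  have h1 : ∑ T ∈ P.powerset, ll T * m T - ∑ T ∈ P.powerset, (if T ∈ F then e T else 0) ≤
      ∑ T ∈ P.powerset, ll T * c T := by
    rw [← Finset.sum_sub_distrib]
    apply Finset.sum_le_sum
    intro T hT
    have hT' := Finset.mem_powerset.1 hT
    by_cases h0 : ll T = 0
    · rw [h0]
      have : 0 ≤ (if T ∈ F then e T else 0) := by
        split_ifs
        · exact he T hT'
        · exact le_refl _
      linarith
    · rw [if_pos (hFl T hT' h0)]
      have h2 := hll T hT'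
      have h3 := hc T hT'
      have h4 : |ll T * (c T - m T)| ≤ 1 * e T := by
        rw [abs_mul]
        exact mul_le_mul h2 h3 (abs_nonneg _) zero_le_one
      have h5 := (abs_le.1 h4).1
      nlinarith [h5]
  have h6 : ∑ T ∈ P.powerset, (if T ∈ F then e T else 0) = ∑ T ∈ F, e T := by
    rw [← Finset.sum_filter]
    congr 1
    ext T
    rw [Finset.mem_filter]
    exact ⟨fun h => h.2, fun h => ⟨hF h, h⟩⟩
  rw [h6] at h1
  linarith

theorem tLwa (hPc : S_Pc) (hSv : S_Sv) : S_Lwa := by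
  classical
  intro d k w a D x S hx hS
  set y : ℝ := x ^ ((1 : ℝ) / 400) with hy
  set Q := prs w y with hQ
  set P := Q \ S with hP
  set z := ⌊y⌋₊ with hz
  have hy0 : 0 ≤ y := by linarith
  have hz2 : 2 ≤ z := Nat.le_floor (by exact_mod_cast hx)
  have hd1 : 1 ≤ d := le_trans (by norm_num) D.hd
  have hQp : ∀ l ∈ Q, l.Prime ∧ (w : ℝ) < l ∧ (l : ℝ) ≤ y := fun l hl => (Lwa_mem_prs hy0).1 hl
  have hQz : ∀ l ∈ Q, l ≤ z := fun l hl => Nat.le_floor (hQp l hl).2.2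
  have hPQ : P ⊆ Q := Finset.sdiff_subset
  have hPp : ∀ p ∈ P, p.Prime ∧ p ≤ z := fun p hp => ⟨(hQp p (hPQ hp)).1, hQz p (hPQ hp)⟩
  obtain ⟨lu, ll, hs1, hs2, hs3⟩ := hSv z P hz2 hPp
  have hwl : ∀ l ∈ Q, w < l := fun l hl => by exact_mod_cast (hQp l hl).2.1
  have hnb : ∀ l ∈ Q, ¬ l ∣ primorial w := by
    intro l hl hdvd
    have := (Nat.Prime.dvd_primorial_iff (hQp l hl).1).1 hdvd
    exact absurd this (not_le.2 (hwl l hl))
  have hnk : ∀ l ∈ Q, ¬ (l : ℤ) ∣ k := by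
    intro l hl hdvd
    have h1 : l ∣ k.natAbs := Int.natCast_dvd.1 hdvd
    have h2 := Nat.le_of_dvd (Int.natAbs_pos.2 D.hk0) h1
    have := hwl l hl
    have := D.hkw
    omega
  set g : ℕ → ℝ := fun l => (rt d k l : ℝ) / ((l : ℝ) - 1) with hg
  have hg0 : ∀ l ∈ Q, 0 ≤ g l ∧ g l ≤ 1 / 4 := by
    intro l hl
    have h1 := hwl l hl
    have h2 := D.hdw
    have h3 : (rt d k l : ℝ) ≤ d := by exact_mod_cast D.rd l (hQp l hl).1
    have h4 : 4 * (d : ℝ) + 4 ≤ w := by exact_mod_cast h2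
    have h5 : (w : ℝ) + 1 ≤ l := by exact_mod_cast h1
    have h6 : 0 ≤ (rt d k l : ℝ) := Nat.cast_nonneg _
    have h8 : (0 : ℝ) ≤ d := Nat.cast_nonneg _
    have h7 : 0 < (l : ℝ) - 1 := by linarith
    refine ⟨div_nonneg h6 h7.le, ?_⟩
    rw [hg]
    simp only
    rw [div_le_iff₀ h7]
    linarith
  have hblk : ∀ t : ℕ, ∑ p ∈ P.filter (fun p => Nat.sqrt t < p ∧ p ≤ t), g p ≤ 3 := by
    intro t
    refine le_trans ?_ (D.blk t)
    have hsub : P.filter (fun p => Nat.sqrt t < p ∧ p ≤ t) ⊆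
        (Ioc (Nat.sqrt t) t).filter (fun l => l.Prime ∧ w < l) := by
      intro p hp
      rw [Finset.mem_filter] at hp
      rw [Finset.mem_filter, Finset.mem_Ioc]
      exact ⟨hp.2, (hQp p (hPQ hp.1)).1, hwl p (hPQ hp.1)⟩
    refine le_trans (Finset.sum_le_sum_of_subset_of_nonneg (f := fun l => ((rt d k l : ℝ) + 1) / ((l : ℝ) - 1))
      hsub ?_ |> le_trans (Finset.sum_le_sum ?_)) (le_refl _)
    · intro p hp
      rw [Finset.mem_filter] at hp
      have h5 : (w : ℝ) + 1 ≤ p := by exact_mod_cast hwl p (hPQ hp.1)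
      have h4 : 4 * (d : ℝ) + 4 ≤ w := by exact_mod_cast D.hdw
      have h8 : (0 : ℝ) ≤ d := Nat.cast_nonneg _
      apply div_le_div_of_nonneg_right _ (by linarith)
      linarith
    · intro p hp _
      rw [Finset.mem_filter] at hp
      have h5 : (1 : ℝ) ≤ p := by exact_mod_cast hp.2.1.one_lt.le
      have h6 : 0 ≤ (rt d k p : ℝ) := Nat.cast_nonneg _
      exact div_nonneg (by linarith) (by linarith)
  have hmain := (hs3 g (fun p hp => ⟨(hg0 p (hPQ hp)).1, (hg0 p (hPQ hp)).2.trans (by norm_num)⟩) hblk).2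
  -- the primes in the class
  set Bs := (Icc 1 ⌊x⌋₊).filter (fun p => p.Prime ∧ p ≡ a [MOD primorial w]) with hBs
  set c : Finset ℕ → ℝ := fun T => (((Icc 1 ⌊x⌋₊).filter (fun p => p.Prime ∧ p ≡ a [MOD primorial w] ∧
    ∀ l ∈ S ∪ T, (l : ℤ) ∣ fv d k p)).card : ℝ) with hc
  set LL := li x / ((primorial w).totient : ℝ) with hLL
  have hV0 : 0 ≤ Vx d k w (1 / 400) x := by
    have h4 : Vx d k w (1 / 400) x = ∏ l ∈ Q, (1 - g l) := rfl
    rw [h4]
    exact Finset.prod_nonneg (fun l hl => by linarith [(hg0 l hl).2])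
  have hSg0 : 0 ≤ ∏ l ∈ S, g l := Finset.prod_nonneg (fun l hl => (hg0 l (hS hl)).1)
  have herr0 : ∀ T : Finset ℕ, 0 ≤ (∏ l ∈ S ∪ T, (rt d k l : ℝ)) * maxErr x (primorial w * ∏ l ∈ S ∪ T, l) := by
    intro T
    apply mul_nonneg
    · exact Finset.prod_nonneg (fun l _ => Nat.cast_nonneg _)
    · exact Pool.Agent.Lib.EH.maxErr_nonneg x _
  by_cases hLL0 : 0 ≤ LL
  swap
  · have h1 : LL * (∏ l ∈ S, g l) * (1 / 2 * Vx d k w (1 / 400) x) ≤ 0 := by
      apply mul_nonpos_of_nonpos_of_nonneg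
      · exact mul_nonpos_of_nonpos_of_nonneg (not_le.1 hLL0).le hSg0
      · linarith
    have h2 : 0 ≤ ∑ T ∈ P.powerset.filter (fun T => ∏ l ∈ T, l ≤ z ^ 46),
        (∏ l ∈ S ∪ T, (rt d k l : ℝ)) * maxErr x (primorial w * ∏ l ∈ S ∪ T, l) :=
      Finset.sum_nonneg (fun T _ => herr0 T)
    have h3 : (0 : ℝ) ≤ (((Icc 1 ⌊x⌋₊).filter (fun p => p.Prime ∧ p ≡ a [MOD primorial w] ∧
        Dv d k w y p = S)).card : ℝ) := Nat.cast_nonneg _
    refine le_trans ?_ h3
    refine le_trans (sub_le_sub h1 h2) ?_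
    norm_num
  have hb2 : 2 ≤ primorial w := by
    have h2 : 2 ∣ primorial w := (Nat.Prime.dvd_primorial_iff Nat.prime_two).2 (by have := D.hdw; omega)
    exact Nat.le_of_dvd (primorial_pos w) h2
  have hSP : ∀ T ⊆ P, Disjoint S T := by
    intro T hT
    exact (Finset.disjoint_sdiff).mono_right hT
  have hSTQ : ∀ T ⊆ P, S ∪ T ⊆ Q := fun T hT => Finset.union_subset hS (hT.trans hPQ)
  have hcnt : ∀ T ⊆ P, |c T - LL * ∏ l ∈ S ∪ T, g l| ≤
      (∏ l ∈ S ∪ T, (rt d k l : ℝ)) * maxErr x (primorial w * ∏ l ∈ S ∪ T, l) := by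
    intro T hT
    have := hPc d k (primorial w) a x (S ∪ T) hb2 hd1 D.ca
      (fun l hl => ⟨(hQp l (hSTQ T hT hl)).1, hnb l (hSTQ T hT hl), hnk l (hSTQ T hT hl)⟩)
    exact this
  apply Lwa_abs P ll c (fun T => LL * ∏ l ∈ S ∪ T, g l)
    (fun T => (∏ l ∈ S ∪ T, (rt d k l : ℝ)) * maxErr x (primorial w * ∏ l ∈ S ∪ T, l))
    (P.powerset.filter (fun T => ∏ l ∈ T, l ≤ z ^ 46)) _ _ (fun T hT => (hs1 T hT).2.1)
    (Finset.filter_subset _ _)
  · intro T hT h0
    rw [Finset.mem_filter, Finset.mem_powerset]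
    exact ⟨hT, (hs1 T hT).2.2 (Or.inr h0)⟩
  · intro T _
    exact herr0 T
  · exact hcnt
  · -- upper bound for the weighted sum
    have h1 : ∀ T ∈ P.powerset, ll T * c T =
        ∑ p ∈ Bs, (if ∀ l ∈ S ∪ T, (l : ℤ) ∣ fv d k p then ll T else 0) := by
      intro T _
      rw [← Finset.sum_filter, Finset.sum_const, nsmul_eq_mul, mul_comm, hc, hBs, Finset.filter_filter]
      simp only [and_assoc]
    rw [Finset.sum_congr rfl h1, Finset.sum_comm]
    have h2 : (((Icc 1 ⌊x⌋₊).filter (fun p => p.Prime ∧ p ≡ a [MOD primorial w] ∧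
        Dv d k w y p = S)).card : ℝ) = ∑ p ∈ Bs, (if Dv d k w y p = S then (1 : ℝ) else 0) := by
      rw [← Finset.sum_filter, Finset.sum_const, nsmul_eq_mul, mul_one, hBs, Finset.filter_filter]
      simp only [and_assoc]
    rw [h2]
    apply Finset.sum_le_sum
    intro p _
    by_cases hSd : ∀ l ∈ S, (l : ℤ) ∣ fv d k p
    · have h3 := (hs2 (fv d k p).natAbs).1
      have h4 : ∑ T ∈ P.powerset, (if ∀ l ∈ S ∪ T, (l : ℤ) ∣ fv d k p then ll T else 0) =
          ∑ T ∈ P.powerset.filter (fun T => ∀ q ∈ T, q ∣ (fv d k p).natAbs), ll T := by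
        rw [Finset.sum_filter]
        apply Finset.sum_congr rfl
        intro T _
        have h5 : (∀ l ∈ S ∪ T, (l : ℤ) ∣ fv d k p) ↔ (∀ q ∈ T, q ∣ (fv d k p).natAbs) := by
          constructor
          · intro h q hq
            exact Int.natCast_dvd.1 (h q (Finset.mem_union_right _ hq))
          · intro h l hl
            rcases Finset.mem_union.1 hl with hl | hl
            · exact hSd l hl
            · exact Int.natCast_dvd.2 (h l hl)
        simp only [h5]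
      rw [h4]
      refine h3.trans ?_
      by_cases hn : ∀ q ∈ P, ¬ q ∣ (fv d k p).natAbs
      · rw [if_pos hn]
        have h6 : Dv d k w y p = S := by
          unfold Dv
          ext l
          rw [Finset.mem_filter]
          constructor
          · rintro ⟨hl1, hl2⟩
            by_contra hlS
            exact hn l (Finset.mem_sdiff.2 ⟨hl1, hlS⟩) (Int.natCast_dvd.1 hl2)
          · intro hl
            exact ⟨hS hl, hSd l hl⟩
        rw [if_pos h6]
      · rw [if_neg hn]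
        split_ifs
        · exact zero_le_one
        · exact le_refl _
    · have h4 : ∑ T ∈ P.powerset, (if ∀ l ∈ S ∪ T, (l : ℤ) ∣ fv d k p then ll T else 0) = 0 := by
        apply Finset.sum_eq_zero
        intro T _
        rw [if_neg]
        intro h
        exact hSd (fun l hl => h l (Finset.mem_union_left _ hl))
      rw [h4]
      split_ifs
      · exact zero_le_one
      · exact le_refl _
  · -- main term
    have h1 : ∑ T ∈ P.powerset, ll T * (LL * ∏ l ∈ S ∪ T, g l) =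
        LL * (∏ l ∈ S, g l) * ∑ T ∈ P.powerset, ll T * ∏ l ∈ T, g l := by
      rw [Finset.mul_sum]
      apply Finset.sum_congr rfl
      intro T hT
      rw [Finset.prod_union (hSP T (Finset.mem_powerset.1 hT))]
      ring
    rw [h1]
    have h2 : Vx d k w (1 / 400) x ≤ ∏ p ∈ P, (1 - g p) := by
      unfold Vx
      have h3 : ∏ l ∈ Q, (1 - g l) = (∏ l ∈ Q \ S, (1 - g l)) * ∏ l ∈ S, (1 - g l) :=
        (Finset.prod_sdiff hS).symm
      have h4 : ∏ l ∈ prs w (x ^ ((1 : ℝ) / 400)), (1 - (rt d k l : ℝ) / ((l : ℝ) - 1)) =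
        ∏ l ∈ Q, (1 - g l) := rfl
      rw [h4, h3]
      have h5 : 0 ≤ ∏ l ∈ Q \ S, (1 - g l) :=
        Finset.prod_nonneg (fun l hl => by
          have := hg0 l (Finset.sdiff_subset hl)
          linarith [this.2])
      have h6 : ∏ l ∈ S, (1 - g l) ≤ 1 :=
        Finset.prod_le_one (fun l hl => by
          have := hg0 l (hS hl)
          linarith [this.2]) (fun l hl => by
          have := hg0 l (hS hl)
          linarith [this.1])
      calc (∏ l ∈ Q \ S, (1 - g l)) * ∏ l ∈ S, (1 - g l) ≤ (∏ l ∈ Q \ S, (1 - g l)) * 1 :=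
            mul_le_mul_of_nonneg_left h6 h5
        _ = ∏ l ∈ Q \ S, (1 - g l) := mul_one _
    have h7 : 0 ≤ ∏ l ∈ S, g l := Finset.prod_nonneg (fun l hl => (hg0 l (hS hl)).1)
    apply mul_le_mul_of_nonneg_left _ (mul_nonneg hLL0 h7)
    refine le_trans ?_ hmain
    exact mul_le_mul_of_nonneg_left h2 (by norm_num)

end Pool.Agent.MPdff
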