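import Pool.Agent.Lib.MP_dff12b_nt.SpecS
import Pool.Agent.Lib.BV.Bnf
import Pool.Agent.Lib.BV.Esy

/-! # MP_dff12b_nt, theorem A, part S: the main terms -/

namespace Pool.Agent.MPdff

open Finset Pool.Agent.Lib.BV

private theorem mn_exp {t : ℝ} (h0 : 0 ≤ t) (h1 : t ≤ 1 / 2) : Real.exp (-(2 * t)) ≤ 1 - t := by
  have h2 : 1 ≤ (1 - t) * Real.exp (2 * t) := by
    have h3 := Real.add_one_le_exp (2 * t)
    have h4 : (1 - t) * (2 * t + 1) ≤ (1 - t) * Real.exp (2 * t) :=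
      mul_le_mul_of_nonneg_left h3 (by linarith)
    nlinarith
  rw [Real.exp_neg, inv_le_iff_one_le_mul₀ (Real.exp_pos _)]
  exact h2

private theorem mn_V {Q : Finset ℕ} {h : ℕ → ℝ} (hh : ∀ p ∈ Q, 0 ≤ h p ∧ h p ≤ 1 / 2)
    (hs : ∑ p ∈ Q, h p ≤ 3) : Real.exp (-6) ≤ ∏ p ∈ Q, (1 - h p) := by
  calc Real.exp (-6) ≤ Real.exp (∑ p ∈ Q, -(2 * h p)) := by
        refine Real.exp_le_exp.2 ?_
        rw [sum_neg_distrib, ← mul_sum]
        linarith
    _ = ∏ p ∈ Q, Real.exp (-(2 * h p)) := Real.exp_sum _ _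
    _ ≤ ∏ p ∈ Q, (1 - h p) :=
        prod_le_prod (fun p _ => (Real.exp_pos _).le) fun p hp => mn_exp (hh p hp).1 (hh p hp).2

private theorem mn_U {Q : Finset ℕ} {h : ℕ → ℝ} (hh : ∀ p ∈ Q, 0 ≤ h p ∧ h p ≤ 1 / 2)
    (hs : ∑ p ∈ Q, h p ≤ 3) (r : ℕ) :
    ∑ s ∈ Q.powersetCard r, ∏ p ∈ s, h p ≤ Real.exp (23 - 2 * r) := by
  classical
  have h1 := (tEsy.1 Q (fun p => if p ∈ Q then h p else 0) r fun i => by
    split_ifs with hi
    · exact (hh i hi).1
    · exact le_rfl)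
  have h2 : ∑ s ∈ Q.powersetCard r, ∏ p ∈ s, (if p ∈ Q then h p else 0) =
      ∑ s ∈ Q.powersetCard r, ∏ p ∈ s, h p := by
    refine sum_congr rfl fun s hs' => prod_congr rfl fun p hp => ?_
    rw [if_pos ((mem_powersetCard.1 hs').1 hp)]
  have h3 : ∑ p ∈ Q, (if p ∈ Q then h p else 0) = ∑ p ∈ Q, h p :=
    sum_congr rfl fun p hp => if_pos hp
  rw [h2, h3] at h1
  have h0 : 0 ≤ ∑ p ∈ Q, h p := sum_nonneg fun p hp => (hh p hp).1
  refine h1.trans ?_
  have h4 : (∑ p ∈ Q, h p) ^ r / (r.factorial : ℝ) ≤ 3 ^ r / (r.factorial : ℝ) :=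
    div_le_div_of_nonneg_right (pow_le_pow_left₀ h0 hs r) (Nat.cast_nonneg _)
  refine h4.trans ?_
  have he2 : 3 * Real.exp 2 ≤ 23 := by
    have h5 : Real.exp 2 = Real.exp 1 * Real.exp 1 := by
      rw [← Real.exp_add]
      norm_num
    have h6 := Real.exp_one_lt_d9
    have h7 := Real.exp_pos 1
    rw [h5]
    nlinarith
  have h5 := Real.pow_div_factorial_le_exp (3 * Real.exp 2) (by positivity) r
  have h6 : (3 * Real.exp 2) ^ r / (r.factorial : ℝ) =
      3 ^ r / (r.factorial : ℝ) * Real.exp (2 * r) := by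
    rw [mul_pow, ← Real.exp_nat_mul, mul_comm (r : ℝ) 2]
    ring
  rw [h6] at h5
  have h7 : 3 ^ r / (r.factorial : ℝ) =
      3 ^ r / (r.factorial : ℝ) * Real.exp (2 * r) * Real.exp (-(2 * r)) := by
    rw [mul_assoc, ← Real.exp_add, add_neg_cancel, Real.exp_zero, mul_one]
  rw [h7]
  calc 3 ^ r / (r.factorial : ℝ) * Real.exp (2 * r) * Real.exp (-(2 * r))
      ≤ Real.exp (3 * Real.exp 2) * Real.exp (-(2 * r)) :=
        mul_le_mul_of_nonneg_right h5 (Real.exp_pos _).le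
    _ ≤ Real.exp 23 * Real.exp (-(2 * r)) :=
        mul_le_mul_of_nonneg_right (Real.exp_le_exp.2 he2) (Real.exp_pos _).le
    _ = Real.exp (23 - 2 * r) := by rw [← Real.exp_add, sub_eq_add_neg]

private theorem mn_geo (n : ℕ) : ∑ j ∈ range n, (1 / 4 : ℝ) * (1 / 2) ^ (j + 1) ≤ 1 / 4 := by
  have h1 : ∑ j ∈ range n, (1 / 4 : ℝ) * (1 / 2) ^ (j + 1) = 1 / 4 * (1 - (1 / 2) ^ n) := by
    induction n with
    | zero => simp
    | succ n ih => rw [sum_range_succ, ih]; ring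
  rw [h1]
  have : (0 : ℝ) ≤ (1 / 2) ^ n := by positivity
  linarith

private theorem mn_c (j : ℕ) : Real.exp (-13 - 4 * (j : ℝ)) ≤ (1 / 4 : ℝ) * (1 / 2) ^ (j + 1) := by
  have h1 : Real.exp (-13) ≤ 1 / 8 := by
    rw [Real.exp_neg, one_div]
    refine inv_anti₀ (by norm_num) ?_
    have := Real.add_one_le_exp (13 : ℝ)
    linarith
  have h2 : Real.exp (-4) ≤ 1 / 2 := by
    rw [Real.exp_neg, one_div]
    refine inv_anti₀ (by norm_num) ?_
    have := Real.add_one_le_exp (4 : ℝ)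
    linarith
  have h3 : Real.exp (-13 - 4 * (j : ℝ)) = Real.exp (-13) * Real.exp (-4) ^ j := by
    rw [← Real.exp_nat_mul, ← Real.exp_add]
    congr 1
    ring
  rw [h3]
  calc Real.exp (-13) * Real.exp (-4) ^ j ≤ 1 / 8 * (1 / 2) ^ j :=
        mul_le_mul h1 (pow_le_pow_left₀ (Real.exp_pos _).le h2 j) (by positivity) (by norm_num)
    _ = (1 / 4 : ℝ) * (1 / 2) ^ (j + 1) := by ring

theorem tMn : S_Blk → S_Exp → S_Mn := by
  classical
  intro hBlk hExp z P h hz hP hh hsum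
  obtain ⟨hdis, hcov⟩ := hBlk z P hz hP
  obtain ⟨hE1, hE2⟩ := hExp z 10 P h hz hP
  have hbP : ∀ j, bk P z j ⊆ P := fun j => filter_subset _ _
  have hbh : ∀ j, ∀ p ∈ bk P z j, 0 ≤ h p ∧ h p ≤ 1 / 2 := fun j p hp => hh p (hbP j hp)
  have hbs : ∀ j, ∑ p ∈ bk P z j, h p ≤ 3 := fun j => hsum (thr z j)
  set V : ℕ → ℝ := fun j => ∏ p ∈ bk P z j, (1 - h p) with hV
  set y : ℕ → ℝ := fun j => ∑ s ∈ lowS (bk P z j) (2 * (10 + j)),
    (-1 : ℝ) ^ s.card * ∏ p ∈ s, h p with hy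
  set U : ℕ → ℝ := fun j => ∑ s ∈ (bk P z j).powersetCard (2 * (10 + j) + 1), ∏ p ∈ s, h p
    with hU
  set c : ℕ → ℝ := fun j => Real.exp (-13 - 4 * (j : ℝ)) with hc
  have hV6 : ∀ j, Real.exp (-6) ≤ V j := fun j => mn_V (hbh j) (hbs j)
  have hV0 : ∀ j, 0 < V j := fun j => (Real.exp_pos _).trans_le (hV6 j)
  have hc0 : ∀ j, 0 < c j := fun j => Real.exp_pos _
  have hB : ∀ j, V j ≤ y j ∧ y j ≤ V j + U j := fun j =>
    tBnf (10 + j) (bk P z j) h fun p hp => ⟨(hbh j p hp).1, (hbh j p hp).2.trans (by norm_num)⟩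
  have hUc : ∀ j, U j ≤ c j * V j := by
    intro j
    refine (mn_U (hbh j) (hbs j) (2 * (10 + j) + 1)).trans ?_
    have h1 : Real.exp (23 - 2 * ((2 * (10 + j) + 1 : ℕ) : ℝ)) = c j * Real.exp (-6) := by
      simp only [hc]
      rw [← Real.exp_add]
      congr 1
      push_cast
      ring
    rw [h1]
    exact mul_le_mul_of_nonneg_left (hV6 j) (hc0 j).le
  have hy0 : ∀ j, 0 < y j := fun j => (hV0 j).trans_le (hB j).1
  have hcs : ∑ j ∈ range z, c j ≤ 1 / 4 :=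
    (sum_le_sum fun j _ => mn_c j).trans (mn_geo z)
  have hVP : ∏ j ∈ range z, V j = ∏ p ∈ P, (1 - h p) := by
    conv_rhs => rw [← hcov]
    exact (prod_biUnion fun i _ j _ hij => hdis i j hij).symm
  have hVp0 : 0 < ∏ j ∈ range z, V j := prod_pos fun j _ => hV0 j
  -- the upper bound for the product of the `y j`
  have hyV : ∏ j ∈ range z, y j ≤ 2 * ∏ j ∈ range z, V j := by
    calc ∏ j ∈ range z, y j ≤ ∏ j ∈ range z, (Real.exp (c j) * V j) := by
          refine prod_le_prod (fun j _ => (hy0 j).le) fun j _ => ?_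
          refine (hB j).2.trans ?_
          have h1 := Real.add_one_le_exp (c j)
          have h2 := hUc j
          have h3 : (c j + 1) * V j ≤ Real.exp (c j) * V j :=
            mul_le_mul_of_nonneg_right h1 (hV0 j).le
          linarith
      _ = Real.exp (∑ j ∈ range z, c j) * ∏ j ∈ range z, V j := by
          rw [prod_mul_distrib, Real.exp_sum]
      _ ≤ 2 * ∏ j ∈ range z, V j := by
          refine mul_le_mul_of_nonneg_right ?_ hVp0.le
          refine (Real.exp_le_exp.2 hcs).trans ?_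
          have h1 : Real.exp (1 / 4) ≤ Real.exp 1 ^ (1 / 4 : ℝ) := by
            rw [← Real.exp_mul, one_mul]
          have h2 : Real.exp (1 / 4) * (1 - 1 / 4) ≤ 1 := by
            have h3 := Real.add_one_le_exp (-(1 / 4) : ℝ)
            have h4 : Real.exp (1 / 4) * Real.exp (-(1 / 4)) = 1 := by
              rw [← Real.exp_add, add_neg_cancel, Real.exp_zero]
            have h5 := Real.exp_pos (1 / 4 : ℝ)
            nlinarith
          linarith
  have hVy : ∏ j ∈ range z, V j ≤ ∏ j ∈ range z, y j :=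
    prod_le_prod (fun j _ => (hV0 j).le) fun j _ => (hB j).1
  -- the correction terms
  have hcor : ∑ i ∈ range z, U i * ∏ j ∈ (range z).erase i, y j ≤
      (1 / 4) * ∏ j ∈ range z, y j := by
    have hyp0 : 0 < ∏ j ∈ range z, y j := prod_pos fun j _ => hy0 j
    calc ∑ i ∈ range z, U i * ∏ j ∈ (range z).erase i, y j
        ≤ ∑ i ∈ range z, c i * ∏ j ∈ range z, y j := by
          refine sum_le_sum fun i hi => ?_
          rw [← mul_prod_erase (range z) y hi, ← mul_assoc]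
          refine mul_le_mul_of_nonneg_right ?_ (prod_pos fun j _ => hy0 j).le
          exact (hUc i).trans (mul_le_mul_of_nonneg_left (hB i).1 (hc0 i).le)
      _ = (∑ i ∈ range z, c i) * ∏ j ∈ range z, y j := (sum_mul _ _ _).symm
      _ ≤ (1 / 4) * ∏ j ∈ range z, y j := mul_le_mul_of_nonneg_right hcs hyp0.le
  have hlm : ∑ S ∈ P.powerset, lm P z 10 S * ∏ p ∈ S, h p =
      ∏ j ∈ range z, y j - ∑ i ∈ range z, U i * ∏ j ∈ (range z).erase i, y j := by
    unfold lm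
    rw [sum_congr rfl fun S _ => sub_mul _ _ _, sum_sub_distrib, hE1]
    congr 1
    rw [sum_congr rfl fun S _ => sum_mul _ _ _, sum_comm]
    exact sum_congr rfl fun i hi => hE2 i hi
  refine ⟨?_, ?_⟩
  · rw [hE1, ← hVP]
    exact hyV
  · rw [hlm, ← hVP]
    linarith

end Pool.Agent.MPdff
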