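import Pool.Agent.Lib.MP_dff12b_nt.SpecS

/-!
MP_dff12b_nt, part S, module Prd: sums over the subsets of a disjoint union.
-/

namespace Pool.Agent.MPdff

open Finset Pool.Agent.Lib.BV

private lemma Prd_two (U V : Finset ℕ) (hUV : Disjoint U V) (F G : Finset ℕ → ℝ) :
    ∑ S ∈ (U ∪ V).powerset, F (S ∩ U) * G (S ∩ V) =
      (∑ s ∈ U.powerset, F s) * ∑ t ∈ V.powerset, G t := by
  classical
  rw [Finset.sum_mul_sum, ← Finset.sum_product']
  refine Finset.sum_bij' (fun S _ => (S ∩ U, S ∩ V)) (fun P _ => P.1 ∪ P.2) ?_ ?_ ?_ ?_ ?_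
  · intro S _
    rw [Finset.mem_product, Finset.mem_powerset, Finset.mem_powerset]
    exact ⟨Finset.inter_subset_right, Finset.inter_subset_right⟩
  · intro P hP
    rw [Finset.mem_product, Finset.mem_powerset, Finset.mem_powerset] at hP
    rw [Finset.mem_powerset]
    exact Finset.union_subset_union hP.1 hP.2
  · intro S hS
    rw [Finset.mem_powerset] at hS
    simp only
    rw [← Finset.inter_union_distrib_left]
    exact Finset.inter_eq_left.2 hS
  · intro P hP
    rw [Finset.mem_product, Finset.mem_powerset, Finset.mem_powerset] at hP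
    have h1 : P.2 ∩ U = ∅ := by
      rw [← Finset.disjoint_iff_inter_eq_empty]
      exact (hUV.mono_right hP.2).symm
    have h2 : P.1 ∩ V = ∅ := by
      rw [← Finset.disjoint_iff_inter_eq_empty]
      exact hUV.mono_left hP.1
    rw [Finset.union_inter_distrib_right, Finset.union_inter_distrib_right, h1, h2, Finset.union_empty,
      Finset.empty_union, Finset.inter_eq_left.2 hP.1, Finset.inter_eq_left.2 hP.2]
  · intro S _
    rfl

theorem tPrd : S_Prd := by
  classical
  intro J
  induction J with
  | zero =>
    intro B F _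
    simp
  | succ J ih =>
    intro B F hd
    have hd' : ∀ i ∈ range J, ∀ j ∈ range J, i ≠ j → Disjoint (B i) (B j) := by
      intro i hi j hj
      exact hd i (Finset.mem_range.2 (Nat.lt_succ_of_lt (Finset.mem_range.1 hi))) j
        (Finset.mem_range.2 (Nat.lt_succ_of_lt (Finset.mem_range.1 hj)))
    set U := (range J).biUnion B with hU
    have hUB : Disjoint U (B J) := by
      rw [hU, Finset.disjoint_biUnion_left]
      intro i hi
      have := Finset.mem_range.1 hi
      exact hd i (Finset.mem_range.2 (by omega)) J (Finset.mem_range.2 (by omega)) (by omega)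
    have h1 : (range (J + 1)).biUnion B = U ∪ B J := by
      rw [Finset.range_add_one, Finset.biUnion_insert, Finset.union_comm]
    rw [h1]
    have h2 : ∑ S ∈ (U ∪ B J).powerset, ∏ j ∈ range (J + 1), F j (S ∩ B j) =
        ∑ S ∈ (U ∪ B J).powerset, (∏ j ∈ range J, F j ((S ∩ U) ∩ B j)) * F J (S ∩ B J) := by
      apply Finset.sum_congr rfl
      intro S _
      rw [Finset.prod_range_succ]
      congr 1
      apply Finset.prod_congr rfl
      intro j hj
      have h3 : B j ⊆ U := Finset.subset_biUnion_of_mem B hj
      have h4 : (S ∩ U) ∩ B j = S ∩ B j := by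
        rw [Finset.inter_assoc, Finset.inter_eq_right.2 h3]
      rw [h4]
    rw [h2, Prd_two U (B J) hUB (fun s => ∏ j ∈ range J, F j (s ∩ B j)) (F J), ih B F hd',
      Finset.prod_range_succ]

end Pool.Agent.MPdff
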