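import Pool.Agent.Lib.MP_dff12b_nt.SpecL

/-!
# MP_dff12b_nt, theorem A, part L: partial summation
-/

namespace Pool.Agent.MPdff

open Finset Filter Topology NumberField Pool.Agent.Results.MP_00e23e_nt

/-- Sums over the primes up to `t`. -/
private noncomputable def psS (f : ℕ → ℝ) (t : ℝ) : ℝ :=
  ∑ l ∈ (Icc 1 ⌊t⌋₊).filter Nat.Prime, f l

private theorem ps_prs (f : ℕ → ℝ) (s t : ℝ) (hs : 0 ≤ s) (hst : s ≤ t) :
    ∑ l ∈ prs s t, f l = psS f t - psS f s := by
  have h1 : (Icc 1 ⌊s⌋₊).filter Nat.Prime ⊆ (Icc 1 ⌊t⌋₊).filter Nat.Prime :=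
    filter_subset_filter _ (Icc_subset_Icc_right (Nat.floor_le_floor hst))
  have h2 : prs s t = (Icc 1 ⌊t⌋₊).filter Nat.Prime \ (Icc 1 ⌊s⌋₊).filter Nat.Prime := by
    ext l
    rw [prs, mem_filter, Finset.mem_sdiff, mem_filter, mem_filter, mem_Icc, mem_Icc, ← Nat.floor_lt hs]
    constructor
    · rintro ⟨h3, h4, h5⟩
      exact ⟨⟨h3, h4⟩, fun h => by omega⟩
    · rintro ⟨⟨h3, h4⟩, h5⟩
      refine ⟨h3, h4, ?_⟩
      by_contra h6
      exact h5 ⟨⟨h3.1, by omega⟩, h4⟩
  rw [h2, psS, psS, ← sum_sdiff h1]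
  ring

/-- The bounds for a short interval. -/
private theorem ps_bd (b : ℕ → ℝ) (hb : ∀ l, 0 ≤ b l) (x a c : ℝ) (hx : 1 < x) (ha : 0 < a)
    (hac : a ≤ c) :
    (psS (fun l => b l * Real.log l / l) (x ^ c) - psS (fun l => b l * Real.log l / l) (x ^ a)) /
        (c * Real.log x) ≤ psS (fun l => b l / l) (x ^ c) - psS (fun l => b l / l) (x ^ a) ∧
      psS (fun l => b l / l) (x ^ c) - psS (fun l => b l / l) (x ^ a) ≤
      (psS (fun l => b l * Real.log l / l) (x ^ c) - psS (fun l => b l * Real.log l / l) (x ^ a)) /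
        (a * Real.log x) := by
  have hx0 : 0 < x := by linarith
  have hlog : 0 < Real.log x := Real.log_pos hx
  have h0 : 0 ≤ x ^ a := (Real.rpow_pos_of_pos hx0 a).le
  have h1 : x ^ a ≤ x ^ c := Real.rpow_le_rpow_of_exponent_le hx.le hac
  have hc : 0 < c := lt_of_lt_of_le ha hac
  rw [← ps_prs _ _ _ h0 h1, ← ps_prs _ _ _ h0 h1, sum_div, sum_div]
  have key : ∀ l ∈ prs (x ^ a) (x ^ c), 0 ≤ b l / l ∧ a * Real.log x ≤ Real.log l ∧
      Real.log l ≤ c * Real.log x := by
    intro l hl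
    rw [prs, mem_filter, mem_Icc] at hl
    obtain ⟨⟨h2, h3⟩, h4, h5⟩ := hl
    have h6 : (0 : ℝ) < l := by exact_mod_cast h2
    have h7 : (l : ℝ) ≤ x ^ c :=
      (Nat.le_floor_iff (Real.rpow_pos_of_pos hx0 c).le).1 h3
    refine ⟨div_nonneg (hb l) h6.le, ?_, ?_⟩
    · rw [← Real.log_rpow hx0]
      exact Real.log_le_log (Real.rpow_pos_of_pos hx0 a) h5.le
    · rw [← Real.log_rpow hx0]
      exact Real.log_le_log h6 h7
  constructor
  · refine sum_le_sum fun l hl => ?_
    obtain ⟨h2, h3, h4⟩ := key l hl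
    rw [div_le_iff₀ (by positivity)]
    calc b l * Real.log l / l = b l / l * Real.log l := by ring
      _ ≤ b l / l * (c * Real.log x) := mul_le_mul_of_nonneg_left h4 h2
  · refine sum_le_sum fun l hl => ?_
    obtain ⟨h2, h3, h4⟩ := key l hl
    rw [le_div_iff₀ (by positivity)]
    calc b l / l * (a * Real.log x) ≤ b l / l * Real.log l := mul_le_mul_of_nonneg_left h3 h2
      _ = b l * Real.log l / l := by ring

/-- The limit along the reals. -/
private theorem ps_real (f : ℕ → ℝ)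
    (h : Tendsto (fun n : ℕ => (∑ l ∈ (Icc 1 n).filter Nat.Prime, f l) / Real.log n) atTop (𝓝 1)) :
    Tendsto (fun t : ℝ => psS f t / Real.log t) atTop (𝓝 1) := by
  have h1 : Tendsto (fun t : ℝ => psS f t / Real.log ⌊t⌋₊) atTop (𝓝 1) :=
    h.comp (tendsto_nat_floor_atTop (α := ℝ))
  have h2 : Tendsto (fun t : ℝ => Real.log ⌊t⌋₊ / Real.log t) atTop (𝓝 1) := by
    have h3 : Tendsto (fun t : ℝ => 1 - Real.log 2 / Real.log t) atTop (𝓝 (1 - 0)) :=
      tendsto_const_nhds.sub (Tendsto.div_atTop tendsto_const_nhds Real.tendsto_log_atTop)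
    rw [sub_zero] at h3
    refine tendsto_of_tendsto_of_tendsto_of_le_of_le' h3 tendsto_const_nhds ?_ ?_
    · filter_upwards [eventually_ge_atTop (2 : ℝ)] with t ht
      have ht0 : 0 < Real.log t := Real.log_pos (by linarith)
      have h4 : t / 2 ≤ ⌊t⌋₊ := by
        have := Nat.lt_floor_add_one t
        linarith
      have h5 : Real.log t - Real.log 2 ≤ Real.log ⌊t⌋₊ := by
        rw [← Real.log_div (by linarith) (by norm_num)]
        exact Real.log_le_log (by linarith) h4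
      rw [le_div_iff₀ ht0, sub_mul, one_mul, div_mul_cancel₀ _ ht0.ne']
      exact h5
    · filter_upwards [eventually_ge_atTop (2 : ℝ)] with t ht
      have ht0 : 0 < Real.log t := Real.log_pos (by linarith)
      have h4 : (⌊t⌋₊ : ℝ) ≤ t := Nat.floor_le (by linarith)
      have h5 : 1 ≤ ⌊t⌋₊ := Nat.le_floor (by norm_num; linarith)
      rw [div_le_one ht0]
      exact Real.log_le_log (by exact_mod_cast h5) h4
  have h3 := h1.mul h2
  rw [one_mul] at h3
  refine h3.congr' ?_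
  filter_upwards [eventually_ge_atTop (2 : ℝ)] with t ht
  have h5 : 2 ≤ ⌊t⌋₊ := Nat.le_floor (by exact_mod_cast ht)
  have h6 : 0 < Real.log ⌊t⌋₊ := Real.log_pos (by exact_mod_cast (by omega : 1 < ⌊t⌋₊))
  field_simp

private theorem ps_pow (f : ℕ → ℝ)
    (h : Tendsto (fun n : ℕ => (∑ l ∈ (Icc 1 n).filter Nat.Prime, f l) / Real.log n) atTop (𝓝 1))
    (c : ℝ) (hc : 0 < c) :
    Tendsto (fun x : ℝ => psS f (x ^ c) / Real.log x) atTop (𝓝 c) := by
  have h1 := ((ps_real f h).comp (tendsto_rpow_atTop hc)).const_mul c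
  rw [mul_one] at h1
  refine h1.congr' ?_
  filter_upwards [eventually_gt_atTop (1 : ℝ)] with x hx
  have h2 : 0 < Real.log x := Real.log_pos hx
  rw [Function.comp_apply, Real.log_rpow (by linarith)]
  field_simp

theorem tPs : S_Ps := by
  intro b hb h u v hu huv
  set f : ℕ → ℝ := fun l => b l * Real.log l / l with hf
  set g : ℕ → ℝ := fun l => b l / l with hg
  set ℓ := Real.log (v / u) with hℓ
  have hvu : 1 < v / u := (one_lt_div hu).2 huv
  have hℓ0 : 0 < ℓ := Real.log_pos hvu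
  -- the function
  have hfun : ∀ᶠ x : ℝ in atTop, ∑ l ∈ prs (x ^ u) (x ^ v), b l / l = psS g (x ^ v) - psS g (x ^ u) := by
    filter_upwards [eventually_gt_atTop (1 : ℝ)] with x hx
    exact ps_prs g _ _ (Real.rpow_nonneg (by linarith) u)
      (Real.rpow_le_rpow_of_exponent_le hx.le huv.le)
  refine Tendsto.congr' (EventuallyEq.symm hfun) ?_
  -- the ratio tends to 1
  have hr : Tendsto (fun K : ℕ => Real.exp (ℓ / K)) atTop (𝓝 1) := by
    have h1 : Tendsto (fun K : ℕ => ℓ / (K : ℝ)) atTop (𝓝 0) :=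
      Tendsto.div_atTop tendsto_const_nhds tendsto_natCast_atTop_atTop
    have := (Real.continuous_exp.tendsto 0).comp h1
    rwa [Real.exp_zero] at this
  have main : ∀ K : ℕ, 1 ≤ K →
      (∀ δ : ℝ, (K : ℝ) * (Real.exp (ℓ / K) - 1) < δ →
        ∀ᶠ x : ℝ in atTop, psS g (x ^ v) - psS g (x ^ u) < δ) ∧
      (∀ δ : ℝ, δ < (K : ℝ) * (1 - (Real.exp (ℓ / K))⁻¹) →
        ∀ᶠ x : ℝ in atTop, δ < psS g (x ^ v) - psS g (x ^ u)) := by
    intro K hK
    have hK0 : (0 : ℝ) < K := by exact_mod_cast hK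
    set r := Real.exp (ℓ / K) with hr'
    have hr1 : 1 < r := Real.one_lt_exp_iff.2 (by positivity)
    have hr0 : 0 < r := by linarith
    set w : ℕ → ℝ := fun i => u * r ^ i with hw
    have hw0 : w 0 = u := by simp [hw]
    have hwK : w K = v := by
      have : r ^ K = v / u := by
        rw [hr', ← Real.exp_nat_mul, mul_div_cancel₀ _ hK0.ne', hℓ, Real.exp_log (by positivity)]
      rw [hw]
      simp only
      rw [this]
      field_simp
    have hwp : ∀ i, 0 < w i := fun i => by positivity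
    have hws : ∀ i, w (i + 1) = w i * r := fun i => by
      simp only [hw, pow_succ]
      ring
    have hwm : ∀ i, w i ≤ w (i + 1) := fun i => by
      rw [hws]
      exact le_mul_of_one_le_right (hwp i).le hr1.le
    have htel : ∀ x : ℝ, psS g (x ^ v) - psS g (x ^ u) =
        ∑ i ∈ range K, (psS g (x ^ w (i + 1)) - psS g (x ^ w i)) := by
      intro x
      rw [sum_range_sub (fun i => psS g (x ^ w i)), hw0, hwK]
    have hlim : ∀ (i : ℕ) (c : ℝ), 0 < c → Tendsto (fun x : ℝ =>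
        (psS f (x ^ w (i + 1)) - psS f (x ^ w i)) / (c * Real.log x)) atTop
        (𝓝 ((w (i + 1) - w i) / c)) := by
      intro i c hc
      have h1 := ((ps_pow f h (w (i + 1)) (hwp _)).sub (ps_pow f h (w i) (hwp _))).div_const c
      refine h1.congr' ?_
      filter_upwards [eventually_gt_atTop (1 : ℝ)] with x hx
      have h2 : 0 < Real.log x := Real.log_pos hx
      field_simp
    constructor
    · intro δ hδ
      have h1 : Tendsto (fun x : ℝ => ∑ i ∈ range K,
          (psS f (x ^ w (i + 1)) - psS f (x ^ w i)) / (w i * Real.log x)) atTop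
          (𝓝 (∑ i ∈ range K, (w (i + 1) - w i) / w i)) :=
        tendsto_finsetSum _ fun i _ => hlim i (w i) (hwp i)
      have h2 : ∑ i ∈ range K, (w (i + 1) - w i) / w i = K * (r - 1) := by
        rw [sum_congr rfl (g := fun _ => r - 1) fun i _ => by
          rw [hws, div_eq_iff (hwp i).ne']
          ring]
        rw [sum_const, card_range, nsmul_eq_mul]
      rw [h2] at h1
      filter_upwards [h1.eventually_lt_const hδ, eventually_gt_atTop (1 : ℝ)] with x h3 h4
      rw [htel]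
      refine (sum_le_sum fun i _ => ?_).trans_lt h3
      exact (ps_bd b hb x (w i) (w (i + 1)) h4 (hwp i) (hwm i)).2
    · intro δ hδ
      have h1 : Tendsto (fun x : ℝ => ∑ i ∈ range K,
          (psS f (x ^ w (i + 1)) - psS f (x ^ w i)) / (w (i + 1) * Real.log x)) atTop
          (𝓝 (∑ i ∈ range K, (w (i + 1) - w i) / w (i + 1))) :=
        tendsto_finsetSum _ fun i _ => hlim i (w (i + 1)) (hwp (i + 1))
      have h2 : ∑ i ∈ range K, (w (i + 1) - w i) / w (i + 1) = K * (1 - r⁻¹) := by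
        rw [sum_congr rfl (g := fun _ => 1 - r⁻¹) fun i _ => by
          rw [hws]
          have := (hwp i).ne'
          field_simp]
        rw [sum_const, card_range, nsmul_eq_mul]
      rw [h2] at h1
      filter_upwards [h1.eventually_const_lt hδ, eventually_gt_atTop (1 : ℝ)] with x h3 h4
      rw [htel]
      refine h3.trans_le (sum_le_sum fun i _ => ?_)
      exact (ps_bd b hb x (w i) (w (i + 1)) h4 (hwp i) (hwm i)).1
  have hK1 : ∀ K : ℕ, 1 ≤ K → (K : ℝ) * (1 - (Real.exp (ℓ / K))⁻¹) ≤ ℓ ∧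
      ℓ ≤ (K : ℝ) * (Real.exp (ℓ / K) - 1) := by
    intro K hK
    have hK0 : (0 : ℝ) < K := by exact_mod_cast hK
    have h1 := Real.one_sub_inv_le_log_of_pos (Real.exp_pos (ℓ / K))
    have h2 := Real.log_le_sub_one_of_pos (Real.exp_pos (ℓ / K))
    rw [Real.log_exp] at h1 h2
    constructor
    · calc (K : ℝ) * (1 - (Real.exp (ℓ / K))⁻¹) ≤ K * (ℓ / K) := by gcongr
        _ = ℓ := by field_simp
    · calc ℓ = K * (ℓ / K) := by field_simp
        _ ≤ _ := by gcongr
  refine tendsto_order.2 ⟨fun δ hδ => ?_, fun δ hδ => ?_⟩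
  · have h1 : Tendsto (fun K : ℕ => ℓ / Real.exp (ℓ / K)) atTop (𝓝 (ℓ / 1)) :=
      tendsto_const_nhds.div hr one_ne_zero
    rw [div_one] at h1
    obtain ⟨K, h2, h3⟩ := ((h1.eventually_const_lt hδ).and (eventually_ge_atTop 1)).exists
    refine (main K h3).2 δ (h2.trans_le ?_)
    have h4 := (hK1 K h3).2
    have h5 := Real.exp_pos (ℓ / K)
    rw [div_le_iff₀ h5, mul_assoc, sub_mul, one_mul, inv_mul_cancel₀ h5.ne']
    exact h4
  · have h1 : Tendsto (fun K : ℕ => ℓ * Real.exp (ℓ / K)) atTop (𝓝 (ℓ * 1)) :=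
      tendsto_const_nhds.mul hr
    rw [mul_one] at h1
    obtain ⟨K, h2, h3⟩ := ((h1.eventually_lt_const hδ).and (eventually_ge_atTop 1)).exists
    refine (main K h3).1 δ (lt_of_le_of_lt ?_ h2)
    have h4 := (hK1 K h3).1
    have h5 := Real.exp_pos (ℓ / K)
    calc (K : ℝ) * (Real.exp (ℓ / K) - 1) =
        (K : ℝ) * (1 - (Real.exp (ℓ / K))⁻¹) * Real.exp (ℓ / K) := by
          rw [mul_assoc, sub_mul, one_mul, inv_mul_cancel₀ h5.ne']
      _ ≤ ℓ * Real.exp (ℓ / K) := by gcongr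

end Pool.Agent.MPdff
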