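import Pool.Agent.Lib.MP_dff12b_nt.SpecS
import Pool.Agent.Lib.BV.Bnf
import Pool.Agent.Lib.BV.Hly

/-!
MP_dff12b_nt, part S, module Pt: the pointwise inequalities.
-/

namespace Pool.Agent.MPdff

open Finset Pool.Agent.Lib.BV

private lemma Pt_dvi (p n : ℕ) : 0 ≤ dvi p n ∧ dvi p n ≤ 1 := by
  unfold dvi
  split_ifs <;> norm_num

theorem tPt (hB : S_Blk) (hE : S_Exp) : S_Pt := by
  classical
  intro z b N P hz hP
  have hmain := tHly z (fun j => ∏ p ∈ bk P z j, (1 - dvi p N))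
    (fun j => ∑ s ∈ lowS (bk P z j) (2 * (b + j)), (-1 : ℝ) ^ s.card * ∏ p ∈ s, dvi p N)
    (fun j => ∑ s ∈ (bk P z j).powersetCard (2 * (b + j) + 1), ∏ p ∈ s, dvi p N)
    (fun j _ => by
      have h1 := tBnf (b + j) (bk P z j) (fun p => dvi p N) (fun p _ => Pt_dvi p N)
      refine ⟨?_, h1.1, h1.2⟩
      apply Finset.prod_nonneg
      intro p _
      have := (Pt_dvi p N).2
      linarith)
  have hblk := hB z P hz hP
  have hprod : ∏ j ∈ range z, ∏ p ∈ bk P z j, (1 - dvi p N) = ∏ p ∈ P, (1 - dvi p N) := by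
    conv_rhs => rw [← hblk.2]
    rw [Finset.prod_biUnion]
    intro i _ j _ hij
    exact hblk.1 i j hij
  have hexp := hE z b P (fun p => dvi p N) hz hP
  have h1 : ∑ S ∈ P.powerset, lm P z b S * ∏ p ∈ S, dvi p N =
      ∑ S ∈ P.powerset, lp P z b S * ∏ p ∈ S, dvi p N -
        ∑ i ∈ range z, ∑ S ∈ P.powerset, lw P z b i S * ∏ p ∈ S, dvi p N := by
    rw [Finset.sum_comm, ← Finset.sum_sub_distrib]
    apply Finset.sum_congr rfl
    intro S _
    unfold lm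
    rw [sub_mul, Finset.sum_mul]
  have h2 : ∑ i ∈ range z, ∑ S ∈ P.powerset, lw P z b i S * ∏ p ∈ S, dvi p N =
      ∑ i ∈ range z, (∑ s ∈ (bk P z i).powersetCard (2 * (b + i) + 1), ∏ p ∈ s, dvi p N) *
        ∏ j ∈ (range z).erase i,
          ∑ s ∈ lowS (bk P z j) (2 * (b + j)), (-1 : ℝ) ^ s.card * ∏ p ∈ s, dvi p N :=
    Finset.sum_congr rfl (fun i hi => hexp.2 i hi)
  rw [hprod] at hmain
  rw [h1, h2, hexp.1]
  constructor
  · linarith [hmain.2]
  · exact hmain.1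

end Pool.Agent.MPdff
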