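import Pool.Agent.Lib.MP_dff12b_nt.SpecL
import Pool.Agent.Lib.BV.Msb

/-!
MP_dff12b_nt, part L, module Rp: a crude upper bound for the sum of the reciprocals of the primes.
-/

namespace Pool.Agent.MPdff

open Finset Filter Topology NumberField Pool.Agent.Results.MP_00e23e_nt

private lemma Rp_ind (κ : ℝ)
    (h : ∀ t : ℕ, ∑ p ∈ (Ioc (Nat.sqrt t) t).filter Nat.Prime, 1 / (p : ℝ) ≤ κ) (k : ℕ) :
    ∀ n : ℕ, n < 2 ^ 2 ^ k → ∑ l ∈ (Icc 1 n).filter Nat.Prime, 1 / (l : ℝ) ≤ κ * k := by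
  induction k with
  | zero =>
    intro n hn
    have h1 : (Icc 1 n).filter Nat.Prime = ∅ := by
      apply Finset.filter_eq_empty_iff.2
      intro p hp hpp
      have := Finset.mem_Icc.1 hp
      have := hpp.two_le
      simp at hn
      omega
    rw [h1]
    simp
  | succ k ih =>
    intro n hn
    have h1 : Nat.sqrt n < 2 ^ 2 ^ k := by
      rw [Nat.sqrt_lt', ← pow_mul]
      have : 2 ^ k * 2 = 2 ^ (k + 1) := by ring
      rw [this]
      exact hn
    have h2 := ih _ h1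
    have h3 : (Icc 1 n).filter Nat.Prime ⊆ (Icc 1 (Nat.sqrt n)).filter Nat.Prime ∪
        (Ioc (Nat.sqrt n) n).filter Nat.Prime := by
      intro p hp
      rw [Finset.mem_filter, Finset.mem_Icc] at hp
      rw [Finset.mem_union, Finset.mem_filter, Finset.mem_filter, Finset.mem_Icc, Finset.mem_Ioc]
      by_cases h4 : p ≤ Nat.sqrt n
      · exact Or.inl ⟨⟨hp.1.1, h4⟩, hp.2⟩
      · exact Or.inr ⟨⟨not_le.1 h4, hp.1.2⟩, hp.2⟩
    have h5 : ∑ l ∈ (Icc 1 n).filter Nat.Prime, 1 / (l : ℝ) ≤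
        ∑ l ∈ (Icc 1 (Nat.sqrt n)).filter Nat.Prime ∪ (Ioc (Nat.sqrt n) n).filter Nat.Prime, 1 / (l : ℝ) :=
      Finset.sum_le_sum_of_subset_of_nonneg h3 (fun i _ _ => by positivity)
    have h6 : ∑ l ∈ (Icc 1 (Nat.sqrt n)).filter Nat.Prime ∪ (Ioc (Nat.sqrt n) n).filter Nat.Prime, 1 / (l : ℝ) =
        ∑ l ∈ (Icc 1 (Nat.sqrt n)).filter Nat.Prime, 1 / (l : ℝ) +
          ∑ l ∈ (Ioc (Nat.sqrt n) n).filter Nat.Prime, 1 / (l : ℝ) := by
      apply Finset.sum_union
      rw [Finset.disjoint_left]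
      intro p hp hp'
      have h7 := Finset.mem_Icc.1 (Finset.mem_filter.1 hp).1
      have h8 := Finset.mem_Ioc.1 (Finset.mem_filter.1 hp').1
      omega
    have h9 := h n
    push_cast
    linarith

theorem tRp : S_Rp := by
  obtain ⟨κ, hκ, hb⟩ := Pool.Agent.Lib.BV.tMsb
  refine ⟨2 * κ, by linarith, ?_⟩
  intro X hX
  set y := Real.log (Real.log X) with hy
  have hX0 : 0 < X := by linarith
  have hlogX : 1 ≤ Real.log X := by
    rw [Real.le_log_iff_exp_le hX0]
    have := Real.exp_one_lt_d9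
    linarith
  have hy0 : 0 ≤ y := Real.log_nonneg hlogX
  set k := ⌈2 * y⌉₊ + 1 with hk
  have hkle : (k : ℝ) ≤ 2 * y + 2 := by
    have := Nat.ceil_lt_add_one (show (0 : ℝ) ≤ 2 * y by linarith)
    rw [hk]
    push_cast
    linarith
  have hl2 := Real.log_two_gt_d9
  have h1 : 2 * Real.log X ≤ (2 : ℝ) ^ k := by
    have h2 : (2 : ℝ) ^ k = Real.exp (Real.log 2 * k) := by
      rw [← Real.rpow_natCast, Real.rpow_def_of_pos (by norm_num)]
    have h3 : 2 * Real.log X = Real.exp (Real.log 2 + y) := by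
      rw [Real.exp_add, Real.exp_log (by norm_num), hy, Real.exp_log (by linarith)]
    rw [h2, h3]
    apply Real.exp_le_exp.2
    have h4 : 2 * y + 1 ≤ (k : ℝ) := by
      rw [hk]
      push_cast
      have := Nat.le_ceil (2 * y)
      linarith
    nlinarith
  have h2 : X < (2 : ℝ) ^ (2 ^ k : ℕ) := by
    have h3 : (2 : ℝ) ^ (2 ^ k : ℕ) = Real.exp (Real.log 2 * (2 : ℝ) ^ k) := by
      rw [← Real.rpow_natCast, Real.rpow_def_of_pos (by norm_num)]
      push_cast
      rfl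
    rw [h3]
    calc X = Real.exp (Real.log X) := (Real.exp_log hX0).symm
      _ < Real.exp (Real.log 2 * (2 : ℝ) ^ k) := by
        apply Real.exp_lt_exp.2
        nlinarith
  have h3 : ⌊X⌋₊ < 2 ^ 2 ^ k := by
    rw [Nat.floor_lt hX0.le]
    push_cast
    exact h2
  have h4 := Rp_ind κ hb k _ h3
  have h5 : κ * k ≤ κ * (2 * y + 2) := mul_le_mul_of_nonneg_left hkle (by linarith)
  linarith

end Pool.Agent.MPdff
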