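import Pool.Agent.Lib.MP_dff12b_nt.SpecR

/-! # MP_dff12b_nt, theorem A, part R: bounds for the number of roots -/

namespace Pool.Agent.MPdff

open Finset Pool.Agent.Results.MP_00e23e_nt

private theorem rtb_one (d : ℕ) (k : ℤ) (l : ℕ) (hd : 1 ≤ d) (hl : l.Prime) : rt d k l ≤ d := by
  classical
  have : Fact l.Prime := ⟨hl⟩
  have h0 : (Polynomial.X ^ d + Polynomial.C (k : ZMod l)) ≠ 0 :=
    Polynomial.X_pow_add_C_ne_zero hd _
  have h1 : (Polynomial.X ^ d + Polynomial.C (k : ZMod l)).natDegree = d :=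
    Polynomial.natDegree_X_pow_add_C
  unfold rt
  have h2 : ((range l).filter (fun v => (l : ℤ) ∣ fv d k v)).card ≤
      (Polynomial.X ^ d + Polynomial.C (k : ZMod l)).roots.toFinset.card := by
    refine card_le_card_of_injOn (fun v => (v : ZMod l)) ?_ ?_
    · intro v hv
      rw [mem_coe, mem_filter] at hv
      rw [mem_coe, Multiset.mem_toFinset, Polynomial.mem_roots h0, Polynomial.IsRoot.def,
        Polynomial.eval_add, Polynomial.eval_pow, Polynomial.eval_X, Polynomial.eval_C]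
      have h3 := (ZMod.intCast_zmod_eq_zero_iff_dvd (fv d k v) l).2 hv.2
      unfold fv at h3
      push_cast at h3
      exact h3
    · intro v hv w hw hvw
      rw [mem_coe, mem_filter, mem_range] at hv hw
      have h3 : (v : ZMod l) = (w : ZMod l) := hvw
      rw [ZMod.natCast_eq_natCast_iff'] at h3
      rwa [Nat.mod_eq_of_lt hv.1, Nat.mod_eq_of_lt hw.1] at h3
  refine h2.trans ((Multiset.toFinset_card_le _).trans ((Polynomial.card_roots' _).trans ?_))
  rw [h1]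

private theorem rtb_four (d : ℕ) (k : ℤ) (l : ℕ) (hd : 1 ≤ d) (hk : ¬ (l : ℤ) ∣ k) (v : ℕ)
    (hv : (l : ℤ) ∣ fv d k v) : ¬ l ∣ v := by
  intro h
  unfold fv at hv
  have h1 : (l : ℤ) ∣ (v : ℤ) ^ d := (Int.natCast_dvd_natCast.2 h).trans (dvd_pow_self _ (by omega))
  exact hk ((Int.dvd_add_right h1).1 hv)

private theorem rtb_two (d : ℕ) (k : ℤ) (l : ℕ) (hd : 1 ≤ d) (hl : l.Prime)
    (hk : ¬ (l : ℤ) ∣ k) (hld : ¬ l ∣ d) : rt d k (l ^ 2) ≤ rt d k l := by
  classical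
  have hlp : Prime (l : ℤ) := Nat.prime_iff_prime_int.1 hl
  unfold rt
  refine card_le_card_of_injOn (fun v => v % l) ?_ ?_
  · intro v hv
    rw [mem_coe, mem_filter] at hv
    rw [mem_coe, mem_filter, mem_range]
    refine ⟨Nat.mod_lt _ hl.pos, ?_⟩
    have h1 : (l : ℤ) ∣ fv d k v := by
      refine dvd_trans ?_ hv.2
      push_cast
      exact dvd_pow_self _ two_ne_zero
    have h2 : (l : ℤ) ∣ ((v % l : ℕ) : ℤ) - (v : ℤ) := by
      rw [← dvd_neg, neg_sub]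
      push_cast
      exact Int.dvd_self_sub_emod
    have h3 : (l : ℤ) ∣ ((v % l : ℕ) : ℤ) ^ d - (v : ℤ) ^ d := h2.trans (sub_dvd_pow_sub_pow _ _ d)
    unfold fv at h1 ⊢
    have h4 : ((v % l : ℕ) : ℤ) ^ d + k = (((v % l : ℕ) : ℤ) ^ d - (v : ℤ) ^ d) + ((v : ℤ) ^ d + k) := by
      ring
    rw [h4]
    exact dvd_add h3 h1
  · intro v hv w hw hvw
    rw [mem_coe, mem_filter, mem_range] at hv hw
    have hvw' : v % l = w % l := hvw
    have h1 : (l : ℤ) ∣ fv d k w := by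
      refine dvd_trans ?_ hw.2
      push_cast
      exact dvd_pow_self _ two_ne_zero
    have h2 : ¬ l ∣ w := rtb_four d k l hd hk w h1
    have h3 : (l : ℤ) ∣ (v : ℤ) - (w : ℤ) := by
      have h4 : w ≡ v [MOD l] := hvw'.symm
      exact (Nat.modEq_iff_dvd).1 h4
    have h4 : ((l ^ 2 : ℕ) : ℤ) ∣ (∑ i ∈ range d, (v : ℤ) ^ i * (w : ℤ) ^ (d - 1 - i)) *
        ((v : ℤ) - w) := by
      rw [(Commute.all (v : ℤ) (w : ℤ)).geom_sum₂_mul d]
      have h5 := dvd_sub hv.2 hw.2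
      unfold fv at h5
      rwa [add_sub_add_right_eq_sub] at h5
    have h5 : ¬ (l : ℤ) ∣ ∑ i ∈ range d, (v : ℤ) ^ i * (w : ℤ) ^ (d - 1 - i) := by
      rw [dvd_geom_sum₂_iff_of_dvd_sub h3]
      intro h6
      rcases hlp.dvd_or_dvd h6 with h7 | h7
      · exact hld (Int.natCast_dvd_natCast.1 h7)
      · exact h2 (Int.natCast_dvd_natCast.1 (hlp.dvd_of_dvd_pow h7))
    have h6 : IsCoprime ((l ^ 2 : ℕ) : ℤ) (∑ i ∈ range d, (v : ℤ) ^ i * (w : ℤ) ^ (d - 1 - i)) := by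
      push_cast
      exact ((hlp.coprime_iff_not_dvd).2 h5).pow_left
    have h7 : ((l ^ 2 : ℕ) : ℤ) ∣ (v : ℤ) - w := h6.dvd_of_dvd_mul_left h4
    have h8 : w ≡ v [MOD l ^ 2] := (Nat.modEq_iff_dvd).2 h7
    have h9 : w % l ^ 2 = v % l ^ 2 := h8
    rw [Nat.mod_eq_of_lt hv.1, Nat.mod_eq_of_lt hw.1] at h9
    exact h9.symm

theorem tRtb : S_Rtb := by
  classical
  intro d k l hd hl
  have hlp : Prime (l : ℤ) := Nat.prime_iff_prime_int.1 hl
  refine ⟨rtb_one d k l hd hl, fun hk hld => (rtb_two d k l hd hl hk hld).trans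
    (rtb_one d k l hd hl), fun hk => ?_, fun hk v hv => rtb_four d k l hd hk v hv⟩
  have h0 : (range l).filter (fun v => (l : ℤ) ∣ v * fv d k v) =
      insert 0 ((range l).filter (fun v => (l : ℤ) ∣ fv d k v)) := by
    ext v
    rw [mem_insert, mem_filter, mem_filter, mem_range]
    constructor
    · rintro ⟨h1, h2⟩
      rcases hlp.dvd_or_dvd h2 with h3 | h3
      · left
        exact Nat.eq_zero_of_dvd_of_lt (Int.natCast_dvd_natCast.1 h3) h1
      · exact Or.inr ⟨h1, h3⟩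
    · rintro (rfl | ⟨h1, h2⟩)
      · exact ⟨hl.pos, by simp⟩
      · exact ⟨h1, h2.mul_left _⟩
  rw [h0, card_insert_of_notMem, add_comm]
  · rfl
  · rw [mem_filter]
    rintro ⟨-, h1⟩
    exact rtb_four d k l hd hk 0 h1 (dvd_zero _)

end Pool.Agent.MPdff
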