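import Pool.Agent.Lib.MP_dff12b_nt.SpecL
import Pool.Agent.Lib.MP_706923_co.Ext

/-!
# MP_dff12b_nt, Rtk: the ideals of prime norm and the roots of X^d + k modulo primes
-/

set_option autoImplicit false

namespace Pool.Agent.MPdff

open Finset Filter Topology NumberField Pool.Agent.Results.MP_00e23e_nt

theorem tRtk : S_Kex → S_Hom → S_Rtk := by
  intro hKex hHom d k hd hirr
  obtain ⟨K, iF, iN, θ, hθ, htor⟩ := hKex d k hd hirr
  obtain ⟨N, hN0, hN⟩ := Pool.Agent.Lib.MP_706923_co.ext' K _ htor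
  obtain ⟨M, hM0, hM⟩ := Pool.Agent.Lib.MP_706923_co.ExtAux.exists_common K _ htor
  refine ⟨K, iF, iN, N + M, fun l hl hlw => ?_⟩
  have : Fact l.Prime := ⟨hl⟩
  have hlN : ¬ l ∣ N := fun h => by
    have := Nat.le_of_dvd hN0 h
    omega
  have hlM : ¬ l ∣ M := fun h => by
    have := Nat.le_of_dvd hM0 h
    omega
  have hMz : (M : ZMod l) ≠ 0 := fun h => hlM ((ZMod.natCast_eq_zero_iff M l).1 h)
  rw [hHom K l hl]
  have hθ0 : θ ^ d + (k : 𝓞 K) = 0 := by
    have h := (hθ (Polynomial.X ^ d + Polynomial.C k)).mpr dvd_rfl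
    simpa using h
  have hmem : ∀ φ : 𝓞 K →+* ZMod l, (φ θ).val ∈ (range l).filter (fun v => (l : ℤ) ∣ fv d k v) := by
    intro φ
    rw [mem_filter, mem_range]
    refine ⟨ZMod.val_lt _, ?_⟩
    rw [← ZMod.intCast_zmod_eq_zero_iff_dvd, fv]
    push_cast
    rw [ZMod.natCast_zmod_val]
    have h := congrArg φ hθ0
    rw [map_add, map_pow, map_zero, map_intCast] at h
    exact h
  have hinj : Function.Injective (fun φ : 𝓞 K →+* ZMod l =>
      (⟨(φ θ).val, hmem φ⟩ : {v // v ∈ (range l).filter (fun v => (l : ℤ) ∣ fv d k v)})) := by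
    intro φ φ' hφ
    have h1 : φ θ = φ' θ := ZMod.val_injective l (congrArg Subtype.val hφ)
    have h2 : φ.comp ((Polynomial.aeval θ : Polynomial ℤ →ₐ[ℤ] 𝓞 K) : Polynomial ℤ →+* 𝓞 K) =
        φ'.comp ((Polynomial.aeval θ : Polynomial ℤ →ₐ[ℤ] 𝓞 K) : Polynomial ℤ →+* 𝓞 K) := by
      apply Polynomial.ringHom_ext
      · intro a
        simp
      · simpa using h1
    ext y
    obtain ⟨P, hP⟩ := hM y
    have h3 := RingHom.congr_fun h2 P
    rw [RingHom.comp_apply, RingHom.comp_apply, hP, map_mul, map_mul, map_natCast, map_natCast] at h3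
    exact mul_left_cancel₀ hMz h3
  have hsurj : Function.Surjective (fun φ : 𝓞 K →+* ZMod l =>
      (⟨(φ θ).val, hmem φ⟩ : {v // v ∈ (range l).filter (fun v => (l : ℤ) ∣ fv d k v)})) := by
    rintro ⟨v, hv⟩
    rw [mem_filter, mem_range, ← ZMod.intCast_zmod_eq_zero_iff_dvd, fv] at hv
    obtain ⟨hvl, hv0⟩ := hv
    push_cast at hv0
    set g : Polynomial ℤ →+* ZMod l :=
      Polynomial.eval₂RingHom (Int.castRingHom (ZMod l)) (v : ZMod l) with hg
    set f : Polynomial ℤ →+* 𝓞 K :=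
      ((Polynomial.aeval θ : Polynomial ℤ →ₐ[ℤ] 𝓞 K) : Polynomial ℤ →+* 𝓞 K) with hf
    have hker : RingHom.ker f.rangeRestrict ≤ RingHom.ker g := by
      intro P hP
      rw [RingHom.mem_ker] at hP ⊢
      have h1 : Polynomial.aeval θ P = 0 := by
        have := congrArg Subtype.val hP
        exact this
      obtain ⟨Q, hQ⟩ := (hθ P).mp h1
      rw [hQ, map_mul]
      have h2 : g (Polynomial.X ^ d + Polynomial.C k) = 0 := by
        rw [hg]
        simpa using hv0
      rw [h2, zero_mul]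
    obtain ⟨φ₀, hφ₀⟩ : ∃ φ₀ : f.range →+* ZMod l, ∀ P : Polynomial ℤ, φ₀ (f.rangeRestrict P) = g P := by
      refine ⟨RingHom.liftOfSurjective f.rangeRestrict f.rangeRestrict_surjective ⟨g, hker⟩, ?_⟩
      intro P
      exact RingHom.liftOfRightInverse_comp_apply _ _ _ ⟨g, hker⟩ P
    obtain ⟨ψ, hψ⟩ := hN l hl hlN φ₀
    refine ⟨ψ, ?_⟩
    apply Subtype.ext
    change (ψ θ).val = v
    have h3 := hψ (f.rangeRestrict Polynomial.X)
    rw [hφ₀] at h3
    have h4 : ((f.rangeRestrict Polynomial.X : f.range) : 𝓞 K) = θ := by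
      rw [RingHom.coe_rangeRestrict, hf]
      simp
    rw [h4] at h3
    rw [h3, hg]
    simp [ZMod.val_natCast, Nat.mod_eq_of_lt hvl]
  rw [Nat.card_eq_of_bijective _ ⟨hinj, hsurj⟩, Nat.card_eq_fintype_card, Fintype.card_coe]
  rfl

end Pool.Agent.MPdff
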