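import Pool.Agent.Lib.MP_dff12b_nt.SpecS
import Pool.Agent.Lib.BV.Pbs
import Pool.Agent.Lib.BV.Lvl

/-! # MP_dff12b_nt, theorem A, part S: size and support of the weights -/

namespace Pool.Agent.MPdff

open Finset Pool.Agent.Lib.BV

private theorem sp_mu (b j : ℕ) (s : Finset ℕ) : |mu b j s| ≤ 1 := by
  unfold mu
  split_ifs
  · rw [abs_pow, abs_neg, abs_one, one_pow]
  · rw [abs_zero]
    exact zero_le_one

private theorem sp_prod (b : ℕ) (J : Finset ℕ) (f : ℕ → Finset ℕ) :
    |∏ j ∈ J, mu b j (f j)| ≤ 1 := by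
  rw [abs_prod]
  exact prod_le_one (fun _ _ => abs_nonneg _) fun j _ => sp_mu b j (f j)

private theorem sp_thr {z : ℕ} (hz : 1 ≤ z) (j : ℕ) : 1 ≤ thr z j := by
  induction j with
  | zero => exact hz
  | succ j ih => exact Nat.sqrt_pos.2 ih

private theorem sp_size (hBlk : S_Blk) {z b : ℕ} {P S : Finset ℕ} (hz : 2 ≤ z)
    (hP : ∀ p ∈ P, p.Prime ∧ p ≤ z) (hS : S ⊆ P)
    (hc : ∀ j ∈ range z, (S ∩ bk P z j).card ≤ 2 * (b + j) + 1) :
    ∏ p ∈ S, p ≤ z ^ (4 * b + 6) := by
  classical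
  obtain ⟨hdis, hcov⟩ := hBlk z P hz hP
  have h1 : S = (range z).biUnion fun j => S ∩ bk P z j := by
    ext p
    rw [mem_biUnion]
    constructor
    · intro hp
      have h2 := hS hp
      rw [← hcov, mem_biUnion] at h2
      obtain ⟨j, hj, hpj⟩ := h2
      exact ⟨j, hj, mem_inter.2 ⟨hp, hpj⟩⟩
    · rintro ⟨j, _, hpj⟩
      exact (mem_inter.1 hpj).1
  have h2 : ∏ p ∈ S, p = ∏ j ∈ range z, ∏ p ∈ S ∩ bk P z j, p := by
    conv_lhs => rw [h1]
    refine prod_biUnion fun i _ j _ hij => ?_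
    exact (hdis i j hij).mono inter_subset_right inter_subset_right
  have h3 : ∏ p ∈ S, p ≤ ∏ j ∈ range z, thr z j ^ (2 * (b + j) + 1) := by
    rw [h2]
    refine prod_le_prod' fun j hj => ?_
    calc ∏ p ∈ S ∩ bk P z j, p ≤ ∏ p ∈ S ∩ bk P z j, thr z j := by
          refine prod_le_prod' fun p hp => ?_
          exact (mem_filter.1 (mem_inter.1 hp).2).2.2
      _ = thr z j ^ (S ∩ bk P z j).card := prod_const _
      _ ≤ thr z j ^ (2 * (b + j) + 1) :=
          Nat.pow_le_pow_right (sp_thr (by omega) j) (hc j hj)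
  have h4 := tLvl tPbs z b (by omega)
  have h5 : ∏ j ∈ range z, thr z j ^ (2 * (b + j) + 1) ≤ z ^ (4 * b + 6) := by
    exact_mod_cast h4
  exact h3.trans h5

theorem tSp : S_Blk → S_Sp := by
  classical
  intro hBlk z b P S hz hP hS
  have hlp : |lp P z b S| ≤ 1 := by
    unfold lp
    exact sp_prod b _ _
  have hlw : ∀ i, |lw P z b i S| ≤ 1 := by
    intro i
    unfold lw
    rw [abs_mul]
    refine mul_le_one₀ ?_ (abs_nonneg _) (sp_prod b _ _)
    split_ifs
    · rw [abs_one]
    · rw [abs_zero]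
      exact zero_le_one
  by_cases hA : ∀ j ∈ range z, (S ∩ bk P z j).card ≤ 2 * (b + j)
  · -- all correction terms vanish
    have h1 : ∀ i ∈ range z, lw P z b i S = 0 := by
      intro i hi
      unfold lw
      have h2 := hA i hi
      rw [if_neg (by omega), zero_mul]
    have h2 : lm P z b S = lp P z b S := by
      unfold lm
      rw [sum_eq_zero h1, sub_zero]
    refine ⟨hlp, by rw [h2]; exact hlp, fun _ => ?_⟩
    exact sp_size hBlk hz hP hS fun j hj => (hA j hj).trans (Nat.le_succ _)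
  · push Not at hA
    obtain ⟨j0, hj0, hc0⟩ := hA
    have hmu : mu b j0 (S ∩ bk P z j0) = 0 := by
      unfold mu
      rw [if_neg (by omega)]
    have h1 : lp P z b S = 0 := by
      unfold lp
      exact prod_eq_zero hj0 hmu
    have h2 : ∀ i ∈ range z, i ≠ j0 → lw P z b i S = 0 := by
      intro i _ hij
      unfold lw
      rw [prod_eq_zero (mem_erase.2 ⟨fun h => hij h.symm, hj0⟩) hmu, mul_zero]
    have h3 : lm P z b S = -lw P z b j0 S := by
      unfold lm
      rw [h1, sum_eq_single_of_mem j0 hj0 fun i hi hij => h2 i hi hij, zero_sub]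
    refine ⟨hlp, by rw [h3, abs_neg]; exact hlw j0, fun h4 => ?_⟩
    rw [h1, h3] at h4
    have h5 : lw P z b j0 S ≠ 0 := by
      rcases h4 with h4 | h4
      · exact absurd rfl h4
      · exact fun h => h4 (by rw [h, neg_zero])
    refine sp_size hBlk hz hP hS fun j hj => ?_
    unfold lw at h5
    obtain ⟨h6, h7⟩ := mul_ne_zero_iff.1 h5
    by_cases hjj : j = j0
    · subst hjj
      by_contra h8
      exact h6 (if_neg (by omega))
    · have h8 := (prod_ne_zero_iff.1 h7) j (mem_erase.2 ⟨hjj, hj⟩)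
      by_contra h9
      refine h8 ?_
      unfold mu
      rw [if_neg (by omega)]

end Pool.Agent.MPdff
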