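import Pool.Agent.Lib.MP_dff12b_nt.SpecR

/-!
MP_dff12b_nt, part R, module Sqn: few n with a square divisor of f(n).
-/

namespace Pool.Agent.MPdff

open Finset Pool.Agent.Results.MP_00e23e_nt

private lemma Sqn_mem_prs {u v : ℝ} (hv : 0 ≤ v) {l : ℕ} :
    l ∈ prs u v ↔ (l.Prime ∧ u < l ∧ (l : ℝ) ≤ v) := by
  unfold prs
  rw [mem_filter, mem_Icc]
  constructor
  · rintro ⟨⟨_, h2⟩, h3, h4⟩
    exact ⟨h3, h4, (Nat.le_floor_iff hv).1 h2⟩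
  · rintro ⟨h1, h2, h3⟩
    exact ⟨⟨h1.one_lt.le, (Nat.le_floor_iff hv).2 h3⟩, h1, h2⟩

private lemma Sqn_per (d : ℕ) (k : ℤ) (m : ℕ) : Per m (fun n => (m : ℤ) ∣ fv d k n) := by
  intro n
  unfold fv
  have h : (m : ℤ) ∣ ((n + m : ℕ) : ℤ) ^ d + k - ((n : ℤ) ^ d + k) := by
    have h1 : ((n + m : ℕ) : ℤ) ^ d + k - ((n : ℤ) ^ d + k) = ((n + m : ℕ) : ℤ) ^ d - (n : ℤ) ^ d := by ring
    rw [h1]
    have h2 : ((n + m : ℕ) : ℤ) - (n : ℤ) = m := by push_cast; ring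
    have h3 := sub_dvd_pow_sub_pow ((n + m : ℕ) : ℤ) (n : ℤ) d
    rwa [h2] at h3
  exact (dvd_iff_dvd_of_dvd_sub h)

private lemma Sqn_sq {X Y : ℝ} (hX : 0 < X) (hY : 0 ≤ Y) :
    ∑ l ∈ prs X Y, 1 / (l : ℝ) ^ 2 ≤ 2 / X := by
  have h1 : prs X Y ⊆ Ioo ⌊X⌋₊ (⌊Y⌋₊ + 1) := by
    intro l hl
    have h := (Sqn_mem_prs hY).1 hl
    rw [Finset.mem_Ioo]
    refine ⟨(Nat.floor_lt hX.le).2 h.2.1, Nat.lt_succ_of_le (Nat.le_floor h.2.2)⟩
  have h2 : ∑ l ∈ prs X Y, 1 / (l : ℝ) ^ 2 ≤ ∑ l ∈ Ioo ⌊X⌋₊ (⌊Y⌋₊ + 1), ((l : ℝ) ^ 2)⁻¹ := by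
    refine le_trans (Finset.sum_le_sum_of_subset_of_nonneg h1 (fun i _ _ => by positivity)) ?_
    apply Finset.sum_le_sum
    intro i _
    rw [one_div]
  refine h2.trans ((sum_Ioo_inv_sq_le _ _).trans ?_)
  apply div_le_div_of_nonneg_left (by norm_num) hX
  exact (Nat.lt_floor_add_one X).le

theorem tSqn (hCp : S_Cp) (hRtb : S_Rtb) : S_Sqn := by
  classical
  intro d k N u y hd hu hy hq
  have hy0 : 0 ≤ y := by linarith
  have h1 : (Icc 1 N).filter (fun n => ∃ q ∈ prs u y, ((q : ℤ) ^ 2) ∣ fv d k n) =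
      (prs u y).biUnion (fun q => (Icc 1 N).filter (fun n => ((q : ℤ) ^ 2) ∣ fv d k n)) := by
    ext n
    simp only [Finset.mem_filter, Finset.mem_biUnion]
    constructor
    · rintro ⟨h1, q, hq, h2⟩
      exact ⟨q, hq, h1, h2⟩
    · rintro ⟨q, hq, h1, h2⟩
      exact ⟨h1, q, hq, h2⟩
  rw [h1]
  have h2 : ∀ q ∈ prs u y, (((Icc 1 N).filter (fun n => ((q : ℤ) ^ 2) ∣ fv d k n)).card : ℝ) ≤
      d * N * (1 / (q : ℝ) ^ 2) + d := by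
    intro q hqm
    have hq' := (Sqn_mem_prs hy0).1 hqm
    have hk := hq q hq'.1 hq'.2.1
    have h3 : rt d k (q ^ 2) ≤ d := (hRtb d k q hd hq'.1).2.1 hk.1 hk.2
    have h4 := hCp (q ^ 2) N (fun n => ((q ^ 2 : ℕ) : ℤ) ∣ fv d k n) (Nat.one_le_iff_ne_zero.2 (pow_ne_zero 2 hq'.1.ne_zero)) (Sqn_per d k (q ^ 2))
    have h5 : ((range (q ^ 2)).filter (fun n => ((q ^ 2 : ℕ) : ℤ) ∣ fv d k n)).card = rt d k (q ^ 2) := rfl
    rw [h5] at h4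
    have h6 : (Icc 1 N).filter (fun n => ((q ^ 2 : ℕ) : ℤ) ∣ fv d k n) =
        (Icc 1 N).filter (fun n => ((q : ℤ) ^ 2) ∣ fv d k n) := by
      simp only [Nat.cast_pow]
    rw [h6] at h4
    have h7 := (abs_le.1 h4).2
    have h8 : (rt d k (q ^ 2) : ℝ) ≤ d := by exact_mod_cast h3
    have hq0 : (0 : ℝ) < q := by exact_mod_cast hq'.1.pos
    have h9 : (N : ℝ) * rt d k (q ^ 2) / ((q ^ 2 : ℕ) : ℝ) ≤ d * N * (1 / (q : ℝ) ^ 2) := by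
      rw [Nat.cast_pow]
      have : (d : ℝ) * N * (1 / (q : ℝ) ^ 2) = (N * d) / (q : ℝ) ^ 2 := by ring
      rw [this]
      apply div_le_div_of_nonneg_right _ (by positivity)
      exact mul_le_mul_of_nonneg_left h8 (Nat.cast_nonneg _)
    linarith
  have h3 : (((prs u y).biUnion (fun q => (Icc 1 N).filter (fun n => ((q : ℤ) ^ 2) ∣ fv d k n))).card : ℝ) ≤
      ∑ q ∈ prs u y, (((Icc 1 N).filter (fun n => ((q : ℤ) ^ 2) ∣ fv d k n)).card : ℝ) := by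
    exact_mod_cast Finset.card_biUnion_le
  refine h3.trans ((Finset.sum_le_sum h2).trans ?_)
  rw [Finset.sum_add_distrib, ← Finset.mul_sum, Finset.sum_const, nsmul_eq_mul]
  have h4 := Sqn_sq (X := u) (Y := y) (by linarith) hy0
  have h5 : ((prs u y).card : ℝ) ≤ y := by
    have h6 : (prs u y).card ≤ ⌊y⌋₊ := by
      refine (Finset.card_filter_le _ _).trans ?_
      rw [Nat.card_Icc, Nat.add_sub_cancel]
    calc ((prs u y).card : ℝ) ≤ (⌊y⌋₊ : ℝ) := by exact_mod_cast h6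
      _ ≤ y := Nat.floor_le hy0
  have hdn : (0 : ℝ) ≤ d := Nat.cast_nonneg _
  have hNn : (0 : ℝ) ≤ N := Nat.cast_nonneg _
  have h6 := mul_le_mul_of_nonneg_left h4 (mul_nonneg hdn hNn)
  have h7 := mul_le_mul_of_nonneg_right h5 hdn
  have h8 : (d : ℝ) * (2 * N / u + y) = d * N * (2 / u) + y * d := by ring
  rw [h8]
  linarith

end Pool.Agent.MPdff
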