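import Pool.Agent.Lib.MP_dff12b_nt.SpecS

/-!
MP_dff12b_nt, part S, module Sv: the sieve with level z ^ 46.
-/

namespace Pool.Agent.MPdff

open Finset Pool.Agent.Lib.BV

private lemma Sv_prod (S : Finset ℕ) (N : ℕ) [Decidable (∀ p ∈ S, p ∣ N)] :
    ∏ p ∈ S, dvi p N = if ∀ p ∈ S, p ∣ N then (1 : ℝ) else 0 := by
  split_ifs with h
  · refine Finset.prod_eq_one (fun p hp => ?_)
    unfold dvi
    rw [if_pos (h p hp)]
  · push Not at h
    obtain ⟨p, hp, hpn⟩ := h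
    refine Finset.prod_eq_zero hp ?_
    unfold dvi
    rw [if_neg hpn]

private lemma Sv_ind (P : Finset ℕ) (N : ℕ) [Decidable (∀ p ∈ P, ¬ p ∣ N)] :
    ∏ p ∈ P, (1 - dvi p N) = if ∀ p ∈ P, ¬ p ∣ N then (1 : ℝ) else 0 := by
  split_ifs with h
  · refine Finset.prod_eq_one (fun p hp => ?_)
    unfold dvi
    rw [if_neg (h p hp), sub_zero]
  · push Not at h
    obtain ⟨p, hp, hpn⟩ := h
    refine Finset.prod_eq_zero hp ?_
    unfold dvi
    rw [if_pos hpn, sub_self]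

private lemma Sv_sum (P : Finset ℕ) (N : ℕ) (f : Finset ℕ → ℝ) [DecidablePred (fun S : Finset ℕ => ∀ p ∈ S, p ∣ N)] :
    ∑ S ∈ P.powerset.filter (fun S => ∀ p ∈ S, p ∣ N), f S = ∑ S ∈ P.powerset, f S * ∏ p ∈ S, dvi p N := by
  rw [Finset.sum_filter]
  apply Finset.sum_congr rfl
  intro S _
  rw [Sv_prod]
  split_ifs <;> ring

theorem tSv (hPt : S_Pt) (hMn : S_Mn) (hSp : S_Sp) : S_Sv := by
  intro z P hz hP
  refine ⟨lp P z 10, lm P z 10, ?_, ?_, ?_⟩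
  · intro S hS
    have h := hSp z 10 P S hz hP hS
    exact ⟨h.1, h.2.1, fun h' => h.2.2 h'⟩
  · intro N
    have h := hPt z 10 N P hz hP
    rw [Sv_sum, Sv_sum, ← Sv_ind]
    exact h
  · intro h h0 h3
    exact hMn z P h hz hP h0 h3

end Pool.Agent.MPdff
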