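import Pool.Agent.Lib.MP_dff12b_nt.SpecL

/-!
MP_dff12b_nt, part L, module Trv: the trivial bound of the error terms.
-/

namespace Pool.Agent.MPdff

open Finset Filter Topology NumberField Pool.Agent.Results.MP_00e23e_nt

theorem tTrv : S_Trv := by
  intro x M hx hM hMx
  obtain ⟨l, hl1, hl2, _, hl⟩ := Pool.Agent.Lib.EH.exists_maxErr x hM
  rw [hl]
  unfold err
  have hx0 : 0 ≤ x := by linarith
  have hM0 : (0 : ℝ) < M := by exact_mod_cast hM
  have h1 : (primeCount x M l : ℝ) ≤ x / M + 1 := by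
    rw [← Pool.Agent.Lib.EH.card_nn hx0 hM hl2]
    have h2 : (Pool.Agent.Lib.EH.nn x M l).card ≤ ⌊x / M⌋₊ + 1 := by
      unfold Pool.Agent.Lib.EH.nn
      refine (Finset.card_filter_le _ _).trans ?_
      rw [Finset.card_range]
    calc ((Pool.Agent.Lib.EH.nn x M l).card : ℝ) ≤ ((⌊x / M⌋₊ + 1 : ℕ) : ℝ) := by exact_mod_cast h2
      _ = (⌊x / M⌋₊ : ℝ) + 1 := by push_cast; ring
      _ ≤ x / M + 1 := by
        have := Nat.floor_le (show (0 : ℝ) ≤ x / M by positivity)
        linarith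
  have h2 : 1 ≤ x / M := by
    rw [le_div_iff₀ hM0]
    linarith
  have hphi : (0 : ℝ) < M.totient := by exact_mod_cast Nat.totient_pos.2 hM
  have hphi2 : (M.totient : ℝ) ≤ M := by exact_mod_cast Nat.totient_le M
  have h3 : x / M ≤ x / M.totient := div_le_div_of_nonneg_left hx0 hphi hphi2
  have h4 : 0 ≤ li x := Pool.Agent.Lib.EH.li_nonneg hx
  have h5 : li x ≤ 2 * x := Pool.Agent.Lib.EH.li_le hx
  have h6 : li x / M.totient ≤ 2 * (x / M.totient) := by
    rw [← mul_div_assoc]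
    exact div_le_div_of_nonneg_right h5 hphi.le
  have h7 : 0 ≤ li x / M.totient := div_nonneg h4 hphi.le
  have h8 : (0 : ℝ) ≤ (primeCount x M l : ℝ) := Nat.cast_nonneg _
  have h9 : 4 * x / M.totient = 4 * (x / M.totient) := by ring
  rw [h9, abs_le]
  constructor <;> linarith

end Pool.Agent.MPdff
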