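import Pool.Agent.Lib.MP_dff12b_nt.SpecL
import Pool.Agent.Lib.MP_706923_co.Zeta
import Pool.Agent.Lib.MP_aa9ae4_nt.Mertens

/-!
# MP_dff12b_nt, Up: upper bound for the sum of rt(l)/l
-/

set_option autoImplicit false

namespace Pool.Agent.MPdff

open Finset Filter Topology NumberField Pool.Agent.Results.MP_00e23e_nt

open Pool.Agent.Lib.MP_706923_co.ZetaAux (an bn near_one prod_le log_lower sum_sq_le)

private theorem up_ineq (K : Type) [Field K] [NumberField K] (σ : ℝ) (hσ1 : 1 ≤ σ)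
    (hσ : Summable (bn K σ)) (F : Finset ℕ) (D : ℝ) (hD : 0 ≤ D)
    (hF : ∀ q ∈ F, q.Prime ∧ (an K q : ℝ) ≤ D) :
    ∑ q ∈ F, (an K q : ℝ) * (q : ℝ) ^ (-σ) ≤ Real.log (∑' n, bn K σ n) + 2 * D := by
  classical
  have hfin : ∀ q : ℕ, {I : Ideal (𝓞 K) | Ideal.absNorm I = q}.Finite := fun q =>
    Ideal.finite_setOfPred_absNorm_eq (S := 𝓞 K) q
  let S : ℕ → Finset (Ideal (𝓞 K)) := fun q => (hfin q).toFinset
  have hS : ∀ q I, I ∈ S q ↔ Ideal.absNorm I = q := by
    intro q I
    simp [S]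
  have hcard : ∀ q, (S q).card = an K q := by
    intro q
    have := Nat.card_coe_set_eq {I : Ideal (𝓞 K) | Ideal.absNorm I = q}
    rw [Set.ncard_eq_toFinset_card _ (hfin q)] at this
    exact this.symm
  have hdisj : Set.PairwiseDisjoint (F : Set ℕ) S := by
    intro q _ q' _ hne
    rw [Function.onFun, Finset.disjoint_left]
    intro I hI hI'
    apply hne
    rw [← (hS q I).mp hI, ← (hS q' I).mp hI']
  have hB : ∀ I ∈ F.biUnion S, Prime I := by
    intro I hI
    obtain ⟨q, hq, hI⟩ := Finset.mem_biUnion.mp hI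
    have h1 := (hS q I).mp hI
    apply Ideal.prime_of_isPrime
    · intro h0
      rw [h0, Ideal.absNorm_bot] at h1
      exact (hF q hq).1.ne_zero h1.symm
    · apply Ideal.isPrime_of_irreducible_absNorm
      rw [h1]
      exact (hF q hq).1
  have hle := prod_le K σ hσ (F.biUnion S) hB
  rw [Finset.prod_biUnion hdisj] at hle
  have hpow : ∏ q ∈ F, ∏ I ∈ S q, (1 + (Ideal.absNorm I : ℝ) ^ (-σ)) =
      ∏ q ∈ F, (1 + (q : ℝ) ^ (-σ)) ^ (an K q) := by
    apply Finset.prod_congr rfl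
    intro q _
    rw [← hcard q, ← Finset.prod_const]
    apply Finset.prod_congr rfl
    intro I hI
    rw [(hS q I).mp hI]
  rw [hpow] at hle
  have hpos : 0 < ∏ q ∈ F, (1 + (q : ℝ) ^ (-σ)) ^ (an K q) := by
    apply Finset.prod_pos
    intro q _
    positivity
  have hlog := Real.log_le_log hpos hle
  rw [Real.log_prod (fun q _ => by positivity)] at hlog
  have hlow : ∀ q ∈ F, (an K q : ℝ) * (q : ℝ) ^ (-σ) - D * (1 / (q : ℝ) ^ 2) ≤
      Real.log ((1 + (q : ℝ) ^ (-σ)) ^ (an K q)) := by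
    intro q hq
    have hq1 : (1 : ℝ) ≤ q := by exact_mod_cast (hF q hq).1.one_lt.le
    have hx0 : 0 ≤ (q : ℝ) ^ (-σ) := by positivity
    have hx1 : (q : ℝ) ^ (-σ) ≤ 1 / (q : ℝ) := by
      have h := Real.rpow_le_rpow_of_exponent_le hq1 (neg_le_neg hσ1)
      rwa [Real.rpow_neg_one, inv_eq_one_div] at h
    rw [Real.log_pow]
    have h1 := log_lower _ hx0
    have h2 : ((q : ℝ) ^ (-σ)) ^ 2 ≤ 1 / (q : ℝ) ^ 2 := by
      calc ((q : ℝ) ^ (-σ)) ^ 2 ≤ (1 / (q : ℝ)) ^ 2 := pow_le_pow_left₀ hx0 hx1 2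
        _ = 1 / (q : ℝ) ^ 2 := by rw [div_pow, one_pow]
    have h3 : (an K q : ℝ) * ((q : ℝ) ^ (-σ) - 1 / (q : ℝ) ^ 2) ≤
        (an K q : ℝ) * Real.log (1 + (q : ℝ) ^ (-σ)) :=
      mul_le_mul_of_nonneg_left (by linarith) (Nat.cast_nonneg _)
    have h4 : (an K q : ℝ) * (1 / (q : ℝ) ^ 2) ≤ D * (1 / (q : ℝ) ^ 2) :=
      mul_le_mul_of_nonneg_right (hF q hq).2 (by positivity)
    linarith
  have hsum := Finset.sum_le_sum hlow
  rw [Finset.sum_sub_distrib, ← Finset.mul_sum] at hsum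
  have h2 := mul_le_mul_of_nonneg_left (sum_sq_le F) hD
  linarith

private theorem prs_mono {x y : ℝ} (h : x ≤ y) : prs 1 x ⊆ prs 1 y := by
  intro l hl
  rw [prs, mem_filter, mem_Icc] at hl ⊢
  exact ⟨⟨hl.1.1, hl.1.2.trans (Nat.floor_le_floor h)⟩, hl.2⟩

theorem tUp : S_Rtb → S_Deg → S_Rtk → S_Up := by
  intro hRtb _ hRtk d k hd hirr
  obtain ⟨K, iF, iN, w1, hw1⟩ := hRtk d k hd hirr
  obtain ⟨s₁, hs₁, hs₁1, C₁, hC₁, hnear⟩ := near_one K
  have hrt : ∀ l : ℕ, l.Prime → (rt d k l : ℝ) ≤ d := fun l hl => by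
    exact_mod_cast (hRtb d k l hd hl).1
  have hd0 : (0 : ℝ) ≤ d := Nat.cast_nonneg d
  have hlog3 : 1 < Real.log 3 := by
    rw [Real.lt_log_iff_exp_lt (by norm_num)]
    exact Real.exp_one_lt_d9.trans (by norm_num)
  have hll : ∀ z : ℝ, 3 ≤ z → 1 < Real.log z := fun z hz =>
    hlog3.trans_le (Real.log_le_log (by norm_num) hz)
  have hbig : ∀ z : ℝ, 3 ≤ z → 1 / s₁ ≤ Real.log z →
      ∑ l ∈ prs 1 z, (rt d k l : ℝ) / l ≤
        Real.log (Real.log z) + (Real.log C₁ + 2 * d + 3 * d + d * (w1 + 1)) := by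
    intro z hz hzs
    have hL := hll z hz
    have hL0 : 0 < Real.log z := by linarith
    set s : ℝ := 1 / Real.log z with hs
    have hs0 : 0 < s := by positivity
    have hs1 : s ≤ s₁ := by
      rw [hs, div_le_iff₀ hL0]
      rw [div_le_iff₀ hs₁] at hzs
      linarith
    obtain ⟨hsum, hpos, hle⟩ := hnear s hs0 hs1
    have hpr : ∀ l ∈ prs 1 z, l.Prime := fun l hl => by
      rw [prs, mem_filter] at hl
      exact hl.2.1
    set F := (prs 1 z).filter (fun l => w1 < l) with hF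
    have hFp : ∀ l ∈ F, l.Prime ∧ w1 < l := fun l hl => by
      rw [hF, mem_filter] at hl
      exact ⟨hpr l hl.1, hl.2⟩
    have hFan : ∀ l ∈ F, an K l = rt d k l := fun l hl => hw1 l (hFp l hl).1 (hFp l hl).2
    have ha := up_ineq K (1 + s) (by linarith) hsum F d hd0 (fun l hl =>
      ⟨(hFp l hl).1, by rw [hFan l hl]; exact hrt l (hFp l hl).1⟩)
    have ha1 : ∑ q ∈ F, (an K q : ℝ) * (q : ℝ) ^ (-(1 + s)) =
        ∑ q ∈ F, (rt d k q : ℝ) * (q : ℝ) ^ (-(1 + s)) :=
      Finset.sum_congr rfl fun q hq => by rw [hFan q hq]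
    rw [ha1] at ha
    have ha2 : Real.log (∑' n, bn K (1 + s) n) ≤ Real.log (Real.log z) + Real.log C₁ := by
      refine (Real.log_le_log hpos hle).trans (le_of_eq ?_)
      rw [Real.log_div hC₁.ne' hs0.ne', hs, one_div, Real.log_inv]
      ring
    have hb : ∀ l ∈ F, (rt d k l : ℝ) / l ≤
        (rt d k l : ℝ) * (l : ℝ) ^ (-(1 + s)) + d * s * (Real.log l / l) := by
      intro l hl
      have hlp := (hFp l hl).1
      have hl0 : (0 : ℝ) < l := by exact_mod_cast hlp.pos
      have hlog0 : 0 ≤ Real.log l := Real.log_natCast_nonneg l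
      have h1 : (l : ℝ) ^ (-(1 + s)) = (1 / l) * Real.exp (-(s * Real.log l)) := by
        rw [neg_add, Real.rpow_add hl0, Real.rpow_neg_one, one_div, Real.rpow_def_of_pos hl0]
        congr 2
        ring
      have h2 : 1 - s * Real.log l ≤ Real.exp (-(s * Real.log l)) := by
        have := Real.add_one_le_exp (-(s * Real.log l))
        linarith
      have h3 : (rt d k l : ℝ) * (1 / l) * (1 - Real.exp (-(s * Real.log l))) ≤
          d * (1 / l) * (s * Real.log l) := by
        apply mul_le_mul _ (by linarith) _ (by positivity)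
        · exact mul_le_mul_of_nonneg_right (hrt l hlp) (by positivity)
        · have : Real.exp (-(s * Real.log l)) ≤ 1 := by
            rw [Real.exp_le_one_iff]
            have : 0 ≤ s * Real.log l := by positivity
            linarith
          linarith
      rw [h1]
      have h4 : (rt d k l : ℝ) / l = (rt d k l : ℝ) * (1 / l) * (1 - Real.exp (-(s * Real.log l))) +
          (rt d k l : ℝ) * ((1 / l) * Real.exp (-(s * Real.log l))) := by ring
      have h5 : d * s * (Real.log l / l) = d * (1 / l) * (s * Real.log l) := by ring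
      rw [h4, h5]
      linarith
    have hbs := Finset.sum_le_sum hb
    rw [Finset.sum_add_distrib, ← Finset.mul_sum] at hbs
    have hm : ∑ l ∈ F, Real.log l / (l : ℝ) ≤ Real.log z + Real.log 4 := by
      have hz1 : 1 ≤ ⌊z⌋₊ := (Nat.one_le_floor_iff z).mpr (by linarith)
      have h1 := Pool.Agent.Lib.MP_aa9ae4_nt.mertensA_le ⌊z⌋₊ hz1
      have h2 : ∑ l ∈ F, Real.log l / (l : ℝ) ≤ Pool.Agent.Lib.MP_aa9ae4_nt.mertensA ⌊z⌋₊ := by
        unfold Pool.Agent.Lib.MP_aa9ae4_nt.mertensA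
        refine Finset.sum_le_sum_of_subset_of_nonneg ?_ ?_
        · intro l hl
          rw [hF, mem_filter, prs, mem_filter] at hl
          rw [mem_filter]
          exact ⟨hl.1.1, hl.1.2.1⟩
        · intro l _ _
          exact div_nonneg (Real.log_natCast_nonneg l) (Nat.cast_nonneg l)
      have h3 : Real.log (⌊z⌋₊ : ℝ) ≤ Real.log z :=
        Real.log_le_log (by exact_mod_cast hz1) (Nat.floor_le (by linarith))
      linarith
    have hm2 : d * s * ∑ l ∈ F, Real.log l / (l : ℝ) ≤ 3 * d := by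
      have h4 : Real.log 4 ≤ 2 := by
        have : Real.log 4 = 2 * Real.log 2 := by
          rw [show (4 : ℝ) = 2 ^ 2 by norm_num, Real.log_pow]
          norm_num
        have h5 := Real.log_two_lt_d9
        linarith
      have h5 : s * ∑ l ∈ F, Real.log l / (l : ℝ) ≤ 3 := by
        have h6 : s * ∑ l ∈ F, Real.log l / (l : ℝ) ≤ s * (3 * Real.log z) :=
          mul_le_mul_of_nonneg_left (by linarith) hs0.le
        have h7 : s * (3 * Real.log z) = 3 := by
          rw [hs]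
          field_simp
        linarith
      calc d * s * ∑ l ∈ F, Real.log l / (l : ℝ) = d * (s * ∑ l ∈ F, Real.log l / (l : ℝ)) := by ring
        _ ≤ d * 3 := mul_le_mul_of_nonneg_left h5 hd0
        _ = 3 * d := by ring
    have hc : ∑ l ∈ (prs 1 z).filter (fun l => ¬ w1 < l), (rt d k l : ℝ) / l ≤ d * (w1 + 1) := by
      have h1 : ∀ l ∈ (prs 1 z).filter (fun l => ¬ w1 < l), (rt d k l : ℝ) / l ≤ d := by
        intro l hl
        have hlp := hpr l (mem_filter.mp hl).1
        have hl1 : (1 : ℝ) ≤ l := by exact_mod_cast hlp.one_lt.le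
        rw [div_le_iff₀ (by linarith)]
        nlinarith [hrt l hlp]
      refine (Finset.sum_le_card_nsmul _ _ _ h1).trans ?_
      rw [nsmul_eq_mul, mul_comm]
      apply mul_le_mul_of_nonneg_left _ hd0
      have h2 : ((prs 1 z).filter (fun l => ¬ w1 < l)).card ≤ w1 + 1 := by
        rw [← Finset.card_range (w1 + 1)]
        apply Finset.card_le_card
        intro l hl
        rw [mem_filter] at hl
        rw [mem_range]
        omega
      exact_mod_cast h2
    rw [← Finset.sum_filter_add_sum_filter_not (prs 1 z) (fun l => w1 < l), ← hF]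
    linarith
  set z₁ : ℝ := max 3 (Real.exp (1 / s₁)) with hz₁
  have hz13 : 3 ≤ z₁ := le_max_left _ _
  have hz1s : 1 / s₁ ≤ Real.log z₁ := by
    rw [← Real.log_exp (1 / s₁)]
    exact Real.log_le_log (Real.exp_pos _) (le_max_right _ _)
  have hll1 : 0 ≤ Real.log (Real.log z₁) := Real.log_nonneg (hll z₁ hz13).le
  refine ⟨(Real.log C₁ + 2 * d + 3 * d + d * (w1 + 1)) + Real.log (Real.log z₁), fun z hz => ?_⟩
  by_cases hzz : z₁ ≤ z
  · have h1 := hbig z hz (hz1s.trans (Real.log_le_log (by linarith) hzz))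
    linarith
  · push Not at hzz
    have h1 := hbig z₁ hz13 hz1s
    have h2 : ∑ l ∈ prs 1 z, (rt d k l : ℝ) / l ≤ ∑ l ∈ prs 1 z₁, (rt d k l : ℝ) / l :=
      Finset.sum_le_sum_of_subset_of_nonneg (prs_mono hzz.le) fun l _ _ => by positivity
    have h3 : 0 ≤ Real.log (Real.log z) := Real.log_nonneg (hll z hz).le
    linarith

end Pool.Agent.MPdff
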