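import Pool.Agent.Lib.MP_dff12b_nt.SpecG
import Pool.Agent.Lib.BV.Mpr

/-!
# MP_dff12b_nt, module Upd: the product over prs w (x^e)
-/

set_option autoImplicit false

namespace Pool.Agent.MPdff

open Finset Filter Topology Pool.Agent.Results.MP_00e23e_nt

private lemma upd_set (w : ℕ) (v : ℝ) :
    prs w v = (Icc 1 ⌊v⌋₊).filter (fun p => p.Prime ∧ ¬ p ∣ primorial w) := by
  ext l
  simp only [prs, Finset.mem_filter]
  constructor
  · rintro ⟨h1, h2, h3⟩
    refine ⟨h1, h2, fun h => ?_⟩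
    have h4 := (Nat.Prime.dvd_primorial_iff h2).mp h
    have h5 : w < l := by exact_mod_cast h3
    omega
  · rintro ⟨h1, h2, h3⟩
    refine ⟨h1, h2, ?_⟩
    have h4 : ¬ l ≤ w := fun h => h3 ((Nat.Prime.dvd_primorial_iff h2).mpr h)
    have h5 : w < l := by omega
    exact_mod_cast h5

private lemma upd_log (e : ℝ) (he : 0 < e) : ∀ᶠ x : ℝ in atTop,
    1 < x ∧ 2 ≤ ⌊x ^ e⌋₊ ∧ 10 / 11 * (e * Real.log x) ≤ Real.log (⌊x ^ e⌋₊ : ℝ) := by
  have h1 : ∀ᶠ x : ℝ in atTop, (11 * Real.log 2) / e ≤ Real.log x :=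
    Real.tendsto_log_atTop.eventually_ge_atTop _
  have h2 : ∀ᶠ x : ℝ in atTop, (2 : ℝ) ≤ x ^ e := (tendsto_rpow_atTop he).eventually_ge_atTop 2
  filter_upwards [h1, h2, eventually_gt_atTop (1 : ℝ)] with x h1 h2 hx
  have hx0 : 0 < x := by linarith
  refine ⟨hx, Nat.le_floor (by exact_mod_cast h2), ?_⟩
  have h3 : x ^ e / 2 ≤ (⌊x ^ e⌋₊ : ℝ) := by
    have := Nat.lt_floor_add_one (x ^ e)
    linarith
  have h4 : Real.log (x ^ e / 2) ≤ Real.log (⌊x ^ e⌋₊ : ℝ) := Real.log_le_log (by linarith) h3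
  rw [Real.log_div (by linarith) (by norm_num), Real.log_rpow hx0] at h4
  have h5 : 11 * Real.log 2 ≤ e * Real.log x := by
    rw [div_le_iff₀ he] at h1
    linarith
  linarith

theorem tUpd : S_Upd := by
  intro d k w a hD e he
  filter_upwards [upd_log e he] with x hx
  obtain ⟨hx1, hz, hlog⟩ := hx
  have hlogx : 0 < Real.log x := Real.log_pos hx1
  have hl : ∀ l ∈ prs w (x ^ e), (4 * (d : ℝ) + 4 < l) ∧ (rt d k l : ℝ) ≤ d := by
    intro l hl
    rw [prs, Finset.mem_filter] at hl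
    obtain ⟨-, hp, hwl⟩ := hl
    have h1 : w < l := by exact_mod_cast hwl
    have h2 : 4 * d + 4 < l := lt_of_le_of_lt hD.hdw h1
    exact ⟨by exact_mod_cast h2, by exact_mod_cast hD.rd l hp⟩
  have hid : ∏ l ∈ prs w (x ^ e), (1 - (1 + (rt d k l : ℝ)) / l) =
      (∏ l ∈ prs w (x ^ e), (1 - 1 / (l : ℝ))) * Vx d k w e x := by
    rw [Vx, ← Finset.prod_mul_distrib]
    refine Finset.prod_congr rfl fun l hlm => ?_
    obtain ⟨h1, h2⟩ := hl l hlm
    have hd0 : (0 : ℝ) ≤ d := Nat.cast_nonneg d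
    have hl0 : (l : ℝ) ≠ 0 := by linarith
    have hl1 : (l : ℝ) - 1 ≠ 0 := by linarith
    field_simp
    ring
  have hV : 0 ≤ Vx d k w e x := by
    rw [Vx]
    refine Finset.prod_nonneg fun l hlm => ?_
    obtain ⟨h1, h2⟩ := hl l hlm
    have hd0 : (0 : ℝ) ≤ d := Nat.cast_nonneg d
    have hl1 : 0 < (l : ℝ) - 1 := by linarith
    rw [sub_nonneg, div_le_one hl1]
    linarith
  have hP : 0 ≤ ∏ l ∈ prs w (x ^ e), (1 - 1 / (l : ℝ)) := by
    refine Finset.prod_nonneg fun l hlm => ?_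
    obtain ⟨h1, h2⟩ := hl l hlm
    have hd0 : (0 : ℝ) ≤ d := Nat.cast_nonneg d
    have hl1 : 0 < (l : ℝ) := by linarith
    rw [sub_nonneg, div_le_one hl1]
    linarith
  refine ⟨by rw [hid]; exact mul_nonneg hP hV, ?_⟩
  rw [hid]
  refine mul_le_mul_of_nonneg_right ?_ hV
  have hM := Pool.Agent.Lib.BV.tMpr ⌊x ^ e⌋₊ (primorial w) hz (primorial_pos w)
  rw [← upd_set] at hM
  refine hM.trans ?_
  have hb : 0 ≤ (primorial w : ℝ) / ((primorial w).totient : ℝ) := by positivity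
  have hpos : 0 < 10 / 11 * (e * Real.log x) := by positivity
  calc (primorial w : ℝ) / ((primorial w).totient : ℝ) / Real.log (⌊x ^ e⌋₊ : ℝ)
      ≤ (primorial w : ℝ) / ((primorial w).totient : ℝ) / (10 / 11 * (e * Real.log x)) :=
        div_le_div_of_nonneg_left hb hpos hlog
    _ = 11 / 10 * ((primorial w : ℝ) / ((primorial w).totient : ℝ)) / (e * Real.log x) := by
        field_simp

end Pool.Agent.MPdff
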