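import Pool.Agent.Lib.MP_dff12b_nt.SpecG

/-!
# MP_dff12b_nt, module Vlo: the product V is at least c / log x
-/

namespace Pool.Agent.MPdff

open Finset Filter Topology Pool.Agent.Results.MP_00e23e_nt

private lemma log_term (d l r : ℝ) (hd : 0 ≤ d) (hl : 4 * d + 4 < l) (hr0 : 0 ≤ r) (hr : r ≤ d) :
    0 < 1 - r / (l - 1) ∧ -Real.log (1 - r / (l - 1)) ≤ r / l + (2 * d + 8 * d ^ 2) * (l ^ 2)⁻¹ := by
  have hl0 : 0 < l := by linarith
  have hl1 : 0 < l - 1 := by linarith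
  obtain ⟨g, hg⟩ : ∃ g, g = r / (l - 1) := ⟨_, rfl⟩
  have hgl : g * (l - 1) = r := by rw [hg]; field_simp
  have hg0 : 0 ≤ g := by rw [hg]; positivity
  have hg2 : g ≤ 1 / 2 := by
    rw [hg, div_le_iff₀ hl1]; linarith
  have hgd : g ≤ 2 * d / l := by
    rw [hg, div_le_div_iff₀ hl1 hl0]
    nlinarith
  rw [← hg]
  have hy : 0 < 1 - g := by linarith
  refine ⟨hy, ?_⟩
  have h1 := Real.one_sub_inv_le_log_of_pos hy
  have h2 : (1 - g)⁻¹ - 1 ≤ g + 2 * g ^ 2 := by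
    have h3 : (1 - g)⁻¹ ≤ 1 + g + 2 * g ^ 2 := by
      rw [inv_le_iff_one_le_mul₀ hy]
      nlinarith [mul_nonneg (sq_nonneg g) (by linarith : (0 : ℝ) ≤ 1 - 2 * g)]
    linarith
  have h4 : g = r / l + g / l := by
    field_simp
    linarith
  have h5 : g / l ≤ 2 * d * (l ^ 2)⁻¹ := by
    calc g / l ≤ (2 * d / l) / l := div_le_div_of_nonneg_right hgd hl0.le
      _ = 2 * d * (l ^ 2)⁻¹ := by field_simp
  have h6 : g ^ 2 ≤ 4 * d ^ 2 * (l ^ 2)⁻¹ := by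
    calc g ^ 2 ≤ (2 * d / l) ^ 2 := pow_le_pow_left₀ hg0 hgd 2
      _ = 4 * d ^ 2 * (l ^ 2)⁻¹ := by field_simp; ring
  calc -Real.log (1 - g) ≤ g + 2 * g ^ 2 := by linarith
    _ ≤ (r / l + 2 * d * (l ^ 2)⁻¹) + 2 * (4 * d ^ 2 * (l ^ 2)⁻¹) := by linarith
    _ = _ := by ring

private lemma sq_sum (w : ℕ) (v : ℝ) : ∑ l ∈ prs w v, ((l : ℝ) ^ 2)⁻¹ ≤ 2 := by
  have h1 : ∑ l ∈ prs w v, ((l : ℝ) ^ 2)⁻¹ ≤ ∑ l ∈ Ioo 0 (⌊v⌋₊ + 1), ((l : ℝ) ^ 2)⁻¹ := by
    refine Finset.sum_le_sum_of_subset_of_nonneg ?_ (fun _ _ _ => by positivity)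
    intro l hl
    rw [prs, Finset.mem_filter, Finset.mem_Icc] at hl
    rw [Finset.mem_Ioo]
    omega
  have h2 := sum_Ioo_inv_sq_le (α := ℝ) 0 (⌊v⌋₊ + 1)
  simp only [Nat.cast_zero, zero_add, div_one] at h2
  exact h1.trans h2

theorem tVlo : S_Vlo := by
  intro d k w a hD e he he1
  obtain ⟨C, hC⟩ := hD.up
  refine ⟨Real.exp (-(C + (2 * d + 8 * d ^ 2) * 2)), Real.exp_pos _, ?_⟩
  have h1 : ∀ᶠ x : ℝ in atTop, (3 : ℝ) ≤ x ^ e := (tendsto_rpow_atTop he).eventually_ge_atTop 3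
  filter_upwards [h1, eventually_gt_atTop (1 : ℝ)] with x hx3 hx1
  have hx0 : 0 < x := by linarith
  have hlogx : 0 < Real.log x := Real.log_pos hx1
  have hd0 : (0 : ℝ) ≤ d := Nat.cast_nonneg d
  have hl : ∀ l ∈ prs w (x ^ e), 4 * (d : ℝ) + 4 < l ∧ (rt d k l : ℝ) ≤ d := by
    intro l hl
    rw [prs, Finset.mem_filter] at hl
    obtain ⟨-, hp, hwl⟩ := hl
    have h1 : w < l := by exact_mod_cast hwl
    have h2 : 4 * d + 4 < l := lt_of_le_of_lt hD.hdw h1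
    exact ⟨by exact_mod_cast h2, by exact_mod_cast hD.rd l hp⟩
  have hV : Vx d k w e x = Real.exp (∑ l ∈ prs w (x ^ e), Real.log (1 - (rt d k l : ℝ) / ((l : ℝ) - 1))) := by
    rw [Real.exp_sum, Vx]
    refine Finset.prod_congr rfl fun l hlm => ?_
    obtain ⟨ha, hb⟩ := hl l hlm
    rw [Real.exp_log (log_term d l (rt d k l) hd0 ha (Nat.cast_nonneg _) hb).1]
  have hs : -(∑ l ∈ prs w (x ^ e), Real.log (1 - (rt d k l : ℝ) / ((l : ℝ) - 1))) ≤
      Real.log (Real.log x) + (C + (2 * d + 8 * d ^ 2) * 2) := by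
    rw [← Finset.sum_neg_distrib]
    calc ∑ l ∈ prs w (x ^ e), -Real.log (1 - (rt d k l : ℝ) / ((l : ℝ) - 1))
        ≤ ∑ l ∈ prs w (x ^ e), ((rt d k l : ℝ) / l + (2 * d + 8 * d ^ 2) * ((l : ℝ) ^ 2)⁻¹) := by
          refine Finset.sum_le_sum fun l hlm => ?_
          obtain ⟨ha, hb⟩ := hl l hlm
          exact (log_term d l (rt d k l) hd0 ha (Nat.cast_nonneg _) hb).2
      _ = ∑ l ∈ prs w (x ^ e), (rt d k l : ℝ) / l +
          (2 * d + 8 * d ^ 2) * ∑ l ∈ prs w (x ^ e), ((l : ℝ) ^ 2)⁻¹ := by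
          rw [Finset.sum_add_distrib, Finset.mul_sum]
      _ ≤ (Real.log (Real.log x) + C) + (2 * d + 8 * d ^ 2) * 2 := by
          refine add_le_add ?_ (mul_le_mul_of_nonneg_left (sq_sum w _) (by positivity))
          have h2 : ∑ l ∈ prs w (x ^ e), (rt d k l : ℝ) / l ≤ ∑ l ∈ prs 1 (x ^ e), (rt d k l : ℝ) / l := by
            refine Finset.sum_le_sum_of_subset_of_nonneg ?_ (fun _ _ _ => by positivity)
            intro l hlm
            rw [prs, Finset.mem_filter] at hlm ⊢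
            refine ⟨hlm.1, hlm.2.1, ?_⟩
            exact_mod_cast hlm.2.1.one_lt
          have h3 := hC (x ^ e) hx3
          have h4 : Real.log (Real.log (x ^ e)) ≤ Real.log (Real.log x) := by
            refine Real.log_le_log (Real.log_pos (by linarith)) ?_
            rw [Real.log_rpow hx0]
            nlinarith
          linarith
      _ = _ := by ring
  rw [hV]
  calc Real.exp (-(C + (2 * d + 8 * d ^ 2) * 2)) / Real.log x
      = Real.exp (-(Real.log (Real.log x) + (C + (2 * d + 8 * d ^ 2) * 2))) := by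
        rw [neg_add (Real.log (Real.log x)), Real.exp_add, Real.exp_neg (Real.log (Real.log x)),
          Real.exp_log hlogx, div_eq_mul_inv, mul_comm]
    _ ≤ _ := by
        apply Real.exp_le_exp.mpr
        linarith

end Pool.Agent.MPdff
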