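import Pool.Agent.Lib.MP_dff12b_nt.SpecG

/-!
MP_dff12b_nt, part G, module Vra: quotient of the products V.
-/

namespace Pool.Agent.MPdff

open Finset Filter Topology Pool.Agent.Results.MP_00e23e_nt

private lemma Vra_mem_prs {u v : ℝ} (hv : 0 ≤ v) {l : ℕ} :
    l ∈ prs u v ↔ (l.Prime ∧ u < l ∧ (l : ℝ) ≤ v) := by
  unfold prs
  rw [mem_filter, mem_Icc]
  constructor
  · rintro ⟨⟨_, h2⟩, h3, h4⟩
    exact ⟨h3, h4, (Nat.le_floor_iff hv).1 h2⟩
  · rintro ⟨h1, h2, h3⟩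
    exact ⟨⟨h1.one_lt.le, (Nat.le_floor_iff hv).2 h3⟩, h1, h2⟩

private lemma Vra_sq {X Y : ℝ} (hX : 0 < X) (hY : 0 ≤ Y) :
    ∑ l ∈ prs X Y, 1 / (l : ℝ) ^ 2 ≤ 2 / X := by
  have h1 : prs X Y ⊆ Ioo ⌊X⌋₊ (⌊Y⌋₊ + 1) := by
    intro l hl
    have h := (Vra_mem_prs hY).1 hl
    rw [Finset.mem_Ioo]
    refine ⟨(Nat.floor_lt hX.le).2 h.2.1, Nat.lt_succ_of_le (Nat.le_floor h.2.2)⟩
  have h2 : ∑ l ∈ prs X Y, 1 / (l : ℝ) ^ 2 ≤ ∑ l ∈ Ioo ⌊X⌋₊ (⌊Y⌋₊ + 1), ((l : ℝ) ^ 2)⁻¹ := by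
    refine le_trans (Finset.sum_le_sum_of_subset_of_nonneg h1 (fun i _ _ => by positivity)) ?_
    apply Finset.sum_le_sum
    intro i _
    rw [one_div]
  refine h2.trans ((sum_Ioo_inv_sq_le _ _).trans ?_)
  apply div_le_div_of_nonneg_left (by norm_num) hX
  exact (Nat.lt_floor_add_one X).le

private lemma Vra_log {g : ℝ} (h0 : 0 ≤ g) (h1 : g ≤ 1 / 2) :
    g ≤ -Real.log (1 - g) ∧ -Real.log (1 - g) ≤ g + 2 * g ^ 2 := by
  have hp : 0 < 1 - g := by linarith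
  constructor
  · have := Real.log_le_sub_one_of_pos hp
    linarith
  · have h := Real.one_sub_inv_le_log_of_pos hp
    have h2 : (1 - g)⁻¹ ≤ 1 + g + 2 * g ^ 2 := by
      rw [inv_le_iff_one_le_mul₀ hp]
      nlinarith [sq_nonneg g, mul_nonneg (mul_nonneg h0 h0) (by linarith : (0 : ℝ) ≤ 1 - 2 * g)]
    linarith

theorem tVra (hWh : S_Wh) : S_Vra := by
  intro d k w a D u v hu huv
  set g : ℕ → ℝ := fun l => (rt d k l : ℝ) / ((l : ℝ) - 1) with hg
  have hd0 : (0 : ℝ) ≤ d := Nat.cast_nonneg _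
  have hgb : ∀ l : ℕ, l.Prime → w < l → 0 ≤ g l ∧ g l ≤ 1 / 2 ∧ 2 * g l ^ 2 ≤ 8 * (d : ℝ) ^ 2 * (1 / (l : ℝ) ^ 2) := by
    intro l hl hwl
    have h1 : (rt d k l : ℝ) ≤ d := by exact_mod_cast D.rd l hl
    have h2 : 4 * (d : ℝ) + 4 ≤ l := by
      have := D.hdw
      have h2 : 4 * d + 4 ≤ l := by omega
      exact_mod_cast h2
    have h3 : 0 ≤ (rt d k l : ℝ) := Nat.cast_nonneg _
    have hl0 : (0 : ℝ) < l := by linarith
    have h4 : (l : ℝ) / 2 ≤ (l : ℝ) - 1 := by linarith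
    have h5 : 0 < (l : ℝ) - 1 := by linarith
    have h6 : 0 ≤ g l := div_nonneg h3 h5.le
    have h7 : g l ≤ 2 * d / l := by
      rw [hg]
      simp only
      rw [div_le_div_iff₀ h5 hl0]
      nlinarith
    refine ⟨h6, ?_, ?_⟩
    · refine h7.trans ?_
      rw [div_le_iff₀ hl0]
      linarith
    · have h8 : g l ^ 2 ≤ (2 * d / l) ^ 2 := pow_le_pow_left₀ h6 h7 2
      have h9 : (2 * (d : ℝ) / l) ^ 2 = 4 * (d : ℝ) ^ 2 * (1 / (l : ℝ) ^ 2) := by
        field_simp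
        ring
      linarith
  have hpow : Tendsto (fun x : ℝ => x ^ u) atTop atTop := tendsto_rpow_atTop hu
  have hev : ∀ᶠ x : ℝ in atTop, (w : ℝ) ≤ x ^ u ∧ 1 ≤ x :=
    (hpow.eventually_ge_atTop (w : ℝ)).and (eventually_ge_atTop 1)
  -- the logarithm
  have hlog : Tendsto (fun x : ℝ => ∑ l ∈ prs (x ^ u) (x ^ v), -Real.log (1 - g l)) atTop
      (𝓝 (Real.log (v / u))) := by
    have h1 := (hWh d k w a D u v hu huv).1
    have h2 : Tendsto (fun x : ℝ => (8 * (d : ℝ) ^ 2) * (2 / x ^ u)) atTop (𝓝 ((8 * (d : ℝ) ^ 2) * 0)) :=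
      (tendsto_const_nhds.div_atTop hpow).const_mul _
    have h3 := h1.add h2
    rw [mul_zero, add_zero] at h3
    refine tendsto_of_tendsto_of_tendsto_of_le_of_le' h1 h3 ?_ ?_
    · filter_upwards [hev] with x hx
      have hx0 : 0 < x := by linarith [hx.2]
      apply Finset.sum_le_sum
      intro l hl
      have hl' := (Vra_mem_prs (by positivity)).1 hl
      have hb := hgb l hl'.1 (by exact_mod_cast hx.1.trans_lt hl'.2.1)
      exact (Vra_log hb.1 hb.2.1).1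
    · filter_upwards [hev] with x hx
      have hx0 : 0 < x := by linarith [hx.2]
      have h4 : ∑ l ∈ prs (x ^ u) (x ^ v), -Real.log (1 - g l) ≤
          ∑ l ∈ prs (x ^ u) (x ^ v), (g l + (8 * (d : ℝ) ^ 2) * (1 / (l : ℝ) ^ 2)) := by
        apply Finset.sum_le_sum
        intro l hl
        have hl' := (Vra_mem_prs (by positivity)).1 hl
        have hb := hgb l hl'.1 (by exact_mod_cast hx.1.trans_lt hl'.2.1)
        linarith [(Vra_log hb.1 hb.2.1).2, hb.2.2]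
      rw [Finset.sum_add_distrib, ← Finset.mul_sum] at h4
      have h5 := Vra_sq (X := x ^ u) (Y := x ^ v) (by positivity) (by positivity)
      have h6 := mul_le_mul_of_nonneg_left h5 (by positivity : 0 ≤ 8 * (d : ℝ) ^ 2)
      linarith
  have hexp := (Real.continuous_exp.tendsto _).comp hlog
  rw [Real.exp_log (div_pos (hu.trans huv) hu)] at hexp
  refine hexp.congr' ?_
  filter_upwards [hev] with x hx
  have hx0 : 0 < x := by linarith [hx.2]
  have huv' : x ^ u ≤ x ^ v := Real.rpow_le_rpow_of_exponent_le hx.2 huv.le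
  have hdis : prs w (x ^ v) = prs w (x ^ u) ∪ prs (x ^ u) (x ^ v) := by
    ext l
    rw [Finset.mem_union, Vra_mem_prs (by positivity), Vra_mem_prs (by positivity), Vra_mem_prs (by positivity)]
    constructor
    · rintro ⟨h1, h2, h3⟩
      by_cases h4 : (l : ℝ) ≤ x ^ u
      · exact Or.inl ⟨h1, h2, h4⟩
      · exact Or.inr ⟨h1, not_le.1 h4, h3⟩
    · rintro (⟨h1, h2, h3⟩ | ⟨h1, h2, h3⟩)
      · exact ⟨h1, h2, h3.trans huv'⟩
      · exact ⟨h1, hx.1.trans_lt h2, h3⟩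
  have hdisj : Disjoint (prs w (x ^ u)) (prs (x ^ u) (x ^ v)) := by
    rw [Finset.disjoint_left]
    intro l h1 h2
    have h3 := ((Vra_mem_prs (by positivity)).1 h1).2.2
    have h4 := ((Vra_mem_prs (by positivity)).1 h2).2.1
    linarith
  have hVpos : 0 < Vx d k w u x := by
    unfold Vx
    apply Finset.prod_pos
    intro l hl
    have hl' := (Vra_mem_prs (by positivity)).1 hl
    have hb := hgb l hl'.1 (by exact_mod_cast hl'.2.1)
    have : (rt d k l : ℝ) / ((l : ℝ) - 1) = g l := rfl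
    rw [this]
    linarith [hb.2.1]
  have hprod : 0 < ∏ l ∈ prs (x ^ u) (x ^ v), (1 - g l) := by
    apply Finset.prod_pos
    intro l hl
    have hl' := (Vra_mem_prs (by positivity)).1 hl
    have hb := hgb l hl'.1 (by exact_mod_cast hx.1.trans_lt hl'.2.1)
    linarith [hb.2.1]
  have hV : Vx d k w v x = Vx d k w u x * ∏ l ∈ prs (x ^ u) (x ^ v), (1 - g l) := by
    unfold Vx
    rw [hdis, Finset.prod_union hdisj]
  rw [hV, Function.comp_apply, Real.exp_sum]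
  have h1 : ∏ l ∈ prs (x ^ u) (x ^ v), Real.exp (-Real.log (1 - g l)) =
      (∏ l ∈ prs (x ^ u) (x ^ v), (1 - g l))⁻¹ := by
    rw [← Finset.prod_inv_distrib]
    apply Finset.prod_congr rfl
    intro l hl
    have hl' := (Vra_mem_prs (by positivity)).1 hl
    have hb := hgb l hl'.1 (by exact_mod_cast hx.1.trans_lt hl'.2.1)
    rw [Real.exp_neg, Real.exp_log (by linarith [hb.2.1])]
  rw [h1]
  field_simp

end Pool.Agent.MPdff
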