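import Pool.Agent.Lib.MP_dff12b_nt.SpecG

/-!
MP_dff12b_nt, part G, module Wh: window sums with slightly different weights.
-/

namespace Pool.Agent.MPdff

open Finset Filter Topology Pool.Agent.Results.MP_00e23e_nt

private lemma Wh_mem_prs {u v : ℝ} (hv : 0 ≤ v) {l : ℕ} :
    l ∈ prs u v ↔ (l.Prime ∧ u < l ∧ (l : ℝ) ≤ v) := by
  unfold prs
  rw [mem_filter, mem_Icc]
  constructor
  · rintro ⟨⟨_, h2⟩, h3, h4⟩
    exact ⟨h3, h4, (Nat.le_floor_iff hv).1 h2⟩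
  · rintro ⟨h1, h2, h3⟩
    exact ⟨⟨h1.one_lt.le, (Nat.le_floor_iff hv).2 h3⟩, h1, h2⟩

private lemma Wh_sq {X Y : ℝ} (hX : 0 < X) (hY : 0 ≤ Y) :
    ∑ l ∈ prs X Y, 1 / (l : ℝ) ^ 2 ≤ 2 / X := by
  have h1 : prs X Y ⊆ Ioo ⌊X⌋₊ (⌊Y⌋₊ + 1) := by
    intro l hl
    have h := (Wh_mem_prs hY).1 hl
    rw [Finset.mem_Ioo]
    refine ⟨(Nat.floor_lt hX.le).2 h.2.1, Nat.lt_succ_of_le (Nat.le_floor h.2.2)⟩
  have h2 : ∑ l ∈ prs X Y, 1 / (l : ℝ) ^ 2 ≤ ∑ l ∈ Ioo ⌊X⌋₊ (⌊Y⌋₊ + 1), ((l : ℝ) ^ 2)⁻¹ := by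
    refine le_trans (Finset.sum_le_sum_of_subset_of_nonneg h1 (fun i _ _ => by positivity)) ?_
    apply Finset.sum_le_sum
    intro i _
    rw [one_div]
  refine h2.trans ((sum_Ioo_inv_sq_le _ _).trans ?_)
  apply div_le_div_of_nonneg_left (by norm_num) hX
  exact (Nat.lt_floor_add_one X).le

private lemma Wh_num {r s d l : ℝ} (hr0 : 0 ≤ r) (hr : r ≤ d) (hs0 : 0 ≤ s) (hs : s ≤ d + 1)
    (hl : 4 * d + 4 ≤ l) : r / l ≤ r / (l - s) ∧ r / (l - s) ≤ r / l + 2 * d * (d + 1) * (1 / l ^ 2) := by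
  have hd0 : 0 ≤ d := hr0.trans hr
  have hl0 : 0 < l := by linarith
  have h1 : l / 2 ≤ l - s := by linarith
  have h2 : 0 < l - s := by linarith
  refine ⟨div_le_div_of_nonneg_left hr0 h2 (by linarith), ?_⟩
  have h3 : r / (l - s) - r / l = r * s / (l * (l - s)) := by
    field_simp
    ring
  have h4 : r * s / (l * (l - s)) ≤ (d * (d + 1)) / (l * (l / 2)) := by
    apply div_le_div₀
    · positivity
    · exact mul_le_mul hr hs hs0 hd0
    · positivity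
    · exact mul_le_mul_of_nonneg_left h1 hl0.le
  have h5 : (d * (d + 1)) / (l * (l / 2)) = 2 * d * (d + 1) * (1 / l ^ 2) := by
    field_simp
  linarith

private lemma Wh_aux {d : ℕ} {k : ℤ} {w a : ℕ} (D : Dat d k w a) {u v : ℝ} (hu : 0 < u) (huv : u < v)
    (h : ℕ → ℝ) (C : ℝ)
    (hb : ∀ l : ℕ, l.Prime → w < l → (rt d k l : ℝ) / l ≤ h l ∧ h l ≤ (rt d k l : ℝ) / l + C * (1 / (l : ℝ) ^ 2))
    (hC : 0 ≤ C) :
    Tendsto (fun x : ℝ => ∑ l ∈ prs (x ^ u) (x ^ v), h l) atTop (𝓝 (Real.log (v / u))) := by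
  have h1 := D.win u v hu huv
  have hpow : Tendsto (fun x : ℝ => x ^ u) atTop atTop := tendsto_rpow_atTop hu
  have h2 : Tendsto (fun x : ℝ => C * (2 / x ^ u)) atTop (𝓝 (C * 0)) :=
    (tendsto_const_nhds.div_atTop hpow).const_mul C
  have h3 := h1.add h2
  rw [mul_zero, add_zero] at h3
  have hev : ∀ᶠ x : ℝ in atTop, (w : ℝ) ≤ x ^ u ∧ 1 ≤ x :=
    (hpow.eventually_ge_atTop (w : ℝ)).and (eventually_ge_atTop 1)
  refine tendsto_of_tendsto_of_tendsto_of_le_of_le' h1 h3 ?_ ?_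
  · filter_upwards [hev] with x hx
    apply Finset.sum_le_sum
    intro l hl
    have hl' := (Wh_mem_prs (by have := hx.2; positivity)).1 hl
    exact (hb l hl'.1 (by exact_mod_cast hx.1.trans_lt hl'.2.1)).1
  · filter_upwards [hev] with x hx
    have hx0 : 0 < x := by linarith [hx.2]
    have h4 : ∑ l ∈ prs (x ^ u) (x ^ v), h l ≤
        ∑ l ∈ prs (x ^ u) (x ^ v), ((rt d k l : ℝ) / l + C * (1 / (l : ℝ) ^ 2)) := by
      apply Finset.sum_le_sum
      intro l hl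
      have hl' := (Wh_mem_prs (by positivity)).1 hl
      exact (hb l hl'.1 (by exact_mod_cast hx.1.trans_lt hl'.2.1)).2
    rw [Finset.sum_add_distrib, ← Finset.mul_sum] at h4
    have h5 := Wh_sq (X := x ^ u) (Y := x ^ v) (by positivity) (by positivity)
    have h6 := mul_le_mul_of_nonneg_left h5 hC
    linarith

theorem tWh : S_Wh := by
  intro d k w a D u v hu huv
  have hnum : ∀ l : ℕ, l.Prime → w < l → (rt d k l : ℝ) ≤ d ∧ 4 * (d : ℝ) + 4 ≤ l := by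
    intro l hl hwl
    refine ⟨by exact_mod_cast D.rd l hl, ?_⟩
    have := D.hdw
    have h2 : 4 * d + 4 ≤ l := by omega
    exact_mod_cast h2
  have hd0 : (0 : ℝ) ≤ d := Nat.cast_nonneg _
  constructor
  · apply Wh_aux D hu huv _ (2 * (d : ℝ) * (d + 1)) _ (by positivity)
    intro l hl hwl
    obtain ⟨h1, h2⟩ := hnum l hl hwl
    exact Wh_num (Nat.cast_nonneg _) h1 zero_le_one (by linarith) h2
  · apply Wh_aux D hu huv _ (2 * (d : ℝ) * (d + 1)) _ (by positivity)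
    intro l hl hwl
    obtain ⟨h1, h2⟩ := hnum l hl hwl
    have h3 : (l : ℝ) - 1 - rt d k l = l - (1 + rt d k l) := by ring
    rw [h3]
    exact Wh_num (Nat.cast_nonneg _) h1 (by positivity) (by linarith) h2

end Pool.Agent.MPdff
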