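import Pool.Agent.Lib.MP_dff12b_nt.SpecL

namespace Pool.Agent.MPdff

open Finset Filter Topology NumberField Pool.Agent.Results.MP_00e23e_nt

/-- the totient of a product of primes -/
private theorem wt_tot (U : Finset ℕ) (hU : ∀ l ∈ U, l.Prime) :
    (∏ l ∈ U, l) ≤ 2 ^ U.card * (∏ l ∈ U, l).totient := by
  classical
  induction U using Finset.induction_on with
  | empty => simp
  | insert l U hl ih =>
    have hU' : ∀ m ∈ U, m.Prime := fun m hm => hU m (mem_insert_of_mem hm)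
    have hlp : l.Prime := hU l (mem_insert_self l U)
    rw [prod_insert hl, card_insert_of_notMem hl]
    have h1 := Nat.totient_super_multiplicative l (∏ m ∈ U, m)
    rw [Nat.totient_prime hlp] at h1
    have h2 : l ≤ 2 * (l - 1) := by have := hlp.two_le; omega
    calc l * ∏ m ∈ U, m ≤ (2 * (l - 1)) * (2 ^ U.card * (∏ m ∈ U, m).totient) :=
          Nat.mul_le_mul h2 (ih hU')
      _ = 2 ^ (U.card + 1) * ((l - 1) * (∏ m ∈ U, m).totient) := by ring
      _ ≤ 2 ^ (U.card + 1) * (l * ∏ m ∈ U, m).totient := Nat.mul_le_mul_left _ h1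

private theorem wt_inj (b0 : ℕ) (hb0 : 1 ≤ b0) (U V : Finset ℕ) (hU : ∀ l ∈ U, l.Prime)
    (hV : ∀ l ∈ V, l.Prime) (h : b0 * ∏ l ∈ U, l = b0 * ∏ l ∈ V, l) : U = V := by
  have h1 : ∏ l ∈ U, l = ∏ l ∈ V, l := Nat.eq_of_mul_eq_mul_left (by omega) h
  rw [← Nat.primeFactors_prod hU, ← Nat.primeFactors_prod hV, h1]

theorem tWt : S_Bv → S_Rp → S_Trv → S_Wt := by
  intro hBv hRp hTrv c b0 hb0
  obtain ⟨A0, hA0, hRp⟩ := hRp
  set a : ℝ := 2 * (c : ℝ) ^ 2 * A0 with ha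
  have ha0 : 0 ≤ a := by positivity
  obtain ⟨x1, hx1⟩ := hBv (10 + a) (by linarith)
  set K : ℝ := Real.exp a with hKdef
  have hKpos : 0 < K := Real.exp_pos _
  refine ⟨max x1 (max 3 (max ((b0 : ℝ) ^ 12) (Real.exp (4 * K + 1)))), ?_⟩
  intro x hx F hF
  have h1 : x1 ≤ x := (le_max_left _ _).trans hx
  have h3 : 3 ≤ x := ((le_max_left _ _).trans (le_max_right _ _)).trans hx
  have hb : (b0 : ℝ) ^ 12 ≤ x :=
    ((le_max_left _ _).trans ((le_max_right _ _).trans (le_max_right _ _))).trans hx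
  have hexp : Real.exp (4 * K + 1) ≤ x :=
    ((le_max_right _ _).trans ((le_max_right _ _).trans (le_max_right _ _))).trans hx
  have hx0 : 0 < x := by linarith
  have hlog : 4 * K + 1 ≤ Real.log x := (Real.le_log_iff_exp_le hx0).2 hexp
  have hlog0 : 0 < Real.log x := by linarith
  have hlog1 : 1 ≤ Real.log x := by linarith
  have hb12 : (b0 : ℝ) ≤ x ^ ((1 : ℝ) / 12) := by
    have h := Real.rpow_le_rpow (by positivity) hb (by norm_num : (0 : ℝ) ≤ 1 / 12)
    rw [← Real.rpow_natCast, ← Real.rpow_mul (by positivity)] at h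
    norm_num at h
    norm_num
    exact h
  have hq1 : x ^ ((1 : ℝ) / 12) * x ^ ((1 : ℝ) / 4) = x ^ ((1 : ℝ) / 3) := by
    rw [← Real.rpow_add hx0]
    norm_num
  have hq2 : x ^ ((1 : ℝ) / 3) ≤ x := by
    have := Real.rpow_le_rpow_of_exponent_le (by linarith : (1 : ℝ) ≤ x)
      (by norm_num : (1 : ℝ) / 3 ≤ 1)
    rwa [Real.rpow_one] at this
  have hq3 : x ^ ((1 : ℝ) / 4) ≤ x := by
    have := Real.rpow_le_rpow_of_exponent_le (by linarith : (1 : ℝ) ≤ x)
      (by norm_num : (1 : ℝ) / 4 ≤ 1)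
    rwa [Real.rpow_one] at this
  have hMle : ∀ U ∈ F, ((b0 * ∏ l ∈ U, l : ℕ) : ℝ) ≤ x ^ ((1 : ℝ) / 3) := by
    intro U hU
    rw [← hq1]
    push_cast
    have h := (hF U hU).2
    push_cast at h
    exact mul_le_mul hb12 h (by positivity) (by positivity)
  have hprodpos : ∀ U ∈ F, 0 < ∏ l ∈ U, l := by
    intro U hU
    exact prod_pos (fun l hl => ((hF U hU).1 l hl).pos)
  -- the sum of the errors
  have hE : ∑ U ∈ F, maxErr x (b0 * ∏ l ∈ U, l) ≤ x / (Real.log x) ^ (10 + a) := by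
    refine le_trans ?_ (hx1 x h1)
    classical
    rw [← sum_image (s := F) (g := fun U => b0 * ∏ l ∈ U, l) (f := fun D => maxErr x D)]
    · apply sum_le_sum_of_subset_of_nonneg
      · intro D hD
        rw [mem_image] at hD
        obtain ⟨U, hU, rfl⟩ := hD
        rw [mem_Icc]
        refine ⟨Nat.mul_pos hb0 (hprodpos U hU), ?_⟩
        apply Nat.le_floor
        exact hMle U hU
      · intro D _ _
        exact Pool.Agent.Lib.EH.maxErr_nonneg x D
    · intro U hU V hV h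
      exact wt_inj b0 hb0 U V (hF U hU).1 (hF V hV).1 h
  -- pointwise bound
  have hpt : ∀ U ∈ F, ((c : ℝ) ^ U.card) ^ 2 * maxErr x (b0 * ∏ l ∈ U, l) ≤
      4 * x * ∏ l ∈ U, (2 * (c : ℝ) ^ 2 / l) := by
    intro U hU
    have hp := hprodpos U hU
    have hT := hTrv x (b0 * ∏ l ∈ U, l) (by linarith) (Nat.mul_pos hb0 hp)
      ((hMle U hU).trans hq2)
    have hphi : ((∏ l ∈ U, l : ℕ) : ℝ) ≤ 2 ^ U.card * ((b0 * ∏ l ∈ U, l).totient : ℝ) := by
      have e1 := wt_tot U (hF U hU).1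
      have e2 := Nat.totient_super_multiplicative b0 (∏ l ∈ U, l)
      have e3 : 1 ≤ b0.totient := Nat.totient_pos.2 (by omega)
      have e4 : (∏ l ∈ U, l) ≤ 2 ^ U.card * (b0 * ∏ l ∈ U, l).totient := by
        refine e1.trans (Nat.mul_le_mul_left _ (le_trans ?_ e2))
        calc (∏ l ∈ U, l).totient = 1 * (∏ l ∈ U, l).totient := (one_mul _).symm
          _ ≤ b0.totient * (∏ l ∈ U, l).totient := Nat.mul_le_mul_right _ e3
      exact_mod_cast e4
    have hphipos : (0 : ℝ) < ((b0 * ∏ l ∈ U, l).totient : ℝ) := by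
      exact_mod_cast Nat.totient_pos.2 (Nat.mul_pos hb0 hp)
    have hpr : (0 : ℝ) < ((∏ l ∈ U, l : ℕ) : ℝ) := by exact_mod_cast hp
    have hinv : 4 * x / ((b0 * ∏ l ∈ U, l).totient : ℝ) ≤
        4 * x * (2 ^ U.card / ((∏ l ∈ U, l : ℕ) : ℝ)) := by
      rw [div_eq_mul_inv]
      apply mul_le_mul_of_nonneg_left _ (by linarith)
      rw [inv_le_iff_one_le_mul₀ hphipos, div_mul_eq_mul_div, le_div_iff₀ hpr, one_mul]
      exact hphi
    have hprod : ∏ l ∈ U, (2 * (c : ℝ) ^ 2 / l) =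
        ((c : ℝ) ^ U.card) ^ 2 * (2 ^ U.card / ((∏ l ∈ U, l : ℕ) : ℝ)) := by
      rw [prod_div_distrib, prod_const, Nat.cast_prod, mul_pow, ← pow_mul, ← pow_mul]
      ring
    rw [hprod]
    calc ((c : ℝ) ^ U.card) ^ 2 * maxErr x (b0 * ∏ l ∈ U, l)
        ≤ ((c : ℝ) ^ U.card) ^ 2 * (4 * x * (2 ^ U.card / ((∏ l ∈ U, l : ℕ) : ℝ))) :=
          mul_le_mul_of_nonneg_left (hT.trans hinv) (by positivity)
      _ = 4 * x * (((c : ℝ) ^ U.card) ^ 2 * (2 ^ U.card / ((∏ l ∈ U, l : ℕ) : ℝ))) := by ring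
  -- the weighted sum
  have hW : ∑ U ∈ F, ((c : ℝ) ^ U.card) ^ 2 * maxErr x (b0 * ∏ l ∈ U, l) ≤
      4 * x * (K * (Real.log x) ^ a) := by
    refine (sum_le_sum hpt).trans ?_
    rw [← mul_sum]
    apply mul_le_mul_of_nonneg_left _ (by linarith)
    set P := (Icc 1 ⌊x⌋₊).filter Nat.Prime with hP
    have hsub : F ⊆ P.powerset := by
      intro U hU
      rw [mem_powerset]
      intro l hl
      rw [hP, mem_filter, mem_Icc]
      have hlp := (hF U hU).1 l hl
      refine ⟨⟨hlp.one_lt.le, ?_⟩, hlp⟩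
      apply Nat.le_floor
      have hdvd : l ≤ ∏ m ∈ U, m := Nat.le_of_dvd (hprodpos U hU) (dvd_prod_of_mem _ hl)
      calc (l : ℝ) ≤ ((∏ m ∈ U, m : ℕ) : ℝ) := by exact_mod_cast hdvd
        _ ≤ x ^ ((1 : ℝ) / 4) := (hF U hU).2
        _ ≤ x := hq3
    calc ∑ U ∈ F, ∏ l ∈ U, (2 * (c : ℝ) ^ 2 / l)
        ≤ ∑ U ∈ P.powerset, ∏ l ∈ U, (2 * (c : ℝ) ^ 2 / l) := by
          apply sum_le_sum_of_subset_of_nonneg hsub
          intro U _ _
          exact prod_nonneg (fun l _ => by positivity)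
      _ = ∏ l ∈ P, (1 + 2 * (c : ℝ) ^ 2 / l) := by rw [prod_one_add]
      _ ≤ ∏ l ∈ P, Real.exp (2 * (c : ℝ) ^ 2 / l) := by
          apply Finset.prod_le_prod
          · intro l _; positivity
          · intro l _
            rw [add_comm]
            exact Real.add_one_le_exp _
      _ = Real.exp (2 * (c : ℝ) ^ 2 * ∑ l ∈ P, 1 / (l : ℝ)) := by
          rw [← Real.exp_sum, mul_sum]
          apply congrArg
          apply sum_congr rfl
          intro l _
          ring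
      _ ≤ Real.exp (2 * (c : ℝ) ^ 2 * (A0 + A0 * Real.log (Real.log x))) := by
          apply Real.exp_le_exp.2
          apply mul_le_mul_of_nonneg_left _ (by positivity)
          exact hRp x h3
      _ = K * (Real.log x) ^ a := by
          rw [Real.rpow_def_of_pos hlog0, hKdef, ← Real.exp_add]
          apply congrArg
          rw [ha]
          ring
  -- Cauchy-Schwarz
  have hCS : (∑ U ∈ F, (c : ℝ) ^ U.card * maxErr x (b0 * ∏ l ∈ U, l)) ^ 2 ≤
      (∑ U ∈ F, ((c : ℝ) ^ U.card) ^ 2 * maxErr x (b0 * ∏ l ∈ U, l)) *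
        ∑ U ∈ F, maxErr x (b0 * ∏ l ∈ U, l) := by
    apply Finset.sum_sq_le_sum_mul_sum_of_sq_le_mul
    · intro U _
      exact mul_nonneg (by positivity) (Pool.Agent.Lib.EH.maxErr_nonneg _ _)
    · intro U _
      exact Pool.Agent.Lib.EH.maxErr_nonneg _ _
    · intro U _
      exact le_of_eq (by ring)
  have hE0 : 0 ≤ ∑ U ∈ F, maxErr x (b0 * ∏ l ∈ U, l) := sum_nonneg (fun U _ => Pool.Agent.Lib.EH.maxErr_nonneg _ _)
  have hfin : (4 * x * (K * (Real.log x) ^ a)) * (x / (Real.log x) ^ (10 + a)) ≤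
      (x / (Real.log x) ^ 4) ^ 2 := by
    have hl10 : (Real.log x) ^ (10 + a) = (Real.log x) ^ 10 * (Real.log x) ^ a := by
      rw [Real.rpow_add hlog0]
      congr 1
      exact_mod_cast Real.rpow_natCast (Real.log x) 10
    have hla : 0 < (Real.log x) ^ a := Real.rpow_pos_of_pos hlog0 a
    rw [hl10]
    have e1 : (4 * x * (K * (Real.log x) ^ a)) * (x / ((Real.log x) ^ 10 * (Real.log x) ^ a)) =
        x ^ 2 / (Real.log x) ^ 8 * (4 * K / (Real.log x) ^ 2) := by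
      field_simp
    have e2 : (x / (Real.log x) ^ 4) ^ 2 = x ^ 2 / (Real.log x) ^ 8 := by
      rw [div_pow]
      ring
    rw [e1, e2]
    have e3 : 4 * K / (Real.log x) ^ 2 ≤ 1 := by
      rw [div_le_one (by positivity)]
      nlinarith
    calc x ^ 2 / (Real.log x) ^ 8 * (4 * K / (Real.log x) ^ 2) ≤
        x ^ 2 / (Real.log x) ^ 8 * 1 := mul_le_mul_of_nonneg_left e3 (by positivity)
      _ = x ^ 2 / (Real.log x) ^ 8 := mul_one _
  have hsq : (∑ U ∈ F, (c : ℝ) ^ U.card * maxErr x (b0 * ∏ l ∈ U, l)) ^ 2 ≤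
      (x / (Real.log x) ^ 4) ^ 2 := by
    refine hCS.trans (le_trans ?_ hfin)
    exact mul_le_mul hW hE hE0 (by positivity)
  exact le_of_sq_le_sq hsq (by positivity)

end Pool.Agent.MPdff
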