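import Pool.Agent.Lib.MP_dff12b_nt.Blk
import Pool.Agent.Lib.MP_dff12b_nt.Prd
import Pool.Agent.Lib.MP_dff12b_nt.Exp
import Pool.Agent.Lib.MP_dff12b_nt.Pt
import Pool.Agent.Lib.MP_dff12b_nt.Mn
import Pool.Agent.Lib.MP_dff12b_nt.Sp
import Pool.Agent.Lib.MP_dff12b_nt.Sv
import Pool.Agent.Lib.MP_dff12b_nt.Cp
import Pool.Agent.Lib.MP_dff12b_nt.Crt
import Pool.Agent.Lib.MP_dff12b_nt.Crf
import Pool.Agent.Lib.MP_dff12b_nt.Rtb
import Pool.Agent.Lib.MP_dff12b_nt.Cnt
import Pool.Agent.Lib.MP_dff12b_nt.Pc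
import Pool.Agent.Lib.MP_dff12b_nt.Sqn
import Pool.Agent.Lib.MP_dff12b_nt.Bv
import Pool.Agent.Lib.MP_dff12b_nt.Rp
import Pool.Agent.Lib.MP_dff12b_nt.Trv
import Pool.Agent.Lib.MP_dff12b_nt.Wt
import Pool.Agent.Lib.MP_dff12b_nt.Ar
import Pool.Agent.Lib.MP_dff12b_nt.Icl
import Pool.Agent.Lib.MP_dff12b_nt.Deg
import Pool.Agent.Lib.MP_dff12b_nt.Iid
import Pool.Agent.Lib.MP_dff12b_nt.Ier
import Pool.Agent.Lib.MP_dff12b_nt.Kex
import Pool.Agent.Lib.MP_dff12b_nt.Hom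
import Pool.Agent.Lib.MP_dff12b_nt.Rtk
import Pool.Agent.Lib.MP_dff12b_nt.Lan
import Pool.Agent.Lib.MP_dff12b_nt.Ps
import Pool.Agent.Lib.MP_dff12b_nt.Up
import Pool.Agent.Lib.MP_dff12b_nt.Irr
import Pool.Agent.Lib.MP_dff12b_nt.Dex
import Pool.Agent.Lib.MP_dff12b_nt.Fam
import Pool.Agent.Lib.MP_dff12b_nt.Wh
import Pool.Agent.Lib.MP_dff12b_nt.Vra
import Pool.Agent.Lib.MP_dff12b_nt.Vlo
import Pool.Agent.Lib.MP_dff12b_nt.Lwa
import Pool.Agent.Lib.MP_dff12b_nt.Upa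
import Pool.Agent.Lib.MP_dff12b_nt.Upd
import Pool.Agent.Lib.MP_dff12b_nt.V.Wdj
import Pool.Agent.Lib.MP_dff12b_nt.V.Fpr
import Pool.Agent.Lib.MP_dff12b_nt.V.Lwb
import Pool.Agent.Lib.MP_dff12b_nt.V.Lwc
import Pool.Agent.Lib.MP_dff12b_nt.V.Upb
import Pool.Agent.Lib.MP_dff12b_nt.V.Upc
import Pool.Agent.Lib.MP_dff12b_nt.V.Upe
import Pool.Agent.Lib.MP_dff12b_nt.V.Upf
import Pool.Agent.Lib.MP_dff12b_nt.V.Sm
import Pool.Agent.Lib.MP_dff12b_nt.V.Yb
import Pool.Agent.Lib.MP_dff12b_nt.V.Om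
import Pool.Agent.Lib.MP_dff12b_nt.V.Fin
import Pool.Agent.Lib.MP_dff12b_nt.V.Opt
import Pool.Agent.Lib.MP_dff12b_nt.V.Res

/-!
MP_dff12b_nt, assembly of theorem A' (growing windows).
-/

namespace Pool.Agent.MPdff.V

open Pool.Agent.MPdff

private theorem xBlk : S_Blk := tBlk
private theorem xPrd : S_Prd := tPrd
private theorem xExp : S_Exp := tExp xBlk xPrd
private theorem xPt : S_Pt := tPt xBlk xExp
private theorem xMn : S_Mn := tMn xBlk xExp
private theorem xSp : S_Sp := tSp xBlk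
private theorem xSv : S_Sv := tSv xPt xMn xSp
private theorem xCp : S_Cp := tCp
private theorem xCrt : S_Crt := tCrt
private theorem xCrf : S_Crf := tCrf xCrt
private theorem xRtb : S_Rtb := tRtb
private theorem xCnt : S_Cnt := tCnt xCp xCrt xCrf xRtb
private theorem xPc : S_Pc := tPc xCrt xCrf xRtb
private theorem xSqn : S_Sqn := tSqn xCp xRtb
private theorem xBv : S_Bv := tBv
private theorem xRp : S_Rp := tRp
private theorem xTrv : S_Trv := tTrv
private theorem xWt : S_Wt := tWt xBv xRp xTrv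
private theorem xAr : S_Ar := tAr
private theorem xIcl : S_Icl := tIcl
private theorem xDeg : S_Deg := tDeg
private theorem xIid : S_Iid := tIid
private theorem xIer : S_Ier := tIer xIcl xDeg xIid
private theorem xKex : S_Kex := tKex
private theorem xHom : S_Hom := tHom
private theorem xRtk : S_Rtk := tRtk xKex xHom
private theorem xLan : S_Lan := tLan xRtb xAr xIcl xDeg xIer xRtk
private theorem xPs : S_Ps := tPs
private theorem xUp : S_Up := tUp xRtb xDeg xRtk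
private theorem xIrr : S_Irr := tIrr
private theorem xDex : S_Dex := tDex xRtb xLan xPs xUp xIrr
private theorem xFam : S_Fam := tFam xPrd
private theorem xWh : S_Wh := tWh
private theorem xVra : S_Vra := tVra xWh
private theorem xVlo : S_Vlo := tVlo
private theorem xLwa : S_Lwa := tLwa xPc xSv
private theorem xUpa : S_Upa := tUpa xCnt xSv
private theorem xUpd : S_Upd := tUpd
private theorem yWdj : V.S_Wdj := V.tWdj
private theorem yFpr : V.S_Fpr := V.tFpr yWdj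
private theorem yLwb : V.S_Lwb := V.tLwb xWt xFam yWdj yFpr xLwa
private theorem yLwc : V.S_Lwc := V.tLwc xWh xVlo yLwb
private theorem yUpb : V.S_Upb := V.tUpb
private theorem yUpc : V.S_Upc := V.tUpc xFam yWdj yFpr xUpa yUpb
private theorem yUpe : V.S_Upe := V.tUpe xWh
private theorem yUpf : V.S_Upf := V.tUpf xVra xVlo yUpc xUpd yUpe
private theorem ySm : V.S_Sm := V.tSm
private theorem yYb : V.S_Yb := V.tYb yLwc yUpf ySm
private theorem yOm : V.S_Om := V.tOm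
private theorem yFin : V.S_Fin := V.tFin xSqn xVlo yLwc yYb yOm
private theorem yOpt : V.S_Opt := V.tOpt

theorem final : V.S_Res := V.tRes xDex yFin yOpt

end Pool.Agent.MPdff.V
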