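import Pool.Agent.Lib.MP_dff12b_nt.SpecS
import Pool.Agent.Lib.BV.Pbs

/-! MP_dff12b_nt, part S, module Blk: the blocks are disjoint and cover `P`. -/

namespace Pool.Agent.MPdff

open Finset Pool.Agent.Lib.BV

private theorem blk_mem (P : Finset ℕ) (z j p : ℕ) :
    p ∈ bk P z j ↔ p ∈ P ∧ thr z (j + 1) < p ∧ p ≤ thr z j := by
  unfold bk
  rw [Finset.mem_filter]

private theorem blk_lt (P : Finset ℕ) (z i j : ℕ) (h : i < j) :
    Disjoint (bk P z i) (bk P z j) := by
  rw [Finset.disjoint_left]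
  intro p h1 h2
  rw [blk_mem] at h1 h2
  have h3 : thr z j ≤ thr z (i + 1) := Pbs_anti z (by omega)
  omega

theorem tBlk : S_Blk := by
  intro z P _ hP
  refine ⟨fun i j h => ?_, ?_⟩
  · rcases Nat.lt_or_gt_of_ne h with h | h
    · exact blk_lt P z i j h
    · exact (blk_lt P z j i h).symm
  · ext p
    rw [Finset.mem_biUnion]
    constructor
    · rintro ⟨j, -, hp⟩
      exact ((blk_mem P z j p).1 hp).1
    · intro hp
      obtain ⟨h1, h2⟩ := hP p hp
      obtain ⟨j, hj, h5⟩ := Pbs_cover z p h1.two_le h2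
      exact ⟨j, Finset.mem_range.2 hj, (blk_mem P z j p).2 ⟨hp, h5⟩⟩

end Pool.Agent.MPdff
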