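import Pool.Agent.Lib.MP_dff12b_nt.SpecG

/-!
# MP_dff12b_nt, theorem A, part G: products over the sets of the families
-/

namespace Pool.Agent.MPdff

open Finset Filter Topology Pool.Agent.Results.MP_00e23e_nt

private theorem be_succ (B : ℝ) (hB : 2 ≤ B) (i : ℕ) : 2 * be B (i + 1) ≤ be B i := by
  rw [be, be]
  have h1 : Real.exp (-(B * ((i + 1 : ℕ) : ℝ))) = Real.exp (-(B * i)) * Real.exp (-B) := by
    rw [← Real.exp_add]
    congr 1
    push_cast
    ring
  have h2 : Real.exp (-B) ≤ 1 / 2 := by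
    have h3 : Real.exp (-B) ≤ Real.exp (-1) := Real.exp_le_exp.2 (by linarith)
    have h4 : Real.exp (-1) ≤ 1 / 2 := by
      rw [Real.exp_neg, one_div]
      refine inv_anti₀ (by norm_num) ?_
      have := Real.add_one_le_exp (1 : ℝ)
      linarith
    linarith
  have h5 := Real.exp_pos (-(B * i))
  rw [h1]
  nlinarith

private theorem be_pos (B : ℝ) (i : ℕ) : 0 < be B i := by
  rw [be]
  positivity

private theorem be_le (B : ℝ) (hB : 2 ≤ B) (i : ℕ) : be B i ≤ 1 / 400 := by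
  rw [be]
  have : Real.exp (-(B * i)) ≤ 1 := Real.exp_le_one_iff.2 (by
    have : 0 ≤ B * (i : ℝ) := by positivity
    linarith)
  linarith

private theorem mem_wc {B x e : ℝ} (hx : 1 ≤ x) {i l : ℕ} (h : l ∈ wc B x e i) :
    l.Prime ∧ x ^ be B (i + 1) < l ∧ (l : ℝ) ≤ x ^ be B i ∧ (l : ℝ) ≤ x ^ e := by
  rw [wc, mem_filter, wn, prs, mem_filter, mem_Icc] at h
  obtain ⟨⟨⟨h1, h2⟩, h3, h4⟩, h5⟩ := h
  exact ⟨h3, h4, (Nat.le_floor_iff (Real.rpow_nonneg (by linarith) _)).1 h2, h5⟩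

private theorem wc_dj (h : S_Wdj) (B x e : ℝ) (i j : ℕ) (hB : 2 ≤ B) (hx : 1 ≤ x) (hij : i ≠ j) :
    Disjoint (wc B x e i) (wc B x e j) :=
  (h B x i j hB hx hij).mono (filter_subset _ _) (filter_subset _ _)

/-- The part of the product in one window. -/
private theorem fpr_one (B x e : ℝ) (hx : 1 ≤ x) (S : Finset ℕ) (i : ℕ) (he : 0 < e)
    (hc : (S ∩ wc B x e i).card ≤ 1) :
    (e ≤ be B (i + 1) → ((∏ l ∈ S ∩ wc B x e i, l : ℕ) : ℝ) = 1) ∧
      ((∏ l ∈ S ∩ wc B x e i, l : ℕ) : ℝ) ≤ x ^ e ∧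
      ((∏ l ∈ S ∩ wc B x e i, l : ℕ) : ℝ) ≤ x ^ be B i := by
  rcases Nat.le_one_iff_eq_zero_or_eq_one.1 hc with h | h
  · rw [card_eq_zero] at h
    rw [h, prod_empty, Nat.cast_one]
    exact ⟨fun _ => rfl, Real.one_le_rpow hx he.le, Real.one_le_rpow hx (be_pos B i).le⟩
  · obtain ⟨l, hl⟩ := card_eq_one.1 h
    have hl' : l ∈ wc B x e i := (mem_inter.1 (hl ▸ mem_singleton_self l)).2
    obtain ⟨-, h1, h2, h3⟩ := mem_wc hx hl'
    rw [hl, prod_singleton]
    refine ⟨fun h4 => ?_, h3, h2⟩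
    exact absurd (h1.trans_le h3) (not_lt.2 (Real.rpow_le_rpow_of_exponent_le hx h4))

private theorem fpr_prod (B x e : ℝ) (hB : 2 ≤ B) (hx : 1 ≤ x) (he : 0 < e) (S : Finset ℕ)
    (J : ℕ) (hc : ∀ i < J, (S ∩ wc B x e i).card ≤ 1) :
    (e ≤ be B J → ∏ i ∈ range J, ((∏ l ∈ S ∩ wc B x e i, l : ℕ) : ℝ) = 1) ∧
      (be B J < e → ∏ i ∈ range J, ((∏ l ∈ S ∩ wc B x e i, l : ℕ) : ℝ) ≤ x ^ (3 * e - 2 * be B J)) := by
  have hx0 : 0 < x := by linarith
  induction J with
  | zero =>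
    rw [prod_range_zero]
    exact ⟨fun _ => rfl, fun h => Real.one_le_rpow hx (by linarith)⟩
  | succ J ih =>
    obtain ⟨ih1, ih2⟩ := ih fun i hi => hc i (by omega)
    obtain ⟨h1, h2, h3⟩ := fpr_one B x e hx S J he (hc J (by omega))
    have hb := be_succ B hB J
    have hb' := be_pos B (J + 1)
    rw [prod_range_succ]
    constructor
    · intro h
      rw [ih1 (by linarith), h1 h, one_mul]
    · intro h
      rcases le_or_gt e (be B J) with h4 | h4
      · rw [ih1 h4, one_mul]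
        exact h2.trans (Real.rpow_le_rpow_of_exponent_le hx (by linarith))
      · calc (∏ i ∈ range J, ((∏ l ∈ S ∩ wc B x e i, l : ℕ) : ℝ)) *
              ((∏ l ∈ S ∩ wc B x e J, l : ℕ) : ℝ) ≤ x ^ (3 * e - 2 * be B J) * x ^ be B J :=
            mul_le_mul (ih2 h4) h3 (Nat.cast_nonneg _) (Real.rpow_nonneg hx0.le _)
          _ = x ^ (3 * e - be B J) := by
            rw [← Real.rpow_add hx0]
            congr 1
            ring
          _ ≤ _ := Real.rpow_le_rpow_of_exponent_le hx (by linarith)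

theorem tFpr (h1 : S_Wdj) : S_Fpr := by
  classical
  intro B x e J t hB hx he
  have hx0 : 0 < x := by linarith
  have key : ∀ S ∈ fam J (wc B x e) t, (∀ l ∈ S, l.Prime) ∧
      ((∏ l ∈ S, l : ℕ) : ℝ) ≤ x ^ (3 * e) := by
    intro S hS
    rw [fam, mem_filter, mem_powerset] at hS
    obtain ⟨hS1, hS2⟩ := hS
    have hpr : ∀ l ∈ S, l.Prime := by
      intro l hl
      obtain ⟨i, -, hi⟩ := mem_biUnion.1 (hS1 hl)
      exact (mem_wc hx hi).1
    refine ⟨hpr, ?_⟩
    have hU : S = (range J).biUnion fun i => S ∩ wc B x e i := by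
      ext l
      rw [mem_biUnion]
      constructor
      · intro hl
        obtain ⟨i, hi, hi'⟩ := mem_biUnion.1 (hS1 hl)
        exact ⟨i, hi, mem_inter.2 ⟨hl, hi'⟩⟩
      · rintro ⟨i, -, hi'⟩
        exact (mem_inter.1 hi').1
    have hprod : ((∏ l ∈ S, l : ℕ) : ℝ) = ∏ i ∈ range J, ((∏ l ∈ S ∩ wc B x e i, l : ℕ) : ℝ) := by
      conv_lhs => rw [hU]
      rw [prod_biUnion]
      · push_cast
        rfl
      · intro i _ j _ hij
        exact (wc_dj h1 B x e i j hB hx hij).mono inter_subset_right inter_subset_right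
    have hJ := fpr_prod B x e hB hx he S J fun i hi => (hS2 i (mem_range.2 hi)).2
    rw [hprod]
    rcases le_or_gt e (be B J) with h | h
    · rw [hJ.1 h]
      exact Real.one_le_rpow hx (by positivity)
    · exact (hJ.2 h).trans (Real.rpow_le_rpow_of_exponent_le hx (by
        have := be_pos B J
        linarith))
  refine ⟨key, ?_, fun i => ?_⟩
  · have hc : (fam J (wc B x e) t).card ≤ (Icc 1 ⌊x ^ (3 * e)⌋₊).card := by
      refine card_le_card_of_injOn (fun S => ∏ l ∈ S, l) (fun S hS => ?_) ?_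
      · obtain ⟨h2, h3⟩ := key S hS
        rw [mem_coe, mem_Icc]
        refine ⟨Nat.one_le_iff_ne_zero.2 (prod_ne_zero_iff.2 fun l hl => (h2 l hl).ne_zero), ?_⟩
        exact Nat.le_floor h3
      · intro S hS T hT hST
        rw [← Nat.primeFactors_prod (key S hS).1, ← Nat.primeFactors_prod (key T hT).1]
        exact congrArg Nat.primeFactors hST
    rw [Nat.card_Icc, Nat.add_sub_cancel] at hc
    exact le_trans (by exact_mod_cast hc) (Nat.floor_le (Real.rpow_nonneg hx0.le _))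
  · rw [wc, filter_eq_self]
    intro l hl
    rw [wn, prs, mem_filter, mem_Icc] at hl
    refine ((Nat.le_floor_iff (Real.rpow_nonneg hx0.le _)).1 hl.1.2).trans ?_
    exact Real.rpow_le_rpow_of_exponent_le hx (be_le B hB i)

end Pool.Agent.MPdff
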