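import Pool.Agent.Lib.MP_dff12b_nt.SpecL

/-!
# MP_dff12b_nt, theorem A, part L: ideals of prime norm and ring homomorphisms
-/

namespace Pool.Agent.MPdff

open Finset Filter Topology NumberField Pool.Agent.Results.MP_00e23e_nt

theorem tHom : S_Hom := by
  intro K _ _ l hl
  have : Fact l.Prime := ⟨hl⟩
  have : NeZero l := ⟨hl.ne_zero⟩
  have hnorm : ∀ φ : 𝓞 K →+* ZMod l, Ideal.absNorm (RingHom.ker φ) = l := by
    intro φ
    rw [Ideal.absNorm_apply, Submodule.cardQuot_apply]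
    have e := RingHom.quotientKerEquivOfSurjective (ZMod.ringHom_surjective φ)
    exact (Nat.card_congr e.toEquiv).trans (Nat.card_zmod l)
  refine (Nat.card_eq_of_bijective
    (fun φ : 𝓞 K →+* ZMod l => (⟨RingHom.ker φ, hnorm φ⟩ : {I // Ideal.absNorm I = l}))
    ⟨fun φ ψ h => ?_, fun ⟨I, hI⟩ => ?_⟩).symm
  · exact ZMod.ringHom_eq_of_ker_eq φ ψ (Subtype.ext_iff.1 h)
  · have hc : Nat.card (𝓞 K ⧸ I) = l := by
      rw [← hI, Ideal.absNorm_apply, Submodule.cardQuot_apply]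
    have : Finite (𝓞 K ⧸ I) := Nat.finite_of_card_ne_zero (by rw [hc]; exact hl.ne_zero)
    let _ : Fintype (𝓞 K ⧸ I) := Fintype.ofFinite _
    have hc' : Fintype.card (𝓞 K ⧸ I) = l := by rw [← hc, Nat.card_eq_fintype_card]
    let e := (ZMod.ringEquivOfPrime (𝓞 K ⧸ I) hl hc').symm
    refine ⟨(e : 𝓞 K ⧸ I →+* ZMod l).comp (Ideal.Quotient.mk I), Subtype.ext ?_⟩
    ext x
    rw [RingHom.mem_ker, RingHom.comp_apply, RingEquiv.coe_toRingHom,
      EmbeddingLike.map_eq_zero_iff, Ideal.Quotient.eq_zero_iff_mem]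

end Pool.Agent.MPdff
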