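import Pool.Agent.Lib.MP_dff12b_nt.SpecG

/-!
MP_dff12b_nt, part G, module Opt: choice of the parameters.
-/

namespace Pool.Agent.MPdff

open Finset Filter Topology

theorem tOpt : S_Opt := by
  intro d hd
  have hd3 : (3 : ℝ) ≤ d := by exact_mod_cast hd
  have hlog3 : 1 < Real.log 3 := by
    rw [Real.lt_log_iff_exp_lt (by norm_num)]
    have := Real.exp_one_lt_d9
    linarith
  have hld : 1 < Real.log d := lt_of_lt_of_le hlog3 (Real.log_le_log (by norm_num) hd3)
  set L : ℝ := Real.log (Real.log d) with hL
  have hL0 : 0 < L := Real.log_pos hld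
  set M : ℝ := Real.log (2 + L) with hM
  have hM0 : 0 < M := Real.log_pos (by linarith)
  have hlog2 : (0.6931 : ℝ) < Real.log 2 := by
    have := Real.log_two_gt_d9
    linarith
  set B : ℝ := 2 + L / M with hB
  have ht : 0 < L / M := div_pos hL0 hM0
  have hB2 : 2 ≤ B := by linarith
  have hB0 : 0 < B := by linarith
  have hlB2 : Real.log 2 ≤ Real.log B := Real.log_le_log (by norm_num) hB2
  have hlB0 : 0 < Real.log B := by linarith
  have hMB : M / 3 ≤ Real.log B := by
    by_cases h : M ≤ 2
    · linarith
    · push Not at h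
      have h1 : (2 + L) / M ≤ B := by
        rw [hB, div_le_iff₀ hM0, add_mul, div_mul_cancel₀ L hM0.ne']
        linarith
      have h2 : Real.log ((2 + L) / M) ≤ Real.log B := Real.log_le_log (by positivity) h1
      rw [Real.log_div (by linarith) hM0.ne', ← hM] at h2
      have h3 : Real.log (M / 2) ≤ M / 2 - 1 := Real.log_le_sub_one_of_pos (by linarith)
      rw [Real.log_div hM0.ne' (by norm_num)] at h3
      have h4 : Real.log 2 < 1 := by
        have := Real.log_two_lt_d9
        linarith
      linarith
  refine ⟨B, ⌈L / Real.log B⌉₊, hB2, ?_, ?_⟩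
  · have h1 : L / Real.log B ≤ (⌈L / Real.log B⌉₊ : ℝ) := Nat.le_ceil _
    have h2 : L ≤ (⌈L / Real.log B⌉₊ : ℝ) * Real.log B := by
      rwa [div_le_iff₀ hlB0] at h1
    have h3 : Real.log d = Real.exp L := by
      rw [hL, Real.exp_log (by linarith)]
    rw [h3, ← Real.exp_log (pow_pos hB0 _), Real.log_pow]
    exact Real.exp_le_exp.2 h2
  · intro C hC
    have h1 : (⌈L / Real.log B⌉₊ : ℝ) < L / Real.log B + 1 :=
      Nat.ceil_lt_add_one (div_nonneg hL0.le hlB0.le)
    have h2 : L / Real.log B ≤ 3 * (L / M) := by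
      have h3 : L / Real.log B ≤ L / (M / 3) :=
        div_le_div_of_nonneg_left hL0.le (by positivity) hMB
      have h4 : L / (M / 3) = 3 * (L / M) := by
        field_simp
      linarith
    have h5 : 0 ≤ C * (L / M) := by positivity
    have h6 : C * B = 2 * C + C * (L / M) := by
      rw [hB]
      ring
    nlinarith

end Pool.Agent.MPdff
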