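import Pool.Agent.Lib.MP_dff12b_nt.SpecR

/-!
# MP_dff12b_nt, theorem A, part R: primes in a residue class with prescribed divisors of f(p)
-/

namespace Pool.Agent.MPdff

open Finset Pool.Agent.Results.MP_00e23e_nt

private theorem pc_tot (S : Finset ℕ) (hS : ∀ l ∈ S, l.Prime) :
    (∏ l ∈ S, l).totient = ∏ l ∈ S, (l - 1) := by
  induction S using Finset.induction_on with
  | empty => simp
  | insert l S hl ih =>
    rw [prod_insert hl, prod_insert hl, Nat.totient_mul, ih fun q hq => hS q (mem_insert_of_mem hq),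
      Nat.totient_prime (hS l (mem_insert_self l S))]
    refine Nat.Coprime.prod_right fun q hq => ?_
    rw [Nat.coprime_primes (hS l (mem_insert_self l S)) (hS q (mem_insert_of_mem hq))]
    rintro rfl
    exact hl hq

private theorem pc_per (d : ℕ) (k : ℤ) (l v w : ℕ) (h : v ≡ w [MOD l]) :
    (l : ℤ) ∣ fv d k v ↔ (l : ℤ) ∣ fv d k w := by
  have h1 : (v : ℤ) ≡ w [ZMOD l] := (Int.natCast_modEq_iff).2 h
  have h2 : fv d k v ≡ fv d k w [ZMOD l] := (h1.pow d).add_right k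
  rw [← Int.modEq_zero_iff_dvd, ← Int.modEq_zero_iff_dvd]
  exact ⟨fun h => h2.symm.trans h, fun h => h2.trans h⟩

/-- The number of the classes. -/
private theorem pc_card (h1 : S_Crt) (h2 : S_Crf) (d : ℕ) (k : ℤ) (b0 a : ℕ) (S : Finset ℕ)
    (hb : 2 ≤ b0) (hS : ∀ l ∈ S, l.Prime ∧ ¬ l ∣ b0 ∧ ¬ (l : ℤ) ∣ k) :
    ((range (b0 * ∏ l ∈ S, l)).filter (fun v => v ≡ a [MOD b0] ∧
      ∀ l ∈ S, (l : ℤ) ∣ fv d k v)).card = ∏ l ∈ S, rt d k l := by
  have hm : 1 ≤ ∏ l ∈ S, l := Nat.one_le_iff_ne_zero.2 (prod_ne_zero_iff.2 fun l hl =>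
    (hS l hl).1.ne_zero)
  have hper : ∀ l : ℕ, Per l fun v => (l : ℤ) ∣ fv d k v := by
    intro l n
    exact pc_per d k l _ _ (by simp [Nat.ModEq])
  rw [h1 b0 (∏ l ∈ S, l) (fun v => v ≡ a [MOD b0]) (fun v => ∀ l ∈ S, (l : ℤ) ∣ fv d k v)
    (by omega) hm (Nat.Coprime.prod_right fun l hl =>
      (((hS l hl).1.coprime_iff_not_dvd).2 (hS l hl).2.1).symm) ?_ ?_,
    h2 S (fun l v => (l : ℤ) ∣ fv d k v) fun l hl => ⟨(hS l hl).1, hper l⟩]
  · have h3 : (range b0).filter (fun v => v ≡ a [MOD b0]) = {a % b0} := by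
      ext v
      rw [mem_filter, mem_range, mem_singleton]
      constructor
      · rintro ⟨h3, h4⟩
        rw [Nat.ModEq, Nat.mod_eq_of_lt h3] at h4
        exact h4
      · rintro rfl
        exact ⟨Nat.mod_lt _ (by omega), Nat.mod_modEq a b0⟩
    rw [h3, card_singleton, one_mul]
    rfl
  · intro n
    simp [Nat.ModEq]
  · intro n
    refine forall₂_congr fun l hl => pc_per d k l _ _ ?_
    have : n + ∏ l ∈ S, l ≡ n + 0 [MOD l] :=
      Nat.ModEq.add_left n ((Nat.modEq_zero_iff_dvd).2 (dvd_prod_of_mem _ hl))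
    exact this

theorem tPc (h1 : S_Crt) (h2 : S_Crf) (h3 : S_Rtb) : S_Pc := by
  intro d k b0 a x S hb hd ha hS
  set m := ∏ l ∈ S, l with hm
  set M := b0 * m with hM
  set V := (range M).filter (fun v => v ≡ a [MOD b0] ∧ ∀ l ∈ S, (l : ℤ) ∣ fv d k v) with hV
  have hm0 : m ≠ 0 := prod_ne_zero_iff.2 fun l hl => (hS l hl).1.ne_zero
  have hM0 : 0 < M := Nat.mul_pos (by omega) (Nat.pos_of_ne_zero hm0)
  have hcV : V.card = ∏ l ∈ S, rt d k l := pc_card h1 h2 d k b0 a S hb hS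
  have hdl : ∀ l ∈ S, l ∣ M := fun l hl => (dvd_prod_of_mem _ hl).trans (dvd_mul_left m b0)
  have hcop : ∀ v ∈ V, v.Coprime M ∧ 1 ≤ v ∧ v ≤ M := by
    intro v hv
    obtain ⟨h4, h5, h6⟩ := mem_filter.1 hv
    have h7 : v.Coprime b0 := by
      have := h5.gcd_eq
      rw [Nat.coprime_iff_gcd_eq_one] at ha ⊢
      rw [this, ha]
    have h8 : v.Coprime m := Nat.Coprime.prod_right fun l hl =>
      (((hS l hl).1.coprime_iff_not_dvd).2
        ((h3 d k l hd (hS l hl).1).2.2.2 (hS l hl).2.2 v (h6 l hl))).symm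
    refine ⟨h7.mul_right h8, Nat.one_le_iff_ne_zero.2 fun h0 => ?_, (mem_range.1 h4).le⟩
    rw [h0, Nat.coprime_zero_left] at h7
    omega
  -- the count
  have hcount : (((Icc 1 ⌊x⌋₊).filter (fun p => p.Prime ∧ p ≡ a [MOD b0] ∧
      ∀ l ∈ S, (l : ℤ) ∣ fv d k p)).card : ℕ) = ∑ v ∈ V, primeCount x M v := by
    rw [card_eq_sum_card_fiberwise (f := fun p => p % M) (t := V)]
    · refine sum_congr rfl fun v hv => ?_
      obtain ⟨h4, h5, h6⟩ := mem_filter.1 hv
      rw [mem_range] at h4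
      rw [primeCount]
      congr 1
      ext p
      rw [mem_filter, mem_filter, mem_filter]
      constructor
      · rintro ⟨⟨h7, h8, -, -⟩, h9⟩
        refine ⟨h7, h8, ?_⟩
        rw [Nat.ModEq, Nat.mod_eq_of_lt h4]
        exact h9
      · rintro ⟨h7, h8, h9⟩
        refine ⟨⟨h7, h8, (h9.of_mul_right m).trans h5, fun l hl => ?_⟩, ?_⟩
        · exact (pc_per d k l _ _ (h9.of_dvd (hdl l hl))).2 (h6 l hl)
        · rw [Nat.ModEq, Nat.mod_eq_of_lt h4] at h9
          exact h9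
    · intro p hp
      rw [mem_coe, mem_filter] at hp
      obtain ⟨h7, h8, h9, h10⟩ := hp
      rw [mem_coe, mem_filter, mem_range]
      have h11 : p % M ≡ p [MOD M] := Nat.mod_modEq p M
      exact ⟨Nat.mod_lt _ hM0, (h11.of_mul_right m).trans h9,
        fun l hl => (pc_per d k l _ _ (h11.of_dvd (hdl l hl))).2 (h10 l hl)⟩
  have htot : (M.totient : ℝ) = b0.totient * ∏ l ∈ S, ((l : ℝ) - 1) := by
    rw [hM, Nat.totient_mul (Nat.Coprime.prod_right fun l hl =>
      (((hS l hl).1.coprime_iff_not_dvd).2 (hS l hl).2.1).symm), pc_tot S fun l hl => (hS l hl).1]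
    push_cast
    congr 1
    exact prod_congr rfl fun l hl => by
      rw [Nat.cast_sub (hS l hl).1.one_lt.le, Nat.cast_one]
  have hmain : li x / (b0.totient : ℝ) * ∏ l ∈ S, (rt d k l : ℝ) / ((l : ℝ) - 1) =
      V.card * (li x / M.totient) := by
    rw [hcV, htot, prod_div_distrib]
    push_cast
    ring
  have hcV' : ∏ l ∈ S, (rt d k l : ℝ) = V.card := by
    rw [hcV]
    push_cast
    rfl
  rw [hcount, hmain, hcV']
  push_cast
  rw [show (V.card : ℝ) * (li x / M.totient) = ∑ v ∈ V, li x / M.totient by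
    rw [sum_const, nsmul_eq_mul], ← sum_sub_distrib]
  refine (abs_sum_le_sum_abs _ _).trans ?_
  rw [← nsmul_eq_mul]
  refine sum_le_card_nsmul _ _ _ fun v hv => ?_
  obtain ⟨h4, h5, h6⟩ := hcop v hv
  exact Pool.Agent.Lib.EH.le_maxErr x M v h5 h6 h4

end Pool.Agent.MPdff
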