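import Pool.Agent.Lib.MP_dff12b_nt.SpecG

/-!
MP_dff12b_nt, part G, module Res: the theorem.
-/

namespace Pool.Agent.MPdff

open Finset Filter Topology

private lemma Res_ncard {P : ℕ → Prop} {x : ℝ} (F : Finset ℕ)
    (hF : ∀ p ∈ F, p.Prime ∧ (p : ℝ) ≤ x ∧ P p) :
    (F.card : ℝ) ≤ (Set.ncard {p : ℕ | p.Prime ∧ (p : ℝ) ≤ x ∧ P p} : ℝ) := by
  have hfin : Set.Finite {p : ℕ | p.Prime ∧ (p : ℝ) ≤ x ∧ P p} := by
    apply Set.Finite.subset (Set.finite_Iic ⌊x⌋₊)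
    rintro p ⟨hp, hpx, _⟩
    have hx : 0 ≤ x := le_trans (Nat.cast_nonneg _) hpx
    exact Set.mem_Iic.2 ((Nat.le_floor_iff hx).2 hpx)
  have h : (F : Set ℕ) ⊆ {p : ℕ | p.Prime ∧ (p : ℝ) ≤ x ∧ P p} := by
    intro p hp
    exact hF p (by exact_mod_cast hp)
  have h1 := Set.ncard_le_ncard h hfin
  rw [Set.ncard_coe_finset] at h1
  exact_mod_cast h1

theorem tRes : S_Dex → S_Fin → S_Opt → S_Res := by
  intro hDex hFin hOpt
  refine ⟨2200003, 1 / 400, by norm_num, ?_⟩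
  intro d hd hodd k hk hadm
  obtain ⟨w, a, hD⟩ := hDex d k hd hodd hk hadm
  have hd3 : 3 ≤ d := hD.hd
  refine ⟨?_, ?_⟩
  · intro B J hB hJ
    obtain ⟨c, x0, hc, h⟩ := hFin d k w a hD B J hB hJ
    refine ⟨c, x0, hc, fun x hx => ?_⟩
    obtain ⟨F, hF1, hF2⟩ := h x hx
    refine hF1.trans (Res_ncard F ?_)
    intro p hp
    obtain ⟨h1, h2, n, h3, h4, h5, h6⟩ := hF2 p hp
    refine ⟨h1, h2, n, h3, h4, ?_, ?_⟩
    · have h7 : (1100000 : ℝ) * B ≤ 2200003 * B := by nlinarith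
      linarith
    · intro q hq hqn
      have h8 : (1 : ℝ) / 400 * Real.exp (-(B * J)) = Real.exp (-(B * J)) / 400 := by ring
      rw [h8]
      exact h6 q hq hqn
  · obtain ⟨B, J, hB, hJ, hC⟩ := hOpt d hd3
    obtain ⟨c, x0, hc, h⟩ := hFin d k w a hD B J hB hJ
    refine ⟨c, x0, Real.exp (-(B * J)) / 400, hc, by positivity, fun x hx => ?_⟩
    obtain ⟨F, hF1, hF2⟩ := h x hx
    refine hF1.trans (Res_ncard F ?_)
    intro p hp
    obtain ⟨h1, h2, n, h3, h4, h5, h6⟩ := hF2 p hp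
    refine ⟨h1, h2, n, h3, h4, ?_, h6⟩
    have h7 := hC 1100000 (by norm_num)
    have h8 : (3 : ℝ) + 2 * 1100000 = 2200003 := by norm_num
    rw [h8] at h7
    linarith

end Pool.Agent.MPdff
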