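import Pool.Agent.Lib.MP_dff12b_nt.SpecG

namespace Pool.Agent.MPdff

open Finset Filter Topology Pool.Agent.Results.MP_00e23e_nt

/-- the condition `be B i ≤ er r` as a ceiling -/
private theorem sm_be_iff (B : ℝ) (hB : 2 ≤ B) (r i : ℕ) :
    be B i ≤ er r ↔ ⌈(r : ℝ) * (Real.log 2 / B)⌉₊ ≤ i := by
  have hB0 : (0 : ℝ) < B := by linarith
  have h2 : (0 : ℝ) < (2 : ℝ) ^ r := by positivity
  rw [Nat.ceil_le]
  have e1 : (r : ℝ) * (Real.log 2 / B) ≤ i ↔ (r : ℝ) * Real.log 2 ≤ B * i := by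
    rw [← mul_div_assoc, div_le_iff₀ hB0, mul_comm (i : ℝ) B]
  rw [e1]
  unfold be er
  have e2 : Real.exp (-(B * i)) / 400 ≤ 1 / (400 * 2 ^ r) ↔ (2 : ℝ) ^ r ≤ Real.exp (B * i) := by
    rw [Real.exp_neg]
    have hx : (0 : ℝ) < Real.exp (B * i) := Real.exp_pos _
    constructor
    · intro h
      have h' : (Real.exp (B * i))⁻¹ * 2 ^ r ≤ 1 := by
        have := mul_le_mul_of_nonneg_right h (by positivity : (0 : ℝ) ≤ 400 * 2 ^ r)
        rw [one_div, inv_mul_cancel₀ (by positivity)] at this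
        calc (Real.exp (B * i))⁻¹ * 2 ^ r = (Real.exp (B * i))⁻¹ / 400 * (400 * 2 ^ r) := by ring
          _ ≤ 1 := this
      have h3 := mul_le_mul_of_nonneg_left h' hx.le
      rw [← mul_assoc, mul_inv_cancel₀ hx.ne', one_mul, mul_one] at h3
      exact h3
    · intro h
      have h3 : (Real.exp (B * i))⁻¹ ≤ ((2 : ℝ) ^ r)⁻¹ := inv_anti₀ h2 h
      calc (Real.exp (B * i))⁻¹ / 400 ≤ ((2 : ℝ) ^ r)⁻¹ / 400 := by
            apply div_le_div_of_nonneg_right h3 (by norm_num)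
        _ = 1 / (400 * 2 ^ r) := by
            rw [one_div, mul_inv]
            ring
  rw [e2]
  rw [← Real.log_le_log_iff h2 (Real.exp_pos _), Real.log_pow, Real.log_exp]

private theorem sm_prod (B : ℝ) (hB : 2 ≤ B) (r J : ℕ) :
    0 ≤ ∏ i ∈ range J, El B r i ∧ ∏ i ∈ range J, El B r i ≤
      if J < ⌈(r : ℝ) * (Real.log 2 / B)⌉₊ then 1 else
        (1 + B) * B ^ (J - ⌈(r : ℝ) * (Real.log 2 / B)⌉₊) := by
  have hB0 : (0 : ℝ) < B := by linarith
  set t := ⌈(r : ℝ) * (Real.log 2 / B)⌉₊ with ht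
  induction J with
  | zero =>
    simp only [range_zero, prod_empty]
    refine ⟨by norm_num, ?_⟩
    split_ifs with h
    · exact le_refl _
    · simp only [Nat.zero_sub, pow_zero, mul_one]
      linarith
  | succ J ih =>
    obtain ⟨h0, h1⟩ := ih
    rw [prod_range_succ]
    have hE : El B r J = if t ≤ J then B else if t ≤ J + 1 then 1 + B else 1 := by
      unfold El
      simp only [sm_be_iff B hB, ← ht]
    have hE0 : 0 ≤ El B r J := by
      rw [hE]; split_ifs <;> linarith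
    refine ⟨mul_nonneg h0 hE0, ?_⟩
    rw [hE]
    by_cases c1 : t ≤ J
    · rw [if_neg (by omega)] at h1
      rw [if_pos c1, if_neg (by omega)]
      have : J + 1 - t = (J - t) + 1 := by omega
      rw [this, pow_succ, ← mul_assoc]
      exact mul_le_mul_of_nonneg_right h1 hB0.le
    · rw [if_pos (by omega)] at h1
      rw [if_neg c1]
      by_cases c2 : t ≤ J + 1
      · rw [if_pos c2, if_neg (by omega)]
        have : J + 1 - t = 0 := by omega
        rw [this, pow_zero, mul_one]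
        calc (∏ i ∈ range J, El B r i) * (1 + B) ≤ 1 * (1 + B) :=
              mul_le_mul_of_nonneg_right h1 (by linarith)
          _ = 1 + B := one_mul _
      · rw [if_neg c2, if_pos (by omega), mul_one]
        exact h1

private theorem sm_step (B : ℝ) (hB : 2 ≤ B) (c : ℝ) (hc0 : 0 < c) (hc1 : c ≤ 1) (n : ℕ) :
    c * (B ^ ⌈((n + 1 : ℕ) : ℝ) * c⌉₊)⁻¹ ≤
      (((⌈(n : ℝ) * c⌉₊ : ℝ) - n * c) + 1 / (B - 1)) * (B ^ ⌈(n : ℝ) * c⌉₊)⁻¹ -
      (((⌈((n + 1 : ℕ) : ℝ) * c⌉₊ : ℝ) - ((n + 1 : ℕ) : ℝ) * c) + 1 / (B - 1)) *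
        (B ^ ⌈((n + 1 : ℕ) : ℝ) * c⌉₊)⁻¹ := by
  have hB0 : (0 : ℝ) < B := by linarith
  have hB1 : (0 : ℝ) < B - 1 := by linarith
  have hm : (n : ℝ) * c ≤ (⌈(n : ℝ) * c⌉₊ : ℝ) := Nat.le_ceil _
  have h1 : ⌈(n : ℝ) * c⌉₊ ≤ ⌈((n + 1 : ℕ) : ℝ) * c⌉₊ := by
    apply Nat.ceil_mono
    push_cast
    nlinarith
  have h2 : ⌈((n + 1 : ℕ) : ℝ) * c⌉₊ ≤ ⌈(n : ℝ) * c⌉₊ + 1 := by
    rw [Nat.ceil_le]
    push_cast
    nlinarith
  set m := ⌈(n : ℝ) * c⌉₊ with hmdef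
  set m' := ⌈((n + 1 : ℕ) : ℝ) * c⌉₊ with hm'def
  rcases (by omega : m' = m ∨ m' = m + 1) with h | h
  · rw [h]
    push_cast
    have : 0 ≤ (B ^ m)⁻¹ := by positivity
    nlinarith
  · rw [h]
    have hP : (B ^ m)⁻¹ = B * (B ^ (m + 1))⁻¹ := by
      rw [pow_succ, mul_inv]
      field_simp
    rw [hP]
    have hPpos : 0 < (B ^ (m + 1))⁻¹ := by positivity
    set P := (B ^ (m + 1))⁻¹ with hPdef
    have e : (((m : ℝ) - n * c) + 1 / (B - 1)) * (B * P) -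
        ((((m + 1 : ℕ) : ℝ) - ((n + 1 : ℕ) : ℝ) * c) + 1 / (B - 1)) * P =
        (((m : ℝ) - n * c) * (B - 1) + c) * P := by
      push_cast
      field_simp
      ring
    rw [e]
    apply mul_le_mul_of_nonneg_right _ hPpos.le
    have : 0 ≤ ((m : ℝ) - n * c) * (B - 1) := mul_nonneg (by linarith) hB1.le
    linarith

private theorem sm_sum (B : ℝ) (hB : 2 ≤ B) (c : ℝ) (hc0 : 0 < c) (hc1 : c ≤ 1) (n : ℕ) :
    c * ∑ r ∈ range (n + 1), (B ^ ⌈(r : ℝ) * c⌉₊)⁻¹ ≤ c + 1 / (B - 1) := by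
  have hB1 : (0 : ℝ) < B - 1 := by linarith
  have key : ∀ n : ℕ, c * ∑ r ∈ range (n + 1), (B ^ ⌈(r : ℝ) * c⌉₊)⁻¹ ≤ c + 1 / (B - 1) -
      (((⌈(n : ℝ) * c⌉₊ : ℝ) - n * c) + 1 / (B - 1)) * (B ^ ⌈(n : ℝ) * c⌉₊)⁻¹ := by
    intro n
    induction n with
    | zero => simp
    | succ n ih =>
      rw [sum_range_succ, mul_add]
      have := sm_step B hB c hc0 hc1 n
      linarith
  have h := key n
  have h2 : 0 ≤ (((⌈(n : ℝ) * c⌉₊ : ℝ) - n * c) + 1 / (B - 1)) * (B ^ ⌈(n : ℝ) * c⌉₊)⁻¹ := by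
    have hm : (n : ℝ) * c ≤ (⌈(n : ℝ) * c⌉₊ : ℝ) := Nat.le_ceil _
    have h3 : 0 ≤ 1 / (B - 1) := by positivity
    apply mul_nonneg
    · linarith
    · positivity
  linarith

theorem tSm : S_Sm := by
  intro B J d hB hd hlog
  have hB0 : (0 : ℝ) < B := by linarith
  have hl2 : (0.6931471803 : ℝ) < Real.log 2 := Real.log_two_gt_d9
  have hl2' : Real.log 2 < (0.6931471808 : ℝ) := Real.log_two_lt_d9
  set c : ℝ := Real.log 2 / B with hc
  have hc0 : 0 < c := by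
    apply div_pos _ hB0
    linarith
  have hc1 : c ≤ 1 := by
    rw [hc, div_le_one hB0]
    linarith
  have hBJ : 1 ≤ B ^ J := one_le_pow₀ (by linarith)
  have hterm : ∀ r ∈ range (Nat.log 2 d + 1), ∏ i ∈ range J, El B r i ≤
      (1 + B) * (B ^ J * (B ^ ⌈(r : ℝ) * c⌉₊)⁻¹ + 1) := by
    intro r _
    have h := (sm_prod B hB r J).2
    rw [← hc] at h
    refine h.trans ?_
    have hp : 0 < (B ^ ⌈(r : ℝ) * c⌉₊)⁻¹ := by positivity
    have hp2 : 0 < B ^ J * (B ^ ⌈(r : ℝ) * c⌉₊)⁻¹ := by positivity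
    split_ifs with hlt
    · nlinarith
    · apply mul_le_mul_of_nonneg_left _ (by linarith)
      rw [not_lt] at hlt
      have : B ^ (J - ⌈(r : ℝ) * c⌉₊) = B ^ J * (B ^ ⌈(r : ℝ) * c⌉₊)⁻¹ := by
        rw [pow_sub₀ B hB0.ne' hlt]
      rw [this]
      linarith
  refine (sum_le_sum hterm).trans ?_
  rw [← mul_sum, sum_add_distrib, ← mul_sum]
  simp only [sum_const, card_range, nsmul_eq_mul, mul_one]
  set R := Nat.log 2 d with hR
  have hRl : (R : ℝ) * Real.log 2 ≤ B ^ J := by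
    refine le_trans ?_ hlog
    rw [← Real.log_pow]
    apply Real.log_le_log (by positivity)
    have : 2 ^ R ≤ d := Nat.pow_log_le_self 2 (by omega)
    exact_mod_cast this
  have hS := sm_sum B hB c hc0 hc1 R
  set S := ∑ r ∈ range (R + 1), (B ^ ⌈(r : ℝ) * c⌉₊)⁻¹ with hSdef
  -- S ≤ 1 + 2 / log 2
  have hS2 : S ≤ 4 := by
    have hB1 : (0 : ℝ) < B - 1 := by linarith
    have h1 : c * S * B ≤ (c + 1 / (B - 1)) * B := mul_le_mul_of_nonneg_right hS hB0.le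
    have h2 : c * B = Real.log 2 := by
      rw [hc]; field_simp
    have h3 : Real.log 2 * S ≤ Real.log 2 + B / (B - 1) := by
      calc Real.log 2 * S = c * S * B := by rw [← h2]; ring
        _ ≤ (c + 1 / (B - 1)) * B := h1
        _ = Real.log 2 + B / (B - 1) := by rw [add_mul, h2]; ring
    have h4 : B / (B - 1) ≤ 2 := by
      rw [div_le_iff₀ hB1]; linarith
    nlinarith
  have hR2 : (R : ℝ) ≤ 3 / 2 * B ^ J := by
    have hR0 : (0 : ℝ) ≤ R := Nat.cast_nonneg _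
    nlinarith
  have hfin : B ^ J * S + (((R + 1 : ℕ) : ℝ)) ≤ 7 * B ^ J := by
    push_cast
    have : B ^ J * S ≤ B ^ J * 4 := mul_le_mul_of_nonneg_left hS2 (by positivity)
    nlinarith
  calc (1 + B) * (B ^ J * S + (((R + 1 : ℕ) : ℝ))) ≤ (1 + B) * (7 * B ^ J) :=
        mul_le_mul_of_nonneg_left hfin (by linarith)
    _ = 7 * (1 + B) * B ^ J := by ring

end Pool.Agent.MPdff
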