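import Pool.Agent.Lib.MP_dff12b_nt.SpecL

/-!
# MP_dff12b_nt, theorem A, part G: the set G of primes, lower and upper bounds, conclusion
(architect helper97)

RULES: as in SpecS. First line of the modules of this part: `import Pool.Agent.Lib.MP_dff12b_nt.SpecG` (plus the
library files named in the docstring), `namespace Pool.Agent.MPdff`. `open Classical` is NOT global: the
decidability instances of `fam` are classical inside its definition (use `by classical; unfold fam; ..` or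
`mem_fam`-type private lemmas with `Finset.mem_filter`).

Notation: `b0 = primorial w`, `g l = rt l/(l-1)`. Windows `wn B x i` = primes in `(x^(be B (i+1)), x^(be B i)]`,
`be B i = exp(-B i)/400`, `i < J`. `Dv v n` = primes in `(w, v]` dividing `f(n)`. `Gs` = primes `p ≤ x`, `p > √x`,
`p ≡ a mod b0`, for which the primes in `(w, x^(1/400)]` dividing `f(p)` are exactly one from each window.
-/

namespace Pool.Agent.MPdff

open Finset Filter Topology Pool.Agent.Results.MP_00e23e_nt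

noncomputable def be (B : ℝ) (i : ℕ) : ℝ := Real.exp (-(B * i)) / 400

noncomputable def wn (B x : ℝ) (i : ℕ) : Finset ℕ := prs (x ^ be B (i + 1)) (x ^ be B i)

/-- exponent e_r -/
noncomputable def er (r : ℕ) : ℝ := 1 / (400 * 2 ^ r)

open Classical in
/-- subsets of the union of the W i, i < J, with exactly one element in W i if t i, at most one otherwise -/
noncomputable def fam (J : ℕ) (W : ℕ → Finset ℕ) (t : ℕ → Prop) : Finset (Finset ℕ) :=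
  ((range J).biUnion W).powerset.filter
    (fun S => ∀ i ∈ range J, (t i → (S ∩ W i).card = 1) ∧ (S ∩ W i).card ≤ 1)

/-- the primes l in (w, v] dividing f(n) -/
noncomputable def Dv (d : ℕ) (k : ℤ) (w : ℕ) (v : ℝ) (n : ℕ) : Finset ℕ :=
  (prs w v).filter (fun l => (l : ℤ) ∣ fv d k n)

open Classical in
noncomputable def Gs (d : ℕ) (k : ℤ) (w a : ℕ) (B : ℝ) (J : ℕ) (x : ℝ) : Finset ℕ :=
  (Icc 1 ⌊x⌋₊).filter (fun p => p.Prime ∧ Real.sqrt x < p ∧ p ≡ a [MOD primorial w] ∧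
    Dv d k w (x ^ ((1 : ℝ) / 400)) p ∈ fam J (wn B x) (fun _ => True))

/-- V_x(e) -/
noncomputable def Vx (d : ℕ) (k : ℤ) (w : ℕ) (e x : ℝ) : ℝ :=
  ∏ l ∈ prs w (x ^ e), (1 - (rt d k l : ℝ) / ((l : ℝ) - 1))

/-- X -/
noncomputable def Xx (w : ℕ) (x : ℝ) : ℝ := x / (((primorial w).totient : ℝ) * Real.log x)

/-- the windows cut at x^e -/
noncomputable def wc (B x e : ℝ) (i : ℕ) : Finset ℕ := (wn B x i).filter (fun l => (l : ℝ) ≤ x ^ e)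

/-- limit factors -/
noncomputable def El (B : ℝ) (r i : ℕ) : ℝ :=
  if be B i ≤ er r then B else if be B (i + 1) ≤ er r then 1 + B else 1

/-- lower end of the range T_r -/
noncomputable def lo (r : ℕ) : ℝ := if r = 0 then 1 / 400 else 1 - 1 / 2 ^ r

/-- upper end of the range T_r -/
noncomputable def hi (r : ℕ) : ℝ := 1 - 1 / 2 ^ (r + 1)

/-- Y(p) -/
noncomputable def Yp (d : ℕ) (k : ℤ) (x : ℝ) (p : ℕ) : ℝ :=
  ∑ q ∈ (prs (x ^ ((1 : ℝ) / 400)) (x ^ (1 - 1 / (d : ℝ)))).filter (fun q : ℕ => (q : ℤ) ∣ fv d k p),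
    (1 - Real.log q / Real.log x)

/-! ### Generalities -/

/-- **Fam** (80 lines). Uses: `S_Prd`. Sum over the sets of a family.

Proof. Prd with `F i s = (if (t i → s.card = 1) ∧ s.card ≤ 1 then 1 else 0) * ∏ l ∈ s, h l` and `S ∩ W i`: for `S ⊆ ⋃ W i`, `∏ l ∈ S, h l = ∏ i, ∏ l ∈ S ∩ W i, h l`
(`Finset.prod_biUnion`). The sum over the subsets `s` of `W i` with one element is `∑ l ∈ W i, h l` (`Finset.powersetCard_one`), the empty set contributes 1. -/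
def S_Fam : Prop :=
  ∀ (J : ℕ) (W : ℕ → Finset ℕ) (t : ℕ → Prop) [DecidablePred t] (h : ℕ → ℝ),
    (∀ i ∈ range J, ∀ j ∈ range J, i ≠ j → Disjoint (W i) (W j)) →
    ∑ S ∈ fam J W t, ∏ l ∈ S, h l =
      ∏ i ∈ range J, if t i then ∑ l ∈ W i, h l else 1 + ∑ l ∈ W i, h l

/-- **Wdj** (30 lines). Uses: nothing. The windows are disjoint, for x ≥ 1: `be B` is antitone (`B ≥ 2`), so for `i < j` the elements of window `j` are
`≤ x^(be B j) ≤ x^(be B (i+1)) <` the elements of window `i`. -/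
def S_Wdj : Prop :=
  ∀ (B x : ℝ) (i j : ℕ), 2 ≤ B → 1 ≤ x → i ≠ j → Disjoint (wn B x i) (wn B x j)

/-- **Fpr** (120 lines). Uses: `S_Wdj`. Products over the sets of the families, number of the sets.

Proof. Let `S ∈ fam J (wc B x e) t`: at most one element in each `wc B x e i`, `i < J`, so `∏ S = ∏ over the i with S ∩ wc i ≠ ∅` of one element `≤ x^(min(be B i, e))`. If `wc B x e i ≠ ∅` then `be B (i+1) < e`
(an element `l` has `x^(be B (i+1)) < l ≤ x^e`). Let `i1` be the least such `i`. The exponents are `≤ e` for `i = i1` and for `i > i1`: `be B i = be B (i1+1) exp(-B (i - i1 - 1)) < e exp(-2 (i - i1 - 1))`;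
`∑_{m ≥ 0} exp(-2m) = 1/(1 - exp(-2)) ≤ 2` (`exp 2 ≥ 2`), so the total exponent is `≤ 3e`. (2) `S ↦ ∏ S` is injective on sets of primes (`Nat.primeFactors_prod`) with values in `Icc 1 ⌊x^(3e)⌋₊`.
(3) for `e = 1/400 = be B 0` the cut windows are the windows, `wc B x (1/400) i = wn B x i` (`x ≥ 1`). -/
def S_Fpr : Prop :=
  ∀ (B x e : ℝ) (J : ℕ) (t : ℕ → Prop), 2 ≤ B → 1 ≤ x → 0 < e →
    (∀ S ∈ fam J (wc B x e) t, (∀ l ∈ S, l.Prime) ∧ ((∏ l ∈ S, l : ℕ) : ℝ) ≤ x ^ (3 * e)) ∧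
    ((fam J (wc B x e) t).card : ℝ) ≤ x ^ (3 * e) ∧
    ∀ i, wc B x (1 / 400) i = wn B x i

/-- **Wh** (80 lines). Uses: nothing. Window sums with slightly different weights.

Proof. `rt/(l-1) - rt/l = rt/(l(l-1)) ≤ 2d/l²` and `rt/(l-1-rt) - rt/l = rt (1+rt)/(l (l-1-rt)) ≤ 2 d (d+1)/l²` for `l > w ≥ 4d+4` (`l - 1 - rt ≥ l/2`); the sum of `1/l²` over `l > x^u` is at most
`2/x^u → 0`. Add to `Dat.win`. For the `l ≤ w` nothing is needed because `x^u > w` eventually. -/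
def S_Wh : Prop :=
  ∀ (d : ℕ) (k : ℤ) (w a : ℕ), Dat d k w a → ∀ u v : ℝ, 0 < u → u < v →
    Tendsto (fun x : ℝ => ∑ l ∈ prs (x ^ u) (x ^ v), (rt d k l : ℝ) / ((l : ℝ) - 1)) atTop (𝓝 (Real.log (v / u))) ∧
    Tendsto (fun x : ℝ => ∑ l ∈ prs (x ^ u) (x ^ v), (rt d k l : ℝ) / ((l : ℝ) - 1 - rt d k l)) atTop
      (𝓝 (Real.log (v / u)))

/-- **Vra** (80 lines). Uses: `S_Wh`. Quotient of the products V.

Proof. `Vx u x/Vx v x = ∏ l ∈ prs (x^u) (x^v), (1 - g l)⁻¹` for `x^u ≥ w` (prs w (x^v) is the disjoint union; all factors are `≥ 3/4`). Its logarithm is `∑ -log(1 - g l)`, and `g ≤ -log(1-g) ≤ g + g²` for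
`0 ≤ g ≤ 1/2`, `∑ g² ≤ ∑ 4d²/l² → 0`. So it tends to `log(v/u)` (Wh); exponentiate. -/
def S_Vra : Prop :=
  ∀ (d : ℕ) (k : ℤ) (w a : ℕ), Dat d k w a → ∀ u v : ℝ, 0 < u → u < v →
    Tendsto (fun x : ℝ => Vx d k w u x / Vx d k w v x) atTop (𝓝 (v / u))

/-- **Vlo** (80 lines). Uses: nothing. V_x(e) is at least c/log x.

Proof. `-log (Vx e x) = ∑ -log(1 - g l) ≤ ∑ (g + g²)`, `g l = rt/(l-1) ≤ rt/l + 2d/l²`, `g² ≤ 4d²/l²`, and `∑_{w < l ≤ x^e} rt/l ≤ loglog(x^e) + C ≤ loglog x + C` (`Dat.up`, `e ≤ 1`; `x` large). So `Vx e x ≥ exp(-C')/log x`.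
All factors lie in `(0, 1]`: `0 ≤ g ≤ 1/4`. -/
def S_Vlo : Prop :=
  ∀ (d : ℕ) (k : ℤ) (w a : ℕ), Dat d k w a → ∀ e : ℝ, 0 < e → e ≤ 1 →
    ∃ c : ℝ, 0 < c ∧ ∀ᶠ x : ℝ in atTop, c / Real.log x ≤ Vx d k w e x

/-! ### Lower bound -/

/-- **Lwa** (150 lines). Uses: `S_Pc`, `S_Sv`. Sieve lower bound for one set S.

Proof. `z = ⌊x^(1/400)⌋₊ ≥ 2`, `Q = prs w (x^(1/400))`, `P = Q \ S`, `ll` from `S_Sv z P`. For a prime `p`: `Dv p = S` iff all `l ∈ S` and no `l ∈ P` divide `f(p)` (`S ⊆ Q`). So the indicator of `Dv p = S` is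
`≥ ∑_{T ⊆ P, all l ∈ S ∪ T divide f(p)} ll T` (if not all `l ∈ S` divide `f(p)` both sides are 0) with `N = (fv d k p).natAbs`. Sum over `p`: by Pc (with the set `S ∪ T`, disjoint union; `b0 = primorial w ≥ 2`; primes `l > w` do not divide `b0` nor `k`)
it is `∑_T ll T (li x/φ(b0) ∏_{S ∪ T} g ± ∏_{S ∪ T} rt · maxErr)`. The main term is `li x/φ(b0) ∏_S g ∑_T ll T ∏_T g ≥ li x/φ(b0) ∏_S g · (1/2) ∏_P (1 - g)` (Sv with `h = g`: `0 ≤ g ≤ 1/4` for `l > w` by `Dat.hdw`, `Dat.rd`; block sums by `Dat.blk`: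
`g ≤ (rt + 1)/(l - 1)`; `li x ≥ 0`), and `∏_P (1 - g) ≥ ∏_Q (1 - g) = Vx` as the factors are in `[0,1]`. In the error only the `T` with `ll T ≠ 0`, hence `∏ T ≤ z^46`, count, `|ll T| ≤ 1`, and `maxErr ≥ 0` (`maxErr_nonneg`). -/
def S_Lwa : Prop :=
  ∀ (d : ℕ) (k : ℤ) (w a : ℕ), Dat d k w a → ∀ (x : ℝ) (S : Finset ℕ), 2 ≤ x ^ ((1 : ℝ) / 400) →
    S ⊆ prs w (x ^ ((1 : ℝ) / 400)) →
    li x / ((primorial w).totient : ℝ) * (∏ l ∈ S, (rt d k l : ℝ) / ((l : ℝ) - 1)) *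
        (1 / 2 * Vx d k w (1 / 400) x) -
      ∑ T ∈ (prs w (x ^ ((1 : ℝ) / 400)) \ S).powerset.filter
          (fun T => ∏ l ∈ T, l ≤ ⌊x ^ ((1 : ℝ) / 400)⌋₊ ^ 46),
        (∏ l ∈ S ∪ T, (rt d k l : ℝ)) * maxErr x (primorial w * ∏ l ∈ S ∪ T, l) ≤
    (((Icc 1 ⌊x⌋₊).filter (fun p => p.Prime ∧ p ≡ a [MOD primorial w] ∧
      Dv d k w (x ^ ((1 : ℝ) / 400)) p = S)).card : ℝ)

/-- **Lwb** (150 lines). Uses: `S_Wt`, `S_Fam`, `S_Wdj`, `S_Fpr`, `S_Lwa`. Sum over the family.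

Proof. Sum Lwa over `S ∈ fam J (wn B x) (fun _ => True)` (subsets of `prs w (x^(1/400))` once `x^(be B J) ≥ w`). The sets of `p` for different `S` are disjoint, their union is `Gs` together with primes `p ≤ √x`, so the right sides add up to at most
`|Gs| + √x`. Main terms: Fam with `t = fun _ => True`, `h = g` (Wdj). Errors: all `U = S ∪ T` satisfy `∏ U ≤ x^(3/400) x^(46/400) ≤ x^(1/4)` (Fpr with `e = 1/400`), `∏ rt ≤ d^|U|`, and a given `U` comes from at most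
`2^|U|` pairs (`S ⊆ U`, `T = U \ S`), so the sum of the errors is `≤ ∑_U (2d)^|U| maxErr x (b0 ∏ U) ≤ x/(log x)^4` (Wt with `c = 2d`, `b0 = primorial w`, the finite set of all these `U`). -/
def S_Lwb : Prop :=
  ∀ (d : ℕ) (k : ℤ) (w a : ℕ), Dat d k w a → ∀ (B : ℝ) (J : ℕ), 2 ≤ B → ∀ᶠ x : ℝ in atTop,
    li x / ((primorial w).totient : ℝ) * (1 / 2 * Vx d k w (1 / 400) x) *
        (∏ i ∈ range J, ∑ l ∈ wn B x i, (rt d k l : ℝ) / ((l : ℝ) - 1)) -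
      x / (Real.log x) ^ 4 ≤ ((Gs d k w a B J x).card : ℝ) + Real.sqrt x

/-- **Lwc** (100 lines). Uses: `S_Wh`, `S_Vlo`, `S_Lwb`. The lower bound for |G|.

Proof. The window sums tend to `log(be B i/be B (i+1)) = B` (Wh), so their product is `≥ B^J/2` eventually. `li x ≥ (x - 2)/log x ≥ (3/4) x/log x` (the integrand is `≥ 1/log x` on `[2, x]`), so `li x/φ(b0) ≥ (3/4) Xx w x`. The left side of Lwb is
`≥ (3/16) Xx B^J Vx - x/(log x)^4`, and `x/(log x)^4 + √x ≤ (1/16) Xx B^J Vx` eventually because `Xx Vx ≥ c x/(φ(b0) (log x)^2)` (Vlo). -/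
def S_Lwc : Prop :=
  ∀ (d : ℕ) (k : ℤ) (w a : ℕ), Dat d k w a → ∀ (B : ℝ) (J : ℕ), 2 ≤ B → ∀ᶠ x : ℝ in atTop,
    1 / 8 * (Xx w x * B ^ J * Vx d k w (1 / 400) x) ≤ ((Gs d k w a B J x).card : ℝ)

/-! ### Upper bound -/

/-- **Upa** (150 lines). Uses: `S_Cnt`, `S_Sv`. Sieve upper bound for one pair (S, q).

Proof. `z = ⌊x^e⌋₊ ≥ 2`, `Q = prs w (x^e)`, `P = Q \ S`, `lu` from `S_Sv z P`; `N = (n f(n)).natAbs`, `l ∣ N` iff `(l : ℤ) ∣ n * fv d k n`. The number is `≤ ∑_T lu T #{n ≤ x : n ≡ a, all l ∈ insert q S divide f(n), all l ∈ T divide n f(n)}`, and Cnt (with the sets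
`insert q S` and `T`, disjoint since `q > x^e`; `N = ⌊x⌋₊`) gives `⌊x⌋/b0 ∏_{insert q S} (rt/l) ∑_T lu T ∏_T (1+rt)/l + error`. `S_Sv` with `h l = (1 + rt)/l` (`≤ (d+1)/w ≤ 1/4`; block sums `≤ 3` by `Dat.blk`) bounds the sum by `2 ∏_P (1 - (1+rt)/l)`; `⌊x⌋ ≤ x`.
Error: at most `∏_{insert q S} rt ∑_{T, lu T ≠ 0} ∏_T (1 + rt) ≤ d ∏_S l · z^46 · z^46`: `rt q ≤ d`, `rt l ≤ d ≤ l` for `l ∈ S`, `1 + rt l ≤ l` so `∏_T (1+rt) ≤ ∏ T ≤ z^46`, and the number of such `T` is `≤ z^46` (`T ↦ ∏ T` injective); `z ≤ x^e`. -/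
def S_Upa : Prop :=
  ∀ (d : ℕ) (k : ℤ) (w a : ℕ), Dat d k w a → ∀ (x e : ℝ) (S : Finset ℕ) (q : ℕ), 1 ≤ x → 2 ≤ x ^ e →
    S ⊆ prs w (x ^ e) → q.Prime → (w : ℝ) < q → x ^ e < q →
    (((Icc 1 ⌊x⌋₊).filter (fun n => n ≡ a [MOD primorial w] ∧ (∀ l ∈ insert q S, (l : ℤ) ∣ fv d k n) ∧
      ∀ l ∈ prs w (x ^ e) \ S, ¬ (l : ℤ) ∣ n * fv d k n)).card : ℝ) ≤
    2 * (x / primorial w) * (∏ l ∈ insert q S, (rt d k l : ℝ) / l) *
        (∏ l ∈ prs w (x ^ e) \ S, (1 - (1 + (rt d k l : ℝ)) / l)) +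
      d * ((∏ l ∈ S, l : ℕ) : ℝ) * x ^ (92 * e)

/-- **Upb** (150 lines). Uses: nothing. From the primes p in G to pairs (S, q).

Proof. Let `p ∈ Gs`, `S0 = Dv (x^(1/400)) p ∈ fam J (wn B x) (fun _ => True)`, `e ≤ 1/400`, `S = Dv (x^e) p = S0.filter (· ≤ x^e)` (for `x ≥ 1`, `x^e ≤ x^(1/400)`). `S` is in `fam J (wc B x e) (fun i => be B i ≤ e)`: `S ⊆ ⋃ wc`, `S ∩ wc i = S0 ∩ wc i` (the elements
of the window `wn i` that are `≤ x^e`) has at most one element, and if `be B i ≤ e` then `wc i = wn i`, so exactly one. For `q ∈ prs (x^u) (x^v)` with `q ∣ f(p)`: `p` is in the set of `n` counted on the right for `(S, q)`: `p` is a prime `> √x ≥ x^e`, so no prime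
`l ≤ x^e` divides `p`; if `l ∈ prs w (x^e)` divides `p * f(p)` then it divides `f(p)`, so `l ∈ S`. For given `q` the map `p ↦ (S, p)` is injective into the disjoint union over `S`. Sum over `q`. -/
def S_Upb : Prop :=
  ∀ (d : ℕ) (k : ℤ) (w a : ℕ), Dat d k w a → ∀ (B : ℝ) (J : ℕ) (x e u v : ℝ), 2 ≤ B → 1 ≤ x → 0 < e →
    e ≤ 1 / 400 → (w : ℝ) ≤ x ^ be B J →
    ∑ p ∈ Gs d k w a B J x, (((prs (x ^ u) (x ^ v)).filter (fun q : ℕ => (q : ℤ) ∣ fv d k p)).card : ℝ) ≤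
      ∑ q ∈ prs (x ^ u) (x ^ v), ∑ S ∈ fam J (wc B x e) (fun i => be B i ≤ e),
        (((Icc 1 ⌊x⌋₊).filter (fun n => n ≡ a [MOD primorial w] ∧
          (∀ l ∈ insert q S, (l : ℤ) ∣ fv d k n) ∧
          ∀ l ∈ prs w (x ^ e) \ S, ¬ (l : ℤ) ∣ n * fv d k n)).card : ℝ)

open Classical in
/-- **Upc** (130 lines). Uses: `S_Fam`, `S_Wdj`, `S_Fpr`, `S_Upa`, `S_Upb`. The sum for one range of q.

Proof. Upb, then Upa for every pair (all `S` in the family are subsets of `prs w (x^e)` because `x^(be B J) ≥ w`; `q > x^u ≥ x^(1/400) ≥ x^e` and `> w`). Main terms: `∏_{insert q S} (rt/l) ∏_{Q \ S} (1 - h) = (rt q/q) ∏_S [(rt/l)/(1 - h l)] ∏_Q (1 - h)`, `h = (1+rt)/l`, `Q = prs w (x^e)`, and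
`(rt/l)/(1 - h) = rt/(l - 1 - rt)`. Sum over `S` by Fam (the sets `wc B x e i` are disjoint) and over `q`. Errors: `d ∏ S x^(92e) ≤ d x^(95 e)` (Fpr), the number of `S` is `≤ x^(3e)`, the number of `q` is `≤ x^v`. -/
def S_Upc : Prop :=
  ∀ (d : ℕ) (k : ℤ) (w a : ℕ), Dat d k w a → ∀ (B : ℝ) (J : ℕ) (x e u v : ℝ), 2 ≤ B → 1 ≤ x → 0 < e →
    e ≤ 1 / 400 → (w : ℝ) ≤ x ^ be B J → 2 ≤ x ^ e → 1 / 400 ≤ u → u ≤ v →
    ∑ p ∈ Gs d k w a B J x, (((prs (x ^ u) (x ^ v)).filter (fun q : ℕ => (q : ℤ) ∣ fv d k p)).card : ℝ) ≤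
      2 * (x / primorial w) * (∑ q ∈ prs (x ^ u) (x ^ v), (rt d k q : ℝ) / q) *
          (∏ l ∈ prs w (x ^ e), (1 - (1 + (rt d k l : ℝ)) / l)) *
          (∏ i ∈ range J, if be B i ≤ e then ∑ l ∈ wc B x e i, (rt d k l : ℝ) / ((l : ℝ) - 1 - rt d k l)
            else 1 + ∑ l ∈ wc B x e i, (rt d k l : ℝ) / ((l : ℝ) - 1 - rt d k l)) +
        d * x ^ (v + 98 * e)

/-- **Upd** (80 lines). Uses: nothing. Imports also `Pool.Agent.Lib.BV.Mpr` (`tMpr`). The product over prs w (x^e).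

Proof. `1 - (1 + rt)/l = (1 - 1/l)(1 - rt/(l-1))`. `∏_{prs w (x^e)} (1 - 1/l)` is the product over the primes `≤ z = ⌊x^e⌋₊` not dividing `primorial w` (`Nat.Prime.dvd_primorial_iff`), `≤ (b0/φ(b0))/log z` (`tMpr`). Eventually `log ⌊x^e⌋₊ ≥ (10/11) e log x`. All factors are nonnegative. -/
def S_Upd : Prop :=
  ∀ (d : ℕ) (k : ℤ) (w a : ℕ), Dat d k w a → ∀ e : ℝ, 0 < e → ∀ᶠ x : ℝ in atTop,
    0 ≤ ∏ l ∈ prs w (x ^ e), (1 - (1 + (rt d k l : ℝ)) / l) ∧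
    ∏ l ∈ prs w (x ^ e), (1 - (1 + (rt d k l : ℝ)) / l) ≤
      11 / 10 * ((primorial w : ℝ) / ((primorial w).totient : ℝ)) / (e * Real.log x) * Vx d k w e x

open Classical in
/-- **Upe** (120 lines). Uses: `S_Wh`. Limits of the window factors.

Proof. Fix `i < J`, `e = er r`. If `be B i ≤ e`: `wc = wn` (for `x ≥ 1`) and the sum tends to `log(be B i/be B (i+1)) = B` (Wh): `El = B`. If `be B (i+1) < e < be B i`: `wc B x e i = prs (x^(be B (i+1))) (x^e)`, the sum tends to `log(e/be B (i+1)) ≤ log(be B i/be B (i+1)) = B`, `1 + sum` has a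
limit `≤ 1 + B = El`. If `e ≤ be B (i+1)`: `wc = ∅` and the factor is `1 ≤ El`. The product of the factors (all nonnegative) has a limit `≤ ∏ El`, so for every `η > 0` it is eventually `≤ (1 + η) ∏ El` (`∏ El ≥ 1 > 0`). Take `η = 1/100`. -/
def S_Upe : Prop :=
  ∀ (d : ℕ) (k : ℤ) (w a : ℕ), Dat d k w a → ∀ (B : ℝ) (J r : ℕ), 2 ≤ B → ∀ᶠ x : ℝ in atTop,
    0 ≤ (∏ i ∈ range J, if be B i ≤ er r then ∑ l ∈ wc B x (er r) i, (rt d k l : ℝ) / ((l : ℝ) - 1 - rt d k l)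
      else 1 + ∑ l ∈ wc B x (er r) i, (rt d k l : ℝ) / ((l : ℝ) - 1 - rt d k l)) ∧
    (∏ i ∈ range J, if be B i ≤ er r then ∑ l ∈ wc B x (er r) i, (rt d k l : ℝ) / ((l : ℝ) - 1 - rt d k l)
      else 1 + ∑ l ∈ wc B x (er r) i, (rt d k l : ℝ) / ((l : ℝ) - 1 - rt d k l)) ≤
      101 / 100 * ∏ i ∈ range J, El B r i

/-- **Upf** (150 lines). Uses: `S_Vra`, `S_Vlo`, `S_Upc`, `S_Upd`, `S_Upe`. The upper bound for the range T_r.

Proof. Upc with `e = er r = 1/(400 2^r)`, `u = lo r`, `v = hi r` (`1/400 ≤ lo r < hi r < 1`; `x` large). (1) `∑_{T_r} rt q/q → log(hi r/lo r) ≤ 5.4/2^r` (`Dat.win`): for `r = 0`, `log 200 ≤ 5.3` (`exp 5.3 ≥ 200`, since `e^5 ≥ 148`, `e^0.3 ≥ 1.349`; or use the bound `6`); for `r ≥ 1`,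
`log(hi/lo) ≤ hi/lo - 1 = 2^(-r-1)/(1 - 2^(-r)) ≤ 2^(-r)`. So eventually `≤ 7/2^r`. (2) Upd, (3) `Vx (er r) x ≤ (101/100) 2^r Vx (1/400) x` eventually (Vra with `u = er r`, `v = 1/400`, limit `2^r`; equality for `r = 0`). (4) Upe. The main term is
`≤ 2 (x/b0) (7/2^r) (11/10) (b0/φ(b0)) (400 2^r/log x) (1.01) 2^r Vx (1.01) ∏ El ≤ 6400 · 2^r ∏ El · Xx Vx`. (5) the error `d x^(hi r + 98 er r) ≤ d x^(1 - 1/(4·2^r))` (`98/400 ≤ 1/4`) is eventually `≤ Xx Vx` (Vlo), and `∏ El ≥ 1`. -/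
def S_Upf : Prop :=
  ∀ (d : ℕ) (k : ℤ) (w a : ℕ), Dat d k w a → ∀ (B : ℝ) (J r : ℕ), 2 ≤ B → ∀ᶠ x : ℝ in atTop,
    ∑ p ∈ Gs d k w a B J x, (((prs (x ^ lo r) (x ^ hi r)).filter (fun q : ℕ => (q : ℤ) ∣ fv d k p)).card : ℝ) ≤
      6500 * 2 ^ r * (∏ i ∈ range J, El B r i) * (Xx w x * Vx d k w (1 / 400) x)

/-- **Sm** (150 lines). Uses: nothing. The sum of the window factors over r.

Proof. `be B i ≤ er r` iff `exp(-B i) ≤ 2^(-r)` iff `r log 2 ≤ B i`. Let `i0 = i0(r)` be the least `i` with `r log 2 ≤ B i` (`i0 = ⌈r log 2/B⌉₊`; `i0 = 0` iff `r = 0`). `El B r i = B` for `i ≥ i0`, `= 1 + B` for `i = i0 - 1`, `= 1` for `i < i0 - 1`. So `∏_{i<J} El ≤ (1 + B) B^(J - i0)` if `1 ≤ i0 ≤ J`, `= B^J` if `r = 0`,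
and `≤ 1 + B` if `i0 = J + 1`, `= 1` if `i0 > J + 1`; in both cases `≤ 1 + B`. The number of `r` with `i0(r) = i`, `i ≥ 1`, is at most `B/log 2 + 1 ≤ 2B` (`r log 2 ∈ (B(i-1), B i]`; `1/log 2 ≤ 1.45`, `B ≥ 2`). Total: `B^J + ∑_{i=1}^J 2B (1+B) B^(J-i) + (number of r ≤ R) (1 + B)`;
`∑_{i ≥ 1} B^(-i) ≤ 2/B`, `R + 1 ≤ 2.5 B^J`: `R ≤ log d/log 2 ≤ 1.45 B^J` and `1 ≤ log d ≤ B^J` for `d ≥ 3` (`log 3 > 1`). Sum `≤ (1+B) B^J (1/3 + 4 + 2.5) ≤ 7 (1+B) B^J`. -/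
def S_Sm : Prop :=
  ∀ (B : ℝ) (J d : ℕ), 2 ≤ B → 3 ≤ d → Real.log d ≤ B ^ J →
    ∑ r ∈ range (Nat.log 2 d + 1), ∏ i ∈ range J, El B r i ≤ 7 * (1 + B) * B ^ J

/-- **Yb** (130 lines). Uses: `S_Lwc`, `S_Upf`, `S_Sm`. The average of Y over G.

Proof. The primes in `(x^(1/400), x^(1-1/d)]` are covered by the `prs (x^(lo r)) (x^(hi r))`, `r ≤ R = Nat.log 2 d`: `hi r = lo (r+1)`, `hi R = 1 - 2^(-R-1) ≥ 1 - 1/d` (`2^(R+1) > d`). For `q ∈ T_r`: `0 ≤ 1 - log q/log x ≤ 1 - lo r ≤ 2^(-r)` (for `r = 0`: `≤ 1`). So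
`∑_{p ∈ Gs} Yp ≤ ∑_{r ≤ R} 2^(-r) ∑_p |{q ∈ T_r : q ∣ f(p)}| ≤ 6500 ∑_r ∏ El · Xx Vx ≤ 6500·7 (1+B) B^J Xx Vx ≤ 6500·56 (1+B) |Gs|` (eventually; finitely many `r`). -/
def S_Yb : Prop :=
  ∀ (d : ℕ) (k : ℤ) (w a : ℕ), Dat d k w a → ∀ (B : ℝ) (J : ℕ), 2 ≤ B → Real.log d ≤ B ^ J →
    ∀ᶠ x : ℝ in atTop,
      ∑ p ∈ Gs d k w a B J x, Yp d k x p ≤ 364000 * (1 + B) * ((Gs d k w a B J x).card : ℝ)

/-! ### Conclusion -/

/-- **Om** (180 lines). Uses: nothing. The number of prime factors of f(p), p ∈ G.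

Proof. `n = f(p) > 0`. No prime `l ≤ w` divides `n` (`p ≡ a mod primorial w`, so `f(p) ≡ f(a) mod l`, `Dat.cf`). The primes in `(w, x^(1/400)]` dividing `n` are the elements of `S0 = Dv (x^(1/400)) p`, one in each window: `|S0| = J`, all `> x^(be B J)` (window `i < J`: `> x^(be B (i+1)) ≥ x^(be B J)`);
this also gives the second claim (`x^(be B J) ≤ x^(1/400)`). The exponents of the primes in `(x^(be B J), y]`, `y = x^(1-1/d)`, in `n` are 1 (hypothesis). `Ω(n) = ∑ over the prime factors of the exponents` `= J + A + C`, `A` = number of `q ∣ n` in `(x^(1/400), y]`, `C` = sum of the exponents of the primes `> y`.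
`log n = ∑ exponent · log q ≥ ∑_{q ∈ A} log q + C log y` (`Nat.factorization_prod_pow_eq_self`, `ArithmeticFunction.cardFactors_apply`, `Nat.primeFactorsList`, or `log n = ∑ (n.factorization q) log q`). So `Ω(n) ≤ J + ∑_{q ∈ A} (1 - log q/log y) + log n/log y`, and `log y ≤ log x` gives `1 - log q/log y ≤ 1 - log q/log x`,
the sum is `≤ Yp`. `log y = (1 - 1/d) log x > 0`. -/
def S_Om : Prop :=
  ∀ (d : ℕ) (k : ℤ) (w a : ℕ), Dat d k w a → ∀ (B : ℝ) (J : ℕ) (x : ℝ) (p n : ℕ), 2 ≤ B → 2 ≤ x →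
    (w : ℝ) ≤ x ^ be B J → p ∈ Gs d k w a B J x → 0 < n → (n : ℤ) = fv d k p →
    (¬ ∃ q ∈ prs (x ^ be B J) (x ^ (1 - 1 / (d : ℝ))), ((q : ℤ) ^ 2) ∣ fv d k p) →
    (ArithmeticFunction.cardFactors n : ℝ) ≤
      J + Yp d k x p + Real.log n / ((1 - 1 / (d : ℝ)) * Real.log x) ∧
    ∀ q : ℕ, q.Prime → q ∣ n → x ^ be B J < q

/-- **Fin** (150 lines). Uses: `S_Sqn`, `S_Vlo`, `S_Lwc`, `S_Yb`, `S_Om`. The theorem for given data.

Proof. Let `x` be large, `G = Gs`. By Yb at least `|G|/2` of the `p ∈ G` have `Yp ≤ 728000 (1 + B)` (Markov; `Yp ≥ 0` because `q ≤ x^(1-1/d) ≤ x`). The `p` with `q² ∣ f(p)` for some prime `q ∈ (x^(be B J), x^(1-1/d)]` are at most `d (2x/x^(be B J) + x^(1-1/d))` (Sqn, `N = ⌊x⌋₊`, the primes `q > x^(be B J) ≥ w` do not divide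
`k` nor `d`), which is `≤ |G|/4` eventually (`|G| ≥ (1/8) Xx B^J Vx ≥ c x/(log x)^2` by Lwc, Vlo). `f(p) > 0` for `p > √x` and `x` large (`p^d ≥ p > |k|`). For the remaining `p`, at least `|G|/4 ≥ c x/(log x)^2` many, Om applies with `n = f(p).toNat`, `n ≤ x^d + |k| ≤ 2 x^d`, `log n/((1-1/d) log x) ≤
(d + log 2/log x)/(1 - 1/d) ≤ d + 2` eventually (`d/(1-1/d) = d + 1 + 1/(d-1) ≤ d + 3/2`). So `Ω(n) ≤ J + 728000 (1+B) + d + 2 ≤ d + J + 1100000 B` (`1 + B ≤ 1.5 B`, `2 ≤ B`: `728000·1.5 B + B`). The prime factors are `> x^(be B J)`, `be B J = exp(-B J)/400`. -/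
def S_Fin : Prop :=
  ∀ (d : ℕ) (k : ℤ) (w a : ℕ), Dat d k w a → ∀ (B : ℝ) (J : ℕ), 2 ≤ B → Real.log d ≤ B ^ J →
    ∃ c x0 : ℝ, 0 < c ∧ ∀ x : ℝ, x0 ≤ x → ∃ F : Finset ℕ, c * x / (Real.log x) ^ 2 ≤ (F.card : ℝ) ∧
      ∀ p ∈ F, p.Prime ∧ (p : ℝ) ≤ x ∧ ∃ n : ℕ, 0 < n ∧ (n : ℤ) = (p : ℤ) ^ d + k ∧
        (ArithmeticFunction.cardFactors n : ℝ) ≤ d + J + 1100000 * B ∧
        ∀ q : ℕ, q.Prime → q ∣ n → x ^ (Real.exp (-(B * J)) / 400) < q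

/-- **Opt** (100 lines). Uses: nothing. Choice of B and J.

Proof. `L = log (log d) ≥ 0`?: `log (log 3) > 0` since `log 3 > 1`. Let `M = log (2 + L) ≥ log 2`, `B = 2 + L/M`, `J = ⌈L/log B⌉₊`. Then `B ≥ 2` and `B^J ≥ exp(L) = log d`. `J ≤ 1 + L/log B`. `log B ≥ (1/3) M`: `B ≥ (2 + L)/max(1, M)`.. more precisely `B ≥ 2` and `B M ≥ 2M + L`; if `M ≤ 2`.. then `log B ≥ log 2 ≥ M/3`;
if `M > 2` then `B ≥ (2+L)/M` and `log B ≥ M - log M ≥ M/2` (`log M ≤ M/2` for all `M > 0`). So `J + C B ≤ 1 + 3 L/M + C (2 + L/M) ≤ (3 + 2C)(1 + L/M)` for `C ≥ 0`. -/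
def S_Opt : Prop :=
  ∀ d : ℕ, 3 ≤ d → ∃ (B : ℝ) (J : ℕ), 2 ≤ B ∧ Real.log d ≤ B ^ J ∧
    ∀ C : ℝ, 0 ≤ C → J + C * B ≤
      (3 + 2 * C) * (1 + Real.log (Real.log d) / Real.log (2 + Real.log (Real.log d)))

/-- **Res** (80 lines). Uses: `S_Dex`, `S_Fin`, `S_Opt`. THE THEOREM.

Proof. `C = 2200003 = 3 + 2·1100000`, `c0 = 1/400`. Dex gives `w, a`; `d ≥ 3` as `d > 1` is odd. Fin gives the first part (with `1100000 B ≤ C B`); the finite set `F` is contained in the set counted (which is finite, a subset of `{p | p ≤ x}`;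
`Set.ncard_coe_finset`, `Set.ncard_le_ncard`). Second part: Opt (its inequality with the constant `1100000`), `δ = exp(-(B J))/400`. -/
def S_Res : Prop :=
  ∃ C c0 : ℝ, 0 < c0 ∧ ∀ d : ℕ, 1 < d → Odd d → ∀ k : ℤ, Even k →
    (∀ e : ℕ, 1 < e → e ∣ d → ¬ ∃ m : ℤ, m ^ e = k) →
    (∀ (B : ℝ) (J : ℕ), 2 ≤ B → Real.log d ≤ B ^ J → ∃ c x0 : ℝ, 0 < c ∧ ∀ x : ℝ, x0 ≤ x →
      c * x / (Real.log x) ^ 2 ≤ (Set.ncard {p : ℕ | p.Prime ∧ (p : ℝ) ≤ x ∧ ∃ n : ℕ, 0 < n ∧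
        (n : ℤ) = (p : ℤ) ^ d + k ∧ (ArithmeticFunction.cardFactors n : ℝ) ≤ d + J + C * B ∧
        ∀ q : ℕ, q.Prime → q ∣ n → x ^ (c0 * Real.exp (-(B * J))) < q} : ℝ)) ∧
    ∃ c x0 δ : ℝ, 0 < c ∧ 0 < δ ∧ ∀ x : ℝ, x0 ≤ x →
      c * x / (Real.log x) ^ 2 ≤ (Set.ncard {p : ℕ | p.Prime ∧ (p : ℝ) ≤ x ∧ ∃ n : ℕ, 0 < n ∧
        (n : ℤ) = (p : ℤ) ^ d + k ∧
        (ArithmeticFunction.cardFactors n : ℝ) ≤
          d + C * (1 + Real.log (Real.log d) / Real.log (2 + Real.log (Real.log d))) ∧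
        ∀ q : ℕ, q.Prime → q ∣ n → x ^ δ < q} : ℝ)

end Pool.Agent.MPdff
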