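import Pool.Agent.Lib.MP_dff12b_nt.SpecR

/-!
# MP_dff12b_nt, theorem A, parts V (Bombieri-Vinogradov with weights) and L (Landau's prime ideal sum)
(architect helper97)

RULES: as in SpecS. First line of the modules of this part: `import Pool.Agent.Lib.MP_dff12b_nt.SpecL` (plus the
library files named in the docstring), `namespace Pool.Agent.MPdff`.
-/

namespace Pool.Agent.MPdff

open Finset Filter Topology NumberField Pool.Agent.Results.MP_00e23e_nt

/-! ### Part V -/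

/-- **Bv** (70 lines). Uses: nothing. Imports also `Pool.Agent.Lib.BV.All` (theorem `Pool.Agent.Lib.BV.aExt`, the
Bombieri-Vinogradov theorem, see its statement `ExtStmt` in `Lib/BV/SpecE.lean`; heavy import, about 1-2 minutes to build once).

Proof. `aExt` with exponent `A + 1`, `y d = x`, `D = ⌊x^(1/3)⌋₊ ≥ 1`: the sum is `≤ C (x/(log x)^(A+1) + √x D log K loglog K)` with
`16 ≤ K = 16 + √x/(D log x) ≤ 16 + x` and `√x D log K loglog K ≤ x^(5/6) (log (16+x))^2`. Both terms are `≤ x/(2 (log x)^A)` for large `x`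
(`isLittleO_log_rpow_atTop` and similar, or `Real.add_pow_le_pow_mul_pow_of_add_eq_one`; take the constant `C ≥ 0`). -/
def S_Bv : Prop :=
  ∀ A : ℝ, 0 < A → ∃ x0 : ℝ, ∀ x : ℝ, x0 ≤ x →
    ∑ D ∈ Icc 1 ⌊x ^ ((1 : ℝ) / 3)⌋₊, maxErr x D ≤ x / (Real.log x) ^ A

/-- **Rp** (60 lines). Uses: nothing. Imports also `Pool.Agent.Lib.BV.Msb` (`tMsb`: the sum of 1/p over sqrt t < p ≤ t is ≤ κ).
A crude upper bound for the sum of the reciprocals of the primes.

Proof. `thr n j` (`Lib/BV/SpecF.lean`: `n, sqrt n, sqrt sqrt n, ...`). The primes `≤ n = ⌊X⌋₊` lie in the intervals `(thr n (j+1), thr n j]`, and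
`thr n j = 1` once `2^j > log n/log 2` (`thr n j ^ 2 ^ j ≤ n`), so at most `2 + log(log n/log 2)/log 2 ≤ A0 + A0 log log X` intervals, each with
sum `≤ κ` (or strong induction on `n`: `g(n) ≤ κ + g(sqrt n)`). `log log X ≥ 0` for `X ≥ 3`. -/
def S_Rp : Prop :=
  ∃ A : ℝ, 0 < A ∧ ∀ X : ℝ, 3 ≤ X →
    ∑ l ∈ (Icc 1 ⌊X⌋₊).filter Nat.Prime, 1 / (l : ℝ) ≤ A + A * Real.log (Real.log X)

/-- **Trv** (50 lines). Uses: nothing. The trivial bound of the error terms.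

Proof. `maxErr x M = |err x M l|` for some `l ≤ M` coprime to `M` (`exists_maxErr` in Lib/EH/Basic; or `csSup_le`). The number of `n ≤ x` with
`n ≡ l mod M` is `≤ x/M + 1 ≤ 2x/M ≤ 2x/φ(M)`, and `0 ≤ li x ≤ 2x` (`li_nonneg`, `li_le`). -/
def S_Trv : Prop :=
  ∀ (x : ℝ) (M : ℕ), 2 ≤ x → 1 ≤ M → (M : ℝ) ≤ x → maxErr x M ≤ 4 * x / (M.totient : ℝ)

/-- **Wt** (150 lines). Uses: `S_Bv`, `S_Rp`, `S_Trv`. Weighted sums of the error terms over squarefree moduli, given as sets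
of primes.

Proof. Let `E U = maxErr x (b0 * ∏ U) ≥ 0`. Cauchy-Schwarz: `(∑ c^|U| E)^2 ≤ (∑ c^(2|U|) E) (∑ E)`. For large `x` the map `U ↦ b0 ∏ U` is injective
(unique factorization: `Nat.primeFactors_prod`) into `Icc 1 ⌊x^(1/3)⌋₊` (`b0 x^(1/4) ≤ x^(1/3)`), so `∑ E ≤ x/(log x)^A` (Bv) for any `A`. By Trv
`E U ≤ 4x/φ(b0 ∏ U) ≤ 4x 2^|U|/∏ U` (`φ(m n) ≥ φ(m) φ(n)`: `Nat.totient_super_multiplicative`; `φ(∏ U) = ∏ (l - 1) ≥ ∏ l/2`). All `U` are subsets of the set of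
primes `≤ x`, so `∑ (2c²)^|U|/∏ U ≤ ∏_{l ≤ x} (1 + 2c²/l) ≤ exp(2c² ∑ 1/l) ≤ exp(2c²(A0 + A0 loglog x)) = e^{..} (log x)^{2c² A0}` (Rp, `Finset.prod_one_add`).
With `A = 10 + 2c² A0` the product is `≤ 4 e^{..} x² (log x)^(-10) ≤ x²/(log x)^8` for large `x`. -/
def S_Wt : Prop :=
  ∀ c b0 : ℕ, 1 ≤ b0 → ∃ x0 : ℝ, ∀ x : ℝ, x0 ≤ x → ∀ F : Finset (Finset ℕ),
    (∀ U ∈ F, (∀ l ∈ U, l.Prime) ∧ ((∏ l ∈ U, l : ℕ) : ℝ) ≤ x ^ ((1 : ℝ) / 4)) →
    ∑ U ∈ F, (c : ℝ) ^ U.card * maxErr x (b0 * ∏ l ∈ U, l) ≤ x / (Real.log x) ^ 4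

/-! ### Part L -/

/-- number of ideals of norm n -/
noncomputable def ai (K : Type) [Field K] [NumberField K] (n : ℕ) : ℕ :=
  Nat.card {I : Ideal (𝓞 K) // Ideal.absNorm I = n}

/-- **Ar** (180 lines). Uses: nothing. Imports also `Mathlib` facts on `Chebyshev.theta` or `primorial_le_4_pow` (the product of the
primes `≤ n` is `≤ 4^n`, so `∑_{l ≤ n} log l ≤ n log 4`). Elementary Tauberian step.

Proof. `A(n) = ∑_{m ≤ n} a m`, `A(m) ≤ C1 m` for all `m ≥ 1`. (1) `∑_{m ≤ n} a m log m/(n log n) → κ`: it is `≤ A(n) log n`, and for every integer `T ≥ 1` it is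
`≥ (A(n) - A(n/T)) log(n/T)` (terms with `m > n/T`), which divided by `n log n` tends to `κ(1 - 1/T)`. (2) Let `L(n) = ∑_{l ≤ n} a l log l/l`. Given
`ε > 0` let `|A(m) - κ m| ≤ ε m` for `m ≥ T`. For `l ≤ n/T` (natural division), `m = n/l ≥ T`, `n/l - 1 ≤ m ≤ n/l` (real): `|A(n/l) - κ n/l| ≤ ε n/l + κ`. For
`n/T < l ≤ n`: `n/l ≤ T + 1`.. and `|A(n/l) - κ n/l| ≤ (C1 + κ) n/l ≤ (C1 + κ)(T+1)`. With `a l ≤ D` and Chebyshev: `|∑_l a l log l A(n/l) - κ n L(n)| ≤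
ε n L(n) + D (κ + (C1 + κ)(T+1)) n log 4`. So `(κ - ε) L(n) ≤ (1/n) ∑ a m log m + C_T` and `(κ + ε) L(n) ≥ (1/n) ∑ a m log m - C_T` (the hypothesis on the
identity contributes `C`); divide by `log n`: `κ/(κ+ε) ≤ liminf ≤ limsup L(n)/log n ≤ κ/(κ-ε)`. -/
def S_Ar : Prop :=
  ∀ (a : ℕ → ℝ) (κ C D : ℝ), 0 < κ → (∀ n, 0 ≤ a n) → (∀ l : ℕ, l.Prime → a l ≤ D) →
    Tendsto (fun n : ℕ => (∑ m ∈ Icc 1 n, a m) / n) atTop (𝓝 κ) →
    (∀ n : ℕ, 1 ≤ n → |∑ m ∈ Icc 1 n, a m * Real.log m -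
      ∑ l ∈ (Icc 1 n).filter Nat.Prime, a l * Real.log l * ∑ m ∈ Icc 1 (n / l), a m| ≤ C * n) →
    Tendsto (fun n : ℕ => (∑ l ∈ (Icc 1 n).filter Nat.Prime, a l * Real.log l / l) / Real.log n)
      atTop (𝓝 1)

/-- **Icl** (50 lines). Uses: nothing. The number of ideals of norm ≤ n (Mathlib: `NumberField.Ideal.tendsto_norm_le_div_atTop₀`;
positivity of the constant: `NumberField.dedekindZeta_residue_pos` or directly: `Real.sqrt |discr| > 0`, `regulator_pos`, `classNumber_pos`).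

Proof. `∑_{m ∈ Icc 1 n} ai K m` is the number of nonzero ideals of norm `≤ n` (partition by the norm; the sets are finite:
`Ideal.finite_setOfPred_absNorm_le₀`; see the proof of `NumberField.tendsto_sub_one_mul_dedekindZeta_nhdsGT`, which does exactly this). Compose with
`tendsto_natCast_atTop_atTop`. -/
def S_Icl : Prop :=
  ∀ (K : Type) [Field K] [NumberField K], ∃ κ : ℝ, 0 < κ ∧
    Tendsto (fun n : ℕ => (∑ m ∈ Icc 1 n, (ai K m : ℝ)) / n) atTop (𝓝 κ)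

/-- **Deg** (100 lines). Uses: nothing. At most [K:ℚ] prime ideals contain a given prime number; their norms are ≥ l.

Proof. Let `P ∈ F`; `(l : 𝓞 K) ∈ P`, so `P ∣ span {l}` and `absNorm P ∣ absNorm (span {l}) = l ^ finrank` (`Ideal.absNorm_span_singleton`, `Algebra.norm_algebraMap` or
`Ideal.absNorm_span_natCast`..). So `absNorm P` is a power of `l` (`Nat.dvd_prime_pow`), not 1 (`P ≠ ⊤`), hence `l ∣ absNorm P` and `≥ l`. The product of the
distinct primes in `F` divides `span {l}` (`Finset.prod_primes_dvd`, the elements of `F` are nonzero prime ideals = prime elements, `Ideal.prime_of_isPrime`), so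
`l^|F| ≤ ∏ absNorm P = absNorm (∏ P) ∣ l^finrank`. -/
def S_Deg : Prop :=
  ∀ (K : Type) [Field K] [NumberField K] (l : ℕ), l.Prime → ∀ F : Finset (Ideal (𝓞 K)),
    (∀ P ∈ F, P.IsPrime ∧ (l : 𝓞 K) ∈ P) →
    F.card ≤ Module.finrank ℚ K ∧ ∀ P ∈ F, ∃ f : ℕ, 1 ≤ f ∧ Ideal.absNorm P = l ^ f

/-- **Iid** (180 lines). Uses: nothing. Sum of the logarithms of the norms.

Proof. `F` = the set of nonzero prime ideals of norm `≤ n` (finite: `Ideal.finite_setOfPred_absNorm_le`). Let `𝓘` be the finite set of the nonzero ideals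
of norm `≤ n`; `∑_{m ∈ Icc 1 n} ai K m log m = ∑_{I ∈ 𝓘} log (absNorm I)`. For `I ∈ 𝓘`, `absNorm I = ∏ over normalizedFactors I` of the norms (`map_multiset_prod`,
`Ideal.prod_normalizedFactors_eq_self`), so `log (absNorm I) = ∑_{P ∈ F} (count P (normalizedFactors I)) log (absNorm P)` and `count = #{j ∈ Icc 1 n : P^j ∣ I}`
(`UniqueFactorizationMonoid.dvd_iff..`/`le_emultiplicity`; `j ≤ count` implies `2^j ≤ absNorm P^j ≤ n`, so `j ≤ n`). Exchange the sums: for fixed `P, j` the ideals `I ∈ 𝓘`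
with `P^j ∣ I` are the `P^j * I'` with `I' ≠ ⊥`, `absNorm I' ≤ n/absNorm P^j` (natural division, `Nat.le_div_iff_mul_le`), a bijection; their number is
`∑_{m ∈ Icc 1 (n/absNorm P^j)} ai K m`. -/
def S_Iid : Prop :=
  ∀ (K : Type) [Field K] [NumberField K] (n : ℕ), ∃ F : Finset (Ideal (𝓞 K)),
    (∀ P, P ∈ F ↔ (P.IsPrime ∧ P ≠ ⊥ ∧ Ideal.absNorm P ≤ n)) ∧
    ∑ m ∈ Icc 1 n, (ai K m : ℝ) * Real.log m =
      ∑ P ∈ F, ∑ j ∈ Icc 1 n, Real.log (Ideal.absNorm P) *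
        ∑ m ∈ Icc 1 (n / Ideal.absNorm P ^ j), (ai K m : ℝ)

/-- **Ier** (200 lines). Uses: `S_Icl`, `S_Deg`, `S_Iid`. The hypothesis of Ar for the ideals.

Proof. `A(m) ≤ C1 m` for all `m` (Icl: convergent, hence bounded). In Iid the terms `(P, j)` with `j = 1`, `absNorm P = l` prime give exactly
`∑_l ai K l log l A(n/l)` (an ideal of prime norm `l` is a prime ideal: `Ideal.isPrime_of_irreducible_absNorm`; so `ai K l` = number of `P ∈ F` with norm `l`). All other terms are `≥ 0` and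
their sum is `≤ C1 n ∑ log(absNorm P)/absNorm P^j` over the other pairs (`n / q^j ≤ n/q^j`; the terms with `q^j > n` vanish). Every nonzero prime `P` contains a prime
number `l` (`Ideal.absNorm_mem`; or the characteristic of the finite field), and `absNorm P = l^f`, at most `D = finrank` such `P` for each `l` (Deg). For `f ≥ 2`: `∑_{j ≥ 1}
f log l/l^(f j) ≤ 2 f log l/l^f ≤ 4 log l/l^2` (`f ≤ 2·2^(f-2)`); for `f = 1`, `j ≥ 2`: `∑ log l/l^j ≤ 2 log l/l^2`. So the sum is `≤ D ∑_l 4 log l/l² ≤ 4 D ∑_{l ≤ n} 1/l^(3/2)..`, bounded by an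
absolute constant times `D` (`log l ≤ 2 √l`, `∑ l^(-3/2)` converges: `Real.summable_nat_rpow`; group the pairs by `l`, `Finset.sum_fiberwise_of_maps_to`). -/
def S_Ier : Prop :=
  ∀ (K : Type) [Field K] [NumberField K], ∃ C : ℝ, ∀ n : ℕ, 1 ≤ n →
    |∑ m ∈ Icc 1 n, (ai K m : ℝ) * Real.log m -
      ∑ l ∈ (Icc 1 n).filter Nat.Prime, (ai K l : ℝ) * Real.log l * ∑ m ∈ Icc 1 (n / l), (ai K m : ℝ)| ≤ C * n

/-- **Hom** (100 lines). Uses: nothing. Ideals of prime norm and ring homomorphisms.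

Proof. `φ ↦ ker φ`: a ring homomorphism `φ : 𝓞 K → ZMod l` is surjective (`ZMod.ringHom_surjective`), so `𝓞 K/ker φ ≅ ZMod l` and `absNorm (ker φ) = l` (`Ideal.absNorm_apply`,
`Submodule.cardQuot_apply`, `Nat.card_zmod`). Injective: two homomorphisms with the same kernel differ by a ring automorphism of `ZMod l`, which is the identity
(`ZMod.ringHom_eq_of_ker_eq`: exists in Mathlib). Surjective: if `absNorm I = l`, the quotient ring has `l` elements, so it is isomorphic to `ZMod l`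
(`ZMod.ringEquivOfPrime`). -/
def S_Hom : Prop :=
  ∀ (K : Type) [Field K] [NumberField K] (l : ℕ), l.Prime →
    ai K l = Nat.card (𝓞 K →+* ZMod l)

/-- **Kex** (120 lines). Uses: nothing. The number field of an irreducible X^d + k.

Proof. `K = AdjoinRoot (X^d + C (k : ℚ))` (a field by `Fact (Irreducible ..)`; `NumberField`: finite dimensional with basis `1, .., x^(d-1)`, `AdjoinRoot.powerBasis`; char 0), `x = root`,
integral over `ℤ` (root of the monic `X^d + k`), `θ ∈ 𝓞 K`. (2) if `P(θ) = 0`, `P ∈ ℤ[X]`, then `X^d + C (k:ℚ)` divides the image of `P` in `ℚ[X]`, and by Gauss (`Polynomial.Monic.. map_dvd_map`: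
division with remainder by the monic polynomial `X^d + k` in `ℤ[X]`: the remainder has degree `< d` and vanishes at `θ`, hence is 0) `X^d + C k` divides `P` in `ℤ[X]`. (3) every
`y ∈ 𝓞 K` is a rational combination of `1, θ, .., θ^(d-1)`; multiply by a common denominator. The subring is `(aeval θ : ℤ[X] →ₐ[ℤ] 𝓞 K).toRingHom.range`. -/
def S_Kex : Prop :=
  ∀ (d : ℕ) (k : ℤ), 1 ≤ d → Irreducible (Polynomial.X ^ d + Polynomial.C (k : ℚ)) →
    ∃ (K : Type) (_ : Field K) (_ : NumberField K) (θ : 𝓞 K),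
      (∀ P : Polynomial ℤ, Polynomial.aeval θ P = 0 ↔ (Polynomial.X ^ d + Polynomial.C k) ∣ P) ∧
      ∀ y : 𝓞 K, ∃ n : ℕ, 0 < n ∧
        (n : 𝓞 K) * y ∈ ((Polynomial.aeval θ : Polynomial ℤ →ₐ[ℤ] 𝓞 K) : Polynomial ℤ →+* 𝓞 K).range

/-- **Rtk** (120 lines). Uses: `S_Kex`, `S_Hom`. Imports also `Pool.Agent.Lib.MP_706923_co.Ext` (theorem `ext' : S_Ext` of that
library: extension of ring homomorphisms from a subring `S` with torsion quotient to `𝓞 K`, for all primes not dividing some N).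

Proof. `K, θ` from Kex, `S` = the range subring. Let `N` be the number of `ext'`. For a prime `l > w1` (below) the map `φ ↦ φ(θ)` from `𝓞 K →+* ZMod l` to the roots of `X^d + k` in `ZMod l` is a bijection:
it maps to roots because `θ^d + k = 0`; injective: `𝓞 K` is a finitely generated abelian group, so by Kex (3) there is ONE `M ≥ 1` with `M y ∈ S` for all `y`; take `w1 ≥ N, M`. If `φ(θ) = φ'(θ)` then
`φ = φ'` on `S`, so `M φ(y) = φ(M y) = φ'(M y) = M φ'(y)` and `M` is invertible mod `l`. Surjective: for a root `v` define `φ₀ : S → ZMod l`, `P(θ) ↦ P(v)` (well defined by Kex (2)), extend by `ext'`.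
The roots of `X^d + k` in `ZMod l` correspond to the `v ∈ range l` with `l ∣ v^d + k` (`ZMod.natCast_self_eq_zero`, `ZMod.intCast_zmod_eq_zero_iff_dvd`/`ZMod.intCast_cast`, `v ↦ (v : ZMod l)`). Hom. -/
def S_Rtk : Prop :=
  ∀ (d : ℕ) (k : ℤ), 1 ≤ d → Irreducible (Polynomial.X ^ d + Polynomial.C (k : ℚ)) →
    ∃ (K : Type) (_ : Field K) (_ : NumberField K) (w1 : ℕ), ∀ l : ℕ, l.Prime → w1 < l → ai K l = rt d k l

/-- **Lan** (80 lines). Uses: `S_Rtb`, `S_Ar`, `S_Icl`, `S_Deg`, `S_Ier`, `S_Rtk`. Landau's theorem for the roots of X^d + k.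

Proof. Ar with `a = ai K`, `D = finrank` (Deg applied to the finite set of ideals of norm `l`: they are prime and contain `l` by `Ideal.absNorm_mem`): the sum with `ai K l`
is asymptotic to `log n`. Replace `ai K l` by `rt d k l` for the finitely many `l ≤ w1` (a bounded change, Rtk). -/
def S_Lan : Prop :=
  ∀ (d : ℕ) (k : ℤ), 1 ≤ d → Irreducible (Polynomial.X ^ d + Polynomial.C (k : ℚ)) →
    Tendsto (fun n : ℕ => (∑ l ∈ (Icc 1 n).filter Nat.Prime, (rt d k l : ℝ) * Real.log l / l) / Real.log n)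
      atTop (𝓝 1)

/-- **Ps** (180 lines). Uses: nothing. Partial summation: sums over the primes in (x^u, x^v].

Proof. `L(t) = ∑_{l ≤ ⌊t⌋} b l log l/l`, `L(t)/log t → 1` for real `t → ∞` (floor; `log ⌊t⌋/log t → 1`). Let `K ≥ 1`, `r = (v/u)^(1/K) > 1`, `u_i = u r^i`. For `l ∈ (x^{u_i}, x^{u_{i+1}}]` one has
`u_i log x < log l ≤ u_{i+1} log x`, so `(L(x^{u_{i+1}}) - L(x^{u_i}))/(u_{i+1} log x) ≤ ∑ b l/l ≤ (L(x^{u_{i+1}}) - L(x^{u_i}))/(u_i log x)`, and `L(x^{u_i})/log x → u_i`. So every limit point of the sum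
over `(x^u, x^v]` lies in `[K (1 - 1/r), K (r - 1)]`. As `K → ∞` both ends tend to `log(v/u)` (`1 - 1/r ≤ log r ≤ r - 1`, `K log r = log(v/u)`, and `K (r - 1) - K (1 - 1/r) = K (r-1)²/r ≤ K (r - 1)^2`,
`r - 1 ≤ (v/u) log r`..., so the difference is `O(1/K)`). -/
def S_Ps : Prop :=
  ∀ b : ℕ → ℝ, (∀ l, 0 ≤ b l) →
    Tendsto (fun n : ℕ => (∑ l ∈ (Icc 1 n).filter Nat.Prime, b l * Real.log l / l) / Real.log n) atTop (𝓝 1) →
    ∀ u v : ℝ, 0 < u → u < v →
      Tendsto (fun x : ℝ => ∑ l ∈ prs (x ^ u) (x ^ v), b l / l) atTop (𝓝 (Real.log (v / u)))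

/-- **Up** (150 lines). Uses: `S_Rtb`, `S_Deg`, `S_Rtk`. Imports also `Pool.Agent.Lib.MP_706923_co.Zeta` (namespace
`Pool.Agent.Lib.MP_706923_co.ZetaAux`: `an`, `bn`, `near_one`, `prod_le`; `an K n = ai K n` by definition). Upper bound for the sum of rt(l)/l.

Proof. `near_one`: `Z(s) := ∑' n, bn K (1+s) n ≤ C1/s` for `0 < s ≤ s1`. Let `z ≥ 3` be large, `s = 1/log z ≤ s1`. `B` = the (finite) set of the ideals whose norm is a prime `l`, `w1 < l ≤ z`; they are prime elements. `prod_le`: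
`∏_{I ∈ B} (1 + N(I)^(-1-s)) ≤ Z(s) ≤ C1 log z`, i.e. `∑_{w1 < l ≤ z} rt(l) log(1 + l^(-1-s)) ≤ loglog z + log C1` (Rtk; each `l` gives `ai K l = rt l` ideals). `log(1 + t) ≥ t - t²` and `∑ rt(l)/l² ≤ 2d`:
`∑_{w1 < l ≤ z} rt(l) l^(-1-s) ≤ loglog z + C2`. `l^(-1) - l^(-1-s) = l^(-1)(1 - exp(-s log l)) ≤ s log l/l`, and `∑_{l ≤ z} log l/l ≤ C3 log z` for `z ≥ 3` (e.g. from Chebyshev, or from the crude `∑_{l ≤ z} log l/l ≤
log z ∑..`: use `∑_{l ≤ n} log l/l ≤ (1/n) ∑_{l ≤ n} log l (⌊n/l⌋ + 1) ≤ (1/n)(log n! + n log 4) ≤ log n + 2`), so `∑ rt(l)(l^(-1) - l^(-1-s)) ≤ d s C3 log z = d C3`. The finitely many `l ≤ w1` and the bounded range of small `z` only change the constant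
(`loglog z ≥ loglog 3 > 0`). -/
def S_Up : Prop :=
  ∀ (d : ℕ) (k : ℤ), 1 ≤ d → Irreducible (Polynomial.X ^ d + Polynomial.C (k : ℚ)) →
    ∃ C : ℝ, ∀ z : ℝ, 3 ≤ z → ∑ l ∈ prs 1 z, (rt d k l : ℝ) / l ≤ Real.log (Real.log z) + C

/-- **Irr** (60 lines). Uses: nothing. Capelli for odd d.

Proof. Mathlib `X_pow_sub_C_irreducible_iff_of_odd` (`Mathlib/FieldTheory/KummerExtension`) with `a = -k`: `X^d + C k = X^d - C (-k)` is irreducible over `ℚ` iff for every prime (or divisor) `e ∣ d`, `e ≠ 1`, `-k` is not an `e`-th power of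
a rational number. If `b^e = -k` with `b ∈ ℚ` then `b` is an integer (`b` is integral over `ℤ`, or `Rat` numerator/denominator: `b.den^e ∣ b.num^e`), `e` is odd as a divisor of the odd `d`, so `(-b)^e = k`,
contradiction. -/
def S_Irr : Prop :=
  ∀ (d : ℕ) (k : ℤ), 1 < d → Odd d → (∀ e : ℕ, 1 < e → e ∣ d → ¬ ∃ m : ℤ, m ^ e = k) →
    Irreducible (Polynomial.X ^ d + Polynomial.C (k : ℚ))

/-! ### The standing data -/

/-- The standing data: the primes up to `w` are removed by the congruence `n ≡ a mod primorial w`. -/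
structure Dat (d : ℕ) (k : ℤ) (w a : ℕ) : Prop where
  hd : 3 ≤ d
  hkw : k.natAbs < w
  hk0 : k ≠ 0
  hdw : 4 * d + 4 ≤ w
  ca : a.Coprime (primorial w)
  cf : Int.gcd (fv d k a) (primorial w) = 1
  ne : ∀ n : ℕ, fv d k n ≠ 0
  rd : ∀ l : ℕ, l.Prime → rt d k l ≤ d
  blk : ∀ t : ℕ, ∑ l ∈ (Ioc (Nat.sqrt t) t).filter (fun l => l.Prime ∧ w < l),
    ((rt d k l : ℝ) + 1) / ((l : ℝ) - 1) ≤ 3
  win : ∀ u v : ℝ, 0 < u → u < v →
    Tendsto (fun x : ℝ => ∑ l ∈ prs (x ^ u) (x ^ v), (rt d k l : ℝ) / l) atTop (𝓝 (Real.log (v / u)))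
  up : ∃ C : ℝ, ∀ z : ℝ, 3 ≤ z → ∑ l ∈ prs 1 z, (rt d k l : ℝ) / l ≤ Real.log (Real.log z) + C

/-- **Dex** (150 lines). Uses: `S_Rtb`, `S_Lan`, `S_Ps`, `S_Up`, `S_Irr`. Imports also `Pool.Agent.Lib.MP_9f2731_nt.BT.Mert` (`BT.tMert`: the sum of 1/p over
z < p ≤ z² is at most log 2 + ε for z ≥ z₀(ε); see `Lib/BV/Msb.lean` for its use). Existence of the data.

Proof. `win` = Ps with `b l = rt d k l` and Lan (Irr). `up` = Up. `rd` = Rtb (1). `ne`: a zero `n` of `X^d + k` contradicts the irreducibility (degree `d ≥ 3`), or `k = (-n)^d` is a `d`-th power (d odd). `k ≠ 0` similarly (`0 = 0^d`).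
`w` large: for `t ≥ w` the sum of `rt l/l` over `Nat.sqrt t < l ≤ t` is `≤ 1` (win with `u = 1/2, v = 1` at `x = t`, limit `log 2 < 1`; `Nat.sqrt t < l` iff `√t < l`) and the sum of `1/l` is `≤ 1` (tMert); `l/(l-1) ≤ 5/4`, so the sum in `blk` is
`≤ 5/2` for `t ≥ w`; for `t ≤ w` it is empty. `a`: for every prime `l ≤ w` let `a_l = 1` if `l` does not divide `1 + k`, else `a_l = -1` (then `l ∤ -1 + k`, because `l ∣ 1 + k` and `l ∣ k - 1` give `l ∣ 2`, `l = 2`, but `1 + k` is odd);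
`a_l^d = a_l` (d odd). Chinese remainder (`Nat.chineseRemainderOfFinset` or: induction) gives `a ≡ a_l mod l` for all `l ≤ w`. Then `l ∤ a`, `l ∤ f(a)` for all primes `l ≤ w`, so `a` and `f(a)` are coprime to `primorial w`
(`Nat.Prime.dvd_primorial_iff`). -/
def S_Dex : Prop :=
  ∀ (d : ℕ) (k : ℤ), 1 < d → Odd d → Even k → (∀ e : ℕ, 1 < e → e ∣ d → ¬ ∃ m : ℤ, m ^ e = k) →
    ∃ w a : ℕ, Dat d k w a

end Pool.Agent.MPdff
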