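import Pool.Agent.Lib.MP_dff12b_nt.SpecS
import Pool.Agent.Lib.EH.Basic

/-!
# MP_dff12b_nt, theorem A, part R: roots of X^d + k, counting in residue classes, primes in classes
(architect helper97)

RULES: as in SpecS. First line of the modules of this part: `import Pool.Agent.Lib.MP_dff12b_nt.SpecR` (plus the
library files named in the docstring), `namespace Pool.Agent.MPdff`.
-/

namespace Pool.Agent.MPdff

open Finset Pool.Agent.Results.MP_00e23e_nt

/-- n^d + k -/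
def fv (d : ℕ) (k : ℤ) (n : ℕ) : ℤ := (n : ℤ) ^ d + k

/-- number of roots of X^d + k modulo m -/
def rt (d : ℕ) (k : ℤ) (m : ℕ) : ℕ := ((range m).filter (fun v => (m : ℤ) ∣ fv d k v)).card

/-- the primes l with u < l ≤ v -/
noncomputable def prs (u v : ℝ) : Finset ℕ := (Icc 1 ⌊v⌋₊).filter (fun l => l.Prime ∧ u < l)

/-- the predicate P is periodic with period M -/
def Per (M : ℕ) (P : ℕ → Prop) : Prop := ∀ n, P (n + M) ↔ P n

/-- **Cp** (60 lines). Uses: nothing. Counting a periodic predicate.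

Proof. Let `c` be the number of `v < M` with `P v`. Every interval of `M` consecutive integers contains exactly `c` elements with
`P` (`Nat.filter_Ico_card_eq_of_periodic`). Write `N = q M + r`, `r < M`: `Icc 1 N` is the union of `q` such intervals and of `r < M`
further integers, among which at most `c` satisfy `P`. So the number is `q c + θ`, `0 ≤ θ ≤ c`, and `N c/M = q c + r c/M` with
`0 ≤ r c/M ≤ c`. -/
def S_Cp : Prop :=
  ∀ (M N : ℕ) (P : ℕ → Prop) [DecidablePred P], 1 ≤ M → Per M P →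
    |(((Icc 1 N).filter P).card : ℝ) - N * ((range M).filter P).card / M| ≤ ((range M).filter P).card

/-- **Crt** (60 lines). Uses: nothing. Chinese remainder theorem.

Proof. `v ↦ (v % M1, v % M2)` is a bijection from the left set to the product (`Nat.chineseRemainder`; for a periodic predicate
`P v ↔ P (v % M)`; injectivity: `Nat.ModEq` mod both, so mod `M1 * M2`, `Nat.modEq_and_modEq_iff_modEq_mul`). -/
def S_Crt : Prop :=
  ∀ (M1 M2 : ℕ) (P1 P2 : ℕ → Prop) [DecidablePred P1] [DecidablePred P2], 1 ≤ M1 → 1 ≤ M2 → M1.Coprime M2 →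
    Per M1 P1 → Per M2 P2 →
    ((range (M1 * M2)).filter (fun v => P1 v ∧ P2 v)).card =
      ((range M1).filter P1).card * ((range M2).filter P2).card

/-- **Crf** (70 lines). Uses: `S_Crt`. Finitely many prime moduli.

Proof. Induction on `S` (`Finset.induction_on`, for all decidability instances): for `S = insert l S'` apply Crt with
`M1 = l`, `M2 = ∏ S'` (coprime: `Nat.Coprime.prod_right`, different primes) and `P2 v = ∀ q ∈ S', P q v`, which has the period `∏ S'`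
because every `P q` has the period `q`, hence every multiple of `q`. -/
def S_Crf : Prop :=
  ∀ (S : Finset ℕ) (P : ℕ → ℕ → Prop) [∀ l, DecidablePred (P l)], (∀ l ∈ S, l.Prime ∧ Per l (P l)) →
    ((range (∏ l ∈ S, l)).filter (fun v => ∀ l ∈ S, P l v)).card = ∏ l ∈ S, ((range l).filter (P l)).card

/-- **Rtb** (100 lines). Uses: nothing. Bounds for the number of roots.

Proof. (1) `v ↦ (v : ZMod l)` maps the set into the roots of `X^d + C k` in the field `ZMod l`, a polynomial of degree `d`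
(`Polynomial.card_roots'`, `X_pow_add_C_ne_zero`), injective on `range l`. (2) `v ↦ v % l` maps the roots mod `l^2` to the roots mod `l`,
injectively: if `v' = v + l t` (as integers) are both roots mod `l^2`, then `f(v') - f(v) ≡ d v^(d-1) l t mod l^2` (binomial theorem,
`(v + l t)^d = v^d + d v^(d-1) l t + l^2 (..)`), so `l ∣ d v^(d-1) t`; `l` does not divide `d` nor `v` (otherwise `l ∣ k`), so `l ∣ t` and
`v ≡ v' mod l^2`, `v = v'` as both are `< l^2`. (3) `l ∣ v f(v)` iff `l ∣ v` or `l ∣ f(v)`; the only `v < l` divisible by `l` is `0`, and `l`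
does not divide `f(0) = k` (`d ≥ 1`). (4) a root `v` is not divisible by `l`, for otherwise `l ∣ k`. -/
def S_Rtb : Prop :=
  ∀ (d : ℕ) (k : ℤ) (l : ℕ), 1 ≤ d → l.Prime →
    rt d k l ≤ d ∧
    (¬ (l : ℤ) ∣ k → ¬ l ∣ d → rt d k (l ^ 2) ≤ d) ∧
    (¬ (l : ℤ) ∣ k → ((range l).filter (fun v => (l : ℤ) ∣ v * fv d k v)).card = 1 + rt d k l) ∧
    (¬ (l : ℤ) ∣ k → ∀ v : ℕ, (l : ℤ) ∣ fv d k v → ¬ l ∣ v)

/-- **Cnt** (120 lines). Uses: `S_Cp`, `S_Crt`, `S_Crf`, `S_Rtb`. The number of n ≤ N in a class mod b0 with prescribed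
divisors of f(n) and of n f(n).

Proof. Crf with `P l v = if l ∈ S then (l : ℤ) ∣ fv d k v else (l : ℤ) ∣ v * fv d k v` on the set `S ∪ T` (periodic mod `l`: `fv d k (v + l) ≡ fv d k v mod l`) and Rtb
(3): the number of classes mod `∏ (S ∪ T)` is `∏_S rt · ∏_T (1 + rt)`. Crt with `M1 = b0` (the class of `a`: one element of `range b0`),
`M2 = ∏ (S ∪ T)` coprime to `b0`. Cp with `M = b0 ∏ (S ∪ T)`: main term `N ∏_S rt ∏_T (1+rt)/(b0 ∏_S l ∏_T l)`. -/
def S_Cnt : Prop :=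
  ∀ (d : ℕ) (k : ℤ) (b0 a N : ℕ) (S T : Finset ℕ), 1 ≤ b0 → 1 ≤ d →
    (∀ l ∈ S ∪ T, l.Prime ∧ ¬ l ∣ b0 ∧ ¬ (l : ℤ) ∣ k) → Disjoint S T →
    |(((Icc 1 N).filter (fun n => n ≡ a [MOD b0] ∧ (∀ l ∈ S, (l : ℤ) ∣ fv d k n) ∧
        ∀ l ∈ T, (l : ℤ) ∣ n * fv d k n)).card : ℝ) -
      (N : ℝ) / b0 * (∏ l ∈ S, (rt d k l : ℝ) / l) * ∏ l ∈ T, (1 + (rt d k l : ℝ)) / l| ≤
      (∏ l ∈ S, (rt d k l : ℝ)) * ∏ l ∈ T, (1 + (rt d k l : ℝ))

/-- **Pc** (120 lines). Uses: `S_Crt`, `S_Crf`, `S_Rtb`. The number of primes p ≤ x in a class mod b0 with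
prescribed divisors of f(p).

Proof. `M = b0 ∏ S`. Crf (with `P l v = (l : ℤ) ∣ fv d k v`) and Crt: the number of `v < M` with `v ≡ a mod b0` and all `l ∈ S` dividing
`f(v)` is `∏ rt` (`rt d k l` is by definition the number of roots in `range l`). These `v` are coprime to `M` (`a` coprime to `b0`; Rtb (4))
and `v ≠ 0` (`b0 ≥ 2`). The primes counted on the left are, according to the class `v = p % M`, the primes `p ≤ x`, `p ≡ v mod M` for these
`v`: the number is `∑_v primeCount x M v = ∑_v (li x/φ(M) + err x M v)`, `|err x M v| ≤ maxErr x M` (`EH.le_maxErr`, in Lib/EH/Basic), and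
`φ(M) = φ(b0) ∏ (l - 1)` (`Nat.totient_mul`, `Nat.totient_prime`; induction on `S`). -/
def S_Pc : Prop :=
  ∀ (d : ℕ) (k : ℤ) (b0 a : ℕ) (x : ℝ) (S : Finset ℕ), 2 ≤ b0 → 1 ≤ d → a.Coprime b0 →
    (∀ l ∈ S, l.Prime ∧ ¬ l ∣ b0 ∧ ¬ (l : ℤ) ∣ k) →
    |(((Icc 1 ⌊x⌋₊).filter (fun p => p.Prime ∧ p ≡ a [MOD b0] ∧ ∀ l ∈ S, (l : ℤ) ∣ fv d k p)).card : ℝ) -
      li x / (b0.totient : ℝ) * ∏ l ∈ S, (rt d k l : ℝ) / ((l : ℝ) - 1)| ≤
      (∏ l ∈ S, (rt d k l : ℝ)) * maxErr x (b0 * ∏ l ∈ S, l)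

/-- **Sqn** (60 lines). Uses: `S_Cp`, `S_Rtb`. Few n with a square divisor of f(n).

Proof. For a prime `q ∈ (u, y]` the number of `n ≤ N` with `q^2 ∣ f(n)` is at most `N rt(q^2)/q^2 + rt(q^2) ≤ d (N/q^2 + 1)` (Cp; Rtb (2)). Sum over
the primes `q` in `(u, y]`: `∑ 1/q^2 ≤ ∑_{m > u} 1/m^2 ≤ 2/u` (telescoping `1/m^2 ≤ 1/(m-1) - 1/m`; `m > u ≥ 2`, `m - 1 ≥ u/2`), and there are at
most `y` primes. -/
def S_Sqn : Prop :=
  ∀ (d : ℕ) (k : ℤ) (N : ℕ) (u y : ℝ), 1 ≤ d → 2 ≤ u → 1 ≤ y →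
    (∀ q : ℕ, q.Prime → u < q → ¬ (q : ℤ) ∣ k ∧ ¬ q ∣ d) →
    (((Icc 1 N).filter (fun n => ∃ q ∈ prs u y, ((q : ℤ) ^ 2) ∣ fv d k n)).card : ℝ) ≤
      d * (2 * N / u + y)

end Pool.Agent.MPdff
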