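import Pool.Agent.Lib.BV.SpecF

/-!
# MP_dff12b_nt, theorem A, part S: the Brun-Hooley sieve in set form (architect helper97)

Theorem A (paper proof: note 3246 of the team notes): for every admissible pair (d, k), all B ≥ 2, J
with log d ≤ B^J there are at least c x/(log x)^2 primes p ≤ x such that p^d + k has at most
d + J + C B prime factors (C absolute).

RULES for all parts. Module X of part S: file `Pool/Agent/Lib/MP_dff12b_nt/X.lean` with first line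
`import Pool.Agent.Lib.MP_dff12b_nt.SpecS` (plus the library files named in the docstring), then
`namespace Pool.Agent.MPdff`, final theorem `theorem tX (h1 : S_Y) (h2 : S_Z) .. : S_X`; the statements
listed under Uses are hypotheses of the theorem, in this order. All other declarations `private`. Never use
congr!. Every module below 60 s. The docstrings contain complete proofs.

A finite set `P` of primes `≤ z` is cut into the blocks `bk P z j`, `j < z` (thresholds `z`, `sqrt z`,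
`sqrt (sqrt z)`, ...; blocks with large `j` are empty). Divisors are represented by subsets `S ⊆ P`.
-/

namespace Pool.Agent.MPdff

open Finset Pool.Agent.Lib.BV

/-- block j of the set P -/
def bk (P : Finset ℕ) (z j : ℕ) : Finset ℕ := P.filter (fun p => thr z (j + 1) < p ∧ p ≤ thr z j)

/-- the truncated Moebius function of block j -/
noncomputable def mu (b j : ℕ) (s : Finset ℕ) : ℝ := if s.card ≤ 2 * (b + j) then (-1 : ℝ) ^ s.card else 0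

/-- upper bound weights -/
noncomputable def lp (P : Finset ℕ) (z b : ℕ) (S : Finset ℕ) : ℝ :=
  ∏ j ∈ range z, mu b j (S ∩ bk P z j)

/-- the weights of the i-th correction term -/
noncomputable def lw (P : Finset ℕ) (z b i : ℕ) (S : Finset ℕ) : ℝ :=
  (if (S ∩ bk P z i).card = 2 * (b + i) + 1 then 1 else 0) *
    ∏ j ∈ (range z).erase i, mu b j (S ∩ bk P z j)

/-- lower bound weights -/
noncomputable def lm (P : Finset ℕ) (z b : ℕ) (S : Finset ℕ) : ℝ :=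
  lp P z b S - ∑ i ∈ range z, lw P z b i S

/-- **Blk** (60 lines). Uses: nothing. The blocks are disjoint and cover P.

Proof. `thr z` is antitone (`Nat.sqrt_le_self`), so the intervals `Ioc (thr z (j+1)) (thr z j)` are disjoint. Cover:
`thr z z ≤ 1`: by induction `thr z j ^ 2 ^ j ≤ z` (`Nat.sqrt_le'`; compare `Lib/BV/Pbs.lean`, where this is proved), and
`2 ^ 2 ^ z > z`. For `p ∈ P`, `2 ≤ p ≤ z = thr z 0`, take the largest `j < z` with `p ≤ thr z j`. -/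
def S_Blk : Prop :=
  ∀ (z : ℕ) (P : Finset ℕ), 2 ≤ z → (∀ p ∈ P, p.Prime ∧ p ≤ z) →
    (∀ i j : ℕ, i ≠ j → Disjoint (bk P z i) (bk P z j)) ∧ (range z).biUnion (bk P z) = P

/-- **Prd** (70 lines). Uses: nothing. Sums over the subsets of a disjoint union.

Proof. Induction on `J`: a subset `S` of `U ∪ B J` (disjoint) is a pair (`S ∩ U`, `S ∩ B J`) (bijection with the product of
the powersets, e.g. `Finset.sum_bij'` or `Finset.sum_product'`), `S ∩ B j = (S ∩ U) ∩ B j` for `j < J`. -/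
def S_Prd : Prop :=
  ∀ (J : ℕ) (B : ℕ → Finset ℕ) (F : ℕ → Finset ℕ → ℝ),
    (∀ i ∈ range J, ∀ j ∈ range J, i ≠ j → Disjoint (B i) (B j)) →
    ∑ S ∈ ((range J).biUnion B).powerset, ∏ j ∈ range J, F j (S ∩ B j) =
      ∏ j ∈ range J, ∑ s ∈ (B j).powerset, F j s

/-- **Exp** (90 lines). Uses: `S_Blk`, `S_Prd`. Expansion of the weights.

Proof. For `S ⊆ P`, `∏ p ∈ S, h p = ∏ j ∈ range z, ∏ p ∈ S ∩ bk P z j, h p` (Blk; `Finset.prod_biUnion`). (1) Prd with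
`F j s = mu b j s * ∏ p ∈ s, h p`; the sum over `(bk P z j).powerset` is the sum over `lowS` because `mu = 0` outside.
(2) Prd with `F j` as before for `j ≠ i` and `F i s = (if s.card = 2(b+i)+1 then 1 else 0) * ∏ p ∈ s, h p`, and
`Finset.mul_prod_erase`; the sum over the powerset of block `i` is the sum over `powersetCard` (`Finset.sum_filter`,
`Finset.powersetCard_eq_filter`). -/
def S_Exp : Prop :=
  ∀ (z b : ℕ) (P : Finset ℕ) (h : ℕ → ℝ), 2 ≤ z → (∀ p ∈ P, p.Prime ∧ p ≤ z) →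
    ∑ S ∈ P.powerset, lp P z b S * ∏ p ∈ S, h p =
      ∏ j ∈ range z, ∑ s ∈ lowS (bk P z j) (2 * (b + j)), (-1 : ℝ) ^ s.card * ∏ p ∈ s, h p ∧
    ∀ i ∈ range z, ∑ S ∈ P.powerset, lw P z b i S * ∏ p ∈ S, h p =
      (∑ s ∈ (bk P z i).powersetCard (2 * (b + i) + 1), ∏ p ∈ s, h p) *
        ∏ j ∈ (range z).erase i,
          ∑ s ∈ lowS (bk P z j) (2 * (b + j)), (-1 : ℝ) ^ s.card * ∏ p ∈ s, h p

/-- **Pt** (80 lines). Uses: `S_Blk`, `S_Exp`. Imports also `Pool.Agent.Lib.BV.Bnf`, `Pool.Agent.Lib.BV.Hly` (theorems `tBnf`,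
`tHly` without hypotheses). The pointwise inequalities; `dvi p N` is 1 if `p ∣ N`, else 0.

Proof. `x j = ∏ p ∈ bk P z j, (1 - dvi p N)`, `y j = ∑ s ∈ lowS .. (-1)^|s| ∏ dvi`, `w j = ∑ s ∈ powersetCard .. ∏ dvi`. `tBnf` with
`R = b + j`: `x ≤ y ≤ x + w`, `0 ≤ x`. `tHly` with `J = z`: `∏ x ≤ ∏ y ≤ ∏ x + ∑ w ∏ y`. `∏ j, x j` is the product over `P` (Blk).
By Exp with `h p = dvi p N` the sums of `lp`, `lw` are `∏ y` and `w i ∏_{j≠i} y j`. -/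
def S_Pt : Prop :=
  ∀ (z b N : ℕ) (P : Finset ℕ), 2 ≤ z → (∀ p ∈ P, p.Prime ∧ p ≤ z) →
    ∑ S ∈ P.powerset, lm P z b S * ∏ p ∈ S, dvi p N ≤ ∏ p ∈ P, (1 - dvi p N) ∧
    ∏ p ∈ P, (1 - dvi p N) ≤ ∑ S ∈ P.powerset, lp P z b S * ∏ p ∈ S, dvi p N

/-- **Mn** (150 lines). Uses: `S_Blk`, `S_Exp`. Imports also `Pool.Agent.Lib.BV.Bnf`, `Pool.Agent.Lib.BV.Esy` (`tBnf`, `tEsy`).
The main terms, `b = 10`.

Proof. `V j = ∏ p ∈ bk P z j, (1 - h p) ≥ 4^(-3)` because `1 - t ≥ 4^(-t)` for `0 ≤ t ≤ 1/2` (concavity; or `exp(-2t)` instead of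
`4^(-t)`, then `exp(-6)`), and the sum of `h` over block `j` is at most `3` (hypothesis with `t = thr z j`,
`thr z (j+1) = Nat.sqrt (thr z j)`). By `tBnf` the truncated sum `y j` satisfies `V j ≤ y j ≤ V j + U j`,
`U j = ∑ s ∈ powersetCard r, ∏ h ≤ 3^r/r!` (`tEsy`; apply it with `x p = if p ∈ P then h p else 0`), `r = 2(b+j)+1`. `(3 e²)^r/r! ≤ exp(3 e²)`
(`Real.pow_div_factorial_le_exp`), so `U j ≤ exp(23 - 2 r)`, `u j = U j/V j ≤ exp(29 - 2r) = exp(27 - 4 (b + j))`. With `b = 10`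
`∑_j u j ≤ 2 exp(-13) ≤ 1/4`. Now `∏ y ≤ ∏ V ∏ (1 + u) ≤ exp(1/4) ∏ V ≤ 2 ∏ V` and `∏ y - ∑_i U i ∏_{j≠i} y j ≥ ∏ y (1 - ∑ u i) ≥ (3/4) ∏ V`
(`U i ≤ u i V i ≤ u i y i`). `∏ V j` is the product over `P` (Blk). Exp gives the two sums. -/
def S_Mn : Prop :=
  ∀ (z : ℕ) (P : Finset ℕ) (h : ℕ → ℝ), 2 ≤ z → (∀ p ∈ P, p.Prime ∧ p ≤ z) →
    (∀ p ∈ P, 0 ≤ h p ∧ h p ≤ 1 / 2) →
    (∀ t : ℕ, ∑ p ∈ P.filter (fun p => Nat.sqrt t < p ∧ p ≤ t), h p ≤ 3) →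
    ∑ S ∈ P.powerset, lp P z 10 S * ∏ p ∈ S, h p ≤ 2 * ∏ p ∈ P, (1 - h p) ∧
    1 / 2 * ∏ p ∈ P, (1 - h p) ≤ ∑ S ∈ P.powerset, lm P z 10 S * ∏ p ∈ S, h p

/-- **Sp** (120 lines). Uses: `S_Blk`. Imports also `Pool.Agent.Lib.BV.Pbs`, `Pool.Agent.Lib.BV.Lvl` (`tLvl tPbs`). Size and support.

Proof. `|mu| ≤ 1`, so `|lp| ≤ 1`. If `lp S ≠ 0` then all blocks have `|S ∩ bk j| ≤ 2(b+j)` and all `lw i S = 0`, so `lm = lp`. If
`lp S = 0`, some `j0 < z` has `|S ∩ bk j0| > 2(b+j0)`, so `lw i S = 0` for `i ≠ j0` and `|lm S| ≤ |lw j0 S| ≤ 1`. In all cases where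
`lp S ≠ 0` or `lm S ≠ 0`: `|S ∩ bk j| ≤ 2(b+j)+1` for all `j < z`, so (Blk, the elements of block `j` are `≤ thr z j`, and
`1 ≤ thr z j` if block `j` is not empty; if it is empty its factor is `1`, use `max 1 (thr z j)`, but `thr z j ≥ 1` always for
`z ≥ 1`) `∏ p ∈ S, p ≤ ∏ j ∈ range z, (thr z j)^(2(b+j)+1) ≤ z^(4b+6)` (`LvlStmt`). -/
def S_Sp : Prop :=
  ∀ (z b : ℕ) (P S : Finset ℕ), 2 ≤ z → (∀ p ∈ P, p.Prime ∧ p ≤ z) → S ⊆ P →
    |lp P z b S| ≤ 1 ∧ |lm P z b S| ≤ 1 ∧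
      ((lp P z b S ≠ 0 ∨ lm P z b S ≠ 0) → ∏ p ∈ S, p ≤ z ^ (4 * b + 6))

/-- **Sv** (50 lines). Uses: `S_Pt`, `S_Mn`, `S_Sp`. The sieve with level `z ^ 46`.

Proof. `b = 10`, `l⁺ = lp P z 10`, `l⁻ = lm P z 10`; `∏ p ∈ P, (1 - dvi p N)` is 1 if no `p ∈ P` divides `N` and 0 otherwise, and
`∏ p ∈ S, dvi p N` is 1 if all `p ∈ S` divide `N` and 0 otherwise. -/
def S_Sv : Prop :=
  ∀ (z : ℕ) (P : Finset ℕ), 2 ≤ z → (∀ p ∈ P, p.Prime ∧ p ≤ z) → ∃ lu ll : Finset ℕ → ℝ,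
    (∀ S ⊆ P, |lu S| ≤ 1 ∧ |ll S| ≤ 1 ∧ ((lu S ≠ 0 ∨ ll S ≠ 0) → ∏ p ∈ S, p ≤ z ^ 46)) ∧
    (∀ N : ℕ, ∑ S ∈ P.powerset.filter (fun S => ∀ p ∈ S, p ∣ N), ll S ≤
        (if ∀ p ∈ P, ¬ p ∣ N then (1 : ℝ) else 0) ∧
      (if ∀ p ∈ P, ¬ p ∣ N then (1 : ℝ) else 0) ≤
        ∑ S ∈ P.powerset.filter (fun S => ∀ p ∈ S, p ∣ N), lu S) ∧
    (∀ h : ℕ → ℝ, (∀ p ∈ P, 0 ≤ h p ∧ h p ≤ 1 / 2) →
      (∀ t : ℕ, ∑ p ∈ P.filter (fun p => Nat.sqrt t < p ∧ p ≤ t), h p ≤ 3) →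
      ∑ S ∈ P.powerset, lu S * ∏ p ∈ S, h p ≤ 2 * ∏ p ∈ P, (1 - h p) ∧
      1 / 2 * ∏ p ∈ P, (1 - h p) ≤ ∑ S ∈ P.powerset, ll S * ∏ p ∈ S, h p)

end Pool.Agent.MPdff
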