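import Pool.Agent.Lib.MP_dff12b_nt.SpecG

/-!
# MP_dff12b_nt, theorem A, part V: GROWING windows (architect helper59, after helper97)

Theorem A': for every admissible pair (d, k) there are at least c x/(log x)^2 primes p ≤ x such that p^d + k has
at most d + log_2(2 + loglog d) + C prime factors (C absolute), all larger than x^δ.

RULES: as in SpecS. Files `Pool/Agent/Lib/MP_dff12b_nt/V/X.lean`, first line
`import Pool.Agent.Lib.MP_dff12b_nt.SpecV`, namespace `Pool.Agent.MPdff.V`, final theorem `tX`.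
The definitions `er, fam, Dv, Vx, Xx, lo, hi, Yp, rt, prs, fv, Dat` and the statements
`S_Fam, S_Wh, S_Vra, S_Vlo, S_Lwa, S_Upa, S_Upd, S_Wt, S_Sqn, S_Dex` are those of the parts S, R, L, G
(inside the namespace `Pool.Agent.MPdff.V` they are visible). All other notions are new here: the windows have the
variable logarithmic lengths `b 0, b 1, ..` (all ≥ 2) instead of the constant B.

`bs b i = b 0 + .. + b (i-1)`, `bp b i = b 0 .. b (i-1)`, `bt b J = ∑_{i<J} b i/bp b i`, `be b i = exp(-bs b i)/400`,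
`wn b x i` = primes in `(x^(be b (i+1)), x^(be b i)]`. For the constant sequence B these are `B i`, `B^i`, .. of part G.
-/

namespace Pool.Agent.MPdff.V

open Finset Filter Topology Pool.Agent.Results.MP_00e23e_nt

noncomputable def bs (b : ℕ → ℝ) (i : ℕ) : ℝ := ∑ j ∈ range i, b j

noncomputable def bp (b : ℕ → ℝ) (i : ℕ) : ℝ := ∏ j ∈ range i, b j

noncomputable def bt (b : ℕ → ℝ) (J : ℕ) : ℝ := ∑ i ∈ range J, b i / bp b i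

noncomputable def be (b : ℕ → ℝ) (i : ℕ) : ℝ := Real.exp (-(bs b i)) / 400

noncomputable def wn (b : ℕ → ℝ) (x : ℝ) (i : ℕ) : Finset ℕ := prs (x ^ be b (i + 1)) (x ^ be b i)

open Classical in
noncomputable def Gs (d : ℕ) (k : ℤ) (w a : ℕ) (b : ℕ → ℝ) (J : ℕ) (x : ℝ) : Finset ℕ :=
  (Icc 1 ⌊x⌋₊).filter (fun p => p.Prime ∧ Real.sqrt x < p ∧ p ≡ a [MOD primorial w] ∧
    Dv d k w (x ^ ((1 : ℝ) / 400)) p ∈ fam J (wn b x) (fun _ => True))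

/-- the windows cut at x^e -/
noncomputable def wc (b : ℕ → ℝ) (x e : ℝ) (i : ℕ) : Finset ℕ := (wn b x i).filter (fun l => (l : ℝ) ≤ x ^ e)

/-- limit factors -/
noncomputable def El (b : ℕ → ℝ) (r i : ℕ) : ℝ :=
  if be b i ≤ er r then b i else if be b (i + 1) ≤ er r then 1 + b i else 1

/-! ### Generalities -/

/-- **Wdj** (30 lines). Uses: nothing. The windows are disjoint, for x ≥ 1: `be b` is antitone, so for `i < j` the elements of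
window `j` are `≤ x^(be b j) ≤ x^(be b (i+1)) <` the elements of window `i`. -/
def S_Wdj : Prop :=
  ∀ (b : ℕ → ℝ) (x : ℝ) (i j : ℕ), (∀ i, 2 ≤ b i) → 1 ≤ x → i ≠ j → Disjoint (wn b x i) (wn b x j)

/-- **Fpr** (120 lines). Uses: `S_Wdj`. Products over the sets of the families, number of the sets.

Proof. As `MPdff.S_Fpr`: let `S ∈ fam J (wc b x e) t`: at most one element in each `wc b x e i`, `i < J`, so `∏ S = ∏ over the i with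
S ∩ wc i ≠ ∅` of one element `≤ x^(min(be b i, e))`. If `wc b x e i ≠ ∅` then `be b (i+1) < e` (an element `l` has `x^(be b (i+1)) < l ≤ x^e`).
Let `i1` be the least such `i`. The exponents are `≤ e` for `i = i1` and for `i > i1`: `be b i = be b (i1+1) exp(-(b (i1+1) + .. + b (i-1)))
< e exp(-2 (i - i1 - 1))`; `∑_{m ≥ 0} exp(-2m) ≤ 2`, so the total exponent is `≤ 3e`. (2) `S ↦ ∏ S` is injective on sets of primes
with values in `Icc 1 ⌊x^(3e)⌋₊`. (3) for `e = 1/400 = be b 0` the cut windows are the windows. -/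
def S_Fpr : Prop :=
  ∀ (b : ℕ → ℝ) (x e : ℝ) (J : ℕ) (t : ℕ → Prop), (∀ i, 2 ≤ b i) → 1 ≤ x → 0 < e →
    (∀ S ∈ fam J (wc b x e) t, (∀ l ∈ S, l.Prime) ∧ ((∏ l ∈ S, l : ℕ) : ℝ) ≤ x ^ (3 * e)) ∧
    ((fam J (wc b x e) t).card : ℝ) ≤ x ^ (3 * e) ∧
    ∀ i, wc b x (1 / 400) i = wn b x i

/-! ### Lower bound -/

/-- **Lwb** (270 lines; copy of `Lwb.lean`). Uses: `S_Wt`, `S_Fam`, `S_Wdj`, `S_Fpr`, `S_Lwa`. -/
def S_Lwb : Prop :=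
  ∀ (d : ℕ) (k : ℤ) (w a : ℕ), Dat d k w a → ∀ (b : ℕ → ℝ) (J : ℕ), (∀ i, 2 ≤ b i) → ∀ᶠ x : ℝ in atTop,
    li x / ((primorial w).totient : ℝ) * (1 / 2 * Vx d k w (1 / 400) x) *
        (∏ i ∈ range J, ∑ l ∈ wn b x i, (rt d k l : ℝ) / ((l : ℝ) - 1)) -
      x / (Real.log x) ^ 4 ≤ ((Gs d k w a b J x).card : ℝ) + Real.sqrt x

/-- **Lwc** (100 lines). Uses: `S_Wh`, `S_Vlo`, `S_Lwb`. The lower bound for |G|.

Proof. As `MPdff.S_Lwc`: the window sums tend to `log(be b i/be b (i+1)) = b i`, so their product is `≥ bp b J/2` eventually. -/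
def S_Lwc : Prop :=
  ∀ (d : ℕ) (k : ℤ) (w a : ℕ), Dat d k w a → ∀ (b : ℕ → ℝ) (J : ℕ), (∀ i, 2 ≤ b i) → ∀ᶠ x : ℝ in atTop,
    1 / 8 * (Xx w x * bp b J * Vx d k w (1 / 400) x) ≤ ((Gs d k w a b J x).card : ℝ)

/-! ### Upper bound -/

/-- **Upb** (150 lines). Uses: nothing. From the primes p in G to pairs (S, q). Proof: as `MPdff.S_Upb`. -/
def S_Upb : Prop :=
  ∀ (d : ℕ) (k : ℤ) (w a : ℕ), Dat d k w a → ∀ (b : ℕ → ℝ) (J : ℕ) (x e u v : ℝ), (∀ i, 2 ≤ b i) → 1 ≤ x →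
    0 < e → e ≤ 1 / 400 → (w : ℝ) ≤ x ^ be b J →
    ∑ p ∈ Gs d k w a b J x, (((prs (x ^ u) (x ^ v)).filter (fun q : ℕ => (q : ℤ) ∣ fv d k p)).card : ℝ) ≤
      ∑ q ∈ prs (x ^ u) (x ^ v), ∑ S ∈ fam J (wc b x e) (fun i => be b i ≤ e),
        (((Icc 1 ⌊x⌋₊).filter (fun n => n ≡ a [MOD primorial w] ∧
          (∀ l ∈ insert q S, (l : ℤ) ∣ fv d k n) ∧
          ∀ l ∈ prs w (x ^ e) \ S, ¬ (l : ℤ) ∣ n * fv d k n)).card : ℝ)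

open Classical in
/-- **Upc** (130 lines). Uses: `S_Fam`, `S_Wdj`, `S_Fpr`, `S_Upa`, `S_Upb`. The sum for one range of q. Proof: as
`MPdff.S_Upc` (copy of `Upc.lean`). -/
def S_Upc : Prop :=
  ∀ (d : ℕ) (k : ℤ) (w a : ℕ), Dat d k w a → ∀ (b : ℕ → ℝ) (J : ℕ) (x e u v : ℝ), (∀ i, 2 ≤ b i) → 1 ≤ x →
    0 < e → e ≤ 1 / 400 → (w : ℝ) ≤ x ^ be b J → 2 ≤ x ^ e → 1 / 400 ≤ u → u ≤ v →
    ∑ p ∈ Gs d k w a b J x, (((prs (x ^ u) (x ^ v)).filter (fun q : ℕ => (q : ℤ) ∣ fv d k p)).card : ℝ) ≤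
      2 * (x / primorial w) * (∑ q ∈ prs (x ^ u) (x ^ v), (rt d k q : ℝ) / q) *
          (∏ l ∈ prs w (x ^ e), (1 - (1 + (rt d k l : ℝ)) / l)) *
          (∏ i ∈ range J, if be b i ≤ e then ∑ l ∈ wc b x e i, (rt d k l : ℝ) / ((l : ℝ) - 1 - rt d k l)
            else 1 + ∑ l ∈ wc b x e i, (rt d k l : ℝ) / ((l : ℝ) - 1 - rt d k l)) +
        d * x ^ (v + 98 * e)

open Classical in
/-- **Upe** (120 lines). Uses: `S_Wh`. Limits of the window factors. Proof: as `MPdff.S_Upe` (copy of `Upe.lean`),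
`log(be b i/be b (i+1)) = b i`. -/
def S_Upe : Prop :=
  ∀ (d : ℕ) (k : ℤ) (w a : ℕ), Dat d k w a → ∀ (b : ℕ → ℝ) (J r : ℕ), (∀ i, 2 ≤ b i) → ∀ᶠ x : ℝ in atTop,
    0 ≤ (∏ i ∈ range J, if be b i ≤ er r then ∑ l ∈ wc b x (er r) i, (rt d k l : ℝ) / ((l : ℝ) - 1 - rt d k l)
      else 1 + ∑ l ∈ wc b x (er r) i, (rt d k l : ℝ) / ((l : ℝ) - 1 - rt d k l)) ∧
    (∏ i ∈ range J, if be b i ≤ er r then ∑ l ∈ wc b x (er r) i, (rt d k l : ℝ) / ((l : ℝ) - 1 - rt d k l)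
      else 1 + ∑ l ∈ wc b x (er r) i, (rt d k l : ℝ) / ((l : ℝ) - 1 - rt d k l)) ≤
      101 / 100 * ∏ i ∈ range J, El b r i

/-- **Upf** (150 lines). Uses: `S_Vra`, `S_Vlo`, `S_Upc`, `S_Upd`, `S_Upe`. The upper bound for the range T_r. Proof:
as `MPdff.S_Upf` (copy of `Upf.lean`). -/
def S_Upf : Prop :=
  ∀ (d : ℕ) (k : ℤ) (w a : ℕ), Dat d k w a → ∀ (b : ℕ → ℝ) (J r : ℕ), (∀ i, 2 ≤ b i) → ∀ᶠ x : ℝ in atTop,
    ∑ p ∈ Gs d k w a b J x, (((prs (x ^ lo r) (x ^ hi r)).filter (fun q : ℕ => (q : ℤ) ∣ fv d k p)).card : ℝ) ≤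
      6500 * 2 ^ r * (∏ i ∈ range J, El b r i) * (Xx w x * Vx d k w (1 / 400) x)

/-- **Sm** (150 lines). Uses: nothing. The sum of the window factors over r.

Proof. `be b i ≤ er r` iff `r log 2 ≤ bs b i`. Let `i0 = i0(r)` be the least `i` with `r log 2 ≤ bs b i` (`bs b` is strictly increasing and
unbounded; `i0 = 0` iff `r = 0`). `El b r i = b i` for `i ≥ i0`, `= 1 + b i` for `i = i0 - 1`, `= 1` for `i < i0 - 1`. So for `1 ≤ i0 ≤ J`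
`∏_{i<J} El = (1 + b (i0-1)) bp b J/bp b i0`, `= bp b J` if `r = 0`, and `= 1` if `i0 > J`. The number of `r` with `i0(r) = i ≥ 1` is at most
`b (i-1)/log 2 + 1 ≤ 2 b (i-1)` (`r log 2 ∈ (bs b (i-1), bs b i]`). Since `1 + b ≤ (3/2) b` and `bp b i = bp b (i-1) b (i-1)`, the sum over `r` with
`1 ≤ i0(r) ≤ J` is at most `∑_{i=1}^J 2 b (i-1) (3/2) b (i-1) bp b J/bp b i = 3 bt b J bp b J`. Finally `Nat.log 2 d + 1 ≤ 2.5 bp b J`: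
`R ≤ log d/log 2 ≤ 1.45 bp b J` and `1 ≤ log d ≤ bp b J`. -/
def S_Sm : Prop :=
  ∀ (b : ℕ → ℝ) (J d : ℕ), (∀ i, 2 ≤ b i) → 3 ≤ d → Real.log d ≤ bp b J →
    ∑ r ∈ range (Nat.log 2 d + 1), ∏ i ∈ range J, El b r i ≤ (7 / 2 + 3 * bt b J) * bp b J

/-- **Yb** (130 lines). Uses: `S_Lwc`, `S_Upf`, `S_Sm`. The average of Y over G. Proof: as `MPdff.S_Yb`:
`6500 (7/2 + 3 bt) bp Xx Vx ≤ 52000 (7/2 + 3 bt) |Gs|`. -/
def S_Yb : Prop :=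
  ∀ (d : ℕ) (k : ℤ) (w a : ℕ), Dat d k w a → ∀ (b : ℕ → ℝ) (J : ℕ), (∀ i, 2 ≤ b i) → Real.log d ≤ bp b J →
    ∀ᶠ x : ℝ in atTop,
      ∑ p ∈ Gs d k w a b J x, Yp d k x p ≤ 52000 * (7 / 2 + 3 * bt b J) * ((Gs d k w a b J x).card : ℝ)

/-! ### Conclusion -/

/-- **Om** (230 lines). Uses: nothing. The number of prime factors of f(p), p ∈ G. Proof: as `MPdff.S_Om` (copy of `Om.lean`). -/
def S_Om : Prop :=
  ∀ (d : ℕ) (k : ℤ) (w a : ℕ), Dat d k w a → ∀ (b : ℕ → ℝ) (J : ℕ) (x : ℝ) (p n : ℕ), (∀ i, 2 ≤ b i) → 2 ≤ x →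
    (w : ℝ) ≤ x ^ be b J → p ∈ Gs d k w a b J x → 0 < n → (n : ℤ) = fv d k p →
    (¬ ∃ q ∈ prs (x ^ be b J) (x ^ (1 - 1 / (d : ℝ))), ((q : ℤ) ^ 2) ∣ fv d k p) →
    (ArithmeticFunction.cardFactors n : ℝ) ≤
      J + Yp d k x p + Real.log n / ((1 - 1 / (d : ℝ)) * Real.log x) ∧
    ∀ q : ℕ, q.Prime → q ∣ n → x ^ be b J < q

/-- **Fin** (150 lines). Uses: `S_Sqn`, `S_Vlo`, `S_Lwc`, `S_Yb`, `S_Om`. The theorem for given data. Proof: as `MPdff.S_Fin`: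
at least `|G|/2` of the `p ∈ G` have `Yp ≤ 104000 (7/2 + 3 bt)` (Markov), and for these
`Ω(n) ≤ J + 104000 (7/2 + 3 bt) + d + 2 ≤ d + J + 400000 (1 + bt)`. -/
def S_Fin : Prop :=
  ∀ (d : ℕ) (k : ℤ) (w a : ℕ), Dat d k w a → ∀ (b : ℕ → ℝ) (J : ℕ), (∀ i, 2 ≤ b i) → Real.log d ≤ bp b J →
    ∃ c x0 : ℝ, 0 < c ∧ ∀ x : ℝ, x0 ≤ x → ∃ F : Finset ℕ, c * x / (Real.log x) ^ 2 ≤ (F.card : ℝ) ∧
      ∀ p ∈ F, p.Prime ∧ (p : ℝ) ≤ x ∧ ∃ n : ℕ, 0 < n ∧ (n : ℤ) = (p : ℤ) ^ d + k ∧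
        (ArithmeticFunction.cardFactors n : ℝ) ≤ d + J + 400000 * (1 + bt b J) ∧
        ∀ q : ℕ, q.Prime → q ∣ n → x ^ (Real.exp (-(bs b J)) / 400) < q

/-- **Opt** (100 lines). Uses: nothing. Choice of the windows: `b 0 = 64`, `b i = 2^(3·2^(i-1)+1)` for `i ≥ 1`.

Proof. `bp b i = 2^(3·2^(i-1)+i+2)` for `i ≥ 1` (induction: `bp b 1 = 64 = 2^6`; the exponents add up:
`3·2^(i-1)+i+2 + 3·2^(i-1)+1 = 3·2^i+(i+1)+2`). So `b 0/bp b 0 = 64` and `b i/bp b i = 2^(-i-1)` for `i ≥ 1`, `bt b J ≤ 65`. Let `J` be the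
least `J ≥ 1` with `log d ≤ bp b J`, `L = loglog d > 0`. If `J = 1` the bound is clear (`log(2 + L) ≥ 0`). If `J ≥ 2` then
`bp b (J-1) < log d`, so `L > (3·2^(J-2)+J+1) log 2 ≥ (3/2) log 2 · 2^(J-1) ≥ 2^(J-1)`, and `J - 1 ≤ log L/log 2`. -/
def S_Opt : Prop :=
  ∀ d : ℕ, 3 ≤ d → ∃ (b : ℕ → ℝ) (J : ℕ), (∀ i, 2 ≤ b i) ∧ Real.log d ≤ bp b J ∧ bt b J ≤ 65 ∧
    (J : ℝ) ≤ 1 + Real.log (2 + Real.log (Real.log d)) / Real.log 2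

/-- **Res** (80 lines). Uses: `S_Dex`, `S_Fin`, `S_Opt`. THE THEOREM.

Proof. `c0 = 1/400`, `C = 30000000` (`400000·66 + 1 ≤ C`). -/
def S_Res : Prop :=
  ∃ C c0 : ℝ, 0 < C ∧ 0 < c0 ∧ ∀ d : ℕ, 1 < d → Odd d → ∀ k : ℤ, Even k →
    (∀ e : ℕ, 1 < e → e ∣ d → ¬ ∃ m : ℤ, m ^ e = k) →
    (∀ (b : ℕ → ℝ) (J : ℕ), (∀ i, 2 ≤ b i) → Real.log d ≤ ∏ i ∈ range J, b i →
      ∃ c x0 : ℝ, 0 < c ∧ ∀ x : ℝ, x0 ≤ x →
      c * x / (Real.log x) ^ 2 ≤ (Set.ncard {p : ℕ | p.Prime ∧ (p : ℝ) ≤ x ∧ ∃ n : ℕ, 0 < n ∧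
        (n : ℤ) = (p : ℤ) ^ d + k ∧
        (ArithmeticFunction.cardFactors n : ℝ) ≤
          d + J + C * (1 + ∑ i ∈ range J, b i / ∏ j ∈ range i, b j) ∧
        ∀ q : ℕ, q.Prime → q ∣ n → x ^ (c0 * Real.exp (-(∑ i ∈ range J, b i))) < q} : ℝ)) ∧
    ∃ c x0 δ : ℝ, 0 < c ∧ 0 < δ ∧ ∀ x : ℝ, x0 ≤ x →
      c * x / (Real.log x) ^ 2 ≤ (Set.ncard {p : ℕ | p.Prime ∧ (p : ℝ) ≤ x ∧ ∃ n : ℕ, 0 < n ∧
        (n : ℤ) = (p : ℤ) ^ d + k ∧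
        (ArithmeticFunction.cardFactors n : ℝ) ≤
          d + Real.log (2 + Real.log (Real.log d)) / Real.log 2 + C ∧
        ∀ q : ℕ, q.Prime → q ∣ n → x ^ δ < q} : ℝ)

end Pool.Agent.MPdff.V
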