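import Pool.Agent.Lib.MP_dff12b_nt.SpecG

namespace Pool.Agent.MPdff

open Finset Filter Topology Pool.Agent.Results.MP_00e23e_nt

private theorem upa_mem_prs (u v : ℝ) (l : ℕ) :
    l ∈ prs u v ↔ l.Prime ∧ u < l ∧ (l : ℝ) ≤ v := by
  unfold prs
  rw [mem_filter, mem_Icc]
  constructor
  · rintro ⟨⟨h1, h2⟩, h3, h4⟩
    exact ⟨h3, h4, (Nat.le_floor_iff' (by omega)).1 h2⟩
  · rintro ⟨h3, h4, h5⟩
    exact ⟨⟨h3.one_lt.le, (Nat.le_floor_iff' h3.ne_zero).2 h5⟩, h3, h4⟩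

/-- the facts on primes `l > w` -/
private theorem upa_prime (d : ℕ) (k : ℤ) (w a : ℕ) (hD : Dat d k w a) (l : ℕ) (hl : l.Prime)
    (hw : (w : ℝ) < l) : ¬ l ∣ primorial w ∧ ¬ (l : ℤ) ∣ k ∧ rt d k l ≤ d ∧ 4 * d + 4 ≤ l := by
  have hwl : w < l := by exact_mod_cast hw
  refine ⟨?_, ?_, hD.rd l hl, ?_⟩
  · rw [hl.dvd_primorial_iff]
    omega
  · intro h
    have h1 : l ∣ k.natAbs := Int.natCast_dvd.1 h
    have h2 : l ≤ k.natAbs := Nat.le_of_dvd (Int.natAbs_pos.2 hD.hk0) h1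
    have := hD.hkw
    omega
  · have := hD.hdw
    omega

/-- the error sum -/
private theorem upa_err (Z : ℕ) (P : Finset ℕ) (g : ℕ → ℝ) (lu : Finset ℕ → ℝ)
    (hP : ∀ p ∈ P, p.Prime) (hg : ∀ p ∈ P, 0 ≤ g p ∧ g p ≤ p)
    (hl : ∀ S ⊆ P, |lu S| ≤ 1) (hs : ∀ S ⊆ P, lu S ≠ 0 → ∏ p ∈ S, p ≤ Z) :
    ∑ T ∈ P.powerset, |lu T| * ∏ p ∈ T, g p ≤ (Z : ℝ) * Z := by
  classical
  have h1 : ∑ T ∈ P.powerset, |lu T| * ∏ p ∈ T, g p =
      ∑ T ∈ P.powerset.filter (fun T => lu T ≠ 0), |lu T| * ∏ p ∈ T, g p := by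
    symm
    apply sum_filter_of_ne
    intro T _ h hlu
    rw [hlu] at h
    simp at h
  rw [h1]
  have h2 : ∀ T ∈ P.powerset.filter (fun T => lu T ≠ 0), |lu T| * ∏ p ∈ T, g p ≤ (Z : ℝ) := by
    intro T hT
    rw [mem_filter, mem_powerset] at hT
    obtain ⟨hTP, hT0⟩ := hT
    have e1 : ∏ p ∈ T, g p ≤ (Z : ℝ) := by
      calc ∏ p ∈ T, g p ≤ ∏ p ∈ T, (p : ℝ) :=
            Finset.prod_le_prod (fun p hp => (hg p (hTP hp)).1) (fun p hp => (hg p (hTP hp)).2)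
        _ = ((∏ p ∈ T, p : ℕ) : ℝ) := by push_cast; rfl
        _ ≤ (Z : ℝ) := by exact_mod_cast hs T hTP hT0
    have e0 : 0 ≤ ∏ p ∈ T, g p := prod_nonneg (fun p hp => (hg p (hTP hp)).1)
    calc |lu T| * ∏ p ∈ T, g p ≤ 1 * ∏ p ∈ T, g p :=
          mul_le_mul_of_nonneg_right (hl T hTP) e0
      _ = ∏ p ∈ T, g p := one_mul _
      _ ≤ Z := e1
  refine (sum_le_card_nsmul _ _ _ h2).trans ?_
  rw [nsmul_eq_mul]
  apply mul_le_mul_of_nonneg_right _ (Nat.cast_nonneg _)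
  have h3 : (P.powerset.filter (fun T => lu T ≠ 0)).card ≤ (Icc 1 Z).card := by
    apply card_le_card_of_injOn (fun T => ∏ p ∈ T, p)
    · intro T hT
      rw [mem_coe, mem_filter, mem_powerset] at hT
      rw [mem_coe, mem_Icc]
      refine ⟨?_, hs T hT.1 hT.2⟩
      exact Nat.one_le_iff_ne_zero.2 (prod_ne_zero_iff.2 (fun p hp => (hP p (hT.1 hp)).ne_zero))
    · intro T hT T' hT' h
      rw [mem_coe, mem_filter, mem_powerset] at hT hT'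
      have h' : ∏ p ∈ T, p = ∏ p ∈ T', p := h
      rw [← Nat.primeFactors_prod (fun p hp => hP p (hT.1 hp)),
        ← Nat.primeFactors_prod (fun p hp => hP p (hT'.1 hp)), h']
  rw [Nat.card_Icc, Nat.add_sub_cancel] at h3
  exact_mod_cast h3

theorem tUpa : S_Cnt → S_Sv → S_Upa := by
  intro hCnt hSv d k w a hD x e S q hx he hS hq hwq hqe
  classical
  set Q := prs w (x ^ e) with hQ
  set P := Q \ S with hP
  set z := ⌊x ^ e⌋₊ with hz
  have hz2 : 2 ≤ z := by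
    apply Nat.le_floor
    exact_mod_cast he
  have hPmem : ∀ p ∈ P, p.Prime ∧ (w : ℝ) < p ∧ (p : ℝ) ≤ x ^ e ∧ p ∉ S := by
    intro p hp
    rw [hP, Finset.mem_sdiff, hQ, upa_mem_prs] at hp
    exact ⟨hp.1.1, hp.1.2.1, hp.1.2.2, hp.2⟩
  have hSmem : ∀ p ∈ S, p.Prime ∧ (w : ℝ) < p ∧ (p : ℝ) ≤ x ^ e := by
    intro p hp
    have := hS hp
    rw [hQ, upa_mem_prs] at this
    exact this
  have hPz : ∀ p ∈ P, p.Prime ∧ p ≤ z := by
    intro p hp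
    exact ⟨(hPmem p hp).1, Nat.le_floor (hPmem p hp).2.2.1⟩
  have hd3 := hD.hd
  obtain ⟨lu, ll, s1, s2, s3⟩ := hSv z P hz2 hPz
  set b0 := primorial w with hb0
  have hb0pos : 1 ≤ b0 := primorial_pos w
  set R := insert q S with hR
  have hqS : q ∉ S := by
    intro h
    have := (hSmem q h).2.2
    linarith
  have hqP : q ∉ P := by
    intro h
    have := (hPmem q h).2.2.1
    linarith
  -- the set of n
  set NN := (Icc 1 ⌊x⌋₊).filter (fun n => n ≡ a [MOD b0] ∧ ∀ l ∈ R, (l : ℤ) ∣ fv d k n) with hNN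
  have hcount : (((Icc 1 ⌊x⌋₊).filter (fun n => n ≡ a [MOD b0] ∧ (∀ l ∈ R, (l : ℤ) ∣ fv d k n) ∧
      ∀ l ∈ P, ¬ (l : ℤ) ∣ n * fv d k n)).card : ℝ) ≤
      ∑ T ∈ P.powerset, lu T * (((Icc 1 ⌊x⌋₊).filter (fun n => n ≡ a [MOD b0] ∧
        (∀ l ∈ R, (l : ℤ) ∣ fv d k n) ∧ ∀ l ∈ T, (l : ℤ) ∣ n * fv d k n)).card : ℝ) := by
    have e1 : (((Icc 1 ⌊x⌋₊).filter (fun n => n ≡ a [MOD b0] ∧ (∀ l ∈ R, (l : ℤ) ∣ fv d k n) ∧
      ∀ l ∈ P, ¬ (l : ℤ) ∣ n * fv d k n)).card : ℝ) =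
        ∑ n ∈ NN, if (∀ l ∈ P, ¬ (l : ℤ) ∣ n * fv d k n) then (1 : ℝ) else 0 := by
      have : (Icc 1 ⌊x⌋₊).filter (fun n => n ≡ a [MOD b0] ∧ (∀ l ∈ R, (l : ℤ) ∣ fv d k n) ∧
        ∀ l ∈ P, ¬ (l : ℤ) ∣ n * fv d k n) =
          NN.filter (fun n => ∀ l ∈ P, ¬ (l : ℤ) ∣ n * fv d k n) := by
        ext n
        simp only [hNN, mem_filter]
        tauto
      rw [this, card_filter]
      push_cast
      rfl
    have e2 : ∀ T : Finset ℕ, (((Icc 1 ⌊x⌋₊).filter (fun n => n ≡ a [MOD b0] ∧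
        (∀ l ∈ R, (l : ℤ) ∣ fv d k n) ∧ ∀ l ∈ T, (l : ℤ) ∣ n * fv d k n)).card : ℝ) =
        ∑ n ∈ NN, if (∀ l ∈ T, (l : ℤ) ∣ n * fv d k n) then (1 : ℝ) else 0 := by
      intro T
      have : (Icc 1 ⌊x⌋₊).filter (fun n => n ≡ a [MOD b0] ∧ (∀ l ∈ R, (l : ℤ) ∣ fv d k n) ∧
        ∀ l ∈ T, (l : ℤ) ∣ n * fv d k n) =
          NN.filter (fun n => ∀ l ∈ T, (l : ℤ) ∣ n * fv d k n) := by
        ext n
        simp only [hNN, mem_filter]
        tauto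
      rw [this, card_filter]
      push_cast
      rfl
    rw [e1]
    simp_rw [e2, mul_sum]
    rw [sum_comm]
    apply sum_le_sum
    intro n _
    have h2 := (s2 ((n : ℤ) * fv d k n).natAbs).2
    have hiff : ∀ l : ℕ, l ∣ ((n : ℤ) * fv d k n).natAbs ↔ (l : ℤ) ∣ n * fv d k n := by
      intro l
      exact Int.natCast_dvd.symm
    simp only [hiff] at h2
    refine h2.trans (le_of_eq ?_)
    rw [sum_filter]
    apply sum_congr rfl
    intro T _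
    split_ifs <;> simp
  -- Cnt for every T
  have hC : ∀ T ∈ P.powerset, lu T * (((Icc 1 ⌊x⌋₊).filter (fun n => n ≡ a [MOD b0] ∧
        (∀ l ∈ R, (l : ℤ) ∣ fv d k n) ∧ ∀ l ∈ T, (l : ℤ) ∣ n * fv d k n)).card : ℝ) ≤
      (⌊x⌋₊ : ℝ) / b0 * (∏ l ∈ R, (rt d k l : ℝ) / l) *
        (lu T * ∏ l ∈ T, (1 + (rt d k l : ℝ)) / l) +
      (∏ l ∈ R, (rt d k l : ℝ)) * (|lu T| * ∏ l ∈ T, (1 + (rt d k l : ℝ))) := by
    intro T hT
    rw [mem_powerset] at hT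
    have h := hCnt d k b0 a ⌊x⌋₊ R T hb0pos (by omega) (by
      intro l hl
      rw [mem_union, hR, mem_insert] at hl
      rcases hl with (rfl | hl) | hl
      · exact ⟨hq, (upa_prime d k w a hD l hq hwq).1, (upa_prime d k w a hD l hq hwq).2.1⟩
      · have h1 := hSmem l hl
        exact ⟨h1.1, (upa_prime d k w a hD l h1.1 h1.2.1).1,
          (upa_prime d k w a hD l h1.1 h1.2.1).2.1⟩
      · have h1 := hPmem l (hT hl)
        exact ⟨h1.1, (upa_prime d k w a hD l h1.1 h1.2.1).1,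
          (upa_prime d k w a hD l h1.1 h1.2.1).2.1⟩) (by
      rw [Finset.disjoint_left]
      intro l hl hlT
      rw [hR, mem_insert] at hl
      rcases hl with rfl | hl
      · exact hqP (hT hlT)
      · exact (hPmem l (hT hlT)).2.2.2 hl)
    set Nc := (((Icc 1 ⌊x⌋₊).filter (fun n => n ≡ a [MOD b0] ∧
        (∀ l ∈ R, (l : ℤ) ∣ fv d k n) ∧ ∀ l ∈ T, (l : ℤ) ∣ n * fv d k n)).card : ℝ) with hNc
    set M := (⌊x⌋₊ : ℝ) / b0 * (∏ l ∈ R, (rt d k l : ℝ) / l) * ∏ l ∈ T, (1 + (rt d k l : ℝ)) / l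
      with hM
    have h2 : lu T * (Nc - M) ≤ |lu T| * ((∏ l ∈ R, (rt d k l : ℝ)) * ∏ l ∈ T, (1 + (rt d k l : ℝ))) := by
      calc lu T * (Nc - M) ≤ |lu T * (Nc - M)| := le_abs_self _
        _ = |lu T| * |Nc - M| := abs_mul _ _
        _ ≤ _ := mul_le_mul_of_nonneg_left h (abs_nonneg _)
    calc lu T * Nc = lu T * M + lu T * (Nc - M) := by ring
      _ ≤ lu T * M + |lu T| * ((∏ l ∈ R, (rt d k l : ℝ)) * ∏ l ∈ T, (1 + (rt d k l : ℝ))) := by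
          linarith
      _ = _ := by rw [hM]; ring
  -- the weights h
  have hh : ∀ p ∈ P, 0 ≤ (1 + (rt d k p : ℝ)) / p ∧ (1 + (rt d k p : ℝ)) / p ≤ 1 / 2 := by
    intro p hp
    obtain ⟨h1, h2, h3, h4⟩ := hPmem p hp
    obtain ⟨_, _, h5, h6⟩ := upa_prime d k w a hD p h1 h2
    have hp0 : (0 : ℝ) < p := by exact_mod_cast h1.pos
    refine ⟨by positivity, ?_⟩
    rw [div_le_iff₀ hp0]
    have h5' : (rt d k p : ℝ) ≤ d := by exact_mod_cast h5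
    have h6' : 4 * (d : ℝ) + 4 ≤ p := by exact_mod_cast h6
    linarith
  have hblk : ∀ t : ℕ, ∑ p ∈ P.filter (fun p => Nat.sqrt t < p ∧ p ≤ t),
      (1 + (rt d k p : ℝ)) / p ≤ 3 := by
    intro t
    refine le_trans ?_ (hD.blk t)
    calc ∑ p ∈ P.filter (fun p => Nat.sqrt t < p ∧ p ≤ t), (1 + (rt d k p : ℝ)) / p
        ≤ ∑ p ∈ P.filter (fun p => Nat.sqrt t < p ∧ p ≤ t), ((rt d k p : ℝ) + 1) / ((p : ℝ) - 1) := by
          apply sum_le_sum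
          intro p hp
          rw [mem_filter] at hp
          have h1 := (hPmem p hp.1).1
          have h2 : (2 : ℝ) ≤ p := by exact_mod_cast h1.two_le
          rw [add_comm (1 : ℝ)]
          apply div_le_div_of_nonneg_left (by positivity) (by linarith) (by linarith)
      _ ≤ _ := by
          apply sum_le_sum_of_subset_of_nonneg
          · intro p hp
            rw [mem_filter] at hp
            rw [mem_filter, Finset.mem_Ioc]
            have h1 := hPmem p hp.1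
            exact ⟨hp.2, h1.1, by exact_mod_cast h1.2.1⟩
          · intro p hp _
            rw [mem_filter] at hp
            have h2 : (2 : ℝ) ≤ p := by exact_mod_cast hp.2.1.two_le
            apply div_nonneg (by positivity) (by linarith)
  have hmain := (s3 (fun p => (1 + (rt d k p : ℝ)) / p) hh hblk).1
  have hPpos : 0 ≤ ∏ p ∈ P, (1 - (1 + (rt d k p : ℝ)) / p) := by
    apply prod_nonneg
    intro p hp
    have := (hh p hp).2
    linarith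
  -- error term
  have herr : ∑ T ∈ P.powerset, |lu T| * ∏ l ∈ T, (1 + (rt d k l : ℝ)) ≤
      ((z ^ 46 : ℕ) : ℝ) * ((z ^ 46 : ℕ) : ℝ) := by
    apply upa_err (z ^ 46) P (fun l => 1 + (rt d k l : ℝ)) lu (fun p hp => (hPmem p hp).1)
    · intro p hp
      obtain ⟨h1, h2, h3, h4⟩ := hPmem p hp
      obtain ⟨_, _, h5, h6⟩ := upa_prime d k w a hD p h1 h2
      have h5' : (rt d k p : ℝ) ≤ d := by exact_mod_cast h5
      have h6' : 4 * (d : ℝ) + 4 ≤ p := by exact_mod_cast h6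
      have hd0 : (0 : ℝ) ≤ d := Nat.cast_nonneg _
      refine ⟨by positivity, ?_⟩
      show 1 + (rt d k p : ℝ) ≤ p
      linarith
    · intro T hT
      exact (s1 T hT).1
    · intro T hT h0
      exact (s1 T hT).2.2 (Or.inl h0)
  have hz92 : ((z ^ 46 : ℕ) : ℝ) * ((z ^ 46 : ℕ) : ℝ) ≤ x ^ (92 * e) := by
    have h1 : (z : ℝ) ≤ x ^ e := Nat.floor_le (by positivity)
    have h2 : x ^ (92 * e) = (x ^ e) ^ (92 : ℕ) := by
      rw [← Real.rpow_natCast, ← Real.rpow_mul (by linarith)]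
      congr 1
      push_cast
      ring
    rw [h2]
    calc ((z ^ 46 : ℕ) : ℝ) * ((z ^ 46 : ℕ) : ℝ) = (z : ℝ) ^ 92 := by push_cast; ring
      _ ≤ (x ^ e) ^ 92 := pow_le_pow_left₀ (Nat.cast_nonneg _) h1 92
  have hRt : ∏ l ∈ R, (rt d k l : ℝ) ≤ d * ((∏ l ∈ S, l : ℕ) : ℝ) := by
    rw [hR, prod_insert hqS]
    have h1 : (rt d k q : ℝ) ≤ d := by exact_mod_cast hD.rd q hq
    have h2 : ∏ l ∈ S, (rt d k l : ℝ) ≤ ((∏ l ∈ S, l : ℕ) : ℝ) := by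
      push_cast
      apply Finset.prod_le_prod (fun l _ => Nat.cast_nonneg _)
      intro l hl
      obtain ⟨h3, h4, _⟩ := hSmem l hl
      obtain ⟨_, _, h5, h6⟩ := upa_prime d k w a hD l h3 h4
      exact_mod_cast (by omega : rt d k l ≤ l)
    exact mul_le_mul h1 h2 (prod_nonneg (fun l _ => Nat.cast_nonneg _)) (Nat.cast_nonneg _)
  have hR0 : 0 ≤ ∏ l ∈ R, (rt d k l : ℝ) := prod_nonneg (fun l _ => Nat.cast_nonneg _)
  have hRl : 0 ≤ ∏ l ∈ R, (rt d k l : ℝ) / l := prod_nonneg (fun l _ => by positivity)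
  have hb0r : (0 : ℝ) < b0 := by exact_mod_cast hb0pos
  refine hcount.trans ((sum_le_sum hC).trans ?_)
  rw [sum_add_distrib, ← mul_sum, ← mul_sum]
  have hxf : (⌊x⌋₊ : ℝ) ≤ x := Nat.floor_le (by linarith)
  have hA : (⌊x⌋₊ : ℝ) / b0 * (∏ l ∈ R, (rt d k l : ℝ) / l) *
      ∑ T ∈ P.powerset, lu T * ∏ l ∈ T, (1 + (rt d k l : ℝ)) / l ≤
      2 * (x / b0) * (∏ l ∈ R, (rt d k l : ℝ) / l) * ∏ l ∈ P, (1 - (1 + (rt d k l : ℝ)) / l) := by
    have c1 : (⌊x⌋₊ : ℝ) / b0 * (∏ l ∈ R, (rt d k l : ℝ) / l) *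
      ∑ T ∈ P.powerset, lu T * ∏ l ∈ T, (1 + (rt d k l : ℝ)) / l ≤
      (⌊x⌋₊ : ℝ) / b0 * (∏ l ∈ R, (rt d k l : ℝ) / l) *
        (2 * ∏ l ∈ P, (1 - (1 + (rt d k l : ℝ)) / l)) :=
      mul_le_mul_of_nonneg_left hmain (by positivity)
    have c2 : (⌊x⌋₊ : ℝ) / b0 ≤ x / b0 := div_le_div_of_nonneg_right hxf hb0r.le
    have c3 : (⌊x⌋₊ : ℝ) / b0 * (∏ l ∈ R, (rt d k l : ℝ) / l) *
        (2 * ∏ l ∈ P, (1 - (1 + (rt d k l : ℝ)) / l)) ≤
        x / b0 * (∏ l ∈ R, (rt d k l : ℝ) / l) *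
        (2 * ∏ l ∈ P, (1 - (1 + (rt d k l : ℝ)) / l)) := by
      apply mul_le_mul_of_nonneg_right _ (by positivity)
      exact mul_le_mul_of_nonneg_right c2 hRl
    refine c1.trans (c3.trans (le_of_eq ?_))
    ring
  have hB : (∏ l ∈ R, (rt d k l : ℝ)) * ∑ T ∈ P.powerset, |lu T| * ∏ l ∈ T, (1 + (rt d k l : ℝ)) ≤
      d * ((∏ l ∈ S, l : ℕ) : ℝ) * x ^ (92 * e) := by
    apply mul_le_mul hRt (herr.trans hz92) _ (by positivity)
    apply sum_nonneg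
    intro T _
    apply mul_nonneg (abs_nonneg _)
    exact prod_nonneg (fun l _ => by positivity)
  exact add_le_add hA hB

end Pool.Agent.MPdff
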