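import Pool.Agent.Lib.MP_dff12b_nt.SpecG

namespace Pool.Agent.MPdff

open Finset Filter Topology Pool.Agent.Results.MP_00e23e_nt

private theorem upb_mem_prs (u v : ℝ) (l : ℕ) :
    l ∈ prs u v ↔ l.Prime ∧ u < l ∧ (l : ℝ) ≤ v := by
  unfold prs
  rw [mem_filter, mem_Icc]
  constructor
  · rintro ⟨⟨h1, h2⟩, h3, h4⟩
    exact ⟨h3, h4, (Nat.le_floor_iff' (by omega)).1 h2⟩
  · rintro ⟨h3, h4, h5⟩
    exact ⟨⟨h3.one_lt.le, (Nat.le_floor_iff' h3.ne_zero).2 h5⟩, h3, h4⟩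

private theorem upb_mem_fam (J : ℕ) (W : ℕ → Finset ℕ) (t : ℕ → Prop) (S : Finset ℕ) :
    S ∈ fam J W t ↔ S ⊆ (range J).biUnion W ∧
      ∀ i ∈ range J, (t i → (S ∩ W i).card = 1) ∧ (S ∩ W i).card ≤ 1 := by
  simp only [fam, Finset.mem_filter, Finset.mem_powerset]

private theorem upb_mem_wc (B x e : ℝ) (i l : ℕ) :
    l ∈ wc B x e i ↔ l ∈ wn B x i ∧ (l : ℝ) ≤ x ^ e := by
  unfold wc
  rw [mem_filter]

private theorem upb_mem_Dv (d : ℕ) (k : ℤ) (w : ℕ) (v : ℝ) (n l : ℕ) :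
    l ∈ Dv d k w v n ↔ (l.Prime ∧ (w : ℝ) < l ∧ (l : ℝ) ≤ v) ∧ (l : ℤ) ∣ fv d k n := by
  unfold Dv
  rw [mem_filter, upb_mem_prs]

private theorem upb_fam (d : ℕ) (k : ℤ) (w : ℕ) (B x e : ℝ) (J p : ℕ) (hx : 1 ≤ x)
    (he : e ≤ 1 / 400) (h : Dv d k w (x ^ ((1 : ℝ) / 400)) p ∈ fam J (wn B x) (fun _ => True)) :
    Dv d k w (x ^ e) p ∈ fam J (wc B x e) (fun i => be B i ≤ e) := by
  rw [upb_mem_fam] at h ⊢
  obtain ⟨h1, h2⟩ := h
  have hle : x ^ e ≤ x ^ ((1 : ℝ) / 400) := Real.rpow_le_rpow_of_exponent_le hx he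
  have hsub : Dv d k w (x ^ e) p ⊆ Dv d k w (x ^ ((1 : ℝ) / 400)) p := by
    intro l hl
    rw [upb_mem_Dv] at hl ⊢
    exact ⟨⟨hl.1.1, hl.1.2.1, hl.1.2.2.trans hle⟩, hl.2⟩
  refine ⟨?_, ?_⟩
  · intro l hl
    have hl' := h1 (hsub hl)
    rw [mem_biUnion] at hl' ⊢
    obtain ⟨i, hi, hli⟩ := hl'
    refine ⟨i, hi, ?_⟩
    rw [upb_mem_wc]
    rw [upb_mem_Dv] at hl
    exact ⟨hli, hl.1.2.2⟩
  · intro i hi
    have hs : Dv d k w (x ^ e) p ∩ wc B x e i ⊆ Dv d k w (x ^ ((1 : ℝ) / 400)) p ∩ wn B x i := by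
      intro l hl
      rw [mem_inter, upb_mem_wc] at hl
      rw [mem_inter]
      exact ⟨hsub hl.1, hl.2.1⟩
    refine ⟨?_, (card_le_card hs).trans (h2 i hi).2⟩
    intro hbe
    have heq : Dv d k w (x ^ e) p ∩ wc B x e i = Dv d k w (x ^ ((1 : ℝ) / 400)) p ∩ wn B x i := by
      apply Subset.antisymm hs
      intro l hl
      rw [mem_inter] at hl
      have hl2 := hl.2
      unfold wn at hl2
      rw [upb_mem_prs] at hl2
      have hlx : (l : ℝ) ≤ x ^ e := hl2.2.2.trans (Real.rpow_le_rpow_of_exponent_le hx hbe)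
      have hl1 := hl.1
      rw [upb_mem_Dv] at hl1
      rw [mem_inter, upb_mem_wc, upb_mem_Dv]
      exact ⟨⟨⟨hl1.1.1, hl1.1.2.1, hlx⟩, hl1.2⟩, hl.2, hlx⟩
    rw [heq]
    exact (h2 i hi).1 trivial

theorem tUpb : S_Upb := by
  intro d k w a hD B J x e u v hB hx he0 he1 hw
  have hcard : ∀ p : ℕ, (((prs (x ^ u) (x ^ v)).filter (fun q : ℕ => (q : ℤ) ∣ fv d k p)).card : ℝ) =
      ∑ q ∈ prs (x ^ u) (x ^ v), if (q : ℤ) ∣ fv d k p then (1 : ℝ) else 0 := by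
    intro p
    rw [card_filter]
    push_cast
    rfl
  simp_rw [hcard]
  rw [sum_comm]
  apply sum_le_sum
  intro q hq
  have hcard2 : ∑ p ∈ Gs d k w a B J x, (if (q : ℤ) ∣ fv d k p then (1 : ℝ) else 0) =
      (((Gs d k w a B J x).filter (fun p : ℕ => (q : ℤ) ∣ fv d k p)).card : ℝ) := by
    rw [card_filter]
    push_cast
    rfl
  rw [hcard2]
  have key : ((Gs d k w a B J x).filter (fun p : ℕ => (q : ℤ) ∣ fv d k p)).card ≤
      ∑ S ∈ fam J (wc B x e) (fun i => be B i ≤ e),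
        ((Icc 1 ⌊x⌋₊).filter (fun n => n ≡ a [MOD primorial w] ∧
          (∀ l ∈ insert q S, (l : ℤ) ∣ fv d k n) ∧
          ∀ l ∈ prs w (x ^ e) \ S, ¬ (l : ℤ) ∣ n * fv d k n)).card := by
    refine le_trans (card_le_card ?_) card_biUnion_le
    intro p hp
    rw [mem_filter] at hp
    obtain ⟨hpG, hqp⟩ := hp
    unfold Gs at hpG
    rw [mem_filter] at hpG
    obtain ⟨hpI, hpp, hpx, hpa, hpD⟩ := hpG
    rw [mem_biUnion]
    refine ⟨Dv d k w (x ^ e) p, upb_fam d k w B x e J p hx he1 hpD, ?_⟩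
    rw [mem_filter]
    refine ⟨hpI, hpa, ?_, ?_⟩
    · intro l hl
      rw [mem_insert] at hl
      rcases hl with rfl | hl
      · exact hqp
      · rw [upb_mem_Dv] at hl
        exact hl.2
    · intro l hl hdvd
      rw [Finset.mem_sdiff, upb_mem_prs, upb_mem_Dv] at hl
      obtain ⟨hl1, hl2⟩ := hl
      have hlp : Prime (l : ℤ) := Nat.prime_iff_prime_int.1 hl1.1
      rcases hlp.dvd_or_dvd hdvd with h | h
      · have h' : l ∣ p := Int.natCast_dvd_natCast.1 h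
        have hlp' : l = p := (Nat.prime_dvd_prime_iff_eq hl1.1 hpp).1 h'
        have h3 : (l : ℝ) ≤ Real.sqrt x := by
          refine hl1.2.2.trans ?_
          rw [Real.sqrt_eq_rpow]
          exact Real.rpow_le_rpow_of_exponent_le hx (by linarith)
        rw [hlp'] at h3
        linarith
      · exact hl2 ⟨hl1, h⟩
  exact_mod_cast key

end Pool.Agent.MPdff
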